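import Pool.Agent.Lib.MP_2900b9_lc.C.AClop

/-!
Module AJMeas: measurability of the local conditions.
-/

set_option autoImplicit false

namespace MP2900

open Set Pool.Agent.Lib.MP_2900b9_lc

open Topology MeasureTheory

private theorem mFz (φ : Fm) (f : List ℕ) (v : ℕ) : Measurable fun z : ℕ → ℕ => Fz z φ f v :=
  measurableSet_setOfPred.1 (clopen_Fz φ f v).2.measurableSet

private theorem mltF (a b : ℕ) : Measurable fun z : ℕ → ℕ => ltF (Fz z) a b := mFz _ _ _

private theorem mMuR (n : ℕ) : ∀ k : ℕ, Measurable fun z : ℕ → ℕ => MuR (ltF (Fz z)) n k := by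
  induction n with
  | zero =>
    intro k
    simp only [MuR]
    exact measurable_const
  | succ n ih =>
    intro k
    simp only [MuR]
    refine Measurable.forall fun a => Measurable.imp (mltF _ _) (Measurable.exists fun b => ?_)
    exact (mltF _ _).and ((mltF _ _).and (ih b))

private theorem mFullR (c : ℕ) (p : List ℕ) (b b' : ℕ) :
    Measurable fun z : ℕ → ℕ => FullR (Fz z) c p b b' := by
  unfold FullR
  refine (mltF _ _).not.and (Measurable.and ?_ ?_)
  · exact Measurable.forall fun x => Measurable.forall fun _ => (mltF _ _).not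
  · refine Measurable.forall fun m => (mltF _ _).imp (Measurable.exists fun φ =>
      Measurable.exists fun s => Measurable.and ?_ ((mFz _ _ _).and ?_))
    · exact Measurable.forall fun x => Measurable.forall fun _ => mltF _ _
    · exact Measurable.forall fun y => (mltF _ _).imp (mFz _ _ _).not

theorem meas_ltF (a b : ℕ) : MeasurableSet {z : ℕ → ℕ | ltF (Fz z) a b} :=
  measurableSet_setOfPred.2 (mltF a b)

theorem meas_MuR (n k : ℕ) : MeasurableSet {z : ℕ → ℕ | MuR (ltF (Fz z)) n k} :=
  measurableSet_setOfPred.2 (mMuR n k)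

theorem meas_JR (c b : ℕ) : MeasurableSet {z : ℕ → ℕ | JR (Fz z) c b} := by
  refine measurableSet_setOfPred.2 ?_
  unfold JR
  refine Measurable.or (Measurable.forall fun m => (mltF _ _).not) ?_
  refine Measurable.exists fun μ => Measurable.exists fun μ' => Measurable.exists fun p => ?_
  refine (mltF _ _).not.and ((mltF _ _).and (Measurable.and ?_ ((mFullR _ _ _ _).and ?_)))
  · exact Measurable.forall fun m => (mltF _ _).imp (mltF _ _).not
  · refine Measurable.forall fun k => (mltF _ _).imp ((mltF _ _).not.imp ?_)
    exact (Measurable.forall fun n => mMuR n k).not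

theorem meas_Bo [TP] : MeasurableSet (Bo : Set (ℕ → ℕ)) := by
  rw [Bo_eq]
  exact MeasurableSet.iInter fun k => (isOpen_BoO k).measurableSet

end MP2900
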