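import Pool.Agent.Lib.MP_2900b9_lc.C.Corr

/-!
Module JRt: the local version `JR` of `JO` is correct.

Let `lt = ltF F`, `ρ = rk lt`, `b'` accessible, an immediate successor of `b` (`lt b b'` and nothing strictly between: `∀ m, lt m b' → ¬ lt b m`), `c` accessible. Then everything below `b'` is accessible, `ρ b' = ρ b + 1` (corr_lt, corr_onto: every `ζ < ρ b'` is some `ρ m`, `lt m b'`, `¬ lt b m` so `ρ m ≤ ρ b`).
* muR_iff: for accessible `k`, `MuR lt n k ↔ MuR (· < ·) n (ρ k)`, induction on `n` (corr_lt, corr_onto).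
* (first alternative) `∀ m, ¬ lt m b` iff `ρ b = 0`.
* (second alternative) Given `μ, μ', p` as in JR: `¬ lt b μ`: is `μ` accessible? `lt μ μ'`; by totality applied to `lt b b'`: `lt b μ ∨ lt μ b'`, so `lt μ b'`, so `μ` is accessible, `ρ μ ≤ ρ b`. `μ'` is accessible: every `m` with `lt m μ'` has `¬ lt μ m`, so (totality on `lt μ b'`: `lt μ m ∨ lt m b'`) `lt m b'`, accessible. `ρ μ' = ρ μ + 1`.
  entries `x` of `p`: `¬ lt μ x` gives `lt x μ'` (totality on `lt μ μ'`: `lt μ x ∨ lt x μ'`). So `FullR F c p μ μ' ↔ Full (ρ c) (p.map ρ) (ρ μ)`: `¬ lt μ c ↔ ρ c ≤ ρ μ` (corr_lt), elements `m` with `lt m μ'` have `ρ m ≤ ρ μ` and all such ordinals occur; `F φ (m :: (s ++ p)) μ'` is by `corr` the statement that all entries are below `μ'` and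
  `Sat (ρ μ + 1) φ (ρ m :: (s.map ρ ++ p.map ρ))`; entries `s` with `lt x c`; the `s` of ordinals `< ρ c` are images. `∀ k, lt μ k → ¬ lt b k → ..`: such `k` has `lt k b'`, accessible with `ρ μ < ρ k ≤ ρ b`, all such ordinals occur.
  Conversely from `μ, p` for ordinals with `μ ≤ ρ b` take preimages below `b'`, and a preimage of `μ + 1 ≤ ρ b + 1 = ρ b'`: if `μ + 1 = ρ b'` take `μ' = b'`.
-/

set_option autoImplicit false

namespace MP2900

open Set Pool.Agent.Lib.MP_2900b9_lc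

variable [TP] {F : Fm → List ℕ → ℕ → Prop}

theorem muR_iff (hF : BoF F) (n : ℕ) {k : ℕ} (hk : Acc (ltF F) k) :
    MuR (ltF F) n k ↔ MuR (· < ·) n (rk (ltF F) k) := by
  induction n generalizing k with
  | zero => exact Iff.rfl
  | succ n ih =>
    constructor
    · intro h a0 ha0
      obtain ⟨a, ha, rfl⟩ := corr_onto hF hk ha0
      obtain ⟨b, hab, hbk, hb⟩ := h a ha
      exact ⟨rk (ltF F) b, (corr_lt hF (hk.inv ha) (hk.inv hbk)).1 hab,
        (corr_lt hF (hk.inv hbk) hk).1 hbk, (ih (hk.inv hbk)).1 hb⟩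
    · intro h a ha
      obtain ⟨β, h1, h2, h3⟩ := h (rk (ltF F) a) ((corr_lt hF (hk.inv ha) hk).1 ha)
      obtain ⟨b, hb, rfl⟩ := corr_onto hF hk h2
      exact ⟨b, (corr_lt hF (hk.inv ha) (hk.inv hb)).2 h1, hb, (ih (hk.inv hb)).2 h3⟩

private theorem jrt_succ (hF : BoF F) {v v' : ℕ} (hv' : Acc (ltF F) v') (h : ltF F v v')
    (hs : ∀ m, ltF F m v' → ¬ ltF F v m) : rk (ltF F) v' = rk (ltF F) v + 1 := by
  have hv : Acc (ltF F) v := hv'.inv h
  apply le_antisymm
  · by_contra hcon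
    rw [not_le] at hcon
    obtain ⟨m, hm, hm1⟩ := corr_onto hF hv' hcon
    refine hs m hm ((corr_lt hF hv (hv'.inv hm)).2 ?_)
    rw [hm1]
    exact Order.lt_add_one_iff.2 le_rfl
  · exact Order.add_one_le_of_lt ((corr_lt hF hv hv').1 h)

private theorem jrt_lift (hF : BoF F) {v : ℕ} (hv : Acc (ltF F) v) (q : List Ordinal.{0})
    (hq : ∀ x ∈ q, x < rk (ltF F) v) :
    ∃ p : List ℕ, (∀ x ∈ p, ltF F x v) ∧ p.map (rk (ltF F)) = q := by
  induction q with
  | nil => exact ⟨[], fun x hx => absurd hx List.not_mem_nil, rfl⟩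
  | cons a q ih =>
    obtain ⟨p, hp, hpq⟩ := ih fun x hx => hq x (List.mem_cons_of_mem _ hx)
    obtain ⟨b, hb, rfl⟩ := corr_onto hF hv (hq a List.mem_cons_self)
    refine ⟨b :: p, ?_, by rw [List.map_cons, hpq]⟩
    intro x hx
    rcases List.mem_cons.1 hx with rfl | hx
    · exact hb
    · exact hp x hx

private theorem jrt_full (hF : BoF F) {c μ μ' : ℕ} {p : List ℕ} (hc : Acc (ltF F) c)
    (hμ' : Acc (ltF F) μ') (hμ : ltF F μ μ') (hs : ∀ m, ltF F m μ' → ¬ ltF F μ m)
    (hp : ∀ x ∈ p, ltF F x μ') :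
    FullR F c p μ μ' ↔ Full (rk (ltF F) c) (p.map (rk (ltF F))) (rk (ltF F) μ) := by
  have hμa : Acc (ltF F) μ := hμ'.inv hμ
  have hsucc := jrt_succ hF hμ' hμ hs
  constructor
  · rintro ⟨h1, -, h3⟩
    refine ⟨?_, ?_, ?_⟩
    · by_contra hcon
      exact h1 ((corr_lt hF hμa hc).2 (not_le.1 hcon))
    · intro x hx
      obtain ⟨y, hy, rfl⟩ := List.mem_map.1 hx
      have h4 := (corr_lt hF (hμ'.inv (hp y hy)) hμ').1 (hp y hy)
      rw [hsucc] at h4
      exact Order.lt_add_one_iff.1 h4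
    · intro ξ hξ
      have h4 : ξ < rk (ltF F) μ' := by
        rw [hsucc]
        exact Order.lt_add_one_iff.2 hξ
      obtain ⟨m, hm, rfl⟩ := corr_onto hF hμ' h4
      obtain ⟨φ, s, hs1, hs2, hs3⟩ := h3 m hm
      obtain ⟨h5, h6⟩ := (corr hF hμ' _ _).1 hs2
      refine ⟨φ, s.map (rk (ltF F)), ?_, ?_, ?_, ?_⟩
      · intro x hx
        obtain ⟨y, hy, rfl⟩ := List.mem_map.1 hx
        exact (corr_lt hF (hc.inv (hs1 y hy)) hc).1 (hs1 y hy)
      · exact Order.lt_add_one_iff.2 hξ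
      · rw [← hsucc, ← List.map_append, ← List.map_cons]
        exact h6
      · intro y hy h7
        obtain ⟨y', hy', rfl⟩ := corr_onto hF (hμ'.inv hm) hy
        refine hs3 y' hy' ((corr hF hμ' _ _).2 ⟨?_, ?_⟩)
        · intro x hx
          rcases List.mem_cons.1 hx with rfl | hx
          · exact hF.tr _ _ _ hy' hm
          · exact h5 x (List.mem_cons_of_mem _ hx)
        · rw [List.map_cons, List.map_append, hsucc]
          exact h7
  · rintro ⟨h1, h2, h3⟩
    refine ⟨?_, ?_, ?_⟩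
    · intro h4
      exact absurd ((corr_lt hF hμa hc).1 h4) (not_lt.2 h1)
    · intro x hx h4
      exact absurd ((corr_lt hF hμa (hμ'.inv (hp x hx))).1 h4)
        (not_lt.2 (h2 _ (List.mem_map_of_mem hx)))
    · intro m hm
      have h4 := (corr_lt hF (hμ'.inv hm) hμ').1 hm
      rw [hsucc] at h4
      obtain ⟨φ, s0, hs1, hs2, hs3, hs4⟩ := h3 _ (Order.lt_add_one_iff.1 h4)
      obtain ⟨s, hs5, rfl⟩ := jrt_lift hF hc s0 hs1
      refine ⟨φ, s, hs5, (corr hF hμ' _ _).2 ⟨?_, ?_⟩, ?_⟩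
      · intro x hx
        rcases List.mem_cons.1 hx with rfl | hx
        · exact hm
        · rcases List.mem_append.1 hx with hx | hx
          · refine (corr_lt hF (hc.inv (hs5 x hx)) hμ').2 ?_
            refine ((corr_lt hF (hc.inv (hs5 x hx)) hc).1 (hs5 x hx)).trans_le (h1.trans ?_)
            rw [hsucc]
            exact (Order.lt_add_one_iff.2 le_rfl).le
          · exact hp x hx
      · rw [List.map_cons, List.map_append, hsucc]
        exact hs3
      · intro y hy h5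
        obtain ⟨h6, h7⟩ := (corr hF hμ' _ _).1 h5
        rw [List.map_cons, List.map_append, hsucc] at h7
        exact hs4 _ ((corr_lt hF (hμ'.inv (h6 y List.mem_cons_self)) (hμ'.inv hm)).1 hy) h7

theorem JR_iff (hF : BoF F) {c b b' : ℕ} (hc : Acc (ltF F) c) (hb' : Acc (ltF F) b')
    (hb : ltF F b b') (hs : ∀ m, ltF F m b' → ¬ ltF F b m) :
    JR F c b ↔ JO (rk (ltF F) c) (rk (ltF F) b) := by
  have hba : Acc (ltF F) b := hb'.inv hb
  have hsucc := jrt_succ hF hb' hb hs
  unfold JR JO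
  refine or_congr ?_ ?_
  · constructor
    · intro h
      by_contra hcon
      obtain ⟨m, hm, -⟩ := corr_onto hF hba (pos_iff_ne_zero.2 hcon)
      exact h m hm
    · intro h m hm
      have h1 := (corr_lt hF (hba.inv hm) hba).1 hm
      rw [h] at h1
      exact absurd h1 (not_lt.2 zero_le)
  · constructor
    · rintro ⟨μ, μ', p, h1, h2, h3, h4, h5⟩
      have hμb : ltF F μ b' := (hF.tot b b' μ hb).resolve_left h1
      have hμa : Acc (ltF F) μ := hb'.inv hμb
      have hμ' : Acc (ltF F) μ' := Acc.intro μ' fun m hm =>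
        hb'.inv ((hF.tot μ b' m hμb).resolve_left (h3 m hm))
      have hp : ∀ x ∈ p, ltF F x μ' := fun x hx =>
        (hF.tot μ μ' x h2).resolve_left (h4.2.1 x hx)
      refine ⟨rk (ltF F) μ, p.map (rk (ltF F)), ?_, (jrt_full hF hc hμ' h2 h3 hp).1 h4, ?_⟩
      · by_contra hcon
        exact h1 ((corr_lt hF hba hμa).2 (not_le.1 hcon))
      · intro k hk1 hk2 hk3
        have h6 : k < rk (ltF F) b' := by
          rw [hsucc]
          exact Order.lt_add_one_iff.2 hk2
        obtain ⟨k', hk', rfl⟩ := corr_onto hF hb' h6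
        have hka := hb'.inv hk'
        refine h5 k' ((corr_lt hF hμa hka).2 hk1) (fun h7 => ?_) fun n => ?_
        · exact absurd ((corr_lt hF hba hka).1 h7) (not_lt.2 hk2)
        · exact (muR_iff hF n hka).2 (hk3 n)
    · rintro ⟨μ0, q, h1, h2, h3⟩
      have h4 : μ0 < rk (ltF F) b' := by
        rw [hsucc]
        exact Order.lt_add_one_iff.2 h1
      obtain ⟨μ, hμ, rfl⟩ := corr_onto hF hb' h4
      have hμa := hb'.inv hμ
      have h5 : ∃ μ', Acc (ltF F) μ' ∧ rk (ltF F) μ' = rk (ltF F) μ + 1 := by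
        rcases (Order.add_one_le_of_lt h4).lt_or_eq with h6 | h6
        · obtain ⟨μ', hμ', h7⟩ := corr_onto hF hb' h6
          exact ⟨μ', hb'.inv hμ', h7⟩
        · exact ⟨b', hb', h6.symm⟩
      obtain ⟨μ', hμ', h6⟩ := h5
      have h7 : ltF F μ μ' := (corr_lt hF hμa hμ').2 (by
        rw [h6]
        exact Order.lt_add_one_iff.2 le_rfl)
      have h8 : ∀ m, ltF F m μ' → ¬ ltF F μ m := by
        intro m hm h9
        have h10 := (corr_lt hF (hμ'.inv hm) hμ').1 hm
        rw [h6] at h10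
        exact absurd ((corr_lt hF hμa (hμ'.inv hm)).1 h9)
          (not_lt.2 (Order.lt_add_one_iff.1 h10))
      obtain ⟨p, hp, rfl⟩ := jrt_lift hF hμ' q (fun x hx => by
        rw [h6]
        exact Order.lt_add_one_iff.2 (h2.2.1 x hx))
      refine ⟨μ, μ', p, ?_, h7, h8, (jrt_full hF hc hμ' h7 h8 hp).2 h2, ?_⟩
      · intro h9
        exact absurd ((corr_lt hF hba hμa).1 h9) (not_lt.2 h1)
      · intro k hk1 hk2 hk3
        have hkb : ltF F k b' := (hF.tot b b' k hb).resolve_left hk2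
        have hka := hb'.inv hkb
        have h9 := (corr_lt hF hka hb').1 hkb
        rw [hsucc] at h9
        exact h3 _ ((corr_lt hF hμa hka).1 hk1) (Order.lt_add_one_iff.1 h9)
          fun n => (muR_iff hF n hka).1 (hk3 n)

end MP2900
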