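import Pool.Agent.Lib.MP_2900b9_lc.C.VU
import Pool.Agent.Lib.MP_2900b9_lc.C.JRt
import Pool.Agent.Lib.MP_2900b9_lc.C.AJMeas

/-!
Module AA: the set `AA` is coanalytic and not Borel.

* analytic_compl_A: `z ∉ Aset` iff `z ∉ Bo` or `¬ Acc (relZ z) none` or `¬ Acc (relX z) 0` or there are `w : ℕ → ℕ`, `b b' c : ℕ` with `w ∈ Bo`, `ltF (Fz w) b b'`, `∀ m, ltF (Fz w) m b' → ¬ ltF (Fz w) b m`, `Sim (relX z) 0 (ltF (Fz w)) b`, `Sim (ltF (Fz w)) b (relX z) 0`, `Sim (relZ z) none (ltF (Fz w)) c`,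
  `Sim (ltF (Fz w)) c (relZ z) none`, `¬ JR (Fz w) c b`. Proof of the equivalence for `z ∈ Bo` with `Acc (relZ z) none`, `Acc (relX z) 0`: by sim_rk_eq the Sims say that `b`, `c` are accessible in `w` of ranks `η = rk (relX z) 0`, `γ = rk (relZ z) none`. `b'` is accessible: its predecessors `m` satisfy `¬ lt b m`, so for every `x` with
  `lt x m`: totality gives `lt x b ∨ lt b m`, so `lt x b`: all predecessors of `m` are accessible, so `m` is accessible. JR_iff: `¬ JR ↔ ¬ JO γ η`. Conversely if `¬ JO γ η`, let `θ = max γ η + 2`, countable (ctb_rk), `w` a code of height `θ` (exists_code gives `w ∈ Bo`, accessible, height `θ`); elements `b, b', c` of ranks `η, η + 1, γ` by corr_onto applied.. (ranks of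
  elements of `w` fill `θ`: rk_onto for the transitive relation `relZ w` at `none`, rk_some), corr_lt.
  The set of pairs `(z, w)` is analytic in the product for each `b, b', c` (analytic_sim on `Ω = (ℕ → ℕ) × (ℕ → ℕ)`, meas_JR, meas_Bo, clopen sets), project and take countable unions.
* A_not_borel: as V_not_borel: `JO γ 0` holds, codes with empty tree (rank of the root 0) of all countable heights are in `Aset`; if `Aset` were Borel then A_bounded-type argument (rel_bounded with relZ) gives a contradiction.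
-/

set_option autoImplicit false

namespace MP2900

open Set Pool.Agent.Lib.MP_2900b9_lc

open Topology MeasureTheory

variable [TP]

private theorem aa_union {s t : Set (ℕ → ℕ)} (hs : AnalyticSet s) (ht : AnalyticSet t) :
    AnalyticSet (s ∪ t) := by
  rw [union_eq_iUnion]
  exact AnalyticSet.iUnion fun b => by cases b <;> assumption

private theorem aa_inter {s t : Set ((ℕ → ℕ) × (ℕ → ℕ))} (hs : AnalyticSet s)
    (ht : AnalyticSet t) : AnalyticSet (s ∩ t) := by
  rw [inter_eq_iInter]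
  exact AnalyticSet.iInter fun b => by cases b <;> assumption

private theorem aa_ctb_succ {θ : Ordinal.{0}} (h : Ctb θ) : Ctb (θ + 1) := by
  unfold Ctb at h ⊢
  have h1 : Iio (θ + 1) = insert θ (Iio θ) := by
    ext ξ
    rw [mem_Iio, Order.lt_add_one_iff, mem_insert_iff, mem_Iio]
    exact le_iff_eq_or_lt
  rw [h1]
  exact h.insert θ

/-- the level part of the witnesses -/
private def aaM (b b' c : ℕ) : Set (ℕ → ℕ) :=
  {w | w ∈ Bo ∧ ltF (Fz w) b b' ∧ (∀ m, ltF (Fz w) m b' → ¬ ltF (Fz w) b m) ∧ ¬ JR (Fz w) c b}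

private theorem aaM_meas (b b' c : ℕ) : MeasurableSet (aaM b b' c) := by
  have h1 : (aaM b b' c : Set (ℕ → ℕ)) = Bo ∩ ({w | ltF (Fz w) b b'} ∩
      ((⋂ m : ℕ, ({w | ltF (Fz w) m b'}ᶜ ∪ {w | ltF (Fz w) b m}ᶜ)) ∩ {w | JR (Fz w) c b}ᶜ)) := by
    ext w
    simp only [aaM, mem_ofPred_eq, mem_inter_iff, mem_iInter, mem_union, mem_compl_iff]
    constructor
    · rintro ⟨h1, h2, h3, h4⟩
      exact ⟨h1, h2, fun m => by
        by_cases h5 : ltF (Fz w) m b'
        · exact Or.inr (h3 m h5)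
        · exact Or.inl h5, h4⟩
    · rintro ⟨h1, h2, h3, h4⟩
      exact ⟨h1, h2, fun m hm => (h3 m).resolve_left (not_not.2 hm), h4⟩
  rw [h1]
  exact meas_Bo.inter ((meas_ltF b b').inter ((MeasurableSet.iInter fun m =>
    (meas_ltF m b').compl.union (meas_ltF b m).compl).inter (meas_JR c b).compl))

/-- the pairs with witnesses -/
private def aaP (b b' c : ℕ) : Set ((ℕ → ℕ) × (ℕ → ℕ)) :=
  (Prod.snd ⁻¹' aaM b b' c) ∩
    (({p | Sim (relX p.1) 0 (ltF (Fz p.2)) b} ∩ {p | Sim (ltF (Fz p.2)) b (relX p.1) 0}) ∩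
      ({p | Sim (relZ p.1) none (ltF (Fz p.2)) c} ∩ {p | Sim (ltF (Fz p.2)) c (relZ p.1) none}))

private theorem aa_mX (i j : ℕ) : MeasurableSet {p : (ℕ → ℕ) × (ℕ → ℕ) | relX p.1 i j} :=
  measurable_fst (clopen_relX i j).isOpen.measurableSet

private theorem aa_mZ (i j : Option ℕ) :
    MeasurableSet {p : (ℕ → ℕ) × (ℕ → ℕ) | relZ p.1 i j} :=
  measurable_fst (clopen_relZ i j).isOpen.measurableSet

private theorem aa_mL (i j : ℕ) : MeasurableSet {p : (ℕ → ℕ) × (ℕ → ℕ) | ltF (Fz p.2) i j} :=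
  measurable_snd (meas_ltF i j)

private theorem aaP_analytic (b b' c : ℕ) : AnalyticSet (aaP b b' c) := by
  unfold aaP
  refine aa_inter (measurable_snd (aaM_meas b b' c)).analyticSet
    (aa_inter (aa_inter ?_ ?_) (aa_inter ?_ ?_))
  · exact analytic_sim (Ω := (ℕ → ℕ) × (ℕ → ℕ)) (fun p => relX p.1) (fun p => ltF (Fz p.2))
      aa_mX aa_mL 0 b
  · exact analytic_sim (Ω := (ℕ → ℕ) × (ℕ → ℕ)) (fun p => ltF (Fz p.2)) (fun p => relX p.1)
      aa_mL aa_mX b 0
  · exact analytic_sim (Ω := (ℕ → ℕ) × (ℕ → ℕ)) (fun p => relZ p.1) (fun p => ltF (Fz p.2))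
      aa_mZ aa_mL none c
  · exact analytic_sim (Ω := (ℕ → ℕ) × (ℕ → ℕ)) (fun p => ltF (Fz p.2)) (fun p => relZ p.1)
      aa_mL aa_mZ c none

private theorem aa_trans {w : ℕ → ℕ} (hw : w ∈ Bo) (a b c : Option ℕ) (h1 : relZ w a b)
    (h2 : relZ w b c) : relZ w a c := by
  have hF : BoF (Fz w) := hw
  cases a with
  | none => exact absurd h1 id
  | some a =>
    cases c with
    | none => trivial
    | some c =>
      cases b with
      | none => exact absurd h2 id
      | some b => exact hF.tr a b c h1 h2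

private theorem aa_elem {w : ℕ → ℕ} (hw : w ∈ Bo) (ha : Acc (relZ w) none) {ξ : Ordinal.{0}}
    (h : ξ < rk (relZ w) none) : ∃ m, rk (ltF (Fz w)) m = ξ := by
  obtain ⟨a, h1, h2⟩ := rk_onto (aa_trans hw) (exists_LR ha) h
  cases a with
  | none => exact absurd h1 id
  | some m => exact ⟨m, by rw [← rk_some]; exact h2⟩

private theorem aa_iff {z : ℕ → ℕ} (hZ : Acc (relZ z) none) (hX : Acc (relX z) 0) :
    (∃ b b' c w, (z, w) ∈ aaP b b' c) ↔ ¬ JO (rk (relZ z) none) (rk (relX z) 0) := by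
  constructor
  · rintro ⟨b, b', c, w, ⟨h1, h2, h3, h4⟩, ⟨h5, h6⟩, h7, h8⟩ hJ
    have hF : BoF (Fz w) := h1
    obtain ⟨hb, hbr⟩ := (sim_rk_eq hX).1 ⟨h5, h6⟩
    obtain ⟨hc, hcr⟩ := (sim_rk_eq hZ).1 ⟨h7, h8⟩
    have hb' : Acc (ltF (Fz w)) b' := Acc.intro b' fun m hm => Acc.intro m fun x hx =>
      hb.inv ((hF.tot x m b hx).resolve_right (h3 m hm))
    refine h4 ((JR_iff hF hc hb' h2 h3).2 ?_)
    rw [← hcr, ← hbr]
    exact hJ
  · intro hJ
    have hcη : Ctb (rk (relX z) 0) := ctb_rk _ _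
    have hcγ : Ctb (rk (relZ z) none) := ctb_rk _ _
    have hcm : Ctb (max (rk (relZ z) none) (rk (relX z) 0)) := by
      rcases max_choice (rk (relZ z) none) (rk (relX z) 0) with h | h <;> rw [h]
      · exact hcγ
      · exact hcη
    obtain ⟨w, h1, h2, h3, -⟩ := exists_code
      (max (rk (relZ z) none) (rk (relX z) 0) + 1 + 1) (Order.lt_add_one_iff.2 zero_le)
      (aa_ctb_succ (aa_ctb_succ hcm)) fun _ => False
    have hF : BoF (Fz w) := h1
    have hacc : ∀ m, Acc (ltF (Fz w)) m := (acc_none w).1 h2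
    obtain ⟨b, hb⟩ := aa_elem h1 h2 (ξ := rk (relX z) 0) (by
      rw [h3]
      exact (Order.lt_add_one_iff.2 (le_max_right _ _)).trans (Order.lt_add_one_iff.2 le_rfl))
    obtain ⟨c, hc⟩ := aa_elem h1 h2 (ξ := rk (relZ z) none) (by
      rw [h3]
      exact (Order.lt_add_one_iff.2 (le_max_left _ _)).trans (Order.lt_add_one_iff.2 le_rfl))
    obtain ⟨b', hb'⟩ := aa_elem h1 h2 (ξ := rk (relX z) 0 + 1) (by
      rw [h3]
      exact Order.lt_add_one_iff.2 (Order.add_one_le_of_lt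
        (Order.lt_add_one_iff.2 (le_max_right _ _))))
    have h4 : ltF (Fz w) b b' := by
      rw [corr_lt hF (hacc b) (hacc b'), hb, hb']
      exact Order.lt_add_one_iff.2 le_rfl
    have h5 : ∀ m, ltF (Fz w) m b' → ¬ ltF (Fz w) b m := by
      intro m hm hm'
      rw [corr_lt hF (hacc m) (hacc b'), hb', Order.lt_add_one_iff] at hm
      rw [corr_lt hF (hacc b) (hacc m), hb] at hm'
      exact absurd hm' (not_lt.2 hm)
    have h6 : ¬ JR (Fz w) c b := by
      rw [JR_iff hF (hacc c) (hacc b') h4 h5, hc, hb]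
      exact hJ
    have h7 := (sim_rk_eq (R' := ltF (Fz w)) (a' := b) hX).2 ⟨hacc b, hb.symm⟩
    have h8 := (sim_rk_eq (R' := ltF (Fz w)) (a' := c) hZ).2 ⟨hacc c, hc.symm⟩
    exact ⟨b, b', c, w, ⟨h1, h4, h5, h6⟩, h7, h8⟩

theorem analytic_compl_A : AnalyticSet (Aset : Set (ℕ → ℕ))ᶜ := by
  have h1 : (Aset : Set (ℕ → ℕ))ᶜ = Boᶜ ∪ ({z | ¬ Acc (relZ z) none} ∪
      ({z | ¬ Acc (relX z) 0} ∪ ⋃ t : ℕ × ℕ × ℕ, Prod.fst '' aaP t.1 t.2.1 t.2.2)) := by
    ext z
    constructor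
    · intro h
      by_cases h2 : z ∈ Bo
      · by_cases h3 : Acc (relZ z) none
        · by_cases h4 : Acc (relX z) 0
          · obtain ⟨b, b', c, w, h5⟩ := (aa_iff h3 h4).2 fun h5 => h ⟨h2, h3, h4, h5⟩
            exact Or.inr (Or.inr (Or.inr (mem_iUnion.2 ⟨(b, b', c), (z, w), h5, rfl⟩)))
          · exact Or.inr (Or.inr (Or.inl h4))
        · exact Or.inr (Or.inl h3)
      · exact Or.inl h2
    · rintro (h | h | h | h) hA
      · exact h hA.1
      · exact h hA.2.1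
      · exact h hA.2.2.1
      · obtain ⟨⟨b, b', c⟩, ⟨z', w⟩, h5, h6⟩ := mem_iUnion.1 h
        have h7 : z' = z := h6
        subst h7
        exact (aa_iff hA.2.1 hA.2.2.1).1 ⟨b, b', c, w, h5⟩ hA.2.2.2
  rw [h1]
  refine aa_union meas_Bo.compl.analyticSet (aa_union ?_ (aa_union ?_
    (AnalyticSet.iUnion fun t => ?_)))
  · exact analytic_not_acc relZ (fun i j => (clopen_relZ i j).isOpen.measurableSet) none
  · exact analytic_not_acc relX (fun i j => (clopen_relX i j).isOpen.measurableSet) 0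
  · exact (aaP_analytic t.1 t.2.1 t.2.2).image_of_continuous continuous_fst

theorem A_not_borel : ¬ @MeasurableSet (ℕ → ℕ) (borel (ℕ → ℕ)) Aset := by
  intro h
  rw [← BorelSpace.measurable_eq (α := ℕ → ℕ)] at h
  obtain ⟨θ, h1, h2⟩ := rel_bounded relZ (fun i j => (clopen_relZ i j).isOpen.measurableSet) none
    h.analyticSet fun z hz => hz.2.1
  obtain ⟨z, h3, h4, h5, h6⟩ := exists_code (θ + 1) (Order.lt_add_one_iff.2 zero_le)
    (aa_ctb_succ h1) fun _ => False
  have h7 : ∀ j, ¬ relX z j 0 := fun j hj => (h6 j).1 hj.2.2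
  have h8 : Acc (relX z) 0 := Acc.intro 0 fun j hj => absurd hj (h7 j)
  have h9 : rk (relX z) 0 ≤ 0 := rk_le_of (exists_LR h8) fun j hj => absurd hj (h7 j)
  have h10 := h2 z ⟨h3, h4, h8, Or.inl (le_antisymm h9 zero_le)⟩
  rw [h5] at h10
  exact absurd h10 (not_le.2 (Order.lt_add_one_iff.2 le_rfl))

end MP2900
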