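import Pool.Agent.Lib.MP_2900b9_lc.C.Rank

/-!
Module AClop: continuity and measurability facts for codes.

* clopen_Fz, clopen_relX, clopen_relZ: the sets only depend on one coordinate of `z` (preimage of a subset of the discrete space `ℕ` under a coordinate map, or trivial).
* clopen_FctP: for fixed `φ, f, v` and a fixed list `l` the set `{z | FctP (Fz z) φ f v l}` is either empty or of the form `{z | Fz z φ c a}` (the selection `c` and the entry `a` do not depend on `z`).
* exists_BoO: `Bo` is a countable intersection of open sets. Every field of `BoF (Fz z)` is a countable intersection (over natural numbers, lists, formulas: countable types) of sets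
  which are open or clopen: the clauses with a quantifier are of the form `clopen ↔ clopen ∧ ∀ m, clopen` or `clopen → (clopen ∨ ∃ .., clopen)`; split `↔` in two implications: `P → ∀ m, Q m` is an
  intersection of clopen sets, `(∀ m, Q m) → P` is the union over `m` of clopen sets (open). For `W`: given `f` and `l`, `Sel l f c` determines `c` (finite check), so the right side is clopen. `ViolR (ltF (Fz z)) u c` is
  clopen (finitely many `j`: `c[j]? = some a` only for `j < c.length`). Use `IsGδ` API (`IsGδ.iInter`, `IsGδ.inter`, `IsOpen.isGδ`, closed sets are `IsGδ` in a metrizable space: `IsClosed.isGδ`) and at the end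
  `isGδ_iff_eq_iInter_nat`. A finite union of `IsGδ` sets is `IsGδ`.
-/

set_option autoImplicit false

namespace MP2900

open Set Pool.Agent.Lib.MP_2900b9_lc

open Topology MeasureTheory

private theorem aclop_coord (k : ℕ) : IsClopen {z : ℕ → ℕ | z k ≠ 0} :=
  (isClopen_discrete ({0}ᶜ : Set ℕ)).preimage (continuous_apply k)

private theorem aclop_const (p : Prop) : IsClopen {_z : ℕ → ℕ | p} := by
  by_cases h : p
  · simp only [h, setOf_true]; exact isClopen_univ
  · simp only [h, setOf_false]; exact isClopen_empty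

private theorem aclop_and {P Q : (ℕ → ℕ) → Prop} (hP : IsClopen {z | P z})
    (hQ : IsClopen {z | Q z}) : IsClopen {z | P z ∧ Q z} := hP.inter hQ

private theorem aclop_or {P Q : (ℕ → ℕ) → Prop} (hP : IsClopen {z | P z})
    (hQ : IsClopen {z | Q z}) : IsClopen {z | P z ∨ Q z} := hP.union hQ

private theorem aclop_not {P : (ℕ → ℕ) → Prop} (hP : IsClopen {z | P z}) :
    IsClopen {z | ¬ P z} := hP.compl

private theorem aclop_imp {P Q : (ℕ → ℕ) → Prop} (hP : IsClopen {z | P z})
    (hQ : IsClopen {z | Q z}) : IsClopen {z | P z → Q z} := by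
  have h : {z | P z → Q z} = {z | P z}ᶜ ∪ {z | Q z} := by
    ext z
    simp only [mem_setOf_eq, mem_union, mem_compl_iff]
    tauto
  rw [h]
  exact hP.compl.union hQ

private theorem aclop_mem (f : List ℕ) {P : ℕ → (ℕ → ℕ) → Prop} (hP : ∀ m, IsClopen {z | P m z}) :
    IsClopen {z | ∀ m ∈ f, P m z} := by
  induction f with
  | nil => simp only [List.not_mem_nil, false_imp_iff, implies_true, setOf_true]; exact isClopen_univ
  | cons a f ih =>
    have h : {z | ∀ m ∈ a :: f, P m z} = {z | P a z} ∩ {z | ∀ m ∈ f, P m z} := by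
      ext z
      simp only [mem_setOf_eq, mem_inter_iff, List.forall_mem_cons]
    rw [h]
    exact (hP a).inter ih

private theorem agd_clopen {P : (ℕ → ℕ) → Prop} (hP : IsClopen {z | P z}) : IsGδ {z | P z} :=
  hP.isOpen.isGδ

private theorem agd_forall {ι : Type*} [Countable ι] {P : ι → (ℕ → ℕ) → Prop}
    (hP : ∀ i, IsGδ {z | P i z}) : IsGδ {z | ∀ i, P i z} := by
  rw [setOf_forall]
  exact IsGδ.iInter hP

private theorem agd_and {P Q : (ℕ → ℕ) → Prop} (hP : IsGδ {z | P z})
    (hQ : IsGδ {z | Q z}) : IsGδ {z | P z ∧ Q z} := hP.inter hQ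

private theorem agd_imp {P Q : (ℕ → ℕ) → Prop} (hP : IsClopen {z | P z})
    (hQ : IsGδ {z | Q z}) : IsGδ {z | P z → Q z} := by
  have h : {z | P z → Q z} = {z | P z}ᶜ ∪ {z | Q z} := by
    ext z
    simp only [mem_setOf_eq, mem_union, mem_compl_iff]
    tauto
  rw [h]
  exact hP.compl.isOpen.isGδ.union hQ

private theorem agd_iff_open {P Q : (ℕ → ℕ) → Prop} (hP : IsClopen {z | P z})
    (hQ : IsOpen {z | Q z}) : IsGδ {z | P z ↔ Q z} := by
  have h : {z | P z ↔ Q z} = ({z | P z}ᶜ ∪ {z | Q z}) ∩ ({z | Q z}ᶜ ∪ {z | P z}) := by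
    ext z
    simp only [mem_setOf_eq, mem_union, mem_compl_iff, mem_inter_iff]
    tauto
  rw [h]
  exact (hP.compl.isOpen.union hQ).isGδ.inter (hQ.isClosed_compl.union hP.isClosed).isGδ

private theorem agd_iff_closed {P Q : (ℕ → ℕ) → Prop} (hP : IsClopen {z | P z})
    (hQ : IsClosed {z | Q z}) : IsGδ {z | P z ↔ Q z} := by
  have h : {z | P z ↔ Q z} = ({z | P z}ᶜ ∪ {z | Q z}) ∩ ({z | Q z}ᶜ ∪ {z | P z}) := by
    ext z
    simp only [mem_setOf_eq, mem_union, mem_compl_iff, mem_inter_iff]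
    tauto
  rw [h]
  exact (hP.compl.isClosed.union hQ).isGδ.inter (hQ.isOpen_compl.union hP.isOpen).isGδ

private theorem aop_ex {ι : Sort*} {P : ι → (ℕ → ℕ) → Prop}
    (hP : ∀ i, IsOpen {z | P i z}) : IsOpen {z | ∃ i, P i z} := by
  rw [setOf_exists]
  exact isOpen_iUnion hP

private theorem acl_all {ι : Sort*} {P : ι → (ℕ → ℕ) → Prop}
    (hP : ∀ i, IsClosed {z | P i z}) : IsClosed {z | ∀ i, P i z} := by
  rw [setOf_forall]
  exact isClosed_iInter hP

theorem clopen_Fz (φ : Fm) (f : List ℕ) (v : ℕ) : IsClopen {z : ℕ → ℕ | Fz z φ f v} :=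
  aclop_coord (fc φ f v)

theorem clopen_relX (j i : ℕ) : IsClopen {z : ℕ → ℕ | relX z j i} :=
  aclop_and (aclop_const _) (aclop_and (aclop_const _) (aclop_coord (2 * j)))

private theorem clopen_ltF (a b : ℕ) : IsClopen {z : ℕ → ℕ | ltF (Fz z) a b} :=
  clopen_Fz Fm.top [a] b

private theorem clopen_WcF (b : Bool) (u c : List ℕ) (a v : ℕ) :
    IsClopen {z : ℕ → ℕ | WcF (Fz z) b u c a v} :=
  clopen_Fz _ _ _

theorem clopen_relZ (a b : Option ℕ) : IsClopen {z : ℕ → ℕ | relZ z a b} := by
  cases a with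
  | none =>
    have h : {z : ℕ → ℕ | relZ z none b} = ∅ := by
      ext z
      cases b <;> simp [relZ]
    rw [h]
    exact isClopen_empty
  | some m =>
    cases b with
    | none =>
      have h : {z : ℕ → ℕ | relZ z (some m) none} = univ := by
        ext z
        simp [relZ]
      rw [h]
      exact isClopen_univ
    | some v => exact clopen_ltF m v

theorem clopen_FctP (φ : Fm) (f : List ℕ) (v : ℕ) (l : List ℕ) :
    IsClopen {z : ℕ → ℕ | FctP (Fz z) φ f v l} := by
  by_cases h : ∃ c a, Sel f l c ∧ l[v]? = some a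
  · obtain ⟨c, a, hc, ha⟩ := h
    have h1 : {z : ℕ → ℕ | FctP (Fz z) φ f v l} = {z : ℕ → ℕ | Fz z φ c a} := by
      ext z
      constructor
      · rintro ⟨c', a', hc', ha', h2⟩
        rw [ha] at ha'
        rw [hc.unique hc', Option.some.inj ha']
        exact h2
      · intro h2
        exact ⟨c, a, hc, ha, h2⟩
    rw [h1]
    exact clopen_Fz φ c a
  · have h1 : {z : ℕ → ℕ | FctP (Fz z) φ f v l} = ∅ := by
      ext z
      simp only [mem_setOf_eq, mem_empty_iff_false, iff_false]
      rintro ⟨c, a, hc, ha, _⟩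
      exact h ⟨c, a, hc, ha⟩
    rw [h1]
    exact isClopen_empty

private theorem agd_Bo [TP] : IsGδ Bo := by
  have hlt := clopen_ltF
  have hF := clopen_Fz
  have hW := clopen_WcF
  have h : Bo = {z : ℕ → ℕ |
      (∀ a, ¬ ltF (Fz z) a a) ∧
      (∀ a b c, ltF (Fz z) a b → ltF (Fz z) b c → ltF (Fz z) a c) ∧
      (∀ a b c, ltF (Fz z) a b → (ltF (Fz z) a c ∨ ltF (Fz z) c b)) ∧
      (∀ φ f v, Fz z φ f v → ∀ m ∈ f, ltF (Fz z) m v) ∧
      (∀ f v, ¬ Fz z Fm.bot f v) ∧
      (∀ i j f v, Fz z (Fm.lt i j) f v ↔ ((∀ m ∈ f, ltF (Fz z) m v) ∧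
        ∃ a b, f[i]? = some a ∧ f[j]? = some b ∧ ltF (Fz z) a b)) ∧
      (∀ φ l k f v, Fz z (Fm.S φ l k) f v ↔ ((∀ m ∈ f, ltF (Fz z) m v) ∧
        ∃ c a, Sel l f c ∧ f[k]? = some a ∧ Fz z φ c a)) ∧
      (∀ l φ f v, Fz z (Fm.R l φ) f v ↔ ((∀ m ∈ f, ltF (Fz z) m v) ∧
        ∃ c, Sel l f c ∧ Fz z φ c v)) ∧
      (∀ φ ψ f v, Fz z (Fm.imp φ ψ) f v ↔ ((∀ m ∈ f, ltF (Fz z) m v) ∧
        (Fz z φ f v → Fz z ψ f v))) ∧
      (∀ φ f v, Fz z (Fm.all φ) f v ↔ ((∀ m ∈ f, ltF (Fz z) m v) ∧
        ∀ m, ltF (Fz z) m v → Fz z φ (m :: f) v)) ∧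
      (∀ b u l k f v, Fz z (Fm.W b u l k) f v ↔ ((∀ m ∈ f, ltF (Fz z) m v) ∧
        ∃ c a, Sel l f c ∧ f[k]? = some a ∧ (∀ x ∈ c, ltF (Fz z) x a) ∧
          WcF (Fz z) b u c a v)) ∧
      (∀ u c a v, (∀ x ∈ c, ltF (Fz z) x a) → ltF (Fz z) a v → (WcF (Fz z) false u c a v ↔
        (ViolR (ltF (Fz z)) u c ∨ ∃ v₀, ltF (Fz z) a v₀ ∧ ltF (Fz z) v₀ v ∧
          ∃ n, WcF (Fz z) true (u ++ [n]) c a v₀))) ∧
      (∀ u c a v, (∀ x ∈ c, ltF (Fz z) x a) → ltF (Fz z) a v → (WcF (Fz z) true u c a v ↔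
        (∀ n x, ltF (Fz z) x a → WcF (Fz z) false (u ++ [n]) (c ++ [x]) a v)))} := by
    ext z
    constructor
    · intro h
      exact ⟨h.irr, h.tr, h.tot, h.sub, h.bot, h.lt, h.S, h.R, h.imp, h.all, h.W, h.we, h.wo⟩
    · rintro ⟨h1, h2, h3, h4, h5, h6, h7, h8, h9, h10, h11, h12, h13⟩
      exact ⟨h1, h2, h3, h4, h5, h6, h7, h8, h9, h10, h11, h12, h13⟩
  rw [h]
  refine agd_and ?_ (agd_and ?_ (agd_and ?_ (agd_and ?_ (agd_and ?_ (agd_and ?_ (agd_and ?_
    (agd_and ?_ (agd_and ?_ (agd_and ?_ (agd_and ?_ (agd_and ?_ ?_)))))))))))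
  · exact agd_forall fun a => agd_clopen (aclop_not (hlt a a))
  · exact agd_forall fun a => agd_forall fun b => agd_forall fun c =>
      agd_clopen (aclop_imp (hlt a b) (aclop_imp (hlt b c) (hlt a c)))
  · exact agd_forall fun a => agd_forall fun b => agd_forall fun c =>
      agd_clopen (aclop_imp (hlt a b) (aclop_or (hlt a c) (hlt c b)))
  · exact agd_forall fun φ => agd_forall fun f => agd_forall fun v =>
      agd_clopen (aclop_imp (hF φ f v) (aclop_mem f fun m => hlt m v))
  · exact agd_forall fun f => agd_forall fun v => agd_clopen (aclop_not (hF Fm.bot f v))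
  · exact agd_forall fun i => agd_forall fun j => agd_forall fun f => agd_forall fun v =>
      agd_iff_open (hF _ f v) ((aclop_mem f fun m => hlt m v).isOpen.inter
        (aop_ex fun a => aop_ex fun b =>
          (aclop_and (aclop_const _) (aclop_and (aclop_const _) (hlt a b))).isOpen))
  · exact agd_forall fun φ => agd_forall fun l => agd_forall fun k => agd_forall fun f =>
      agd_forall fun v =>
      agd_iff_open (hF _ f v) ((aclop_mem f fun m => hlt m v).isOpen.inter
        (aop_ex fun c => aop_ex fun a =>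
          (aclop_and (aclop_const _) (aclop_and (aclop_const _) (hF φ c a))).isOpen))
  · exact agd_forall fun l => agd_forall fun φ => agd_forall fun f => agd_forall fun v =>
      agd_iff_open (hF _ f v) ((aclop_mem f fun m => hlt m v).isOpen.inter
        (aop_ex fun c => (aclop_and (aclop_const _) (hF φ c v)).isOpen))
  · exact agd_forall fun φ => agd_forall fun ψ => agd_forall fun f => agd_forall fun v =>
      agd_iff_open (hF _ f v) ((aclop_mem f fun m => hlt m v).isOpen.inter
        (aclop_imp (hF φ f v) (hF ψ f v)).isOpen)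
  · exact agd_forall fun φ => agd_forall fun f => agd_forall fun v =>
      agd_iff_closed (hF _ f v) ((aclop_mem f fun m => hlt m v).isClosed.inter
        (acl_all fun m => (aclop_imp (hlt m v) (hF φ (m :: f) v)).isClosed))
  · exact agd_forall fun b => agd_forall fun u => agd_forall fun l => agd_forall fun k =>
      agd_forall fun f => agd_forall fun v =>
      agd_iff_open (hF _ f v) ((aclop_mem f fun m => hlt m v).isOpen.inter
        (aop_ex fun c => aop_ex fun a =>
          (aclop_and (aclop_const _) (aclop_and (aclop_const _)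
            (aclop_and (aclop_mem c fun x => hlt x a) (hW b u c a v)))).isOpen))
  · refine agd_forall fun u => agd_forall fun c => agd_forall fun a => agd_forall fun v =>
      agd_imp (aclop_mem c fun x => hlt x a) (agd_imp (hlt a v)
        (agd_iff_open (hW false u c a v) (IsOpen.union ?_ ?_)))
    · exact aop_ex fun j => aop_ex fun x => aop_ex fun y =>
        (aclop_and (aclop_const _) (aclop_and (aclop_const _) (aclop_and (aclop_const _)
          (aclop_and (aclop_const _) (aclop_not (hlt x y)))))).isOpen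
    · exact aop_ex fun v₀ => (hlt a v₀).isOpen.inter ((hlt v₀ v).isOpen.inter
        (aop_ex fun n => (hW true (u ++ [n]) c a v₀).isOpen))
  · exact agd_forall fun u => agd_forall fun c => agd_forall fun a => agd_forall fun v =>
      agd_imp (aclop_mem c fun x => hlt x a) (agd_imp (hlt a v)
        (agd_iff_closed (hW true u c a v) (acl_all fun n => acl_all fun x =>
          (aclop_imp (hlt x a) (hW false (u ++ [n]) (c ++ [x]) a v)).isClosed)))

theorem exists_BoO [TP] : ∃ O : ℕ → Set (ℕ → ℕ), (∀ k, IsOpen (O k)) ∧ Bo = ⋂ k, O k :=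
  isGδ_iff_eq_iInter_nat.1 agd_Bo

/-- the open sets with intersection `Bo` -/
noncomputable def BoO [TP] : ℕ → Set (ℕ → ℕ) := exists_BoO.choose

theorem isOpen_BoO [TP] (k : ℕ) : IsOpen (BoO k) := exists_BoO.choose_spec.1 k

theorem Bo_eq [TP] : Bo = ⋂ k, BoO k := exists_BoO.choose_spec.2

theorem mem_Bo_iff [TP] (z : ℕ → ℕ) : z ∈ Bo ↔ ∀ k, z ∈ BoO k := by
  rw [Bo_eq, mem_iInter]

end MP2900
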