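import Pool.Agent.Lib.MP_2900b9_lc.C.Simu

/-!
Module ASim: simulation and non accessibility are analytic conditions.

`Ω` a Polish space with its Borel sets. The real quantifier `∃ S` ranges over the Polish space `ι → ι' → Prop`, which should be replaced by `ι × ι' → Bool` (a countable product of discrete spaces:
`PolishSpace`, BorelSpace by `Pi.borelSpace`); the set of `(ω, S)` with `S (a, a') = true` and for all `i, i', k` with `S (i, i') = true` and `R ω k i` there is `k'` with `R' ω k' i'` and `S (k, k') = true` is measurable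
(countable intersections and unions, `MeasurableSet.iInter`, `.iUnion`, `.imp` etc.), so analytic (`MeasurableSet.analyticSet`), and its projection to `Ω` is analytic (`AnalyticSet.image_of_continuous`).
* analytic_not_acc: `¬ Acc R a` iff there is `S` with `S a` and for all `i` with `S i` some `k` with `R k i` and `S k`.
-/

set_option autoImplicit false

namespace MP2900

open Set Pool.Agent.Lib.MP_2900b9_lc

open Topology MeasureTheory

theorem analytic_sim {Ω ι ι' : Type} [TopologicalSpace Ω] [PolishSpace Ω] [MeasurableSpace Ω]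
    [BorelSpace Ω] [Countable ι] [Countable ι'] (R : Ω → ι → ι → Prop) (R' : Ω → ι' → ι' → Prop)
    (hR : ∀ i j, MeasurableSet {w | R w i j}) (hR' : ∀ i j, MeasurableSet {w | R' w i j})
    (a : ι) (a' : ι') : AnalyticSet {w | Sim (R w) a (R' w) a'} := by
  classical
  have hf : ∀ j : ι × ι', Measurable fun p : Ω × (ι × ι' → Bool) => (p.2 j = true) := fun j =>
    measurableSet_setOfPred.1 (measurableSet_eq_fun
      ((measurable_pi_apply j).comp measurable_snd) measurable_const)
  have h1 : ∀ i j, Measurable fun p : Ω × (ι × ι' → Bool) => R p.1 i j := fun i j =>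
    (measurableSet_setOfPred.1 (hR i j)).comp measurable_fst
  have h2 : ∀ i j, Measurable fun p : Ω × (ι × ι' → Bool) => R' p.1 i j := fun i j =>
    (measurableSet_setOfPred.1 (hR' i j)).comp measurable_fst
  have hB : MeasurableSet {p : Ω × (ι × ι' → Bool) | p.2 (a, a') = true ∧ ∀ i i',
      p.2 (i, i') = true → ∀ k, R p.1 k i → ∃ k', R' p.1 k' i' ∧ p.2 (k, k') = true} := by
    refine measurableSet_setOfPred.2 ((hf _).and ?_)
    refine Measurable.forall fun i => Measurable.forall fun i' => (hf _).imp ?_
    refine Measurable.forall fun k => (h1 k i).imp ?_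
    exact Measurable.exists fun k' => (h2 k' i').and (hf _)
  have : PolishSpace (ι × ι' → Bool) := { }
  have h3 := hB.analyticSet.image_of_continuous continuous_fst
  convert h3 using 1
  ext w
  constructor
  · rintro ⟨S, hS1, hS2⟩
    refine ⟨(w, fun j => decide (S j.1 j.2)), ⟨decide_eq_true hS1, ?_⟩, rfl⟩
    intro i i' hi k hk
    obtain ⟨k', h4, h5⟩ := hS2 i i' (of_decide_eq_true hi) k hk
    exact ⟨k', h4, decide_eq_true h5⟩
  · rintro ⟨⟨w', S⟩, ⟨h4, h5⟩, rfl⟩
    exact ⟨fun i i' => S (i, i') = true, h4, fun i i' hi k hk => h5 i i' hi k hk⟩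

theorem analytic_not_acc {Ω ι : Type} [TopologicalSpace Ω] [PolishSpace Ω] [MeasurableSpace Ω]
    [BorelSpace Ω] [Countable ι] (R : Ω → ι → ι → Prop)
    (hR : ∀ i j, MeasurableSet {w | R w i j}) (a : ι) :
    AnalyticSet {w | ¬ Acc (R w) a} := by
  classical
  have hf : ∀ j : ι, Measurable fun p : Ω × (ι → Bool) => (p.2 j = true) := fun j =>
    measurableSet_setOfPred.1 (measurableSet_eq_fun
      ((measurable_pi_apply j).comp measurable_snd) measurable_const)
  have h1 : ∀ i j, Measurable fun p : Ω × (ι → Bool) => R p.1 i j := fun i j =>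
    (measurableSet_setOfPred.1 (hR i j)).comp measurable_fst
  have hB : MeasurableSet {p : Ω × (ι → Bool) | p.2 a = true ∧ ∀ i,
      p.2 i = true → ∃ k, R p.1 k i ∧ p.2 k = true} := by
    refine measurableSet_setOfPred.2 ((hf _).and ?_)
    refine Measurable.forall fun i => (hf _).imp ?_
    exact Measurable.exists fun k => (h1 k i).and (hf _)
  have : PolishSpace (ι → Bool) := { }
  have h3 := hB.analyticSet.image_of_continuous continuous_fst
  convert h3 using 1
  ext w
  constructor
  · intro h
    refine ⟨(w, fun j => decide (¬ Acc (R w) j)), ⟨decide_eq_true h, ?_⟩, rfl⟩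
    intro i hi
    have hi' : ¬ Acc (R w) i := of_decide_eq_true hi
    by_contra hcon
    push Not at hcon
    refine hi' ⟨i, fun k hk => ?_⟩
    have h4 := hcon k hk
    by_contra h5
    exact h4 (decide_eq_true h5)
  · rintro ⟨⟨w', S⟩, ⟨h4, h5⟩, rfl⟩ hacc
    have key : ∀ x, Acc (R w') x → S x = true → False := by
      intro x hx
      induction hx with
      | intro x _ ih =>
        intro hS
        obtain ⟨k, hk, hSk⟩ := h5 x hS
        exact ih k hk hSk
    exact key a hacc h4

end MP2900
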