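import Pool.Agent.Lib.MP_2900b9_lc.C.ClDefs

/-!
Module ClSk: Skolem functions.

* skolem: by choice, `G n l := ` a list `l'` with `R n l l'` if there is one, otherwise `[]`; via an encoding: if `J` is empty nothing to do; otherwise a surjection `s : ℕ → J` and `G n l := ` chosen for `s n`.
* cl_and: `G'' (2n) = G n`, `G'' (2n+1) = G' n`.
* cl_iInf: `G'' n = G (unpair n).1 (unpair n).2`.
* cl_clm: skolem for `J = Fm`, `R φ l l' := ∃ ν e x, l = ν :: e ∧ l' = [x] ∧ IsMin ν φ e x` (the least element is unique: if `IsMin ν φ e x` and `IsMin ν φ e x'` then `x = x'`).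
* gc_ex: cl_and with cl_clm and with three families `G n l = [n]`, `G n l = l.map (· + n)`, `G n l = l.map (· + ω)`.
-/

set_option autoImplicit false

namespace MP2900

open Set Pool.Agent.Lib.MP_2900b9_lc

theorem skolem {J : Type} [Countable J] (R : J → List Ordinal.{0} → List Ordinal.{0} → Prop) :
    ∃ G : ℕ → List Ordinal.{0} → List Ordinal.{0}, ∀ X, Cl G X → ∀ j l, Ov X l →
      (∃ l', R j l l') → ∃ l', Ov X l' ∧ R j l l' := by
  classical
  obtain ⟨e, he⟩ := exists_injective_nat J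
  refine ⟨fun n l => if h : ∃ l', ∃ j, e j = n ∧ R j l l' then h.choose else [], ?_⟩
  rintro X hX j l hl ⟨l', hl'⟩
  have h : ∃ l', ∃ i, e i = e j ∧ R i l l' := ⟨l', j, rfl, hl'⟩
  refine ⟨h.choose, ?_, ?_⟩
  · intro x hx
    have h1 := hX (e j) l hl x
    simp only [dif_pos h] at h1
    exact h1 hx
  · obtain ⟨i, hi, hR⟩ := h.choose_spec
    have hij : i = j := he hi
    rw [hij] at hR
    exact hR

theorem cl_and (G G' : ℕ → List Ordinal.{0} → List Ordinal.{0}) :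
    ∃ G'' : ℕ → List Ordinal.{0} → List Ordinal.{0}, ∀ X, Cl G'' X → Cl G X ∧ Cl G' X := by
  refine ⟨fun n l => if n % 2 = 0 then G (n / 2) l else G' (n / 2) l, fun X hX => ⟨?_, ?_⟩⟩
  · intro n l hl x hx
    refine hX (2 * n) l hl x ?_
    have h1 : 2 * n % 2 = 0 := by omega
    have h2 : 2 * n / 2 = n := by omega
    simp only [h1, h2, if_true]
    exact hx
  · intro n l hl x hx
    refine hX (2 * n + 1) l hl x ?_
    have h1 : ¬ (2 * n + 1) % 2 = 0 := by omega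
    have h2 : (2 * n + 1) / 2 = n := by omega
    simp only [if_neg h1, h2]
    exact hx

theorem cl_iInf (G : ℕ → ℕ → List Ordinal.{0} → List Ordinal.{0}) :
    ∃ G'' : ℕ → List Ordinal.{0} → List Ordinal.{0}, ∀ X, Cl G'' X → ∀ i, Cl (G i) X := by
  refine ⟨fun n => G n.unpair.1 n.unpair.2, fun X hX i n l hl x hx => ?_⟩
  refine hX (Nat.pair i n) l hl x ?_
  simp only [Nat.unpair_pair]
  exact hx

theorem cl_clm [TP] :
    ∃ G : ℕ → List Ordinal.{0} → List Ordinal.{0}, ∀ X, Cl G X → ClM X := by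
  obtain ⟨G, hG⟩ := skolem (J := Fm) (fun φ l l' => ∃ ν e x, l = ν :: e ∧ l' = [x] ∧
    IsMin ν φ e x)
  refine ⟨G, fun X hX ν hν φ e he x hx => ?_⟩
  obtain ⟨l', hl', ν', e', x', h1, h2, h3⟩ := hG X hX φ (ν :: e) (by
    intro y hy
    rcases List.mem_cons.1 hy with rfl | hy
    · exact hν
    · exact (he y hy).1) ⟨[x], ν, e, x, rfl, rfl, hx⟩
  obtain ⟨rfl, rfl⟩ := List.cons.inj h1
  have h4 : x' = x := by
    rcases lt_trichotomy x' x with h | h | h
    · exact absurd h3.2.1 (hx.2.2 _ h)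
    · exact h
    · exact absurd hx.2.1 (h3.2.2 _ h)
  subst h4
  exact hl' x' (by rw [h2]; exact List.mem_singleton.2 rfl)

theorem gc_ex [TP] (G : ℕ → List Ordinal.{0} → List Ordinal.{0}) :
    ∃ G' : ℕ → List Ordinal.{0} → List Ordinal.{0}, ∀ X, Cl G' X → GC G X := by
  obtain ⟨G1, h1⟩ := cl_clm
  obtain ⟨G2, h2⟩ := cl_and G G1
  obtain ⟨G3, h3⟩ := cl_and (fun n _ => [(n : Ordinal.{0})]) (fun n l => l.map (· + (n : Ordinal.{0})))
  obtain ⟨G4, h4⟩ := cl_and G3 (fun _ l => l.map (· + Ordinal.omega0))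
  obtain ⟨G5, h5⟩ := cl_and G2 G4
  refine ⟨G5, fun X hX => ?_⟩
  obtain ⟨a1, a2⟩ := h5 X hX
  obtain ⟨a3, a4⟩ := h2 X a1
  obtain ⟨a5, a6⟩ := h4 X a2
  obtain ⟨a7, a8⟩ := h3 X a5
  refine ⟨a3, h1 X a4, fun n => ?_, fun x hx n => ?_, fun x hx => ?_⟩
  · exact a7 n [] (by simp) _ (List.mem_singleton.2 rfl)
  · exact a8 n [x] (by simpa using hx) _ (by simp)
  · exact a6 0 [x] (by simpa using hx) _ (by simp)

end MP2900
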