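import Pool.Agent.Lib.MP_2900b9_lc.C.CondW

/-!
Module Cond: truth is preserved by the collapse (condensation).

* cond: induction on `ν`, inside induction on `φ` (for all `e`). bot, imp: trivial. lt: `col_lt_iff` on members of `X`.
 W: sat_W, sel_map_iff (the selection of `e.map (col X)` is the image of the selection of `e`; entries of `c` are entries of `e`, so in `X`
 and `< ν`), condW. S: sat_S, the level `a` is an entry of `e`, so `a ∈ X`, `a < ν`: induction hypothesis of the outer induction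
 (`col X a < col X ν` iff `a < ν`). R: sat_R, sel_map_iff, inner induction hypothesis. all: (→) `x' < col X ν` is `col X x` with `x ∈ X`,
 `x < ν` (col_onto). (←) if `¬ Sat ν φ (x :: e)` for some `x < ν`, the least such `x` is `IsMin ν φ.neg e x`, so it is in `X`.
* cond_FO: the environment must be `< a`; `x < a ↔ col X x < col X a` for `x ∈ X`.
* cond_Fct: unfold, sel_map_iff, cond_FO.
* isMin_col: `x ∈ X` by ClM; `Sat (col X ν) φ (col X x :: e.map (col X))` by cond; if `y' < col X x` had the property, `y' = col X y` with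
 `y ∈ X`, `y < x`, and cond gives `Sat ν φ (y :: e)`.
* sameTy_col: for `s < δ` we have `s.map (col X) = s` (col_id) and `s ++ p ⊆ X`, so cond_Fct.
-/

set_option autoImplicit false

namespace MP2900

open Set Pool.Agent.Lib.MP_2900b9_lc

variable [TP] {X : Set Ordinal.{0}}

theorem cond (hX : ClM X) {ν : Ordinal.{0}} (hν : ν ∈ X) (φ : Fm) (e : List Ordinal.{0})
    (he : ∀ x ∈ e, x ∈ X ∧ x < ν) : Sat ν φ e ↔ Sat (col X ν) φ (e.map (col X)) := by
  induction ν using WellFoundedLT.induction generalizing φ e with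
  | _ ν IH =>
    induction φ generalizing e with
    | bot => simp only [sat_bot]
    | lt i j =>
      rw [sat_lt, sat_lt]
      constructor
      · rintro ⟨a, b, h1, h2, h3⟩
        exact ⟨col X a, col X b, by simp [h1], by simp [h2],
          col_lt (he a (List.mem_of_getElem? h1)).1 h3⟩
      · rintro ⟨a', b', h1, h2, h3⟩
        rw [List.getElem?_map, Option.map_eq_some_iff] at h1 h2
        obtain ⟨a, h1, rfl⟩ := h1
        obtain ⟨b, h2, rfl⟩ := h2
        exact ⟨a, b, h1, h2, (col_lt_iff (he a (List.mem_of_getElem? h1)).1).1 h3⟩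
    | W b u l k =>
      rw [sat_W, sat_W]
      constructor
      · rintro ⟨c, a, h1, h2, h3, h4⟩
        have ha := he a (List.mem_of_getElem? h2)
        have hc : ∀ x ∈ c, x ∈ X := fun x hx => (he x (h1.mem x hx)).1
        refine ⟨c.map (col X), col X a, h1.map _, by simp [h2], ?_, ?_⟩
        · intro x' hx'
          obtain ⟨x, hx, rfl⟩ := List.mem_map.1 hx'
          exact col_lt (hc x hx) (h3 x hx)
        · exact (condW hX hν ha.1 ha.2 b u c (fun x hx => ⟨hc x hx, h3 x hx⟩)).1 h4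
      · rintro ⟨c', a', h1, h2, h3, h4⟩
        obtain ⟨c, g1, rfl⟩ := (sel_map_iff _).1 h1
        rw [List.getElem?_map, Option.map_eq_some_iff] at h2
        obtain ⟨a, h2, rfl⟩ := h2
        have ha := he a (List.mem_of_getElem? h2)
        have hc : ∀ x ∈ c, x ∈ X := fun x hx => (he x (g1.mem x hx)).1
        have h3' : ∀ x ∈ c, x < a := fun x hx =>
          (col_lt_iff (hc x hx)).1 (h3 _ (List.mem_map_of_mem hx))
        exact ⟨c, a, g1, h2, h3',
          (condW hX hν ha.1 ha.2 b u c (fun x hx => ⟨hc x hx, h3' x hx⟩)).2 h4⟩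
    | S φ l v ih =>
      rw [sat_S, sat_S]
      constructor
      · rintro ⟨c, a, h1, h2, h3, h4, h5⟩
        have ha := he a (List.mem_of_getElem? h2)
        have hc : ∀ x ∈ c, x ∈ X := fun x hx => (he x (h1.mem x hx)).1
        refine ⟨c.map (col X), col X a, h1.map _, by simp [h2], ?_, col_lt ha.1 h4, ?_⟩
        · intro x' hx'
          obtain ⟨x, hx, rfl⟩ := List.mem_map.1 hx'
          exact col_lt (hc x hx) (h3 x hx)
        · exact (IH a ha.2 ha.1 φ c (fun x hx => ⟨hc x hx, h3 x hx⟩)).1 h5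
      · rintro ⟨c', a', h1, h2, h3, h4, h5⟩
        obtain ⟨c, g1, rfl⟩ := (sel_map_iff _).1 h1
        rw [List.getElem?_map, Option.map_eq_some_iff] at h2
        obtain ⟨a, h2, rfl⟩ := h2
        have ha := he a (List.mem_of_getElem? h2)
        have hc : ∀ x ∈ c, x ∈ X := fun x hx => (he x (g1.mem x hx)).1
        have h3' : ∀ x ∈ c, x < a := fun x hx =>
          (col_lt_iff (hc x hx)).1 (h3 _ (List.mem_map_of_mem hx))
        exact ⟨c, a, g1, h2, h3', ha.2, (IH a ha.2 ha.1 φ c (fun x hx => ⟨hc x hx, h3' x hx⟩)).2 h5⟩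
    | R l φ ih =>
      rw [sat_R, sat_R]
      constructor
      · rintro ⟨c, h1, h2⟩
        exact ⟨c.map (col X), h1.map _, (ih c (fun x hx => he x (h1.mem x hx))).1 h2⟩
      · rintro ⟨c', h1, h2⟩
        obtain ⟨c, g1, rfl⟩ := (sel_map_iff _).1 h1
        exact ⟨c, g1, (ih c (fun x hx => he x (g1.mem x hx))).2 h2⟩
    | imp φ ψ ih1 ih2 =>
      rw [sat_imp, sat_imp, ih1 e he, ih2 e he]
    | all φ ih =>
      have hcons : ∀ x, x ∈ X → x < ν → ∀ y ∈ x :: e, y ∈ X ∧ y < ν := by
        intro x hx hxν y hy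
        rcases List.mem_cons.1 hy with rfl | hy
        · exact ⟨hx, hxν⟩
        · exact he y hy
      rw [sat_all, sat_all]
      constructor
      · intro h x' hx'
        obtain ⟨x, hx, hxν, rfl⟩ := col_onto hx'
        exact (ih (x :: e) (hcons x hx hxν)).1 (h x hxν)
      · intro h
        by_contra hcon
        push Not at hcon
        have hne : {x : Ordinal.{0} | x < ν ∧ ¬ Sat ν φ (x :: e)}.Nonempty := hcon
        obtain ⟨h1, h2⟩ := csInf_mem hne
        have h3 : ∀ y < sInf {x : Ordinal.{0} | x < ν ∧ ¬ Sat ν φ (x :: e)}, Sat ν φ (y :: e) := by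
          intro y hy
          by_contra h4
          exact notMem_of_lt_csInf' hy ⟨hy.trans h1, h4⟩
        set x := sInf {x : Ordinal.{0} | x < ν ∧ ¬ Sat ν φ (x :: e)} with hx
        have hmin : IsMin ν φ.neg e x := by
          refine ⟨h1, (sat_neg _ _ _).2 h2, fun y hy h4 => ?_⟩
          rw [sat_neg] at h4
          exact h4 (h3 y hy)
        have hxX : x ∈ X := hX ν hν φ.neg e he x hmin
        exact h2 ((ih (x :: e) (hcons x hxX h1)).2 (h (col X x) (col_lt hxX h1)))

theorem cond_FO (hX : ClM X) {a : Ordinal.{0}} (ha : a ∈ X) (φ : Fm) {e : List Ordinal.{0}}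
    (he : ∀ x ∈ e, x ∈ X) : FO φ e a ↔ FO φ (e.map (col X)) (col X a) := by
  unfold FO
  constructor
  · rintro ⟨h1, h2⟩
    refine ⟨?_, (cond hX ha φ e (fun x hx => ⟨he x hx, h1 x hx⟩)).1 h2⟩
    intro x' hx'
    obtain ⟨x, hx, rfl⟩ := List.mem_map.1 hx'
    exact col_lt (he x hx) (h1 x hx)
  · rintro ⟨h1, h2⟩
    have h3 : ∀ x ∈ e, x < a := fun x hx =>
      (col_lt_iff (he x hx)).1 (h1 _ (List.mem_map_of_mem hx))
    exact ⟨h3, (cond hX ha φ e (fun x hx => ⟨he x hx, h3 x hx⟩)).2 h2⟩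

theorem cond_Fct (hX : ClM X) (φ : Fm) (f : List ℕ) (v : ℕ) {l : List Ordinal.{0}}
    (hl : ∀ x ∈ l, x ∈ X) : FctP FO φ f v l ↔ FctP FO φ f v (l.map (col X)) := by
  unfold FctP
  constructor
  · rintro ⟨c, a, h1, h2, h3⟩
    refine ⟨c.map (col X), col X a, h1.map _, by simp [h2], ?_⟩
    exact (cond_FO hX (hl a (List.mem_of_getElem? h2)) φ (fun x hx => hl x (h1.mem x hx))).1 h3
  · rintro ⟨c', a', h1, h2, h3⟩
    obtain ⟨c, g1, rfl⟩ := (sel_map_iff _).1 h1
    rw [List.getElem?_map, Option.map_eq_some_iff] at h2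
    obtain ⟨a, h2, rfl⟩ := h2
    exact ⟨c, a, g1, h2,
      (cond_FO hX (hl a (List.mem_of_getElem? h2)) φ (fun x hx => hl x (g1.mem x hx))).2 h3⟩

theorem isMin_col (hX : ClM X) {ν : Ordinal.{0}} (hν : ν ∈ X) {φ : Fm} {e : List Ordinal.{0}}
    (he : ∀ x ∈ e, x ∈ X ∧ x < ν) {x : Ordinal.{0}} (h : IsMin ν φ e x) :
    x ∈ X ∧ IsMin (col X ν) φ (e.map (col X)) (col X x) := by
  have hxX : x ∈ X := hX ν hν φ e he x h
  obtain ⟨h1, h2, h3⟩ := h
  have hcons : ∀ z, z ∈ X → z < ν → ∀ y ∈ z :: e, y ∈ X ∧ y < ν := by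
    intro z hz hzν y hy
    rcases List.mem_cons.1 hy with rfl | hy
    · exact ⟨hz, hzν⟩
    · exact he y hy
  refine ⟨hxX, col_lt hxX h1, ?_, ?_⟩
  · exact (cond hX hν φ (x :: e) (hcons x hxX h1)).1 h2
  · intro y' hy' h4
    obtain ⟨y, hy, hyx, rfl⟩ := col_onto hy'
    exact h3 y hyx ((cond hX hν φ (y :: e) (hcons y hy (hyx.trans h1))).2 h4)

theorem sameTy_col (hX : ClM X) {δ : Ordinal.{0}} (hδ : ∀ x < δ, x ∈ X) {p : List Ordinal.{0}}
    (hp : ∀ x ∈ p, x ∈ X) : SameTy δ p (p.map (col X)) := by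
  intro s hs φ f v
  have h1 : s.map (col X) = s := by
    conv_rhs => rw [← List.map_id s]
    exact List.map_congr_left fun x hx => col_id hδ (hs x hx).le
  have h2 : (s ++ p).map (col X) = s ++ p.map (col X) := by
    rw [List.map_append, h1]
  rw [← h2]
  refine cond_Fct hX φ f v fun x hx => ?_
  rcases List.mem_append.1 hx with hx | hx
  · exact hδ x (hs x hx)
  · exact hp x hx

end MP2900
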