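import Pool.Agent.Lib.MP_2900b9_lc.C.EncI
import Pool.Agent.Lib.MP_2900b9_lc.C.Cond
import Pool.Agent.Lib.MP_2900b9_lc.C.ClSk

/-!
Module AbsC: conditions under the collapse. Let `π = col X`, `0 ∈ X`, so `π 0 = 0` (col_le). Write `c.map (Ent.map π)`; `ext (c.map (Ent.map π)) i = Ent.map π (ext c i)` (the default entry is mapped to itself).

* val_col: values `g` and tags are in `X` (`OvE`; default entries are 0 and none), `η β, κ β ∈ X`: `x < y ↔ π x < π y` for `x ∈ X` (col_lt_iff), equality of tags by col_inj.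
* val_lift: given `c` over `X`, valid, and `d'` valid for `π ∘ η, π ∘ κ` with `c.map (Ent.map π) <+: d'`. All ordinals of `d'` are `< π (κ β)` or `≤ π (η β)` (tag_le), so of the form `π x` with `x ∈ X` (col_onto; `π (η β)` itself is the image of `η β ∈ X`). Choose preimages entry by entry; `d = c ++ (preimages of the remaining entries)`. Valid by val_col.
* dec_col: `real (ext c) = real (ext (c.map (Ent.map π)))`: the tags have the same isSome, the facts of the enumerations `g` and `π ∘ g` agree by cond_FO (values in `X`). Lengths agree. So both conditions decide the same sets.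
* skolemE: as skolem, the conditions being coded by natural numbers (shape) and lists of ordinals, e.g. apply skolem with `R' (j, shape, shape..)` or directly: index set `J × (codes)`: for `c` use `(encI true c [] Fm.bot []) : St`, which is injective (encI_inj) with ordinals those of `c` and possibly 0. Given `0 ∈ X`, `OvE X c ↔ Ov X (encI true c [] Fm.bot []).2`.
-/

set_option autoImplicit false

namespace MP2900

open Set Pool.Agent.Lib.MP_2900b9_lc

variable [TP] {X : Set Ordinal.{0}} {η κ : Bool → Ordinal.{0}}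

omit [TP] in
private theorem col0 : col X 0 = 0 := le_antisymm (col_le X 0) zero_le

omit [TP] in
private theorem ext_map (c : List Ent) (i : ℕ) :
    ext (c.map (Ent.map (col X))) i = Ent.map (col X) (ext c i) := by
  have h : (default : Ent) = Ent.map (col X) default := by
    show (⟨fun _ => none, fun _ => 0⟩ : Ent) = ⟨fun _ => Option.map (col X) none, fun _ => col X 0⟩
    rw [col0]
    rfl
  unfold ext
  conv_lhs => rw [h]
  exact List.getD_map ..

omit [TP] in
private theorem ext_ove (h0 : (0 : Ordinal.{0}) ∈ X) {c : List Ent} (hc : OvE X c) (i : ℕ)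
    (β : Bool) : (ext c i).g β ∈ X ∧ ∀ ζ, (ext c i).h β = some ζ → ζ ∈ X := by
  by_cases hi : i < c.length
  · have h1 : ext c i = (c)[i] := by simp [ext, List.getD, hi]
    rw [h1]
    exact hc _ (List.getElem_mem hi) β
  · have h1 : ext c i = default := by
      unfold ext
      exact List.getD_eq_default _ _ (not_lt.1 hi)
    rw [h1]
    refine ⟨h0, fun ζ hζ => ?_⟩
    have h2 : (default : Ent).h β = none := rfl
    rw [h2] at hζ
    exact absurd hζ (by simp)

theorem val_col (h0 : (0 : Ordinal.{0}) ∈ X) (hη : ∀ β, η β ∈ X) (hκ : ∀ β, κ β ∈ X)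
    {c : List Ent} (hc : OvE X c) :
    Val η κ c ↔ Val (fun β => col X (η β)) (fun β => col X (κ β)) (c.map (Ent.map (col X))) := by
  unfold Val
  rw [List.length_map]
  refine forall_congr' fun i => forall_congr' fun _ => ?_
  unfold VN
  refine forall_congr' fun β => ?_
  rw [ext_map, ext_map]
  obtain ⟨hg, hh⟩ := ext_ove h0 hc i β
  obtain ⟨-, hh'⟩ := ext_ove h0 hc (par i) β
  refine and_congr (col_lt_iff hg).symm (and_congr (forall_congr' fun _ => ?_)
    (forall_congr' fun _ => ?_))
  · show (ext c i).h β = some (η β) ↔ ((ext c i).h β).map (col X) = some (col X (η β))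
    constructor
    · intro h
      rw [h]
      rfl
    · intro h
      obtain ⟨x, hx, he⟩ := Option.map_eq_some_iff.1 h
      rw [hx, col_inj (hh x hx) (hη β) he]
  · show (∀ ζ, (ext c i).h β = some ζ → ∃ ζ', (ext c (par i)).h β = some ζ' ∧ ζ < ζ') ↔
      ∀ ζ, ((ext c i).h β).map (col X) = some ζ →
        ∃ ζ', ((ext c (par i)).h β).map (col X) = some ζ' ∧ ζ < ζ'
    constructor
    · intro h ζ hζ
      obtain ⟨x, hx, rfl⟩ := Option.map_eq_some_iff.1 hζ
      obtain ⟨x', hx', hlt⟩ := h x hx
      exact ⟨col X x', by rw [hx']; rfl, col_lt (hh x hx) hlt⟩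
    · intro h ζ hζ
      obtain ⟨z', hz', hlt⟩ := h (col X ζ) (by rw [hζ]; rfl)
      obtain ⟨x', hx', rfl⟩ := Option.map_eq_some_iff.1 hz'
      exact ⟨x', hx', (col_lt_iff (hh ζ hζ)).1 hlt⟩

theorem val_lift (h0 : (0 : Ordinal.{0}) ∈ X) (hη : ∀ β, η β ∈ X) (hκ : ∀ β, κ β ∈ X)
    {c d' : List Ent} (hc : OvE X c)
    (hd' : Val (fun β => col X (η β)) (fun β => col X (κ β)) d')
    (hcd : c.map (Ent.map (col X)) <+: d') :
    ∃ d, OvE X d ∧ Val η κ d ∧ c <+: d ∧ d.map (Ent.map (col X)) = d' := by
  classical
  let P : Ordinal.{0} → Prop := fun θ => ∃ x ∈ X, col X x = θ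
  let inv : Ordinal.{0} → Ordinal.{0} := fun θ => if h : P θ then h.choose else 0
  have hinvX : ∀ θ, inv θ ∈ X := by
    intro θ
    by_cases h : P θ
    · have h1 : inv θ = h.choose := dif_pos h
      rw [h1]
      exact h.choose_spec.1
    · have h1 : inv θ = 0 := dif_neg h
      rw [h1]
      exact h0
  have hinv : ∀ θ, P θ → col X (inv θ) = θ := by
    intro θ h
    have h1 : inv θ = h.choose := dif_pos h
    rw [h1]
    exact h.choose_spec.2
  have hinv' : ∀ x ∈ X, inv (col X x) = x := fun x hx =>
    col_inj (hinvX _) hx (hinv _ ⟨x, hx, rfl⟩)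
  have hP : ∀ a ∈ d', ∀ β, P (a.g β) ∧ ∀ ζ, a.h β = some ζ → P ζ := by
    intro a ha β
    obtain ⟨h1, h2⟩ := tag_le hd' ha β
    refine ⟨?_, fun ζ hζ => ?_⟩
    · obtain ⟨x, hx, -, he⟩ := col_onto h1
      exact ⟨x, hx, he⟩
    · rcases (h2 ζ hζ).lt_or_eq with h3 | h3
      · obtain ⟨x, hx, -, he⟩ := col_onto h3
        exact ⟨x, hx, he⟩
      · exact ⟨η β, hη β, h3.symm⟩
  have hmap : (d'.map (Ent.map inv)).map (Ent.map (col X)) = d' := by
    rw [List.map_map]
    conv_rhs => rw [← List.map_id d']
    refine List.map_congr_left fun a ha => ?_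
    show (⟨fun β => ((a.h β).map inv).map (col X), fun β => col X (inv (a.g β))⟩ : Ent) = a
    have e1 : (fun β => ((a.h β).map inv).map (col X)) = a.h := by
      funext β
      cases hb : a.h β with
      | none => rfl
      | some ζ => exact congrArg some (hinv ζ ((hP a ha β).2 ζ hb))
    have e2 : (fun β => col X (inv (a.g β))) = a.g := by
      funext β
      exact hinv _ (hP a ha β).1
    rw [e1, e2]
  have hov : OvE X (d'.map (Ent.map inv)) := by
    intro a ha β
    obtain ⟨a', -, rfl⟩ := List.mem_map.1 ha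
    refine ⟨hinvX _, fun ζ hζ => ?_⟩
    obtain ⟨x, -, rfl⟩ := Option.map_eq_some_iff.1 (show (a'.h β).map inv = some ζ from hζ)
    exact hinvX _
  refine ⟨d'.map (Ent.map inv), hov, ?_, ?_, hmap⟩
  · rw [val_col h0 hη hκ hov, hmap]
    exact hd'
  · obtain ⟨r, rfl⟩ := hcd
    rw [List.map_append]
    have h1 : (c.map (Ent.map (col X))).map (Ent.map inv) = c := by
      rw [List.map_map]
      conv_rhs => rw [← List.map_id c]
      refine List.map_congr_left fun a ha => ?_
      show (⟨fun β => ((a.h β).map (col X)).map inv, fun β => inv (col X (a.g β))⟩ : Ent) = a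
      have e1 : (fun β => ((a.h β).map (col X)).map inv) = a.h := by
        funext β
        cases hb : a.h β with
        | none => rfl
        | some ζ => exact congrArg some (hinv' ζ ((hc a ha β).2 ζ hb))
      have e2 : (fun β => inv (col X (a.g β))) = a.g := by
        funext β
        exact hinv' _ (hc a ha β).1
      rw [e1, e2]
    rw [h1]
    exact List.prefix_append _ _

open Classical in
private theorem realC_col (hX : ClM X) (h0 : (0 : Ordinal.{0}) ∈ X) {c : List Ent} (hc : OvE X c)
    (β : Bool) : realC β (ext c) = realC β (ext (c.map (Ent.map (col X)))) := by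
  funext k
  unfold realC
  have h1 : ((ext (c.map (Ent.map (col X))) (k / 2)).h β).isSome =
      ((ext c (k / 2)).h β).isSome := by
    rw [ext_map]
    show (((ext c (k / 2)).h β).map (col X)).isSome = _
    simp
  rw [h1]
  have h2 : (fun i => (ext (c.map (Ent.map (col X))) i).g β) =
      fun i => col X ((ext c i).g β) := by
    funext i
    rw [ext_map]
    rfl
  rw [h2]
  congr 1
  cases (Encodable.decode (k / 2) : Option (Fm × List ℕ × ℕ)) with
  | none => rfl
  | some t =>
    obtain ⟨φ, f, v⟩ := t
    have h3 : Fg (fun i => (ext c i).g β) φ f v ↔ Fg (fun i => col X ((ext c i).g β)) φ f v := by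
      unfold Fg
      rw [cond_FO hX (ext_ove h0 hc v β).1 φ (e := f.map fun i => (ext c i).g β) ?_, List.map_map]
      · rfl
      · intro x hx
        obtain ⟨i, -, rfl⟩ := List.mem_map.1 hx
        exact (ext_ove h0 hc i β).1
    show (if Fg (fun i => (ext c i).g β) φ f v then 1 else 0) =
      if Fg (fun i => col X ((ext c i).g β)) φ f v then 1 else 0
    rw [if_congr h3 rfl rfl]

private theorem real_col (hX : ClM X) (h0 : (0 : Ordinal.{0}) ∈ X) {c : List Ent} (hc : OvE X c) :
    real (ext c) = real (ext (c.map (Ent.map (col X)))) := by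
  unfold real
  rw [realC_col hX h0 hc true, realC_col hX h0 hc false]

theorem dec_col (hX : ClM X) (h0 : (0 : Ordinal.{0}) ∈ X) {c : List Ent} (hc : OvE X c)
    (O : Set (ℕ → ℕ)) : dec c O ↔ dec (c.map (Ent.map (col X))) O := by
  unfold dec
  rw [List.length_map, real_col hX h0 hc]

omit [TP] in
private theorem ov_enc (h0 : (0 : Ordinal.{0}) ∈ X) (c : List Ent) :
    Ov X (encI true c [] Fm.bot []).2 ↔ OvE X c := by
  unfold encI Ov OvE
  rw [List.append_nil]
  constructor
  · intro h a ha β
    have h1 : ∀ x ∈ [(a.h true).getD 0, (a.h false).getD 0, a.g true, a.g false], x ∈ X :=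
      fun x hx => h x (List.mem_flatMap.2 ⟨a, ha, hx⟩)
    refine ⟨?_, fun ζ hζ => ?_⟩
    · cases β with
      | true => exact h1 _ (by simp)
      | false => exact h1 _ (by simp)
    · cases β with
      | true =>
        have h2 := h1 ((a.h true).getD 0) (by simp)
        rw [hζ] at h2
        exact h2
      | false =>
        have h2 := h1 ((a.h false).getD 0) (by simp)
        rw [hζ] at h2
        exact h2
  · intro h x hx
    obtain ⟨a, ha, hx⟩ := List.mem_flatMap.1 hx
    have h1 : ∀ β, (a.h β).getD 0 ∈ X := by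
      intro β
      cases hb : a.h β with
      | none => exact h0
      | some ζ => exact (h a ha β).2 ζ hb
    simp only [List.mem_cons, List.not_mem_nil, or_false] at hx
    rcases hx with rfl | rfl | rfl | rfl
    · exact h1 _
    · exact h1 _
    · exact (h a ha _).1
    · exact (h a ha _).1

theorem skolemE {J : Type} [Countable J]
    (R : J → List Ordinal.{0} → List Ent → List Ordinal.{0} → List Ent → Prop) :
    ∃ G : ℕ → List Ordinal.{0} → List Ordinal.{0}, ∀ X, Cl G X → (0 : Ordinal.{0}) ∈ X →
      ∀ j l c, Ov X l → OvE X c → (∃ l' c', R j l c l' c') →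
        ∃ l' c', Ov X l' ∧ OvE X c' ∧ R j l c l' c' := by
  obtain ⟨G, hG⟩ := skolem (J := J × ℕ × ℕ) (fun q L L' => ∃ l c l' c',
    L = l ++ (encI true c [] Fm.bot []).2 ∧ q.2.1 = (encI true c [] Fm.bot []).1 ∧
      q.2.2 = l.length ∧ L' = l' ++ (encI true c' [] Fm.bot []).2 ∧ R q.1 l c l' c')
  refine ⟨G, fun X hX h0 j l c hl hc hR => ?_⟩
  obtain ⟨l', c', hR⟩ := hR
  obtain ⟨L', hL', l1, c1, l2, c2, e1, e2, e3, e4, hR'⟩ :=
    hG X hX (j, (encI true c [] Fm.bot []).1, l.length) (l ++ (encI true c [] Fm.bot []).2)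
      (by
        intro x hx
        rcases List.mem_append.1 hx with hx | hx
        · exact hl x hx
        · exact (ov_enc h0 c).2 hc x hx)
      ⟨l' ++ (encI true c' [] Fm.bot []).2, l, c, l', c', rfl, rfl, rfl, rfl, hR⟩
  obtain ⟨e5, e6⟩ := List.append_inj e1 e3
  have e7 : encI true c [] Fm.bot [] = encI true c1 [] Fm.bot [] := Prod.ext e2 e6
  obtain ⟨-, rfl, -⟩ := encI_inj e7
  subst e5
  refine ⟨l2, c2, fun x hx => hL' x ?_, (ov_enc h0 c2).1 fun x hx => hL' x ?_, hR'⟩
  · rw [e4]
    exact List.mem_append_left _ hx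
  · rw [e4]
    exact List.mem_append_right _ hx

end MP2900
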