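import Pool.Agent.Lib.MP_2900b9_lc.C.AbsC

/-!
Module AbsFL: the forcing relation `FL` is absolute for closed sets. Let `π = col X`.

skolemE for `J = Option ..` (countable: `ι × ι × Bool`): lists `l = [η true, η false, κ true, κ false, ξ]`, condition `c`:
 (R1) index `m'`: `l' = [ξ']`, `e`: `ξ' < ξ`, `Val η κ e`, `c <+: e`, `FL (Val η κ) dec O ξ' m' e`.
 (R2) index `(m, m')`: `l' = []`, `d`: `Val η κ d`, `c <+: d`, `dec d (O m' m)`, and no `e`, `ξ' < ξ` with `Val η κ e`, `d <+: e`, `FL (Val η κ) dec O ξ' m' e`.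
Induction on `ξ` (for all `m`, `c`), FL_iff on both sides.
(→) Let `d'` be valid for the collapsed parameters, `c.map (Ent.map π) <+: d'`, `dec d' (O m' m)`. val_lift: `d` over `X` with image `d'`; dec_col: `dec d (O m' m)`. So there are `ξ' < ξ`, `e`; by (R1) over `X`. Images: `π ξ' < π ξ`, `e.map` valid (val_col), extends `d'`, and the induction hypothesis.
(←) Suppose `¬ FL ξ m c`: there are `m'`, `d` as in (R2); choose `d` over `X`. Then `d.map (Ent.map π)` is valid, extends, decides; so the right side gives `ξ'' < π ξ` and `e'` valid with `FL ξ'' m' e'`; `ξ'' = π ξ'`, `ξ' ∈ X`, `ξ' < ξ` (col_onto), `e' = e.map (Ent.map π)` with `e` over `X`, valid, `d <+: e` (val_lift); the induction hypothesis gives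
`FL ξ' m' e`, contradiction to (R2).
-/

set_option autoImplicit false

namespace MP2900

open Set Pool.Agent.Lib.MP_2900b9_lc

/-- the list of the parameters -/
private def absPl (η κ : Bool → Ordinal.{0}) (ξ : Ordinal.{0}) : List Ordinal.{0} :=
  [η true, η false, κ true, κ false, ξ]

private theorem absPl_inj {η κ η' κ' : Bool → Ordinal.{0}} {ξ ξ' : Ordinal.{0}}
    (h : absPl η κ ξ = absPl η' κ' ξ') : η = η' ∧ κ = κ' ∧ ξ = ξ' := by
  simp only [absPl, List.cons.injEq, and_true] at h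
  obtain ⟨h1, h2, h3, h4, h5⟩ := h
  refine ⟨?_, ?_, h5⟩
  · funext b
    cases b
    · exact h2
    · exact h1
  · funext b
    cases b
    · exact h4
    · exact h3

/-- the Skolem relation -/
private def absRel [TP] {ι : Type} (O : ι → ι → Set (ℕ → ℕ)) :
    (ι ⊕ (ι × ι)) → List Ordinal.{0} → List Ent → List Ordinal.{0} → List Ent → Prop
  | Sum.inl m', l, c, l', e => ∃ (η κ : Bool → Ordinal.{0}) (ξ ξ' : Ordinal.{0}),
      l = absPl η κ ξ ∧ l' = [ξ'] ∧ ξ' < ξ ∧ Val η κ e ∧ c <+: e ∧ FL (Val η κ) dec O ξ' m' e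
  | Sum.inr p, l, c, l', d => ∃ (η κ : Bool → Ordinal.{0}) (ξ : Ordinal.{0}),
      l = absPl η κ ξ ∧ l' = [] ∧ Val η κ d ∧ c <+: d ∧ dec d (O p.2 p.1) ∧
        ∀ ξ' < ξ, ∀ e, Val η κ e → d <+: e → ¬ FL (Val η κ) dec O ξ' p.2 e

theorem abs_FL [TP] {ι : Type} [Countable ι] (O : ι → ι → Set (ℕ → ℕ)) :
    ∃ G : ℕ → List Ordinal.{0} → List Ordinal.{0}, ∀ X, GC G X →
      ∀ η κ : Bool → Ordinal.{0}, (∀ β, η β ∈ X) → (∀ β, κ β ∈ X) → ∀ ξ ∈ X, ∀ m c, OvE X c →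
        (FL (Val η κ) dec O ξ m c ↔
          FL (Val (fun β => col X (η β)) (fun β => col X (κ β))) dec O (col X ξ) m
            (c.map (Ent.map (col X)))) := by
  obtain ⟨G, hG⟩ := skolemE (absRel O)
  refine ⟨G, fun X hX η κ hη hκ => ?_⟩
  have h0 : (0 : Ordinal.{0}) ∈ X := by
    have := hX.nat 0
    simpa using this
  have hS := hG X hX.cl h0
  have hpl : ∀ ξ ∈ X, Ov X (absPl η κ ξ) := by
    intro ξ hξ x hx
    simp only [absPl, List.mem_cons, List.not_mem_nil, or_false] at hx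
    rcases hx with rfl | rfl | rfl | rfl | rfl
    · exact hη _
    · exact hη _
    · exact hκ _
    · exact hκ _
    · exact hξ
  intro ξ
  induction ξ using WellFoundedLT.induction with
  | _ ξ IH =>
    intro hξ m c hc
    constructor
    · intro h
      rw [FL_iff]
      intro m' d' hVd' hcd' hdec'
      obtain ⟨d, hOd, hVd, hcd, rfl⟩ := val_lift h0 hη hκ hc hVd' hcd'
      have hdec : dec d (O m' m) := (dec_col hX.clm h0 hOd (O m' m)).2 hdec'
      obtain ⟨ξ', hξ', e, hVe, hde, hFe⟩ := (FL_iff _ _ _ _ _ _).1 h m' d hVd hcd hdec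
      obtain ⟨l1, e1, hl1, hOe1, hR⟩ := hS (Sum.inl m') (absPl η κ ξ) d (hpl ξ hξ) hOd
        ⟨[ξ'], e, η, κ, ξ, ξ', rfl, rfl, hξ', hVe, hde, hFe⟩
      obtain ⟨η2, κ2, ξ2, ξ3, hp, rfl, hlt, hVe1, hde1, hFe1⟩ := hR
      obtain ⟨rfl, rfl, rfl⟩ := absPl_inj hp
      have hξ3 : ξ3 ∈ X := hl1 ξ3 (by simp)
      refine ⟨col X ξ3, col_lt hξ3 hlt, e1.map (Ent.map (col X)),
        (val_col h0 hη hκ hOe1).1 hVe1, hde1.map _, ?_⟩
      exact (IH ξ3 hlt hξ3 m' e1 hOe1).1 hFe1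
    · intro h
      by_contra hn
      rw [FL_iff] at hn
      push Not at hn
      obtain ⟨m', d0, hVd0, hcd0, hdec0, hno0⟩ := hn
      obtain ⟨l1, d, -, hOd, hR⟩ := hS (Sum.inr (m, m')) (absPl η κ ξ) c (hpl ξ hξ) hc
        ⟨[], d0, η, κ, ξ, rfl, rfl, hVd0, hcd0, hdec0, hno0⟩
      obtain ⟨η2, κ2, ξ2, hp, -, hVd, hcd, hdec, hno⟩ := hR
      obtain ⟨rfl, rfl, rfl⟩ := absPl_inj hp
      obtain ⟨ξ1, hξ1, e', hVe', hde', hFe'⟩ := (FL_iff _ _ _ _ _ _).1 h m'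
        (d.map (Ent.map (col X))) ((val_col h0 hη hκ hOd).1 hVd) (hcd.map _)
        ((dec_col hX.clm h0 hOd (O m' m)).1 hdec)
      obtain ⟨ξ', hξ'X, hξ'lt, rfl⟩ := col_onto hξ1
      obtain ⟨e, hOe, hVe, hde, rfl⟩ := val_lift h0 hη hκ hOd hVe' hde'
      exact hno ξ' hξ'lt e hVe hde ((IH ξ' hξ'lt hξ'X m' e hOe).2 hFe')

end MP2900
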