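import Pool.Agent.Lib.MP_2900b9_lc.C.AbsFL

/-!
Module AbsPsi: `FT` and `FPsi` are absolute for closed sets. Let `π = col X`, `O = OZ G`.

* abs_FT: `FT ξ m c` = `FL ξ m c` and for all `ξ' < ξ` and valid `e ⊇ c`: `¬ FL ξ' m e`. (→) `ξ'' < π ξ` is `π ξ'`, `e'` lifts to `e` (val_lift), abs_FL. (←) if there are `ξ' < ξ` and valid `e ⊇ c` with `FL ξ' m e`, by skolemE they can be chosen over `X`; abs_FL.
* abs_FPsi: (→) `d'` lifts to `d` over `X`; there are `e, mm` as in the definition; the existence of `e` for the fixed list `mm` is a relation of `(η, κ, ζ, d)` with index `(φ, f, v, mm, nn)`, so by skolemE `e` can be chosen over `X`; abs_FT entrywise (Forall₂ for `ζ.map π`: `List.forall₂_map_left_iff`), dec_col. (←) if `¬ FPsi c`, there is a valid `d ⊇ c` such that no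
valid `e ⊇ d`, `mm` works; by skolemE choose `d` over `X`; the right side for `d.map` gives `e'`, `mm`; lift `e'` to `e` over `X` (val_lift); abs_FT, dec_col: contradiction.
-/

set_option autoImplicit false

namespace MP2900

open Set Pool.Agent.Lib.MP_2900b9_lc

/-- the parameters as a list -/
private def psiL (η κ : Bool → Ordinal.{0}) (l : List Ordinal.{0}) : List Ordinal.{0} :=
  η true :: η false :: κ true :: κ false :: l

private theorem psiL_inj {η κ η' κ' : Bool → Ordinal.{0}} {l l' : List Ordinal.{0}}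
    (h : psiL η κ l = psiL η' κ' l') : η = η' ∧ κ = κ' ∧ l = l' := by
  simp only [psiL, List.cons.injEq] at h
  obtain ⟨h1, h2, h3, h4, h5⟩ := h
  refine ⟨?_, ?_, h5⟩
  · funext b
    cases b
    · exact h2
    · exact h1
  · funext b
    cases b
    · exact h4
    · exact h3

private theorem psiL_ov {X : Set Ordinal.{0}} {η κ : Bool → Ordinal.{0}} (hη : ∀ β, η β ∈ X)
    (hκ : ∀ β, κ β ∈ X) {l : List Ordinal.{0}} (hl : Ov X l) : Ov X (psiL η κ l) := by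
  intro x hx
  simp only [psiL, List.mem_cons] at hx
  rcases hx with rfl | rfl | rfl | rfl | hx
  · exact hη _
  · exact hη _
  · exact hκ _
  · exact hκ _
  · exact hl x hx

private theorem psi_fa2 {R S : Ordinal.{0} → ℕ → Prop} {ζ : List Ordinal.{0}} {mm : List ℕ}
    (h : ∀ z ∈ ζ, ∀ m, R z m ↔ S z m) : List.Forall₂ R ζ mm ↔ List.Forall₂ S ζ mm := by
  induction ζ generalizing mm with
  | nil => cases mm <;> simp
  | cons z ζ ih =>
    cases mm with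
    | nil => simp
    | cons m mm =>
      rw [List.forall₂_cons, List.forall₂_cons, h z List.mem_cons_self,
        ih fun z' hz' => h z' (List.mem_cons_of_mem _ hz')]

variable [TP]

theorem abs_FT {ι : Type} [Countable ι] (O : ι → ι → Set (ℕ → ℕ)) :
    ∃ G : ℕ → List Ordinal.{0} → List Ordinal.{0}, ∀ X, GC G X →
      ∀ η κ : Bool → Ordinal.{0}, (∀ β, η β ∈ X) → (∀ β, κ β ∈ X) → ∀ ξ ∈ X, ∀ m c, OvE X c →
        (FT (Val η κ) dec O ξ m c ↔
          FT (Val (fun β => col X (η β)) (fun β => col X (κ β))) dec O (col X ξ) m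
            (c.map (Ent.map (col X)))) := by
  obtain ⟨G1, hG1⟩ := abs_FL O
  obtain ⟨G2, hG2⟩ := skolemE (J := ι) (fun m l c l' e => ∃ (η κ : Bool → Ordinal.{0})
    (ξ ξ' : Ordinal.{0}), l = psiL η κ [ξ] ∧ l' = [ξ'] ∧ ξ' < ξ ∧ Val η κ e ∧ c <+: e ∧
      FL (Val η κ) dec O ξ' m e)
  obtain ⟨G, hG⟩ := cl_and G1 G2
  refine ⟨G, fun X hX η κ hη hκ ξ hξ m c hc => ?_⟩
  obtain ⟨hc1, hc2⟩ := hG X hX.cl
  have h0 : (0 : Ordinal.{0}) ∈ X := by simpa using hX.nat 0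
  have hF := hG1 X ⟨hc1, hX.clm, hX.nat, hX.addn, hX.addw⟩ η κ hη hκ
  constructor
  · rintro ⟨h1, h2⟩
    refine ⟨(hF ξ hξ m c hc).1 h1, ?_⟩
    intro ξ'' hξ'' e' he' hce hFe
    obtain ⟨ξ', hξ', hlt, rfl⟩ := col_onto hξ''
    obtain ⟨e, heX, heV, hcE, rfl⟩ := val_lift h0 hη hκ hc he' hce
    exact h2 ξ' hlt e heV hcE ((hF ξ' hξ' m e heX).2 hFe)
  · rintro ⟨h1, h2⟩
    refine ⟨(hF ξ hξ m c hc).2 h1, ?_⟩
    intro ξ' hξ' e he hce hFe
    obtain ⟨l', e1, hl', he1, η', κ', ξ₁, ξ₂, hl, rfl, hlt, hV, hpre, hF1⟩ := hG2 X hc2 h0 m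
      (psiL η κ [ξ]) c (psiL_ov hη hκ (by
        intro x hx
        rw [List.mem_singleton.1 hx]
        exact hξ)) hc
      ⟨[ξ'], e, η, κ, ξ, ξ', rfl, rfl, hξ', he, hce, hFe⟩
    obtain ⟨rfl, rfl, h3⟩ := psiL_inj hl
    obtain rfl : ξ = ξ₁ := by simpa using h3
    have hξ₂ : ξ₂ ∈ X := hl' ξ₂ (List.mem_singleton.2 rfl)
    exact h2 (col X ξ₂) (col_lt hξ₂ hlt) (e1.map (Ent.map (col X)))
      ((val_col h0 hη hκ he1).1 hV) (hpre.map _) ((hF ξ₂ hξ₂ m e1 he1).1 hF1)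

theorem abs_FPsi (Gf : (ℕ → ℕ) → ℕ → ℕ) :
    ∃ G : ℕ → List Ordinal.{0} → List Ordinal.{0}, ∀ X, GC G X →
      ∀ η κ : Bool → Ordinal.{0}, (∀ β, η β ∈ X) → (∀ β, κ β ∈ X) →
      ∀ (φ : Fm) (f : List ℕ) (v : ℕ) (ζ : List Ordinal.{0}) (nn : List ℕ) (c : List Ent),
        Ov X ζ → OvE X c →
        (FPsi (Val η κ) dec Gf φ f v ζ nn c ↔
          FPsi (Val (fun β => col X (η β)) (fun β => col X (κ β))) dec Gf φ f v
            (ζ.map (col X)) nn (c.map (Ent.map (col X)))) := by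
  have : Countable Fm := Encodable.countable
  obtain ⟨G1, hG1⟩ := abs_FT (OZ Gf)
  obtain ⟨G2, hG2⟩ := skolemE (J := Fm × List ℕ × ℕ × List ℕ × List ℕ)
    (fun j l d _ e => ∃ (η κ : Bool → Ordinal.{0}) (ζ : List Ordinal.{0}), l = psiL η κ ζ ∧
      Val η κ e ∧ d <+: e ∧
      List.Forall₂ (fun z m => FT (Val η κ) dec (OZ Gf) z (some m) e) ζ j.2.2.2.1 ∧
      dec e {w | FctP (Fz (Gf w)) j.1 j.2.1 j.2.2.1 (j.2.2.2.1 ++ j.2.2.2.2)})
  obtain ⟨G3, hG3⟩ := skolemE (J := Fm × List ℕ × ℕ × List ℕ)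
    (fun j l c _ d => ∃ (η κ : Bool → Ordinal.{0}) (ζ : List Ordinal.{0}), l = psiL η κ ζ ∧
      Val η κ d ∧ c <+: d ∧ ∀ e, Val η κ e → d <+: e → ∀ mm : List ℕ,
      List.Forall₂ (fun z m => FT (Val η κ) dec (OZ Gf) z (some m) e) ζ mm →
      ¬ dec e {w | FctP (Fz (Gf w)) j.1 j.2.1 j.2.2.1 (mm ++ j.2.2.2)})
  obtain ⟨G12, hG12⟩ := cl_and G1 G2
  obtain ⟨G, hG⟩ := cl_and G12 G3
  refine ⟨G, fun X hX η κ hη hκ φ f v ζ nn c hζ hc => ?_⟩
  obtain ⟨hc12, hc3⟩ := hG X hX.cl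
  obtain ⟨hc1, hc2⟩ := hG12 X hc12
  have h0 : (0 : Ordinal.{0}) ∈ X := by simpa using hX.nat 0
  have hF := hG1 X ⟨hc1, hX.clm, hX.nat, hX.addn, hX.addw⟩ η κ hη hκ
  have hFA : ∀ {e : List Ent}, OvE X e → ∀ mm : List ℕ,
      (List.Forall₂ (fun z m => FT (Val η κ) dec (OZ Gf) z (some m) e) ζ mm ↔
        List.Forall₂ (fun z m => FT (Val (fun β => col X (η β)) (fun β => col X (κ β))) dec
          (OZ Gf) z (some m) (e.map (Ent.map (col X)))) (ζ.map (col X)) mm) := by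
    intro e he mm
    rw [List.forall₂_map_left_iff]
    exact psi_fa2 fun z hz m => hF z (hζ z hz) (some m) e he
  constructor
  · intro h d' hd' hcd
    obtain ⟨d, hdX, hdV, hcd', rfl⟩ := val_lift h0 hη hκ hc hd' hcd
    obtain ⟨e, heV, hde, mm, h1, h2⟩ := h d hdV hcd'
    obtain ⟨l', e1, -, he1, η', κ', ζ', hl, hV, hpre, h3, h4⟩ := hG2 X hc2 h0 (φ, f, v, mm, nn)
      (psiL η κ ζ) d (psiL_ov hη hκ hζ) hdX ⟨[], e, η, κ, ζ, rfl, heV, hde, h1, h2⟩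
    obtain ⟨rfl, rfl, rfl⟩ := psiL_inj hl
    exact ⟨e1.map (Ent.map (col X)), (val_col h0 hη hκ he1).1 hV, hpre.map _, mm,
      (hFA he1 mm).1 h3, (dec_col hX.clm h0 he1 _).1 h4⟩
  · intro h
    by_contra hcon
    unfold FPsi at hcon
    push Not at hcon
    obtain ⟨d, hdV, hcd, hno⟩ := hcon
    obtain ⟨l', d1, -, hd1, η', κ', ζ', hl, hV, hpre, h3⟩ := hG3 X hc3 h0 (φ, f, v, nn)
      (psiL η κ ζ) c (psiL_ov hη hκ hζ) hc ⟨[], d, η, κ, ζ, rfl, hdV, hcd, hno⟩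
    obtain ⟨rfl, rfl, rfl⟩ := psiL_inj hl
    obtain ⟨e', he', hde', mm, h4, h5⟩ := h (d1.map (Ent.map (col X)))
      ((val_col h0 hη hκ hd1).1 hV) (hpre.map _)
    obtain ⟨e, heX, heV, hde, rfl⟩ := val_lift h0 hη hκ hd1 he' hde'
    exact h3 e heV hde mm ((hFA heX mm).2 h4) ((dec_col hX.clm h0 heX _).2 h5)

end MP2900
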