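import Pool.Agent.Lib.MP_2900b9_lc.C.Basic

/-!
Module AnaRep: every analytic set of reals is the projection of a tree.

`A` analytic: `A = ∅` or `A = range f` with `f : (ℕ → ℕ) → (ℕ → ℕ)` continuous (`AnalyticSet` unfolds to this: `analyticSet_iff..`/ `rcases hA`). For `A = ∅` take `T := fun _ _ => False`. Otherwise
`T u v := u.length = v.length ∧ ∃ y, seg y v.length = v ∧ seg (f y) u.length = u`. It is closed under `take`. If `x = f y` then `T (seg x n) (seg y n)` for all `n`. Conversely if `T (seg x n) (seg y n)` for all `n` choose `y_n`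
with `seg y_n n = seg y n` and `seg (f y_n) n = seg x n`: `y_n → y`, so `f y_n → f y`, but `f y_n → x` (coordinatewise eventually constant: `tendsto_pi_nhds`), so `f y = x`.
-/

set_option autoImplicit false

namespace MP2900

open Set Pool.Agent.Lib.MP_2900b9_lc

open Topology MeasureTheory

theorem exists_tree {A : Set (ℕ → ℕ)} (hA : AnalyticSet A) :
    ∃ T : List ℕ → List ℕ → Prop, (∀ u v n, T u v → T (u.take n) (v.take n)) ∧
      ∀ x, x ∈ A ↔ ∃ y : ℕ → ℕ, ∀ n, T (seg x n) (seg y n) := by
  rw [AnalyticSet] at hA
  rcases hA with rfl | ⟨f, hf, rfl⟩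
  · exact ⟨fun _ _ => False, fun _ _ _ h => h, fun x =>
      ⟨fun h => h.elim, fun ⟨_, h⟩ => (h 0).elim⟩⟩
  · refine ⟨fun u v => u.length = v.length ∧ ∃ y, seg y v.length = v ∧ seg (f y) u.length = u,
      ?_, ?_⟩
    · rintro u v n ⟨hl, y, h1, h2⟩
      refine ⟨by simp [hl], y, ?_, ?_⟩
      · rw [List.length_take, ← h1, length_seg]
        rcases le_total n v.length with h | h
        · rw [min_eq_left h, seg_take y h]
        · rw [min_eq_right h, List.take_of_length_le (by rw [length_seg]; exact h)]
      · rw [List.length_take, ← h2, length_seg]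
        rcases le_total n u.length with h | h
        · rw [min_eq_left h, seg_take (f y) h]
        · rw [min_eq_right h, List.take_of_length_le (by rw [length_seg]; exact h)]
    · intro x
      constructor
      · rintro ⟨y, rfl⟩
        refine ⟨y, fun n => ⟨by simp, y, by rw [length_seg], by rw [length_seg]⟩⟩
      · rintro ⟨y, h⟩
        have h' : ∀ n, ∃ z : ℕ → ℕ, seg z n = seg y n ∧ seg (f z) n = seg x n := by
          intro n
          obtain ⟨-, z, h1, h2⟩ := h n
          rw [length_seg] at h1 h2
          exact ⟨z, h1, h2⟩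
        choose z hz1 hz2 using h'
        have hlim : ∀ (w : ℕ → ℕ → ℕ) (y : ℕ → ℕ), (∀ n, seg (w n) n = seg y n) →
            Filter.Tendsto w Filter.atTop (𝓝 y) := by
          intro w y hw
          rw [tendsto_pi_nhds]
          intro i
          refine tendsto_const_nhds.congr' ?_
          filter_upwards [Filter.eventually_gt_atTop i] with n hn
          exact (seg_congr.1 (hw n) i hn).symm
        have h1 := (hf.tendsto y).comp (hlim z y hz1)
        have h2 := hlim (fun n => f (z n)) x hz2
        exact ⟨y, tendsto_nhds_unique h1 h2⟩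

end MP2900
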