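import Pool.Agent.Lib.MP_2900b9_lc.C.AbsPsi

/-!
Module AsysI: the relation of the first reduction is an absolute system.

`G` combines the families of abs_FPsi for the two maps `fun w => cmpt i (F (ev w))`, `i : Bool`, and gc_ex. The hypotheses of `abs` give `GC G X` for them: note that `abs` in `ASys` is to be proved for all `X` with `ClM X`, `Cl G X`, and the closure under naturals, `x + n`, `x + ω`; so `GC G' X` holds for the component families `G'`.
bd: `encI_le` needs `0 < κ`; if `κ = 0` then `EI F κ z z'` with `c` valid implies `c = []` (no value `g true < 0`), `s = []` (`x < 0` impossible), so the list of ordinals is empty. In general: all ordinals of `encI ..` are `0`, tags `≤ κ + ω`, values `< κ` or `< 1`, entries of `s` (`tag_le`), all `≤ κ + ω`.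
abs: let `κ ∈ X`, `π = col X`, `π 0 = 0`, `π 1 = 1`, `π (κ + ω) = π κ + ω` (col_nat, col_add_omega), so `(fun β => π (ηI κ β)) = ηI (π κ)`, `(fun β => π (κI κ β)) = κI (π κ)` (funext, cases on β), and `ηI κ β, κI κ β ∈ X`.
(→) from `z = encI i c n φ s`, `z' = encI i c n φ' s'` over `X` (so `OvE X c`: every ordinal of `c` occurs in the list): images by encI_map, val_col, entries `x < κ → π x < π κ`, abs_FPsi, lengths unchanged.
(←) `z.map π = encI i c1 n φ s1`, `z'.map π = encI i c1 n φ' s1'`. `z.1` is the natural number of `encI i c1 n φ s1`; its list `z.2` has the same length as the list of `encI i c1 n φ s1`, so there are `c`, `s` with the same shape and `z = encI i c n φ s`, `c.map (Ent.map π) = c1`, `s.map π = s1` (cut the list into blocks of 4; where the bit is none the ordinal has image 0, so it is 0: col_inj with `0 ∈ X`).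
Similarly `z' = encI i c' n φ' s'` with `c'.map (Ent.map π) = c1`, so `c' = c` (col_inj on ordinals in `X`). val_col, abs_FPsi. (Lemma encI_lift: if `Ov X z.2` and `z.map π = encI i c1 n φ s1` then there are `c, s` with `z = encI i c n φ s`, `OvE X c`, `Ov X s`, `c.map (Ent.map π) = c1`, `s.map π = s1`; by induction on `c1`.)
-/

set_option autoImplicit false

namespace MP2900

open Set Pool.Agent.Lib.MP_2900b9_lc

/-- the ordinals of an entry -/
private noncomputable def blkA (a : Ent) : List Ordinal.{0} :=
  [(a.h true).getD 0, (a.h false).getD 0, a.g true, a.g false]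

/-- the bits of an entry -/
private def bitA (a : Ent) : Bool × Bool := ((a.h true).isSome, (a.h false).isSome)

private theorem encI_eq (i : Bool) (c : List Ent) (n : List ℕ) (φ : Fm) (s : List Ordinal.{0}) :
    encI i c n φ s = (Encodable.encode (i, c.map bitA, n, φ), c.flatMap blkA ++ s) := rfl

private theorem ov_blk {X : Set Ordinal.{0}} {c : List Ent} (h : Ov X (c.flatMap blkA)) :
    OvE X c := by
  intro a ha β
  have h1 : ∀ x ∈ blkA a, x ∈ X := fun x hx => h x (List.mem_flatMap.2 ⟨a, ha, hx⟩)
  cases β with
  | true =>
    refine ⟨h1 _ (by simp [blkA]), fun ζ hζ => h1 _ ?_⟩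
    simp [blkA, hζ]
  | false =>
    refine ⟨h1 _ (by simp [blkA]), fun ζ hζ => h1 _ ?_⟩
    simp [blkA, hζ]

private theorem opt_lift {π : Ordinal.{0} → Ordinal.{0}} {y : Ordinal.{0}}
    {o : Option Ordinal.{0}} (h0 : π y = 0 → y = 0) (h : π y = o.getD 0) :
    (o.map fun _ => y).getD 0 = y ∧ (o.map fun _ => y).map π = o := by
  cases o with
  | none => exact ⟨(h0 h).symm, rfl⟩
  | some ζ => exact ⟨rfl, congrArg some h⟩

private theorem blk_lift {X : Set Ordinal.{0}} {π : Ordinal.{0} → Ordinal.{0}}
    (h0 : ∀ x ∈ X, π x = 0 → x = 0) (c1 : List Ent) (s1 : List Ordinal.{0}) :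
    ∀ l : List Ordinal.{0}, Ov X l → l.map π = c1.flatMap blkA ++ s1 →
      ∃ c s, l = c.flatMap blkA ++ s ∧ OvE X c ∧ Ov X s ∧ c.map (Ent.map π) = c1 ∧
        s.map π = s1 := by
  induction c1 with
  | nil =>
    intro l hl h
    exact ⟨[], l, rfl, fun a ha => absurd ha (by simp), hl, rfl, h⟩
  | cons a1 c1 ih =>
    intro l hl h
    rw [List.flatMap_cons, List.append_assoc] at h
    obtain ⟨l1, l2, rfl, hl1, hl2⟩ := List.map_eq_append_iff.1 h
    have hX2 : Ov X l2 := fun x hx => hl x (List.mem_append_right _ hx)
    have hX1 : Ov X l1 := fun x hx => hl x (List.mem_append_left _ hx)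
    obtain ⟨c, s, h1, h2, h3, h4, h5⟩ := ih l2 hX2 hl2
    have h6 : ∃ a : Ent, l1 = blkA a ∧ Ent.map π a = a1 := by
      unfold blkA at hl1
      obtain ⟨y1, k1, rfl, e1, hl1⟩ := List.map_eq_cons_iff.1 hl1
      obtain ⟨y2, k2, rfl, e2, hl1⟩ := List.map_eq_cons_iff.1 hl1
      obtain ⟨y3, k3, rfl, e3, hl1⟩ := List.map_eq_cons_iff.1 hl1
      obtain ⟨y4, k4, rfl, e4, hl1⟩ := List.map_eq_cons_iff.1 hl1
      obtain rfl := List.map_eq_nil_iff.1 hl1
      have f1 := opt_lift (h0 y1 (hX1 _ (by simp))) e1
      have f2 := opt_lift (h0 y2 (hX1 _ (by simp))) e2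
      refine ⟨⟨fun β => match β with
        | true => (a1.h true).map fun _ => y1
        | false => (a1.h false).map fun _ => y2, fun β => match β with
        | true => y3
        | false => y4⟩, ?_, ?_⟩
      · unfold blkA
        simp only
        rw [f1.1, f2.1]
      · unfold Ent.map
        cases a1 with
        | mk ah ag =>
          simp only at e3 e4 f1 f2 ⊢
          have g1 : (fun β => Option.map π (match β with
            | true => Option.map (fun _ => y1) (ah true)
            | false => Option.map (fun _ => y2) (ah false))) = ah := by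
            funext β
            cases β with
            | true => exact f1.2
            | false => exact f2.2
          have g2 : (fun β => π (match β with
            | true => y3
            | false => y4)) = ag := by
            funext β
            cases β with
            | true => exact e3
            | false => exact e4
          rw [g1, g2]
    obtain ⟨a, rfl, rfl⟩ := h6
    refine ⟨a :: c, s, ?_, ?_, h3, ?_, h5⟩
    · rw [List.flatMap_cons, List.append_assoc, ← h1]
    · have h7 : OvE X [a] := ov_blk (by
        intro x hx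
        rw [List.flatMap_cons, List.flatMap_nil, List.append_nil] at hx
        exact hX1 x hx)
      intro b hb
      rcases List.mem_cons.1 hb with rfl | hb
      · exact h7 b (by simp)
      · exact h2 b hb
    · rw [List.map_cons, h4]

private theorem bit_map (π : Ordinal.{0} → Ordinal.{0}) (c : List Ent) :
    (c.map (Ent.map π)).map bitA = c.map bitA := by
  rw [List.map_map]
  refine List.map_congr_left fun a _ => ?_
  simp [Ent.map, bitA]

private theorem encI_lift {X : Set Ordinal.{0}} {π : Ordinal.{0} → Ordinal.{0}}
    (h0 : ∀ x ∈ X, π x = 0 → x = 0) {i : Bool} {c1 : List Ent} {n : List ℕ} {φ : Fm}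
    {s1 : List Ordinal.{0}} {z : St} (hz : ∀ x ∈ z.2, x ∈ X)
    (h : z.map π = encI i c1 n φ s1) :
    ∃ c s, z = encI i c n φ s ∧ OvE X c ∧ Ov X s ∧ c.map (Ent.map π) = c1 ∧ s.map π = s1 := by
  rw [encI_eq] at h
  unfold St.map at h
  rw [Prod.mk.injEq] at h
  obtain ⟨h1, h2⟩ := h
  obtain ⟨c, s, h3, h4, h5, h6, h7⟩ := blk_lift h0 c1 s1 z.2 hz h2
  refine ⟨c, s, ?_, h4, h5, h6, h7⟩
  rw [encI_eq, ← h3, ← bit_map π c, h6, ← h1]

private theorem emap_inj {X : Set Ordinal.{0}} : ∀ c c' : List Ent, OvE X c → OvE X c' →
    c.map (Ent.map (col X)) = c'.map (Ent.map (col X)) → c = c' := by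
  intro c
  induction c with
  | nil =>
    intro c' _ _ h
    exact (List.map_eq_nil_iff.1 h.symm).symm
  | cons a c ih =>
    intro c' h1 h2 h
    cases c' with
    | nil => exact absurd h (by simp)
    | cons a' c' =>
      rw [List.map_cons, List.map_cons, List.cons.injEq] at h
      have e1 := ih c' (fun b hb => h1 b (List.mem_cons_of_mem _ hb))
        (fun b hb => h2 b (List.mem_cons_of_mem _ hb)) h.2
      have k1 := h1 a List.mem_cons_self
      have k2 := h2 a' List.mem_cons_self
      have e2 : a = a' := by
        have e3 := h.1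
        cases a with
        | mk ah ag =>
          cases a' with
          | mk ah' ag' =>
            unfold Ent.map at e3
            rw [Ent.mk.injEq] at e3
            simp only at e3 k1 k2
            have g1 : ah = ah' := by
              funext β
              have e4 := congrFun e3.1 β
              cases h3 : ah β with
              | none =>
                cases h4 : ah' β with
                | none => rfl
                | some ζ' =>
                  rw [h3, h4] at e4
                  exact absurd e4 (by simp)
              | some ζ =>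
                cases h4 : ah' β with
                | none =>
                  rw [h3, h4] at e4
                  exact absurd e4 (by simp)
                | some ζ' =>
                  rw [h3, h4] at e4
                  exact congrArg some (col_inj ((k1 β).2 ζ h3) ((k2 β).2 ζ' h4)
                    (Option.some.inj e4))
            have g2 : ag = ag' := by
              funext β
              exact col_inj (k1 β).1 (k2 β).1 (congrFun e3.2 β)
            rw [g1, g2]
      rw [e1, e2]

private theorem bd_aux [TP] {κ : Ordinal.{0}} {i : Bool} {c : List Ent} {n : List ℕ} {φ : Fm}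
    {s : List Ordinal.{0}} (hc : Val (ηI κ) (κI κ) c) (hs : ∀ x ∈ s, x < κ) :
    ∀ x ∈ (encI i c n φ s).2, x ≤ κ + Ordinal.omega0 := by
  rcases eq_zero_or_pos κ with rfl | hκ
  · cases c with
    | nil =>
      cases s with
      | nil =>
        intro x hx
        exact absurd hx (by simp [encI])
      | cons y s => exact absurd (hs y (by simp)) (not_lt.2 zero_le)
    | cons a c =>
      have h1 := (tag_le hc (a := a) (by simp) true).1
      exact absurd (show a.g true < 0 from h1) (not_lt.2 zero_le)
  · exact encI_le hκ hc hs

theorem asysI [TP] (F : (ℕ → ℕ) → ℕ → ℕ) : ∃ S : ASys, S.E = EI F := by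
  obtain ⟨G1, hG1⟩ := abs_FPsi fun w => cmpt true (F (ev w))
  obtain ⟨G2, hG2⟩ := abs_FPsi fun w => cmpt false (F (ev w))
  obtain ⟨G0, hG0⟩ := cl_and G1 G2
  refine ⟨{ E := EI F, G := G0, bd := ?_, abs := ?_ }, rfl⟩
  · rintro κ z z' ⟨i, c, n, m, φ, s, φ', s', h1, h2, h3, h4, rfl, rfl, h5⟩
    exact ⟨bd_aux h1 h2, bd_aux h1 h3⟩
  · intro X hM hC hn ha hw κ hκ z z' hz hz'
    obtain ⟨hC1, hC2⟩ := hG0 X hC
    have hX0 : (0 : Ordinal.{0}) ∈ X := by
      have := hn 0
      rwa [Nat.cast_zero] at this
    have hX1 : (1 : Ordinal.{0}) ∈ X := by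
      have := hn 1
      rwa [Nat.cast_one] at this
    have hc0 : col X 0 = 0 := by
      have := col_nat hn 0
      rwa [Nat.cast_zero] at this
    have hc1 : col X 1 = 1 := by
      have := col_nat hn 1
      rwa [Nat.cast_one] at this
    have hη : (fun β => col X (ηI κ β)) = ηI (col X κ) := by
      funext β
      cases β with
      | true => exact col_add_omega (ha κ hκ)
      | false => exact hc0
    have hκ' : (fun β => col X (κI κ β)) = κI (col X κ) := by
      funext β
      cases β with
      | true => rfl
      | false => exact hc1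
    have hηX : ∀ β, ηI κ β ∈ X := by
      intro β
      cases β with
      | true => exact hw κ hκ
      | false => exact hX0
    have hκX : ∀ β, κI κ β ∈ X := by
      intro β
      cases β with
      | true => exact hκ
      | false => exact hX1
    have hFP : ∀ (i : Bool) (φ : Fm) (f : List ℕ) (v : ℕ) (ζ : List Ordinal.{0}) (nn : List ℕ)
        (c : List Ent), Ov X ζ → OvE X c →
        (FPsi (Val (ηI κ) (κI κ)) dec (fun w => cmpt i (F (ev w))) φ f v ζ nn c ↔
          FPsi (Val (ηI (col X κ)) (κI (col X κ))) dec (fun w => cmpt i (F (ev w))) φ f v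
            (ζ.map (col X)) nn (c.map (Ent.map (col X)))) := by
      intro i φ f v ζ nn c h1 h2
      rw [← hη, ← hκ']
      cases i with
      | true => exact hG1 X ⟨hC1, hM, hn, ha, hw⟩ _ _ hηX hκX φ f v ζ nn c h1 h2
      | false => exact hG2 X ⟨hC2, hM, hn, ha, hw⟩ _ _ hηX hκX φ f v ζ nn c h1 h2
    have hV : ∀ c : List Ent, OvE X c → (Val (ηI κ) (κI κ) c ↔
        Val (ηI (col X κ)) (κI (col X κ)) (c.map (Ent.map (col X)))) := by
      intro c hc
      rw [← hη, ← hκ']
      exact val_col hX0 hηX hκX hc
    have hS : ∀ s : List Ordinal.{0}, Ov X s →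
        ((∀ x ∈ s, x < κ) ↔ ∀ x ∈ s.map (col X), x < col X κ) := by
      intro s hs
      constructor
      · intro h x' hx'
        obtain ⟨x, hx, rfl⟩ := List.mem_map.1 hx'
        exact col_lt (hs x hx) (h x hx)
      · intro h x hx
        exact (col_lt_iff (hs x hx)).1 (h _ (List.mem_map_of_mem hx))
    have hi0 : ∀ x ∈ X, col X x = 0 → x = 0 := by
      intro x hx h
      exact col_inj hx hX0 (h.trans hc0.symm)
    constructor
    · rintro ⟨i, c, n, m, φ, s, φ', s', h1, h2, h3, h4, rfl, rfl, h5⟩
      have hc : OvE X c := ov_blk fun x hx => hz x (by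
        rw [encI_eq]
        exact List.mem_append_left _ hx)
      have hs : Ov X s := fun x hx => hz x (by
        rw [encI_eq]
        exact List.mem_append_right _ hx)
      have hs' : Ov X s' := fun x hx => hz' x (by
        rw [encI_eq]
        exact List.mem_append_right _ hx)
      refine ⟨i, c.map (Ent.map (col X)), n, m, φ, s.map (col X), φ', s'.map (col X),
        (hV c hc).1 h1, (hS s hs).1 h2, (hS s' hs').1 h3, h4, encI_map _ hc0 _ _ _ _ _,
        encI_map _ hc0 _ _ _ _ _, ?_⟩
      have h6 := (hFP i _ _ _ (s ++ s') n c (fun x hx => by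
        rcases List.mem_append.1 hx with hx | hx
        · exact hs x hx
        · exact hs' x hx) hc).1 h5
      rw [List.map_append] at h6
      rw [List.length_map, List.length_map]
      exact h6
    · rintro ⟨i, c1, n, m, φ, s1, φ', s1', h1, h2, h3, h4, h5, h6, h7⟩
      obtain ⟨c, s, rfl, hc, hs, rfl, rfl⟩ := encI_lift hi0 hz h5
      obtain ⟨c', s', rfl, hc', hs', hcc, rfl⟩ := encI_lift hi0 hz' h6
      have hce : c' = c := emap_inj c' c hc' hc hcc
      subst hce
      refine ⟨i, c', n, m, φ, s, φ', s', (hV c' hc).2 h1, (hS s hs).2 h2, (hS s' hs').2 h3, h4,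
        rfl, rfl, ?_⟩
      refine (hFP i _ _ _ (s ++ s') n c' (fun x hx => by
        rcases List.mem_append.1 hx with hx | hx
        · exact hs x hx
        · exact hs' x hx) hc).2 ?_
      rw [List.map_append]
      rw [List.length_map, List.length_map] at h7
      exact h7

end MP2900
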