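import Pool.Agent.Lib.MP_2900b9_lc.C.TTV

/-!
Module TTAcc: the tree of attempts is well-founded.

* encA_inj: injectivity of `encode` on lists, a list of pairs is determined by its two lists of components.
Suppose `encA []` is not accessible for `EII F κ`. Then there is a sequence of structures `z_n`, `z_0 = encA []`, `EII F κ z_{n+1} z_n` (not accessible points have not accessible predecessors; dependent choice). By encA_inj `z_n = encA t_n`, `t_{n+1} = t_n ++ [a_n]`, `t_0 = []`, `OKt F t_{n+1}`. Let `b n = a_n`; `t_n = seg b n`. By cnd_of_ok all `Cnd F i b` hold.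
By branch_V `ev (wr b) ∈ Vset`, so `wr b ∈ Uset`, so `F (wr b) ∈ Aset`. The conditions `fn n` give `F (wr b) = y`, `y k = (b k).2.y`: for each `n` there is `w_n` agreeing with `wr b` below `n` and `F w_n` with `y` below `n`; `w_n → wr b`, continuity: `F w_n → F (wr b)` and `F w_n → y` coordinatewise. So `y ∈ Aset`, `relZ y` is accessible at `none`, so at every `some m`, but the conditions `ds`
give an infinite descending sequence `some d_0, some d_1, ..` of `relZ y`. Contradiction.
-/

set_option autoImplicit false

namespace MP2900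

open Set Pool.Agent.Lib.MP_2900b9_lc

open Topology

variable [TP]

omit [TP] in
private theorem ttacc_pairs {t t' : List At} (h1 : t.map Prod.snd = t'.map Prod.snd)
    (h2 : t.map Prod.fst = t'.map Prod.fst) : t = t' := by
  induction t generalizing t' with
  | nil =>
    cases t' with
    | nil => rfl
    | cons a t' => simp at h1
  | cons a t ih =>
    cases t' with
    | nil => simp at h1
    | cons a' t' =>
      rw [List.map_cons, List.map_cons, List.cons.injEq] at h1 h2
      rw [ih h1.2 h2.2, Prod.ext h2.1 h1.1]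

omit [TP] in
theorem encA_inj {t t' : List At} (h : encA t = encA t') : t = t' := by
  unfold encA at h
  rw [Prod.mk.injEq] at h
  exact ttacc_pairs (Encodable.encode_injective h.1) h.2

private theorem ttacc_fn {F : (ℕ → ℕ) → ℕ → ℕ} (hF : Continuous F) (b : ℕ → At)
    (h : ∀ n, Cnd F (.fn n) b) : F (wr b) = fun k => (b k).2.y := by
  choose w hw1 hw2 using h
  have ht : Filter.Tendsto w Filter.atTop (𝓝 (wr b)) := by
    rw [tendsto_pi_nhds]
    intro j
    refine tendsto_const_nhds.congr' ?_
    filter_upwards [Filter.eventually_gt_atTop j] with n hn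
    exact (hw1 n j hn).symm
  have hFt : Filter.Tendsto (fun n => F (w n)) Filter.atTop (𝓝 (F (wr b))) :=
    (hF.tendsto _).comp ht
  rw [tendsto_pi_nhds] at hFt
  funext k
  have h1 : ∀ᶠ n in Filter.atTop, F (w n) k = F (wr b) k := by
    have h2 := (hFt k).eventually (IsOpen.mem_nhds (isOpen_discrete {F (wr b) k}) rfl)
    filter_upwards [h2] with n hn
    exact hn
  obtain ⟨n, hn1, hn2⟩ := (h1.and (Filter.eventually_gt_atTop k)).exists
  rw [← hn1]
  exact hw2 n k hn2

theorem tt_acc {F : (ℕ → ℕ) → ℕ → ℕ} (hF : Continuous F) (hFU : ∀ w, w ∈ Uset ↔ F w ∈ Aset)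
    (κ : Ordinal.{0}) : Acc (EII F κ) (encA []) := by
  by_contra hno
  obtain ⟨f, hf0, hf⟩ := not_acc_iff_exists_descending_chain.1 hno
  choose t b hb1 hb2 _ hb4 using hf
  have ht0 : t 0 = [] := encA_inj ((hb2 0).symm.trans hf0)
  have hts : ∀ n, t (n + 1) = t n ++ [b n] := fun n => encA_inj ((hb2 (n + 1)).symm.trans (hb1 n))
  have hseg : ∀ n, t n = seg b n := by
    intro n
    induction n with
    | zero => rw [ht0, seg_zero]
    | succ n ih => rw [hts, ih, seg_succ]
  have hok : ∀ n, OKt F (seg b (n + 1)) := by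
    intro n
    have h1 := hb4 n
    rw [hseg n, ← seg_succ] at h1
    exact h1
  have hcnd : ∀ i, Cnd F i b := fun i => cnd_of_ok hok i
  have hV : ev (wr b) ∈ Vset := branch_V (F := F) b (fun i => hcnd _) (fun k => hcnd _)
  have hA : F (wr b) ∈ Aset := (hFU (wr b)).1 (Or.inl hV)
  rw [ttacc_fn hF b fun n => hcnd _] at hA
  have hacc : Acc (relZ fun k => (b k).2.y) none := hA.2.1
  have hacc0 : Acc (relZ fun k => (b k).2.y) (some (b 0).2.d) := hacc.inv trivial
  exact not_acc_iff_exists_descending_chain.2
    ⟨fun n => some (b n).2.d, rfl, fun n => hcnd (.ds n)⟩ hacc0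

end MP2900
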