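import Pool.Agent.Lib.MP_2900b9_lc.C.Cond
import Pool.Agent.Lib.MP_2900b9_lc.C.TTAcc
import Pool.Agent.Lib.MP_2900b9_lc.C.ClSk

/-!
Module AsysII: the relation of the second reduction is an absolute system, with `G n l = []` (no extra closure is needed).

bd: the ordinals of `encA t` are the first components, `< κ + ω`.
abs: let `κ ∈ X`, `π = col X`, `π 0 = 0`. For a sequence `b : ℕ → At` with all `(b i).1 ∈ X` put `b' i = (π (b i).1, (b i).2)`.
* wr_col: `wr b = wr b'`: the facts agree by cond_FO.
* cnd_col: `Cnd F i b ↔ Cnd F i b'`: tr: col_lt_iff. fn: wr_col. ds: no ordinals. wt: cases on the formula in `Wit`: `all`: cond (level `g v ∈ X`, entries `< g v`); `W`: condW (with `c < a < v`), violR_map; `(c.map g).map π = c.map (π ∘ g)`.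
* `Rlv i N b ↔ Rlv i N b'` (no ordinals occur: `fn` quantifies over all sequences). `ext` of the image of `t` is the image of `ext t` (default ordinal 0).
* So `OKt F t ↔ OKt F (t.map (fun x => (π x.1, x.2)))` for `t` over `X`, and `x.1 < κ + ω ↔ π x.1 < π κ + ω` (col_add_omega, col_lt_iff). `(encA t).map π = encA (t.map ..)`.
(←) if `z.map π = encA (t1 ++ [a1])` with `z` over `X`, then `z = encA (t ++ [a])` with image `t1 ++ [a1]` (zip of `z.2` with the second components; lengths agree); similarly `z'`, and the two lifts agree by encA_inj and col_inj.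
-/

set_option autoImplicit false

namespace MP2900

open Set Pool.Agent.Lib.MP_2900b9_lc

/-- image of an entry -/
private noncomputable def am2 (X : Set Ordinal.{0}) (x : At) : At := (col X x.1, x.2)

private theorem am2_zero (X : Set Ordinal.{0}) : col X 0 = 0 :=
  le_antisymm (col_le X 0) zero_le

private theorem am2_ext (X : Set Ordinal.{0}) (t : List At) :
    ext (t.map (am2 X)) = fun i => am2 X (ext t i) := by
  funext i
  unfold ext
  by_cases h : i < t.length
  · simp [List.getD, h]
  · have h1 : (t.map (am2 X)).length ≤ i := by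
      rw [List.length_map]
      exact not_lt.1 h
    rw [List.getD_eq_default _ _ h1, List.getD_eq_default _ _ (not_lt.1 h)]
    have h2 : (default : At) = ((0 : Ordinal.{0}), (default : Aux)) := rfl
    rw [h2]
    unfold am2
    rw [am2_zero]

private theorem am2_FO [TP] {X : Set Ordinal.{0}} (hX : ClM X) {g : ℕ → Ordinal.{0}}
    (hg : ∀ i, g i ∈ X) (φ : Fm) (f : List ℕ) (v : ℕ) :
    Fg g φ f v ↔ Fg (fun i => col X (g i)) φ f v := by
  unfold Fg
  have h1 : f.map (fun i => col X (g i)) = (f.map g).map (col X) := by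
    rw [List.map_map]
    rfl
  rw [h1]
  refine cond_FO hX (hg v) φ fun x hx => ?_
  obtain ⟨j, -, rfl⟩ := List.mem_map.1 hx
  exact hg j

open Classical in
private theorem am2_wr [TP] {X : Set Ordinal.{0}} (hX : ClM X) {b : ℕ → At}
    (hb : ∀ i, (b i).1 ∈ X) : wr b = wr (fun i => am2 X (b i)) := by
  unfold wr
  refine congrArg (fun h => jn h (fun i => (b i).2.v)) ?_
  funext k
  change (if k % 2 = 0 then (if (b (k / 2)).2.x = 0 then 0 else 1)
      else match (Encodable.decode (k / 2) : Option (Fm × List ℕ × ℕ)) with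
        | none => 0
        | some (φ, f, v) => if Fg (fun i => (b i).1) φ f v then 1 else 0) =
    (if k % 2 = 0 then (if (b (k / 2)).2.x = 0 then 0 else 1)
      else match (Encodable.decode (k / 2) : Option (Fm × List ℕ × ℕ)) with
        | none => 0
        | some (φ, f, v) => if Fg (fun i => col X (b i).1) φ f v then 1 else 0)
  refine if_congr Iff.rfl rfl ?_
  cases (Encodable.decode (k / 2) : Option (Fm × List ℕ × ℕ)) with
  | none => rfl
  | some z =>
    obtain ⟨φ, f, v⟩ := z
    exact if_congr (am2_FO hX hb φ f v) rfl rfl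

private theorem am2_wit [TP] {X : Set Ordinal.{0}} (hX : ClM X) {g : ℕ → Ordinal.{0}}
    (hg : ∀ i, g i ∈ X) (φ : Fm) (f : List ℕ) (v : ℕ) (t : ℕ × ℕ) :
    Wit g φ f v t ↔ Wit (fun i => col X (g i)) φ f v t := by
  have hlt : ∀ i j, g i < g j ↔ col X (g i) < col X (g j) := fun i j =>
    (col_lt_iff (hg i)).symm
  have hmap : ∀ l : List ℕ, l.map (fun i => col X (g i)) = (l.map g).map (col X) := by
    intro l
    rw [List.map_map]
    rfl
  have hall : ∀ (l : List ℕ) (a : ℕ), (∀ x ∈ l, g x < g a) ↔
      ∀ x ∈ l, col X (g x) < col X (g a) := fun l a =>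
    forall_congr' fun x => forall_congr' fun _ => hlt x a
  have hin : ∀ (l : List ℕ) (a : ℕ), (∀ x ∈ l, g x < g a) →
      ∀ y ∈ l.map g, y ∈ X ∧ y < g a := by
    intro l a h y hy
    obtain ⟨x, hx, rfl⟩ := List.mem_map.1 hy
    exact ⟨hg x, h x hx⟩
  cases φ with
  | bot => exact Iff.rfl
  | lt i j => exact Iff.rfl
  | S φ l k => exact Iff.rfl
  | R l φ => exact Iff.rfl
  | imp φ ψ => exact Iff.rfl
  | all ψ =>
    change ((∀ x ∈ f, g x < g v) → ¬ Sat (g v) (.all ψ) (f.map g) →
      g t.2 < g v ∧ ¬ Sat (g v) ψ (g t.2 :: f.map g)) ↔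
      ((∀ x ∈ f, col X (g x) < col X (g v)) →
        ¬ Sat (col X (g v)) (.all ψ) (f.map (fun i => col X (g i))) →
        col X (g t.2) < col X (g v) ∧
          ¬ Sat (col X (g v)) ψ (col X (g t.2) :: f.map (fun i => col X (g i))))
    rw [hmap, ← hall]
    refine forall_congr' fun h => ?_
    refine imp_congr (not_congr (cond hX (hg v) _ _ (hin f v h))) ?_
    rw [← hlt]
    refine and_congr_right fun h1 => not_congr ?_
    refine cond hX (hg v) ψ (g t.2 :: f.map g) fun y hy => ?_
    rcases List.mem_cons.1 hy with rfl | hy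
    · exact ⟨hg _, h1⟩
    · exact hin f v h y hy
  | W b u l k =>
    cases b with
    | false =>
      change (∀ c a, Sel l f c → f[k]? = some a → (∀ x ∈ c, g x < g a) →
        g a < g v → WE (g a) (g v) u (c.map g) → ViolR (· < ·) u (c.map g) ∨
          (g a < g t.2 ∧ g t.2 < g v ∧ WO (g a) (g t.2) (u ++ [t.1]) (c.map g))) ↔
        (∀ c a, Sel l f c → f[k]? = some a → (∀ x ∈ c, col X (g x) < col X (g a)) →
        col X (g a) < col X (g v) →
        WE (col X (g a)) (col X (g v)) u (c.map (fun i => col X (g i))) →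
        ViolR (· < ·) u (c.map (fun i => col X (g i))) ∨
          (col X (g a) < col X (g t.2) ∧ col X (g t.2) < col X (g v) ∧
            WO (col X (g a)) (col X (g t.2)) (u ++ [t.1]) (c.map (fun i => col X (g i)))))
      refine forall_congr' fun c => forall_congr' fun a => forall_congr' fun _ =>
        forall_congr' fun _ => ?_
      rw [hmap, ← hall]
      refine forall_congr' fun h => ?_
      rw [← hlt]
      refine forall_congr' fun h1 => ?_
      refine imp_congr (condW hX (hg v) (hg a) h1 false u _ (hin c a h)) ?_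
      refine or_congr (violR_map _ _ _ _ _ fun x hx y hy => ?_) ?_
      · exact (col_lt_iff (hin c a h x hx).1).symm
      · rw [← hlt, ← hlt]
        refine and_congr_right fun h2 => and_congr_right fun _ => ?_
        exact condW hX (hg t.2) (hg a) h2 true _ _ (hin c a h)
    | true =>
      change (∀ c a, Sel l f c → f[k]? = some a → (∀ x ∈ c, g x < g a) →
        g a < g v → ¬ WO (g a) (g v) u (c.map g) →
          g t.2 < g a ∧ ¬ WE (g a) (g v) (u ++ [t.1]) (c.map g ++ [g t.2])) ↔
        (∀ c a, Sel l f c → f[k]? = some a → (∀ x ∈ c, col X (g x) < col X (g a)) →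
        col X (g a) < col X (g v) →
        ¬ WO (col X (g a)) (col X (g v)) u (c.map (fun i => col X (g i))) →
          col X (g t.2) < col X (g a) ∧
            ¬ WE (col X (g a)) (col X (g v)) (u ++ [t.1])
              (c.map (fun i => col X (g i)) ++ [col X (g t.2)]))
      refine forall_congr' fun c => forall_congr' fun a => forall_congr' fun _ =>
        forall_congr' fun _ => ?_
      rw [hmap, ← hall]
      refine forall_congr' fun h => ?_
      rw [← hlt]
      refine forall_congr' fun h1 => ?_
      refine imp_congr (not_congr (condW hX (hg v) (hg a) h1 true u _ (hin c a h))) ?_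
      rw [← hlt]
      refine and_congr_right fun h2 => not_congr ?_
      have h3 := condW hX (hg v) (hg a) h1 false (u ++ [t.1]) (c.map g ++ [g t.2])
        (fun y hy => by
          rcases List.mem_append.1 hy with hy | hy
          · exact hin c a h y hy
          · rw [List.mem_singleton.1 hy]
            exact ⟨hg _, h2⟩)
      rw [List.map_append] at h3
      exact h3

private theorem am2_cnd [TP] (F : (ℕ → ℕ) → ℕ → ℕ) {X : Set Ordinal.{0}} (hX : ClM X)
    {b : ℕ → At} (hb : ∀ i, (b i).1 ∈ X) (i : CIx) :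
    Cnd F i b ↔ Cnd F i (fun i => am2 X (b i)) := by
  cases i with
  | tr i =>
    change (i ≠ 0 → (b i).2.x ≠ 0 → par i ≠ 0 → (b (par i)).2.x ≠ 0 →
      (b (b i).2.r).1 < (b (b (par i)).2.r).1) ↔
      (i ≠ 0 → (b i).2.x ≠ 0 → par i ≠ 0 → (b (par i)).2.x ≠ 0 →
      col X (b (b i).2.r).1 < col X (b (b (par i)).2.r).1)
    rw [col_lt_iff (hb _)]
  | fn n =>
    change (∃ w : ℕ → ℕ, (∀ k < n, w k = wr b k) ∧ ∀ k < n, F w k = (b k).2.y) ↔
      (∃ w : ℕ → ℕ, (∀ k < n, w k = wr (fun i => am2 X (b i)) k) ∧ ∀ k < n, F w k = (b k).2.y)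
    rw [← am2_wr hX hb]
  | wt k =>
    change (match (Encodable.decode k : Option (Fm × List ℕ × ℕ)) with
      | none => True
      | some (φ, f, v) => Wit (fun i => (b i).1) φ f v ((b k).2.t1, (b k).2.t2)) ↔
      (match (Encodable.decode k : Option (Fm × List ℕ × ℕ)) with
      | none => True
      | some (φ, f, v) => Wit (fun i => col X (b i).1) φ f v ((b k).2.t1, (b k).2.t2))
    cases (Encodable.decode k : Option (Fm × List ℕ × ℕ)) with
    | none => exact Iff.rfl
    | some z =>
      obtain ⟨φ, f, v⟩ := z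
      exact am2_wit hX hb φ f v _
  | ds i => exact Iff.rfl

private theorem am2_rlv [TP] (X : Set Ordinal.{0}) (i : CIx) (N : ℕ) (b : ℕ → At) :
    Rlv i N b ↔ Rlv i N (fun i => am2 X (b i)) := by
  cases i with
  | tr i => exact Iff.rfl
  | fn n => exact Iff.rfl
  | wt k => exact Iff.rfl
  | ds i => exact Iff.rfl

private theorem am2_ok [TP] (F : (ℕ → ℕ) → ℕ → ℕ) {X : Set Ordinal.{0}} (hX : ClM X)
    (h0 : (0 : Ordinal.{0}) ∈ X) {t : List At} (ht : ∀ x ∈ t, x.1 ∈ X) :
    OKt F t ↔ OKt F (t.map (am2 X)) := by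
  have hb : ∀ i, (ext t i).1 ∈ X := by
    intro i
    unfold ext
    by_cases h : i < t.length
    · have h1 : t.getD i default = t[i] := by simp [List.getD, h]
      rw [h1]
      exact ht _ (List.getElem_mem h)
    · rw [List.getD_eq_default _ _ (not_lt.1 h)]
      exact h0
  unfold OKt
  refine forall_congr' fun i => ?_
  rw [am2_ext, List.length_map]
  exact imp_congr (am2_rlv X i _ _) (am2_cnd F hX hb i)

private theorem am2_enc (X : Set Ordinal.{0}) (t : List At) :
    (encA t).map (col X) = encA (t.map (am2 X)) := by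
  unfold encA St.map
  have h1 : (t.map (am2 X)).map Prod.snd = t.map Prod.snd := by
    rw [List.map_map]
    rfl
  have h2 : (t.map (am2 X)).map Prod.fst = (t.map Prod.fst).map (col X) := by
    rw [List.map_map, List.map_map]
    rfl
  rw [h1, h2]

private theorem am2_lift (X : Set Ordinal.{0}) (s : List At) : ∀ l : List Ordinal.{0},
    l.map (col X) = s.map Prod.fst → ∃ t : List At, t.map Prod.fst = l ∧ t.map (am2 X) = s := by
  induction s with
  | nil =>
    intro l hl
    refine ⟨[], ?_, rfl⟩
    rw [List.map_nil, List.map_eq_nil_iff] at hl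
    rw [hl]
    rfl
  | cons a s ih =>
    intro l hl
    cases l with
    | nil => exact absurd hl (by simp)
    | cons x l =>
      rw [List.map_cons, List.map_cons, List.cons.injEq] at hl
      obtain ⟨t, h1, h2⟩ := ih l hl.2
      refine ⟨(x, a.2) :: t, by rw [List.map_cons, h1], ?_⟩
      rw [List.map_cons, h2]
      have h3 : am2 X (x, a.2) = a := Prod.ext hl.1 rfl
      rw [h3]

private theorem am2_lift' (X : Set Ordinal.{0}) (s : List At) {z : St}
    (hz : z.map (col X) = encA s) : ∃ t : List At, z = encA t ∧ t.map (am2 X) = s := by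
  unfold St.map encA at hz
  rw [Prod.mk.injEq] at hz
  obtain ⟨t, h1, h2⟩ := am2_lift X s z.2 hz.2
  refine ⟨t, ?_, h2⟩
  have h3 : t.map Prod.snd = s.map Prod.snd := by
    rw [← h2, List.map_map]
    rfl
  unfold encA
  rw [h1, h3, ← hz.1]

private theorem am2_inj {X : Set Ordinal.{0}} (t : List At) : ∀ t' : List At,
    (∀ x ∈ t, x.1 ∈ X) → (∀ x ∈ t', x.1 ∈ X) → t.map (am2 X) = t'.map (am2 X) → t = t' := by
  induction t with
  | nil =>
    intro t' _ _ h
    rw [List.map_nil] at h
    exact (List.map_eq_nil_iff.1 h.symm).symm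
  | cons a t ih =>
    intro t' h1 h2 h
    cases t' with
    | nil => exact absurd h (by simp)
    | cons a' t' =>
      rw [List.map_cons, List.map_cons, List.cons.injEq] at h
      have h3 : a = a' := by
        obtain ⟨h4, h5⟩ := Prod.mk.injEq _ _ _ _ ▸ h.1
        exact Prod.ext (col_inj (h1 a List.mem_cons_self) (h2 a' List.mem_cons_self) h4) h5
      rw [h3, ih t' (fun x hx => h1 x (List.mem_cons_of_mem _ hx))
        (fun x hx => h2 x (List.mem_cons_of_mem _ hx)) h.2]

theorem asysII [TP] (F : (ℕ → ℕ) → ℕ → ℕ) : ∃ S : ASys, S.E = EII F := by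
  refine ⟨{ E := EII F, G := fun _ _ => [], bd := ?_, abs := ?_ }, rfl⟩
  · rintro κ z z' ⟨t, a, rfl, rfl, h, -⟩
    constructor
    · intro x hx
      obtain ⟨y, hy, rfl⟩ := List.mem_map.1 hx
      exact (h y hy).le
    · intro x hx
      obtain ⟨y, hy, rfl⟩ := List.mem_map.1 hx
      exact (h y (List.mem_append_left _ hy)).le
  · intro X hX _ hnat haddn _ κ hκ z z' hz hz'
    have h0 : (0 : Ordinal.{0}) ∈ X := by
      have := hnat 0
      rwa [Nat.cast_zero] at this
    have hω : col X (κ + Ordinal.omega0) = col X κ + Ordinal.omega0 :=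
      col_add_omega (haddn κ hκ)
    have hlt : ∀ x ∈ X, (x < κ + Ordinal.omega0 ↔ col X x < col X κ + Ordinal.omega0) := by
      intro x hx
      rw [← hω, col_lt_iff hx]
    constructor
    · rintro ⟨t, a, rfl, rfl, h, hok⟩
      have ht : ∀ x ∈ t ++ [a], x.1 ∈ X := fun x hx => hz _ (List.mem_map_of_mem hx)
      refine ⟨t.map (am2 X), am2 X a, ?_, am2_enc X t, ?_, ?_⟩
      · rw [am2_enc, List.map_append]
        rfl
      · intro x hx
        have h1 : t.map (am2 X) ++ [am2 X a] = (t ++ [a]).map (am2 X) := by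
          rw [List.map_append]
          rfl
        rw [h1] at hx
        obtain ⟨y, hy, rfl⟩ := List.mem_map.1 hx
        exact (hlt _ (ht y hy)).1 (h y hy)
      · have h1 := (am2_ok F hX h0 ht).1 hok
        rw [List.map_append] at h1
        exact h1
    · rintro ⟨t1, a1, h1, h2, h3, hok⟩
      obtain ⟨t, rfl, ht⟩ := am2_lift' X _ h1
      obtain ⟨t', rfl, ht'⟩ := am2_lift' X _ h2
      have htX : ∀ x ∈ t, x.1 ∈ X := fun x hx => hz _ (List.mem_map_of_mem hx)
      have htX' : ∀ x ∈ t', x.1 ∈ X := fun x hx => hz' _ (List.mem_map_of_mem hx)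
      obtain ⟨l1, l2, rfl, h4, h5⟩ := List.map_eq_append_iff.1 ht
      obtain ⟨a, rfl, h6⟩ := List.map_eq_singleton_iff.1 h5
      have h7 : l1 = t' := am2_inj l1 t' (fun x hx => htX x (List.mem_append_left _ hx)) htX'
        (h4.trans ht'.symm)
      subst h7
      refine ⟨l1, a, rfl, rfl, ?_, ?_⟩
      · intro x hx
        refine (hlt _ (htX x hx)).2 ?_
        have h8 : am2 X x ∈ t1 ++ [a1] := by
          rw [← ht]
          exact List.mem_map_of_mem hx
        exact h3 _ h8
      · refine (am2_ok F hX h0 htX).2 ?_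
        rw [ht]
        exact hok

end MP2900
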