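import Pool.Agent.Lib.MP_2900b9_lc.C.Defs

/-!
Basic lemmas on the definitions: unfolding of the recursions, selections, nodes, initial segments.
-/

set_option autoImplicit false

namespace MP2900

open Set Pool.Agent.Lib.MP_2900b9_lc

/-! ### Recursions -/

theorem LR_iff {ι : Type*} (R : ι → ι → Prop) (ξ : Ordinal.{0}) (a : ι) :
    LR R ξ a ↔ ∀ b, R b a → ∃ ξ' < ξ, LR R ξ' b := by
  rw [LR]
  simp only [exists_prop]

theorem FL_iff {A ι : Type*} (V : List A → Prop) (D : List A → Set (ℕ → ℕ) → Prop)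
    (O : ι → ι → Set (ℕ → ℕ)) (ξ : Ordinal.{0}) (m : ι) (c : List A) :
    FL V D O ξ m c ↔ ∀ m' d, V d → c <+: d → D d (O m' m) → ∃ ξ' < ξ, ∃ e, V e ∧ d <+: e ∧
      FL V D O ξ' m' e := by
  rw [FL]
  simp only [exists_prop]

theorem WE_iff [TP] (κ ν : Ordinal.{0}) (u : List ℕ) (ξ : List Ordinal.{0}) :
    WE κ ν u ξ ↔ ViolR (· < ·) u ξ ∨ ∃ ν₀ < ν, κ < ν₀ ∧ ∃ c, WO κ ν₀ (u ++ [c]) ξ := by
  rw [WE]
  simp only [exists_prop, WO]

theorem WO_iff [TP] (κ ν : Ordinal.{0}) (u : List ℕ) (ξ : List Ordinal.{0}) :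
    WO κ ν u ξ ↔ ∀ l, ∀ x < κ, WE κ ν (u ++ [l]) (ξ ++ [x]) := Iff.rfl

theorem WB_false [TP] (κ ν : Ordinal.{0}) (u : List ℕ) (ξ : List Ordinal.{0}) :
    WB false κ ν u ξ ↔ WE κ ν u ξ := Iff.rfl

theorem WB_true [TP] (κ ν : Ordinal.{0}) (u : List ℕ) (ξ : List Ordinal.{0}) :
    WB true κ ν u ξ ↔ WO κ ν u ξ := Iff.rfl

section sat

variable [TP] (ν : Ordinal.{0}) (e : List Ordinal.{0})

theorem sat_eq : Sat ν = SatStep ν fun ν' _ => Sat ν' := by
  rw [Sat]

theorem sat_bot : ¬ Sat ν Fm.bot e := by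
  rw [sat_eq]
  simp [SatStep]

theorem sat_lt (i j : ℕ) :
    Sat ν (Fm.lt i j) e ↔ ∃ a b, e[i]? = some a ∧ e[j]? = some b ∧ a < b := by
  rw [sat_eq]
  simp [SatStep]

theorem sat_W (b : Bool) (u l : List ℕ) (k : ℕ) :
    Sat ν (Fm.W b u l k) e ↔
      ∃ c a, Sel l e c ∧ e[k]? = some a ∧ (∀ x ∈ c, x < a) ∧ WB b a ν u c := by
  rw [sat_eq]
  simp [SatStep]

theorem sat_S (φ : Fm) (l : List ℕ) (v : ℕ) :
    Sat ν (Fm.S φ l v) e ↔
      ∃ c a, Sel l e c ∧ e[v]? = some a ∧ (∀ x ∈ c, x < a) ∧ a < ν ∧ Sat a φ c := by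
  rw [sat_eq]
  simp only [SatStep, exists_prop]

theorem sat_R (l : List ℕ) (φ : Fm) :
    Sat ν (Fm.R l φ) e ↔ ∃ c, Sel l e c ∧ Sat ν φ c := by
  rw [sat_eq]
  simp [SatStep]

theorem sat_imp (φ ψ : Fm) : Sat ν (Fm.imp φ ψ) e ↔ (Sat ν φ e → Sat ν ψ e) := by
  rw [sat_eq]
  simp [SatStep]

theorem sat_all (φ : Fm) : Sat ν (Fm.all φ) e ↔ ∀ x < ν, Sat ν φ (x :: e) := by
  rw [sat_eq]
  simp [SatStep]

theorem sat_top : Sat ν Fm.top e := by
  rw [Fm.top, sat_imp]
  exact id

theorem sat_neg (φ : Fm) : Sat ν φ.neg e ↔ ¬ Sat ν φ e := by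
  rw [Fm.neg, sat_imp]
  simp [sat_bot ν e]

theorem sat_and (φ ψ : Fm) : Sat ν (φ.and ψ) e ↔ Sat ν φ e ∧ Sat ν ψ e := by
  rw [Fm.and, sat_neg, sat_imp, sat_neg]
  tauto

theorem sat_ex (φ : Fm) : Sat ν φ.ex e ↔ ∃ x < ν, Sat ν φ (x :: e) := by
  rw [Fm.ex, sat_neg, sat_all]
  simp only [sat_neg]
  push Not
  simp

end sat

theorem ltF_FO [TP] (x y : Ordinal.{0}) : ltF FO x y ↔ x < y := by
  simp [ltF, FO, sat_top]

/-! ### Selections -/

section sel

variable {α β : Type*}

theorem sel_nil (e : List α) (c : List α) : Sel [] e c ↔ c = [] := by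
  simp [Sel]

theorem sel_cons (i : ℕ) (l : List ℕ) (e : List α) (x : α) (c : List α) :
    Sel (i :: l) e (x :: c) ↔ e[i]? = some x ∧ Sel l e c := by
  simp [Sel]

theorem sel_cons' (i : ℕ) (l : List ℕ) (e : List α) (c : List α) :
    Sel (i :: l) e c ↔ ∃ x c', c = x :: c' ∧ e[i]? = some x ∧ Sel l e c' := by
  constructor
  · intro h
    cases h with
    | cons h1 h2 => exact ⟨_, _, rfl, h1, h2⟩
  · rintro ⟨x, c', rfl, h1, h2⟩
    exact (sel_cons i l e x c').2 ⟨h1, h2⟩

theorem Sel.length {l : List ℕ} {e c : List α} (h : Sel l e c) : c.length = l.length :=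
  (List.Forall₂.length_eq h).symm

theorem Sel.mem {l : List ℕ} {e c : List α} (h : Sel l e c) : ∀ x ∈ c, x ∈ e := by
  induction h with
  | nil => simp
  | cons h1 h2 ih =>
    intro x hx
    rcases List.mem_cons.1 hx with rfl | hx
    · exact List.mem_of_getElem? h1
    · exact ih x hx

theorem Sel.unique {l : List ℕ} {e c c' : List α} (h : Sel l e c) (h' : Sel l e c') : c = c' := by
  induction h generalizing c' with
  | nil => exact ((sel_nil e c').1 h').symm
  | cons h1 h2 ih =>
    obtain ⟨x, c'', rfl, h3, h4⟩ := (sel_cons' _ _ _ _).1 h'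
    rw [h1] at h3
    rw [ih h4, Option.some.inj h3]

theorem Sel.map {l : List ℕ} {e c : List α} (g : α → β) (h : Sel l e c) :
    Sel l (e.map g) (c.map g) := by
  induction h with
  | nil => simp [Sel]
  | cons h1 h2 ih =>
    rw [List.map_cons, sel_cons]
    exact ⟨by simp [h1], ih⟩

theorem sel_map_iff {l : List ℕ} {e : List α} (g : α → β) {c' : List β} :
    Sel l (e.map g) c' ↔ ∃ c, Sel l e c ∧ c' = c.map g := by
  constructor
  · intro h
    induction l generalizing c' with
    | nil => exact ⟨[], by simp [Sel], (sel_nil _ _).1 h⟩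
    | cons i l ih =>
      obtain ⟨x, c'', rfl, h1, h2⟩ := (sel_cons' _ _ _ _).1 h
      obtain ⟨c, hc, rfl⟩ := ih h2
      rw [List.getElem?_map, Option.map_eq_some_iff] at h1
      obtain ⟨y, hy, rfl⟩ := h1
      exact ⟨y :: c, (sel_cons _ _ _ _ _).2 ⟨hy, hc⟩, rfl⟩
  · rintro ⟨c, hc, rfl⟩
    exact hc.map g

theorem sel_append (l l' : List ℕ) (e c c' : List α) (h : Sel l e c) (h' : Sel l' e c') :
    Sel (l ++ l') e (c ++ c') := by
  induction h with
  | nil => exact h'
  | cons h1 h2 ih => exact (sel_cons _ _ _ _ _).2 ⟨h1, ih⟩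

theorem sel_shift (l : List ℕ) (d e c : List α) :
    Sel (l.map (· + d.length)) (d ++ e) c ↔ Sel l e c := by
  induction l generalizing c with
  | nil => simp [Sel]
  | cons i l ih =>
    rw [List.map_cons, sel_cons', sel_cons']
    have h : (d ++ e)[i + d.length]? = e[i]? := by
      rw [List.getElem?_append_right (by omega)]
      simp
    simp only [h, ih]

theorem sel_of_append {l : List ℕ} {e c : List α} (h : Sel l e c) (d : List α) :
    Sel l (e ++ d) c := by
  induction h with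
  | nil => simp [Sel]
  | cons h1 h2 ih =>
    refine (sel_cons _ _ _ _ _).2 ⟨?_, ih⟩
    obtain ⟨hi, h3⟩ := List.getElem?_eq_some_iff.1 h1
    rw [List.getElem?_append_left hi]
    exact h1

theorem sel_range (c : List α) : Sel (List.range c.length) c c := by
  induction c with
  | nil => simp [Sel]
  | cons x c ih =>
    have h1 : List.range (x :: c).length = 0 :: (List.range c.length).map (· + 1) := by
      rw [List.length_cons, List.range_succ_eq_map]
    rw [h1]
    refine (sel_cons _ _ _ _ _).2 ⟨by simp, ?_⟩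
    exact (sel_shift (List.range c.length) [x] c c).2 ih

theorem sel_range_append (c d : List α) : Sel (List.range c.length) (c ++ d) c :=
  sel_of_append (sel_range c) d

end sel

/-! ### Nodes -/

theorem par_chd (i k : ℕ) : par (chd i k) = i := by
  simp [par, chd]

theorem lt_chd (i k : ℕ) : i < chd i k :=
  Nat.lt_succ_of_le (Nat.right_le_pair k i)

theorem par_lt {j : ℕ} (h : 1 ≤ j) : par j < j := by
  unfold par
  have := Nat.unpair_right_le (j - 1)
  omega

theorem exists_chd {j : ℕ} (h : 1 ≤ j) : ∃ k, j = chd (par j) k := by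
  refine ⟨(Nat.unpair (j - 1)).1, ?_⟩
  unfold chd par
  rw [Nat.pair_unpair]
  omega

theorem one_le_chd (i k : ℕ) : 1 ≤ chd i k := Nat.succ_le_succ (Nat.zero_le _)

theorem chd_inj {i k i' k' : ℕ} (h : chd i k = chd i' k') : i = i' ∧ k = k' := by
  unfold chd at h
  have h1 := Nat.succ_injective h
  rw [Nat.pair_eq_pair] at h1
  exact ⟨h1.2, h1.1⟩

theorem nd_zero : nd 0 = [] := by rw [nd]

theorem nd_chd (i k : ℕ) : nd (chd i k) = nd i ++ [k] := by
  unfold chd
  rw [nd]
  simp

theorem length_nd_le (j : ℕ) : (nd j).length ≤ j := by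
  induction j using Nat.strong_induction_on with
  | _ j ih =>
    rcases Nat.eq_zero_or_pos j with rfl | h
    · simp [nd_zero]
    · obtain ⟨k, hk⟩ := exists_chd h
      have h1 := ih (par j) (par_lt h)
      have h2 := par_lt h
      rw [hk, nd_chd, List.length_append, List.length_singleton, ← hk]
      omega

theorem nd_par {j : ℕ} (h : 1 ≤ j) : ∃ k, nd j = nd (par j) ++ [k] := by
  obtain ⟨k, hk⟩ := exists_chd h
  exact ⟨k, by conv_lhs => rw [hk, nd_chd]⟩

/-- the number of a finite sequence -/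
def num : List ℕ → ℕ := fun l => l.foldl chd 0

theorem num_append (l : List ℕ) (k : ℕ) : num (l ++ [k]) = chd (num l) k := by
  simp [num]

theorem nd_num (l : List ℕ) : nd (num l) = l := by
  induction l using List.reverseRecOn with
  | nil => simp [num, nd_zero]
  | append_singleton l k ih => rw [num_append, nd_chd, ih]

theorem num_nd (j : ℕ) : num (nd j) = j := by
  induction j using Nat.strong_induction_on with
  | _ j ih =>
    rcases Nat.eq_zero_or_pos j with rfl | h
    · simp [nd_zero, num]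
    · obtain ⟨k, hk⟩ := exists_chd h
      have h1 := ih (par j) (par_lt h)
      conv_lhs => rw [hk, nd_chd, num_append, h1]
      exact hk.symm

/-! ### Initial segments -/

section seg

variable {A : Type*}

@[simp] theorem length_seg (b : ℕ → A) (n : ℕ) : (seg b n).length = n := by simp [seg]

theorem seg_succ (b : ℕ → A) (n : ℕ) : seg b (n + 1) = seg b n ++ [b n] := by
  simp [seg, List.range_succ]

theorem seg_getElem? (b : ℕ → A) {n i : ℕ} (h : i < n) : (seg b n)[i]? = some (b i) := by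
  simp [seg, h]

theorem seg_prefix (b : ℕ → A) {m n : ℕ} (h : m ≤ n) : seg b m <+: seg b n := by
  induction n, h using Nat.le_induction with
  | base => exact List.prefix_rfl
  | succ n _ ih =>
    rw [seg_succ]
    exact ih.trans (List.prefix_append _ _)

theorem seg_take (b : ℕ → A) {m n : ℕ} (h : m ≤ n) : (seg b n).take m = seg b m := by
  have h1 := List.prefix_iff_eq_take.1 (seg_prefix b h)
  rw [length_seg] at h1
  exact h1.symm

theorem seg_congr {b b' : ℕ → A} {n : ℕ} : seg b n = seg b' n ↔ ∀ i < n, b i = b' i := by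
  constructor
  · intro h i hi
    have h1 := seg_getElem? b hi
    rw [h, seg_getElem? b' hi] at h1
    exact (Option.some.inj h1).symm
  · intro h
    unfold seg
    exact List.map_congr_left fun i hi => h i (List.mem_range.1 hi)

theorem seg_zero (b : ℕ → A) : seg b 0 = [] := by simp [seg]

variable [Inhabited A]

theorem ext_seg (b : ℕ → A) {n i : ℕ} (h : i < n) : ext (seg b n) i = b i := by
  simp [ext, seg, h, List.getD]

theorem seg_ext (c : List A) : seg (ext c) c.length = c := by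
  apply List.ext_getElem (by simp)
  intro i h1 h2
  simp [seg, ext, h2, List.getD]

theorem ext_of_prefix {c d : List A} (h : c <+: d) {i : ℕ} (hi : i < c.length) :
    ext d i = ext c i := by
  obtain ⟨e, rfl⟩ := h
  simp [ext, List.getD, List.getElem?_append_left hi]

theorem ext_append_length (c : List A) (a : A) : ext (c ++ [a]) c.length = a := by
  simp [ext, List.getD]

omit [Inhabited A] in
theorem seg_eq_of_prefix {c : List A} {b : ℕ → A} {n : ℕ} (h : c <+: seg b n) :
    c = seg b c.length := by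
  have h1 := List.prefix_iff_eq_take.1 h
  have h2 := h.length_le
  rw [length_seg] at h2
  rw [seg_take b h2] at h1
  exact h1

end seg

/-! ### Violations -/

theorem violR_map [TP] {α β : Type*} (lt : α → α → Prop) (lt' : β → β → Prop) (g : α → β)
    (u : List ℕ) (ξ : List α) (h : ∀ a ∈ ξ, ∀ b ∈ ξ, lt a b ↔ lt' (g a) (g b)) :
    ViolR lt u ξ ↔ ViolR lt' u (ξ.map g) := by
  unfold ViolR
  constructor
  · rintro ⟨j, a, b, h1, h2, h3, h4, h5⟩
    refine ⟨j, g a, g b, h1, h2, by simp [h3], by simp [h4], ?_⟩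
    rw [← h a (List.mem_of_getElem? h3) b (List.mem_of_getElem? h4)]
    exact h5
  · rintro ⟨j, a', b', h1, h2, h3, h4, h5⟩
    rw [List.getElem?_map, Option.map_eq_some_iff] at h3 h4
    obtain ⟨a, h3, rfl⟩ := h3
    obtain ⟨b, h4, rfl⟩ := h4
    refine ⟨j, a, b, h1, h2, h3, h4, ?_⟩
    rw [h a (List.mem_of_getElem? h3) b (List.mem_of_getElem? h4)]
    exact h5

end MP2900
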