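import Pool.Agent.Lib.MP_2900b9_lc.C.Basic

/-!
More definitions: closed sets of ordinals. (Proved file, not a module.)
-/

set_option autoImplicit false

namespace MP2900

open Set Pool.Agent.Lib.MP_2900b9_lc

/-- all entries of the list are in `X` -/
def Ov (X : Set Ordinal.{0}) (l : List Ordinal.{0}) : Prop := ∀ x ∈ l, x ∈ X

/-- all ordinals of the condition are in `X` -/
def OvE (X : Set Ordinal.{0}) (c : List Ent) : Prop :=
  ∀ a ∈ c, ∀ β, a.g β ∈ X ∧ ∀ ζ, a.h β = some ζ → ζ ∈ X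

/-- good closure -/
structure GC [TP] (G : ℕ → List Ordinal.{0} → List Ordinal.{0}) (X : Set Ordinal.{0}) : Prop where
  cl : Cl G X
  clm : ClM X
  nat : ∀ n : ℕ, (n : Ordinal.{0}) ∈ X
  addn : ∀ x ∈ X, ∀ n : ℕ, x + n ∈ X
  addw : ∀ x ∈ X, x + Ordinal.omega0 ∈ X

/-- a signed unary fact with parameters -/
structure UF : Type 1 where
  φ : Fm
  f : List ℕ
  v : ℕ
  ε : Bool
  l1 : List Ordinal.{0}
  l2 : List Ordinal.{0}

/-- the ordinal satisfies the signed fact -/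
def UF.Holds [TP] (a : UF) (ξ : Ordinal.{0}) : Prop :=
  FctP FO a.φ a.f a.v (a.l1 ++ ξ :: a.l2) ↔ a.ε = true

/-- closure under least solutions of countably many signed facts -/
def WCl [TP] (X : Set Ordinal.{0}) : Prop :=
  ∀ a : ℕ → UF, (∀ n, Ov X (a n).l1 ∧ Ov X (a n).l2) → ∀ ξ, (∀ n, (a n).Holds ξ) →
    ∃ ξ' ≤ ξ, ξ' ∈ X ∧ ∀ n, (a n).Holds ξ'

/-- the successor of the continuum -/
noncomputable def LP : Ordinal.{0} := (Order.succ Cardinal.continuum.{0}).ord

/-- the properties of the big closed set -/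
structure IsX [TP] (G : ℕ → List Ordinal.{0} → List Ordinal.{0}) (νs : Ordinal.{0})
    (X : Set Ordinal.{0}) (δ : Ordinal.{0}) : Prop where
  cl : Cl G X
  lp : LP ∈ X
  ns : νs ∈ X
  pos : 0 < δ
  lt : δ < LP
  init : ∀ x < LP, (x ∈ X ↔ x < δ)
  bdd : ∃ τ, ∀ x ∈ X, x < τ
  wcl : WCl X

/-- a code of a relation on ordinals, of arity `k` -/
structure HC : Type 1 where
  φ : Fm
  f : List ℕ
  v : ℕ
  k : ℕ
  q : List Ordinal.{0}

/-- the relation of a code -/
def HC.Holds [TP] (b : HC) (l : List Ordinal.{0}) : Prop := FctP FO b.φ b.f b.v (l ++ b.q)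

end MP2900
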