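import Pool.Agent.Lib.MP_2900b9_lc.C.ClDefs

/-!
Module ClOm: closure under `ω`-ary functions, of size continuum.

Let `α = Option.elim`-style labels: the W-type `T = WType β` with labels `(ℕ → ℕ) ⊕ (ℕ → ℕ)`, `β (inl _) = Empty` (or `PEmpty`), `β (inr _) = ℕ`. Evaluation `ev : T → Ordinal.{0}`: `ev (mk (inl x) _) = f x`, `ev (mk (inr i) t) = H i (fun n => ev (t n))`. The range of `ev` has the two closure properties. `#T ≤ 𝔠` by `WType.cardinalMk_le_of_le` (name in Mathlib: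
`WType.cardinalMk_le_of_le'` / `WType.cardinalMk_le_of_le`): the sum over the labels of `𝔠 ^ #(β a)` is `≤ 𝔠 * 𝔠 ^ ℵ₀ = 𝔠`. So there is a surjection from `ℕ → ℕ` (of cardinality `𝔠`) onto `T` (nonempty), and `e` is the composition with `ev`.
-/

set_option autoImplicit false

namespace MP2900

open Set Pool.Agent.Lib.MP_2900b9_lc

private def clomB : (ℕ → ℕ) ⊕ (ℕ → ℕ) → Type
  | Sum.inl _ => Empty
  | Sum.inr _ => ℕ

private def clomF (H : (ℕ → ℕ) → (ℕ → Ordinal.{0}) → Ordinal.{0}) (f : (ℕ → ℕ) → Ordinal.{0}) :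
    (Σ a : (ℕ → ℕ) ⊕ (ℕ → ℕ), clomB a → Ordinal.{0}) → Ordinal.{0}
  | ⟨Sum.inl x, _⟩ => f x
  | ⟨Sum.inr i, g⟩ => H i g

private theorem clom_seq : Cardinal.mk (ℕ → ℕ) = Cardinal.continuum.{0} := by
  rw [Cardinal.mk_arrow]
  simp [Cardinal.aleph0_power_aleph0]

private theorem clom_card : Cardinal.mk (WType clomB) ≤ Cardinal.continuum.{0} := by
  refine WType.cardinalMk_le_of_le ?_
  have h1 : ∀ a : (ℕ → ℕ) ⊕ (ℕ → ℕ),
      Cardinal.continuum.{0} ^ Cardinal.mk (clomB a) ≤ Cardinal.continuum.{0} := by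
    rintro (x | i)
    · have h : Cardinal.mk (clomB (Sum.inl x)) = 0 := Cardinal.mk_eq_zero_iff.2
        (inferInstanceAs (IsEmpty Empty))
      rw [h, Cardinal.power_zero]
      exact Cardinal.one_le_aleph0.trans Cardinal.aleph0_le_continuum
    · have h : Cardinal.mk (clomB (Sum.inr i)) = Cardinal.aleph0.{0} := Cardinal.mk_nat
      rw [h, Cardinal.continuum_power_aleph0]
  have h2 : (Cardinal.sum fun a => Cardinal.continuum.{0} ^ Cardinal.mk (clomB a)) ≤
      Cardinal.sum fun _ : (ℕ → ℕ) ⊕ (ℕ → ℕ) => Cardinal.continuum.{0} :=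
    Cardinal.sum_le_sum _ _ h1
  refine h2.trans ?_
  rw [Cardinal.sum_const, Cardinal.lift_id, Cardinal.lift_id, Cardinal.mk_sum, Cardinal.lift_id,
    clom_seq, Cardinal.continuum_add_self, Cardinal.continuum_mul_self]

theorem exists_wcl (H : (ℕ → ℕ) → (ℕ → Ordinal.{0}) → Ordinal.{0}) (f : (ℕ → ℕ) → Ordinal.{0}) :
    ∃ e : (ℕ → ℕ) → Ordinal.{0}, (∀ x, ∃ y, e y = f x) ∧
      ∀ i a, (∀ n, ∃ y, e y = a n) → ∃ y, e y = H i a := by
  have h1 : Cardinal.mk (WType clomB) ≤ Cardinal.mk (ℕ → ℕ) := by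
    rw [clom_seq]
    exact clom_card
  obtain ⟨j⟩ := (Cardinal.le_def _ _).1 h1
  have hne : Nonempty (WType clomB) := ⟨WType.mk (Sum.inl fun _ => 0) Empty.elim⟩
  have hs : Function.Surjective (Function.invFun j) := Function.invFun_surjective j.injective
  refine ⟨fun x => WType.elim Ordinal.{0} (clomF H f) (Function.invFun j x), ?_, ?_⟩
  · intro x
    obtain ⟨y, hy⟩ := hs (WType.mk (Sum.inl x) Empty.elim)
    refine ⟨y, ?_⟩
    show WType.elim Ordinal.{0} (clomF H f) (Function.invFun j y) = f x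
    rw [hy]
    rfl
  · intro i a ha
    choose y hy using ha
    obtain ⟨z, hz⟩ := hs (WType.mk (Sum.inr i) fun n => Function.invFun j (y n))
    refine ⟨z, ?_⟩
    show WType.elim Ordinal.{0} (clomF H f) (Function.invFun j z) = H i a
    rw [hz]
    show H i (fun n => WType.elim Ordinal.{0} (clomF H f) (Function.invFun j (y n))) = H i a
    have h3 : (fun n => WType.elim Ordinal.{0} (clomF H f) (Function.invFun j (y n))) = a :=
      funext hy
    rw [h3]

end MP2900
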