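import Pool.Agent.Lib.MP_2900b9_lc.C.ClDefs

/-!
Module ClW: countable closed sets. `W = ⋃ n, W_n`, `W_0 = S`, `W_{n+1} = W_n ∪ {x | ∃ m, ∃ l, Ov W_n l ∧ x ∈ G m l}`. Lists over a countable set form a countable set (`Set.Countable` of `{l | ∀ x ∈ l, x ∈ S}`: `Set.countable_setOf_..`, e.g. the range of `List.map Subtype.val` on the countable type `List S`). A list over `W` is over some `W_n`.
-/

set_option autoImplicit false

namespace MP2900

open Set Pool.Agent.Lib.MP_2900b9_lc

private theorem clw_lists {S : Set Ordinal.{0}} (hS : S.Countable) :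
    {l : List Ordinal.{0} | Ov S l}.Countable := by
  have : Countable ↥S := hS.to_subtype
  refine (Set.countable_range (fun l : List ↥S => l.map Subtype.val)).mono ?_
  intro l hl
  induction l with
  | nil => exact ⟨[], rfl⟩
  | cons a l ih =>
    obtain ⟨l', hl'⟩ := ih (fun x hx => hl x (List.mem_cons_of_mem _ hx))
    refine ⟨⟨a, hl a List.mem_cons_self⟩ :: l', ?_⟩
    simp only [List.map_cons]
    rw [show l'.map Subtype.val = l from hl']

/-- one step of the closure -/
private def clwStep (G : ℕ → List Ordinal.{0} → List Ordinal.{0}) (W : Set Ordinal.{0}) :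
    Set Ordinal.{0} := W ∪ ⋃ m : ℕ, ⋃ l ∈ {l : List Ordinal.{0} | Ov W l}, {x | x ∈ G m l}

private theorem clwStep_countable (G : ℕ → List Ordinal.{0} → List Ordinal.{0})
    {W : Set Ordinal.{0}} (h : W.Countable) : (clwStep G W).Countable := by
  refine h.union (Set.countable_iUnion fun m => (clw_lists h).biUnion fun l _ => ?_)
  exact (List.finite_toSet (G m l)).countable

theorem exists_W (G : ℕ → List Ordinal.{0} → List Ordinal.{0}) (S : Set Ordinal.{0})
    (hS : S.Countable) : ∃ W : Set Ordinal.{0}, W.Countable ∧ S ⊆ W ∧ Cl G W := by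
  have h1 : ∀ n : ℕ, ((clwStep G)^[n] S).Countable := by
    intro n
    induction n with
    | zero => exact hS
    | succ n ih =>
      rw [Function.iterate_succ_apply']
      exact clwStep_countable G ih
  have h2 : ∀ n : ℕ, (clwStep G)^[n] S ⊆ (clwStep G)^[n + 1] S := by
    intro n
    rw [Function.iterate_succ_apply']
    exact Set.subset_union_left
  have h3 : Monotone fun n : ℕ => (clwStep G)^[n] S := monotone_nat_of_le_succ h2
  refine ⟨⋃ n : ℕ, (clwStep G)^[n] S, Set.countable_iUnion h1,
    Set.subset_iUnion_of_subset 0 (Set.Subset.refl _), ?_⟩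
  intro m l hl x hx
  have h4 : ∃ n : ℕ, Ov ((clwStep G)^[n] S) l := by
    clear hx
    induction l with
    | nil => exact ⟨0, fun x hx => by simp at hx⟩
    | cons a l ih =>
      obtain ⟨n, hn⟩ := ih (fun y hy => hl y (List.mem_cons_of_mem _ hy))
      obtain ⟨k, hk⟩ := Set.mem_iUnion.1 (hl a List.mem_cons_self)
      refine ⟨max n k, fun y hy => ?_⟩
      rcases List.mem_cons.1 hy with rfl | hy
      · exact h3 (le_max_right n k) hk
      · exact h3 (le_max_left n k) (hn y hy)
  obtain ⟨n, hn⟩ := h4
  refine Set.mem_iUnion.2 ⟨n + 1, ?_⟩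
  rw [Function.iterate_succ_apply']
  exact Or.inr (Set.mem_iUnion.2 ⟨m, Set.mem_iUnion₂.2 ⟨l, hn, hx⟩⟩)

end MP2900
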