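import Pool.Agent.Lib.MP_2900b9_lc.C.MinFor

/-!
Module CmpFact: facts with the formula `cmpF`, for ordinals and for types.

The fact at positions `f = range (k + k' + m)`, `v = k + k' + m` of the tuple `(s ++ s') ++ (p ++ [ν])` is the fact
`FO (cmpF φ φ' k k' m) (s ++ s' ++ p) ν`, with `k, k', m` the lengths.

* fct_cmp: unfold FctP; the selection is `s ++ s' ++ p` (sel_range_append, lists reassociated), the entry at position `k + k' + m` is `ν`; then
  unfold FO and use sat_cmpF. The hypothesis is that all entries are `< ν`.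
* fct_cmp': for an arbitrary `r ++ [ν']` with the same length of `r`: from the fact we get that all entries of `s ++ s' ++ r` are `< ν'` and the
  minima exist.
-/

set_option autoImplicit false

namespace MP2900

open Set Pool.Agent.Lib.MP_2900b9_lc

variable [TP]

private theorem cmpFact_gen (ψ : Fm) (q : List Ordinal.{0}) (ν : Ordinal.{0}) :
    FctP FO ψ (List.range q.length) q.length (q ++ [ν]) ↔ FO ψ q ν := by
  have h1 : Sel (List.range q.length) (q ++ [ν]) q := sel_range_append q [ν]
  have h2 : (q ++ [ν])[q.length]? = some ν := by simp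
  constructor
  · rintro ⟨c, a, hc, ha, h⟩
    rw [h2] at ha
    rw [h1.unique hc, Option.some.inj ha]
    exact h
  · intro h
    exact ⟨q, ν, h1, h2, h⟩

private theorem cmpFact_gen' (ψ : Fm) (s s' p : List Ordinal.{0}) (ν : Ordinal.{0}) :
    FctP FO ψ (List.range (s.length + s'.length + p.length)) (s.length + s'.length + p.length)
      (s ++ s' ++ (p ++ [ν])) ↔ FO ψ (s ++ s' ++ p) ν := by
  have h1 : s ++ s' ++ (p ++ [ν]) = (s ++ s' ++ p) ++ [ν] := (List.append_assoc _ _ _).symm
  have h2 : s.length + s'.length + p.length = (s ++ s' ++ p).length := by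
    rw [List.length_append, List.length_append]
  rw [h1, h2]
  exact cmpFact_gen ψ (s ++ s' ++ p) ν

theorem fct_cmp {φ φ' : Fm} {s s' p : List Ordinal.{0}} {ν : Ordinal.{0}}
    (hs : ∀ x ∈ s, x < ν) (hs' : ∀ x ∈ s', x < ν) (hp : ∀ x ∈ p, x < ν) :
    FctP FO (cmpF φ φ' s.length s'.length p.length)
      (List.range (s.length + s'.length + p.length)) (s.length + s'.length + p.length)
      (s ++ s' ++ (p ++ [ν])) ↔
    ∃ x x', IsMin ν φ (s ++ p) x ∧ IsMin ν φ' (s' ++ p) x' ∧ x < x' := by
  rw [cmpFact_gen', FO, sat_cmpF]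
  refine and_iff_right ?_
  intro x hx
  rcases List.mem_append.1 hx with hx | hx
  · rcases List.mem_append.1 hx with hx | hx
    · exact hs x hx
    · exact hs' x hx
  · exact hp x hx

theorem fct_cmp' {φ φ' : Fm} {s s' r : List Ordinal.{0}} {ν : Ordinal.{0}} {m : ℕ}
    (hr : r.length = m)
    (h : FctP FO (cmpF φ φ' s.length s'.length m)
      (List.range (s.length + s'.length + m)) (s.length + s'.length + m)
      (s ++ s' ++ (r ++ [ν]))) :
    ∃ x x', IsMin ν φ (s ++ r) x ∧ IsMin ν φ' (s' ++ r) x' ∧ x < x' := by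
  subst hr
  rw [cmpFact_gen'] at h
  exact (sat_cmpF φ φ' s s' r).1 h.2

end MP2900
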