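import Pool.Agent.Lib.MP_2900b9_lc.C.Basic

/-!
Module Col: the collapse of a set of ordinals. `rw [col]` unfolds the recursion.

* col_le: by induction on `ξ`; `ξ` itself belongs to the set `{θ | ∀ η < ξ, η ∈ X → col X η < θ}`, as `col X η ≤ η < ξ`; so the
  infimum is `≤ ξ` (`csInf_le'`), and the set is nonempty.
* col_lt: the infimum belongs to the set (`csInf_mem`).
* col_mono: the set for `η` contains the set for `ξ`, so `csInf_le'`.
* col_onto: if `θ < col X ξ` then `θ` is not in the set, so there is `η < ξ`, `η ∈ X` with `θ ≤ col X η`; take the least such `η`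
  (`WellFounded.min`); if `θ < col X η`, then apply the induction hypothesis (or: `θ` is not in the set of `η`, so there is a
  smaller one), so equality. (Induction on `ξ` is the easiest.)
* col_id: induction on `ξ`; `col X ξ ≤ ξ`, and if `col X ξ < ξ` then `η := col X ξ ∈ X`, `η < ξ ≤ δ`, so `col X η = η`, but
  `col X η < col X ξ = η`.
* col_add_nat: induction on `n`; `col X (ξ + (n+1)) = col X (ξ + n) + 1`: `>` by col_lt; and `col X (ξ+n) + 1` belongs to the set
  for `ξ + (n+1)`: for `η < ξ + n + 1`, i.e. `η ≤ ξ + n`: `col X η ≤ col X (ξ + n)`.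
* col_add_omega: `≥`: `col X ξ + n = col X (ξ + n) ≤ col X (ξ + ω)` for all `n`. `≤`: `col X ξ + ω` belongs to the set: `η < ξ + ω`
  gives `n` with `η < ξ + n`, so `col X η ≤ col X (ξ+n) = col X ξ + n < col X ξ + ω`.
* ctb_col: `Iio (col X ξ) ⊆ col X '' X` by col_onto.
* col_nat: `col_id` for `δ = ω`, or induction.
-/

set_option autoImplicit false

namespace MP2900

open Set Pool.Agent.Lib.MP_2900b9_lc

variable {X : Set Ordinal.{0}} {η ξ δ θ : Ordinal.{0}}

private theorem col_eq (X : Set Ordinal.{0}) (ξ : Ordinal.{0}) :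
    col X ξ = sInf {θ | ∀ η, ∀ _ : η < ξ, η ∈ X → col X η < θ} := by
  conv_lhs => rw [col]

theorem col_le (X : Set Ordinal.{0}) (ξ : Ordinal.{0}) : col X ξ ≤ ξ := by
  induction ξ using WellFoundedLT.induction with
  | ind ξ ih =>
    rw [col_eq]
    exact csInf_le' fun η hη _ => (ih η hη).trans_lt hη

private theorem col_mem (X : Set Ordinal.{0}) (ξ : Ordinal.{0}) :
    ∀ η, ∀ _ : η < ξ, η ∈ X → col X η < col X ξ := by
  have h := csInf_mem (s := {θ | ∀ η, ∀ _ : η < ξ, η ∈ X → col X η < θ})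
    ⟨ξ, fun η hη _ => (col_le X η).trans_lt hη⟩
  rw [← col_eq] at h
  exact h

theorem col_lt (hη : η ∈ X) (h : η < ξ) : col X η < col X ξ := by
  exact col_mem X ξ η h hη

theorem col_mono (h : η ≤ ξ) : col X η ≤ col X ξ := by
  rw [col_eq X η]
  exact csInf_le' fun a ha haX => col_lt haX (ha.trans_le h)

theorem col_lt_iff (hη : η ∈ X) : col X η < col X ξ ↔ η < ξ := by
  refine ⟨fun h => ?_, fun h => col_lt hη h⟩
  by_contra hn
  exact absurd h (not_lt.2 (col_mono (not_lt.1 hn)))

theorem col_inj (hη : η ∈ X) (hξ : ξ ∈ X) (h : col X η = col X ξ) : η = ξ := by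
  rcases lt_trichotomy η ξ with h1 | h1 | h1
  · exact absurd h (col_lt hη h1).ne
  · exact h1
  · exact absurd h (col_lt hξ h1).ne'

theorem col_onto (h : θ < col X ξ) : ∃ η ∈ X, η < ξ ∧ col X η = θ := by
  induction ξ using WellFoundedLT.induction with
  | ind ξ ih =>
    rw [col_eq] at h
    have h1 : ¬ ∀ η, ∀ _ : η < ξ, η ∈ X → col X η < θ := notMem_of_lt_csInf' h
    push Not at h1
    obtain ⟨η, hη, hηX, hle⟩ := h1
    rcases hle.lt_or_eq with hlt | heq
    · obtain ⟨η', h2, h3, h4⟩ := ih η hη hlt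
      exact ⟨η', h2, h3.trans hη, h4⟩
    · exact ⟨η, hηX, hη, heq.symm⟩

theorem col_id (h : ∀ x < δ, x ∈ X) (hξ : ξ ≤ δ) : col X ξ = ξ := by
  induction ξ using WellFoundedLT.induction with
  | ind ξ ih =>
    by_contra hne
    have hlt : col X ξ < ξ := lt_of_le_of_ne (col_le X ξ) hne
    have h1 := ih (col X ξ) hlt (hlt.le.trans hξ)
    have h2 := col_lt (h _ (hlt.trans_le hξ)) hlt
    rw [h1] at h2
    exact lt_irrefl _ h2

theorem col_add_nat (h : ∀ n : ℕ, ξ + n ∈ X) (n : ℕ) : col X (ξ + n) = col X ξ + n := by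
  induction n with
  | zero => simp
  | succ n ih =>
    rw [Nat.cast_succ, ← add_assoc, ← add_assoc, ← ih]
    apply le_antisymm
    · rw [col_eq X (ξ + n + 1)]
      refine csInf_le' fun η hη _ => ?_
      exact Order.lt_add_one_iff.2 (col_mono (Order.lt_add_one_iff.1 hη))
    · exact Order.add_one_le_of_lt (col_lt (h n) (Order.lt_add_one_iff.2 le_rfl))

private theorem lt_add_omega {a b : Ordinal.{0}} (h : b < a + Ordinal.omega0) :
    ∃ n : ℕ, b ≤ a + n := by
  rcases le_total a b with h1 | h1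
  · have h2 : b - a < Ordinal.omega0 := (Ordinal.sub_lt_of_le h1).2 h
    obtain ⟨n, hn⟩ := Ordinal.lt_omega0.1 h2
    refine ⟨n, ?_⟩
    rw [← hn, Ordinal.add_sub_cancel_of_le h1]
  · exact ⟨0, by simpa using h1⟩

theorem col_add_omega (h : ∀ n : ℕ, ξ + n ∈ X) :
    col X (ξ + Ordinal.omega0) = col X ξ + Ordinal.omega0 := by
  apply le_antisymm
  · rw [col_eq X (ξ + Ordinal.omega0)]
    refine csInf_le' fun η hη _ => ?_
    obtain ⟨n, hn⟩ := lt_add_omega hη
    refine (col_mono hn).trans_lt ?_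
    rw [col_add_nat h n]
    exact (add_lt_add_iff_left _).2 (Ordinal.natCast_lt_omega0 n)
  · refine le_of_forall_lt fun c hc => ?_
    obtain ⟨n, hn⟩ := lt_add_omega hc
    rw [← col_add_nat h n] at hn
    exact hn.trans_lt (col_lt (h n) ((add_lt_add_iff_left _).2 (Ordinal.natCast_lt_omega0 n)))

theorem ctb_col (hX : X.Countable) (ξ : Ordinal.{0}) : Ctb (col X ξ) := by
  refine (hX.image (col X)).mono fun θ hθ => ?_
  obtain ⟨η, hη, -, he⟩ := col_onto hθ
  exact ⟨η, hη, he⟩

theorem col_nat (h : ∀ n : ℕ, (n : Ordinal.{0}) ∈ X) (n : ℕ) : col X n = n := by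
  refine col_id (δ := Ordinal.omega0) (fun x hx => ?_) (Ordinal.natCast_lt_omega0 n).le
  obtain ⟨m, rfl⟩ := Ordinal.lt_omega0.1 hx
  exact h m

end MP2900
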