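import Pool.Agent.Lib.MP_2900b9_lc.C.Col

/-!
Module CondW: the winning relations are preserved by the collapse of a set closed under definable least elements.

Induction on `ν` (for all `κ, u, ξ, b`). Let `n = ξ.length` and let `e = ξ ++ [κ]` (all entries in `X` and `< ν`).
(1) `b = false`. `ViolR` is preserved by `violR_map` (`col_lt_iff`). Use `WE_iff` on both sides.
 (→) Given `ν₀ < ν`, `κ < ν₀`, `c` with `WO κ ν₀ (u ++ [c]) ξ`. Fix `c` and let `ν₀` be the least such ordinal. It is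
 `IsMin ν φ e ν₀` for `φ = Fm.and (Fm.lt (n+1) 0) (Fm.S (Fm.W true (u ++ [c]) (List.range n) n) ((List.range (n+1)).map (· + 1)) 0)`:
 in the environment `y :: e` the first conjunct says `κ < y` and the second says: entries of `e` are `< y`, `y < ν`, and in the structure of height
 `y` with environment `e` the formula `W true (u ++ [c]) (range n) n` holds, i.e. `WO κ y (u ++ [c]) ξ` (sat_S, sat_W, sel_shift, sel_range,
 Sel.unique). So `ν₀ ∈ X` by `ClM`, and the induction hypothesis for `ν₀` applies.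
 (←) `ν₀' < col X ν` is `col X ν₀` with `ν₀ ∈ X`, `ν₀ < ν` (col_onto); `col X κ < col X ν₀` gives `κ < ν₀`; induction hypothesis.
(2) `b = true`, using (1) for the same `ν`. (→) `x' < col X κ` is `col X x`, `x ∈ X`, `x < κ`, and `(ξ ++ [x]).map (col X) = ξ.map (col X) ++ [x']`.
 (←) If `¬ WE κ ν (u ++ [l]) (ξ ++ [x])` for some `x < κ`, fix `l` and take the least such `x`. It is `IsMin ν φ e x` for
 `φ = Fm.and (Fm.lt 0 (n+1)) (Fm.neg (Fm.W false (u ++ [l]) ((List.range n).map (· + 1) ++ [0]) (n+1)))`. So `x ∈ X`; (1) gives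
 `¬ WE (col X κ) (col X ν) (u ++ [l]) (ξ.map (col X) ++ [col X x])`.
-/

set_option autoImplicit false

namespace MP2900

open Set Pool.Agent.Lib.MP_2900b9_lc

private theorem sat_phi1 [TP] {ν : Ordinal.{0}} {κ y : Ordinal.{0}} (u : List ℕ)
    {ξ : List Ordinal.{0}} (hξ : ∀ x ∈ ξ, x < κ) :
    Sat ν (Fm.and (Fm.lt (ξ.length + 1) 0) (Fm.S (Fm.W true u (List.range ξ.length) ξ.length)
      ((List.range (ξ.length + 1)).map (· + 1)) 0)) (y :: (ξ ++ [κ])) ↔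
      κ < y ∧ y < ν ∧ WO κ y u ξ := by
  have hκ : (ξ ++ [κ])[ξ.length]? = some κ := by simp
  have hsel : Sel ((List.range (ξ.length + 1)).map (· + 1)) (y :: (ξ ++ [κ])) (ξ ++ [κ]) := by
    have h := (sel_shift (List.range (ξ ++ [κ]).length) [y] (ξ ++ [κ]) (ξ ++ [κ])).2
      (sel_range (ξ ++ [κ]))
    rw [List.length_append] at h
    exact h
  rw [sat_and, sat_lt, sat_S]
  constructor
  · rintro ⟨⟨a, b, ha, hb, hab⟩, c, a', hc, ha', h1, h2, h3⟩
    rw [List.getElem?_cons_succ, hκ] at ha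
    rw [List.getElem?_cons_zero] at hb ha'
    cases ha; cases hb; cases ha'
    rw [hc.unique hsel, sat_W] at h3
    obtain ⟨c2, a2, hc2, ha2, h4, h5⟩ := h3
    rw [hκ] at ha2
    cases ha2
    rw [hc2.unique (sel_range_append ξ [κ])] at h5
    exact ⟨hab, h2, h5⟩
  · rintro ⟨h1, h2, h3⟩
    refine ⟨⟨κ, y, by rw [List.getElem?_cons_succ, hκ], by simp, h1⟩, ξ ++ [κ], y, hsel,
      by simp, ?_, h2, ?_⟩
    · intro x hx
      rcases List.mem_append.1 hx with hx | hx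
      · exact (hξ x hx).trans h1
      · rw [List.mem_singleton.1 hx]; exact h1
    · rw [sat_W]
      exact ⟨ξ, κ, sel_range_append ξ [κ], hκ, hξ, h3⟩

private theorem sat_phi2 [TP] {ν : Ordinal.{0}} {κ y : Ordinal.{0}} (u : List ℕ)
    {ξ : List Ordinal.{0}} (hξ : ∀ x ∈ ξ, x < κ) :
    Sat ν (Fm.and (Fm.lt 0 (ξ.length + 1)) (Fm.neg (Fm.W false u
      ((List.range ξ.length).map (· + 1) ++ [0]) (ξ.length + 1)))) (y :: (ξ ++ [κ])) ↔
      y < κ ∧ ¬ WE κ ν u (ξ ++ [y]) := by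
  have hκ : (ξ ++ [κ])[ξ.length]? = some κ := by simp
  have hsel : Sel ((List.range ξ.length).map (· + 1) ++ [0]) (y :: (ξ ++ [κ])) (ξ ++ [y]) := by
    refine sel_append _ _ _ _ _ ?_ ?_
    · exact (sel_shift (List.range ξ.length) [y] (ξ ++ [κ]) ξ).2 (sel_range_append ξ [κ])
    · refine (sel_cons _ _ _ _ _).2 ⟨by simp, (sel_nil _ _).2 rfl⟩
  rw [sat_and, sat_lt, sat_neg, sat_W]
  constructor
  · rintro ⟨⟨a, b, ha, hb, hab⟩, h⟩
    rw [List.getElem?_cons_succ, hκ] at hb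
    rw [List.getElem?_cons_zero] at ha
    cases ha; cases hb
    refine ⟨hab, fun hW => h ⟨ξ ++ [y], κ, hsel, by rw [List.getElem?_cons_succ, hκ], ?_, hW⟩⟩
    intro x hx
    rcases List.mem_append.1 hx with hx | hx
    · exact hξ x hx
    · rw [List.mem_singleton.1 hx]; exact hab
  · rintro ⟨h1, h2⟩
    refine ⟨⟨y, κ, by simp, by rw [List.getElem?_cons_succ, hκ], h1⟩, ?_⟩
    rintro ⟨c, a, hc, ha, _, h4⟩
    rw [List.getElem?_cons_succ, hκ] at ha
    cases ha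
    rw [hc.unique hsel] at h4
    exact h2 h4

private theorem condW_false [TP] {X : Set Ordinal.{0}} (hX : ClM X) {ν : Ordinal.{0}}
    (hν : ν ∈ X)
    (IH : ∀ ν₀ < ν, ν₀ ∈ X → ∀ κ ∈ X, κ < ν₀ → ∀ (b : Bool) (u : List ℕ) (ξ : List Ordinal.{0}),
      (∀ x ∈ ξ, x ∈ X ∧ x < κ) →
      (WB b κ ν₀ u ξ ↔ WB b (col X κ) (col X ν₀) u (ξ.map (col X))))
    {κ : Ordinal.{0}} (hκ : κ ∈ X) (hκν : κ < ν) (u : List ℕ) (ξ : List Ordinal.{0})
    (hξ : ∀ x ∈ ξ, x ∈ X ∧ x < κ) :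
    WE κ ν u ξ ↔ WE (col X κ) (col X ν) u (ξ.map (col X)) := by
  have hviol : ViolR (· < ·) u ξ ↔ ViolR (· < ·) u (ξ.map (col X)) :=
    violR_map _ _ (col X) u ξ fun a ha b _ => (col_lt_iff (hξ a ha).1).symm
  rw [WE_iff, WE_iff, hviol]
  refine or_congr_right ?_
  constructor
  · rintro ⟨ν₁, h1, h2, c, h3⟩
    obtain ⟨ν₀, ⟨h4, h5, h6⟩, hmin⟩ := (wellFounded_lt (α := Ordinal.{0})).has_min
      {y | κ < y ∧ y < ν ∧ WO κ y (u ++ [c]) ξ} ⟨ν₁, h2, h1, h3⟩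
    have hm : ν₀ ∈ X := by
      refine hX ν hν _ (ξ ++ [κ]) ?_ ν₀ ⟨h5, (sat_phi1 (u ++ [c]) fun x hx => (hξ x hx).2).2
        ⟨h4, h5, h6⟩, ?_⟩
      · intro y hy
        rcases List.mem_append.1 hy with hy | hy
        · exact ⟨(hξ y hy).1, (hξ y hy).2.trans hκν⟩
        · rw [List.mem_singleton.1 hy]; exact ⟨hκ, hκν⟩
      · intro y hy hS
        exact hmin y ((sat_phi1 (u ++ [c]) fun x hx => (hξ x hx).2).1 hS) hy
    exact ⟨col X ν₀, col_lt hm h5, col_lt hκ h4, c,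
      (IH ν₀ h5 hm κ hκ h4 true (u ++ [c]) ξ hξ).1 h6⟩
  · rintro ⟨ν', h1, h2, c, h3⟩
    obtain ⟨ν₀, hm, h5, rfl⟩ := col_onto h1
    have h4 : κ < ν₀ := (col_lt_iff hκ).1 h2
    exact ⟨ν₀, h5, h4, c, (IH ν₀ h5 hm κ hκ h4 true (u ++ [c]) ξ hξ).2 h3⟩

theorem condW [TP] {X : Set Ordinal.{0}} (hX : ClM X) {ν : Ordinal.{0}} (hν : ν ∈ X)
    {κ : Ordinal.{0}} (hκ : κ ∈ X) (hκν : κ < ν) (b : Bool) (u : List ℕ) (ξ : List Ordinal.{0})
    (hξ : ∀ x ∈ ξ, x ∈ X ∧ x < κ) :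
    WB b κ ν u ξ ↔ WB b (col X κ) (col X ν) u (ξ.map (col X)) := by
  induction ν using WellFoundedLT.induction generalizing κ b u ξ with
  | _ ν ih =>
  have IH : ∀ ν₀ < ν, ν₀ ∈ X → ∀ κ ∈ X, κ < ν₀ → ∀ (b : Bool) (u : List ℕ)
      (ξ : List Ordinal.{0}), (∀ x ∈ ξ, x ∈ X ∧ x < κ) →
      (WB b κ ν₀ u ξ ↔ WB b (col X κ) (col X ν₀) u (ξ.map (col X))) :=
    fun ν₀ h1 h2 κ h3 h4 b u ξ h5 => ih ν₀ h1 h2 h3 h4 b u ξ h5
  cases b with
  | false => exact condW_false hX hν IH hκ hκν u ξ hξ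
  | true =>
    rw [WB_true, WB_true, WO_iff, WO_iff]
    constructor
    · intro h l x' hx'
      obtain ⟨x, hx, hxκ, rfl⟩ := col_onto hx'
      have h1 := (condW_false hX hν IH hκ hκν (u ++ [l]) (ξ ++ [x]) (by
        intro y hy
        rcases List.mem_append.1 hy with hy | hy
        · exact hξ y hy
        · rw [List.mem_singleton.1 hy]; exact ⟨hx, hxκ⟩)).1 (h l x hxκ)
      rw [List.map_append] at h1
      exact h1
    · intro h l x hxκ
      by_contra hcon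
      obtain ⟨x₀, ⟨h1, h2⟩, hmin⟩ := (wellFounded_lt (α := Ordinal.{0})).has_min
        {y | y < κ ∧ ¬ WE κ ν (u ++ [l]) (ξ ++ [y])} ⟨x, hxκ, hcon⟩
      have hm : x₀ ∈ X := by
        refine hX ν hν _ (ξ ++ [κ]) ?_ x₀ ⟨h1.trans hκν,
          (sat_phi2 (u ++ [l]) fun x hx => (hξ x hx).2).2 ⟨h1, h2⟩, ?_⟩
        · intro y hy
          rcases List.mem_append.1 hy with hy | hy
          · exact ⟨(hξ y hy).1, (hξ y hy).2.trans hκν⟩
          · rw [List.mem_singleton.1 hy]; exact ⟨hκ, hκν⟩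
        · intro y hy hS
          exact hmin y ((sat_phi2 (u ++ [l]) fun x hx => (hξ x hx).2).1 hS) hy
      apply h2
      refine (condW_false hX hν IH hκ hκν (u ++ [l]) (ξ ++ [x₀]) (by
        intro y hy
        rcases List.mem_append.1 hy with hy | hy
        · exact hξ y hy
        · rw [List.mem_singleton.1 hy]; exact ⟨hm, h1⟩)).2 ?_
      rw [List.map_append]
      exact h l (col X x₀) (col_lt hm h1)

end MP2900
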