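import Pool.Agent.Lib.MP_2900b9_lc.C.CorrW

/-!
Module Corr: facts are correct on the accessible part.

* corr: induction on `Acc (ltF F) v`, inside induction on `φ`, for all `f`. bot: clause `bot`, sat_bot. lt: clause, sat_lt, corr_lt (entries of `f` are below `v`, so accessible).
  W: clause `W`, sat_W, sel_map_iff, corr_W. S: clause `S`: `F φ c a` with `a` an entry of `f`, so `ltF F a v`: outer induction hypothesis; `sat_S` requires
  `c.map ρ < ρ a` (from the first conjunct of the IH, corr_lt) and `ρ a < ρ v`. R: clause, sat_R, sel_map_iff, inner IH (selected entries are entries of `f`).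
  imp: clause, sat_imp, inner IH. all: clause, sat_all; ordinals `< ρ v` are the `ρ m` with `ltF F m v` (corr_onto); inner IH for `m :: f`.
* corr_FO: restatement: the first conjunct is equivalent to `∀ x ∈ f.map ρ, x < ρ v` when all entries of `f` are accessible.
* corr_Fct: unfold FctP, sel_map_iff.
-/

set_option autoImplicit false

namespace MP2900

open Set Pool.Agent.Lib.MP_2900b9_lc

variable [TP] {F : Fm → List ℕ → ℕ → Prop}

private theorem corr_all_lt (hF : BoF F) {a : ℕ} {c : List ℕ} (ha : Acc (ltF F) a)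
    (hc : ∀ m ∈ c, Acc (ltF F) m) :
    (∀ x ∈ c.map (rk (ltF F)), x < rk (ltF F) a) ↔ ∀ m ∈ c, ltF F m a := by
  constructor
  · intro h m hm
    exact (corr_lt hF (hc m hm) ha).2 (h _ (List.mem_map_of_mem hm))
  · intro h x hx
    obtain ⟨m, hm, rfl⟩ := List.mem_map.1 hx
    exact (corr_lt hF (hc m hm) ha).1 (h m hm)

theorem corr (hF : BoF F) {v : ℕ} (hv : Acc (ltF F) v) (φ : Fm) (f : List ℕ) :
    F φ f v ↔ (∀ m ∈ f, ltF F m v) ∧ Sat (rk (ltF F) v) φ (f.map (rk (ltF F))) := by
  induction hv generalizing φ f with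
  | intro v h ih =>
    have hv : Acc (ltF F) v := Acc.intro v h
    induction φ generalizing f with
    | bot =>
      constructor
      · intro h1
        exact absurd h1 (hF.bot f v)
      · rintro ⟨-, h1⟩
        exact absurd h1 (sat_bot _ _)
    | lt i j =>
      rw [hF.lt, sat_lt]
      refine and_congr_right fun hs => ?_
      constructor
      · rintro ⟨a, b, ha, hb, hab⟩
        have haa := h a (hs a (List.mem_of_getElem? ha))
        have hbb := h b (hs b (List.mem_of_getElem? hb))
        exact ⟨_, _, by rw [List.getElem?_map, ha]; rfl, by rw [List.getElem?_map, hb]; rfl,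
          (corr_lt hF haa hbb).1 hab⟩
      · rintro ⟨a', b', ha, hb, hab⟩
        rw [List.getElem?_map, Option.map_eq_some_iff] at ha hb
        obtain ⟨a, ha, rfl⟩ := ha
        obtain ⟨b, hb, rfl⟩ := hb
        have haa := h a (hs a (List.mem_of_getElem? ha))
        have hbb := h b (hs b (List.mem_of_getElem? hb))
        exact ⟨a, b, ha, hb, (corr_lt hF haa hbb).2 hab⟩
    | W b u l k =>
      rw [hF.W, sat_W]
      refine and_congr_right fun hs => ?_
      constructor
      · rintro ⟨c, a, hc, ha, hca, hw⟩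
        have hav := hs a (List.mem_of_getElem? ha)
        have hcacc : ∀ m ∈ c, Acc (ltF F) m := fun m hm => h m (hs m (hc.mem m hm))
        exact ⟨_, _, hc.map _, by rw [List.getElem?_map, ha]; rfl,
          (corr_all_lt hF (h a hav) hcacc).2 hca, (corr_W hF hv b u c a hca hav).1 hw⟩
      · rintro ⟨c', a', hc, ha, hca, hw⟩
        rw [sel_map_iff] at hc
        obtain ⟨c, hc, rfl⟩ := hc
        rw [List.getElem?_map, Option.map_eq_some_iff] at ha
        obtain ⟨a, ha, rfl⟩ := ha
        have hav := hs a (List.mem_of_getElem? ha)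
        have hcacc : ∀ m ∈ c, Acc (ltF F) m := fun m hm => h m (hs m (hc.mem m hm))
        have hca' := (corr_all_lt hF (h a hav) hcacc).1 hca
        exact ⟨c, a, hc, ha, hca', (corr_W hF hv b u c a hca' hav).2 hw⟩
    | S φ l k _ =>
      rw [hF.S, sat_S]
      refine and_congr_right fun hs => ?_
      constructor
      · rintro ⟨c, a, hc, ha, hw⟩
        have hav := hs a (List.mem_of_getElem? ha)
        have hcacc : ∀ m ∈ c, Acc (ltF F) m := fun m hm => h m (hs m (hc.mem m hm))
        obtain ⟨h1, h2⟩ := (ih a hav φ c).1 hw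
        exact ⟨_, _, hc.map _, by rw [List.getElem?_map, ha]; rfl,
          (corr_all_lt hF (h a hav) hcacc).2 h1, (corr_lt hF (h a hav) hv).1 hav, h2⟩
      · rintro ⟨c', a', hc, ha, hca, -, hw⟩
        rw [sel_map_iff] at hc
        obtain ⟨c, hc, rfl⟩ := hc
        rw [List.getElem?_map, Option.map_eq_some_iff] at ha
        obtain ⟨a, ha, rfl⟩ := ha
        have hav := hs a (List.mem_of_getElem? ha)
        have hcacc : ∀ m ∈ c, Acc (ltF F) m := fun m hm => h m (hs m (hc.mem m hm))
        exact ⟨c, a, hc, ha, (ih a hav φ c).2 ⟨(corr_all_lt hF (h a hav) hcacc).1 hca, hw⟩⟩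
    | R l φ ihφ =>
      rw [hF.R, sat_R]
      refine and_congr_right fun hs => ?_
      constructor
      · rintro ⟨c, hc, hw⟩
        exact ⟨_, hc.map _, ((ihφ c).1 hw).2⟩
      · rintro ⟨c', hc, hw⟩
        rw [sel_map_iff] at hc
        obtain ⟨c, hc, rfl⟩ := hc
        exact ⟨c, hc, (ihφ c).2 ⟨fun m hm => hs m (hc.mem m hm), hw⟩⟩
    | imp φ ψ ihφ ihψ =>
      rw [hF.imp, sat_imp]
      refine and_congr_right fun hs => ?_
      constructor
      · intro h1 h2
        exact ((ihψ f).1 (h1 ((ihφ f).2 ⟨hs, h2⟩))).2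
      · intro h1 h2
        exact (ihψ f).2 ⟨hs, h1 ((ihφ f).1 h2).2⟩
    | all φ ihφ =>
      rw [hF.all, sat_all]
      refine and_congr_right fun hs => ?_
      constructor
      · intro h1 x hx
        obtain ⟨m, hm, rfl⟩ := corr_onto hF hv hx
        exact ((ihφ (m :: f)).1 (h1 m hm)).2
      · intro h1 m hm
        refine (ihφ (m :: f)).2 ⟨?_, h1 _ ((corr_lt hF (h m hm) hv).1 hm)⟩
        intro x hx
        rcases List.mem_cons.1 hx with rfl | hx
        · exact hm
        · exact hs x hx

theorem corr_FO (hF : BoF F) {v : ℕ} (hv : Acc (ltF F) v) (φ : Fm) {f : List ℕ}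
    (hf : ∀ m ∈ f, Acc (ltF F) m) : F φ f v ↔ FO φ (f.map (rk (ltF F))) (rk (ltF F) v) := by
  rw [corr hF hv, FO, corr_all_lt hF hv hf]

theorem corr_Fct (hF : BoF F) (φ : Fm) (f : List ℕ) (v : ℕ) {l : List ℕ}
    (hl : ∀ m ∈ l, Acc (ltF F) m) :
    FctP F φ f v l ↔ FctP FO φ f v (l.map (rk (ltF F))) := by
  unfold FctP
  constructor
  · rintro ⟨c, a, hc, ha, hw⟩
    have hcacc : ∀ m ∈ c, Acc (ltF F) m := fun m hm => hl m (hc.mem m hm)
    exact ⟨_, _, hc.map _, by rw [List.getElem?_map, ha]; rfl,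
      (corr_FO hF (hl a (List.mem_of_getElem? ha)) φ hcacc).1 hw⟩
  · rintro ⟨c', a', hc, ha, hw⟩
    rw [sel_map_iff] at hc
    obtain ⟨c, hc, rfl⟩ := hc
    rw [List.getElem?_map, Option.map_eq_some_iff] at ha
    obtain ⟨a, ha, rfl⟩ := ha
    have hcacc : ∀ m ∈ c, Acc (ltF F) m := fun m hm => hl m (hc.mem m hm)
    exact ⟨c, a, hc, ha, (corr_FO hF (hl a (List.mem_of_getElem? ha)) φ hcacc).2 hw⟩

end MP2900
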