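import Pool.Agent.Lib.MP_2900b9_lc.C.Rank

/-!
Module CorrW: in a fact structure with all recursion clauses, order and winning relations are correct on the accessible part.

Let `lt = ltF F`, `ρ = rk lt`. `lt` is transitive, so rk_onto applies to accessible points (`exists_LR`).
* corr_lt: (→) rk_lt. (←) if not `lt a b`, then every `c` with `lt c b`... by totality `tot`: for `lt c b` we get `lt c a ∨ lt a b`, so `lt c a`; hence every predecessor `c` of
  `b` has rank `< ρ a`, so `ρ b ≤ ρ a` (rk_le_of).
* corr_onto: rk_onto.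
* corr_W: for accessible `v` and `lt a v`, `c < a`. Points below an accessible point are accessible. Induction on `Acc lt v` for `b = false`:
  `we` clause; ViolR by violR_map and corr_lt; the witness `v₀` with `lt a v₀`, `lt v₀ v`: WcF true at `v₀` is by the `wo` clause the statement that for all `n`, `x` with `lt x a`:
  `WcF false (u ++ [n]) (c ++ [x]) a v₀`, where by the induction hypothesis for `v₀` these are `WE (ρ a) (ρ v₀) ..`. The ordinals `< ρ a` are the `ρ x`, `lt x a` (corr_onto).
  The ordinals `ν₀` with `ρ a < ν₀ < ρ v` are the `ρ v₀` (corr_onto, corr_lt). Then `b = true` from `b = false` at the same `v`.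
-/

set_option autoImplicit false

namespace MP2900

open Set Pool.Agent.Lib.MP_2900b9_lc

variable [TP] {F : Fm → List ℕ → ℕ → Prop}

theorem corr_lt (hF : BoF F) {a b : ℕ} (ha : Acc (ltF F) a) (hb : Acc (ltF F) b) :
    ltF F a b ↔ rk (ltF F) a < rk (ltF F) b := by
  constructor
  · exact fun h => rk_lt (exists_LR hb) h
  · intro h
    by_contra hn
    refine absurd h (not_lt.2 (rk_le_of (exists_LR hb) fun c hc => ?_))
    rcases hF.tot c b a hc with h1 | h1
    · exact rk_lt (exists_LR ha) h1
    · exact absurd h1 hn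

theorem corr_onto (hF : BoF F) {a : ℕ} (ha : Acc (ltF F) a) {ζ : Ordinal.{0}}
    (h : ζ < rk (ltF F) a) : ∃ b, ltF F b a ∧ rk (ltF F) b = ζ :=
  rk_onto hF.tr (exists_LR ha) h

theorem corr_W (hF : BoF F) {v : ℕ} (hv : Acc (ltF F) v) (b : Bool) (u : List ℕ) (c : List ℕ)
    (a : ℕ) (hc : ∀ x ∈ c, ltF F x a) (ha : ltF F a v) :
    WcF F b u c a v ↔
      WB b (rk (ltF F) a) (rk (ltF F) v) u (c.map (rk (ltF F))) := by
  induction hv generalizing b u c a with
  | intro v hv ih =>
    have hvv : Acc (ltF F) v := Acc.intro v hv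
    have hf : ∀ (u c : List ℕ) (a : ℕ), (∀ x ∈ c, ltF F x a) → ltF F a v →
        (WcF F false u c a v ↔
          WE (rk (ltF F) a) (rk (ltF F) v) u (c.map (rk (ltF F)))) := by
      intro u c a hc ha
      have haa : Acc (ltF F) a := hv a ha
      have hx : ∀ x ∈ c, Acc (ltF F) x := fun x hx => haa.inv (hc x hx)
      have h1 : ViolR (ltF F) u c ↔ ViolR (· < ·) u (c.map (rk (ltF F))) :=
        violR_map _ _ _ _ _ fun x hx1 y hy1 => corr_lt hF (hx x hx1) (hx y hy1)
      rw [hF.we u c a v hc ha, WE_iff, h1]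
      refine or_congr Iff.rfl ?_
      constructor
      · rintro ⟨v₀, h2, h3, n, h4⟩
        refine ⟨rk (ltF F) v₀, rk_lt (exists_LR hvv) h3, rk_lt (exists_LR (hv v₀ h3)) h2, n, ?_⟩
        exact (ih v₀ h3 true (u ++ [n]) c a hc h2).1 h4
      · rintro ⟨ν₀, h2, h3, n, h4⟩
        obtain ⟨v₀, h5, rfl⟩ := corr_onto hF hvv h2
        have h6 : ltF F a v₀ := (corr_lt hF haa (hv v₀ h5)).2 h3
        exact ⟨v₀, h6, h5, n, (ih v₀ h5 true (u ++ [n]) c a hc h6).2 h4⟩
    cases b with
    | false => exact hf u c a hc ha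
    | true =>
      have haa : Acc (ltF F) a := hv a ha
      rw [hF.wo u c a v hc ha, WB_true, WO_iff]
      have h7 : ∀ x, ltF F x a → ∀ y ∈ c ++ [x], ltF F y a := by
        intro x hx y hy
        rcases List.mem_append.1 hy with hy | hy
        · exact hc y hy
        · rw [List.mem_singleton.1 hy]
          exact hx
      constructor
      · intro h n x hx
        obtain ⟨y, hy, rfl⟩ := corr_onto hF haa hx
        have h8 := (hf (u ++ [n]) (c ++ [y]) a (h7 y hy) ha).1 (h n y hy)
        rw [List.map_append] at h8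
        exact h8
      · intro h n x hx
        refine (hf (u ++ [n]) (c ++ [x]) a (h7 x hx) ha).2 ?_
        rw [List.map_append]
        exact h n (rk (ltF F) x) (rk_lt (exists_LR haa) hx)

end MP2900
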