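import Mathlib
import Pool.Agent.Lib.MP_2900b9_lc.PSP

/-!
Definitions for the proof that comparability of non-Borel analytic sets implies analytic determinacy.
The full informal proof is in the file MP_2900b9_proof.md of the team store.
-/

set_option autoImplicit false

namespace MP2900

open Set Pool.Agent.Lib.MP_2900b9_lc

/-! ### Ranks of points of relations -/

/-- `LR R ξ a`: the point `a` is accessible for `R` and its rank is at most `ξ` -/
def LR {ι : Type*} (R : ι → ι → Prop) (ξ : Ordinal.{0}) (a : ι) : Prop :=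
  ∀ b, R b a → ∃ ξ', ∃ _ : ξ' < ξ, LR R ξ' b
termination_by ξ

/-- the rank of a point -/
noncomputable def rk {ι : Type*} (R : ι → ι → Prop) (a : ι) : Ordinal.{0} := sInf {ξ | LR R ξ a}

/-- simulation: when `a'` is accessible this says that `a` is accessible and `rk a ≤ rk a'` -/
def Sim {ι ι' : Type*} (R : ι → ι → Prop) (a : ι) (R' : ι' → ι' → Prop) (a' : ι') : Prop :=
  ∃ S : ι → ι' → Prop, S a a' ∧ ∀ i i', S i i' → ∀ k, R k i → ∃ k', R' k' i' ∧ S k k'

/-- the ordinal is countable -/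
def Ctb (ξ : Ordinal.{0}) : Prop := (Iio ξ).Countable

/-! ### The collapse of a set of ordinals -/

/-- the collapsing map of a set `X` of ordinals: `col X ξ` is the order type of `X ∩ ξ` -/
noncomputable def col (X : Set Ordinal.{0}) (ξ : Ordinal.{0}) : Ordinal.{0} :=
  sInf {θ | ∀ η, ∀ _ : η < ξ, η ∈ X → col X η < θ}
termination_by ξ

/-! ### Nodes of the tree `ω^{<ω}`, numbered by natural numbers -/

/-- the parent of the node `j ≥ 1` -/
def par (j : ℕ) : ℕ := (Nat.unpair (j - 1)).2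

/-- the `k`-th child of the node `i` -/
def chd (i k : ℕ) : ℕ := Nat.pair k i + 1

/-- the finite sequence of the node `j` -/
def nd : ℕ → List ℕ
  | 0 => []
  | j + 1 => nd (Nat.unpair j).2 ++ [(Nat.unpair j).1]
termination_by j => j
decreasing_by exact Nat.lt_succ_of_le (Nat.unpair_right_le j)

/-- the first `n` values of a sequence -/
def seg {A : Type*} (b : ℕ → A) (n : ℕ) : List A := (List.range n).map b

/-! ### The payoff set -/

/-- a tree `T` on pairs of finite sequences; it is the parameter of the whole construction -/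
class TP where
  T : List ℕ → List ℕ → Prop
  take : ∀ u v n, T u v → T (u.take n) (v.take n)

/-- the analytic set of the tree -/
def pay [TP] : Set (ℕ → ℕ) := {x | ∃ y : ℕ → ℕ, ∀ n, TP.T (seg x n) (seg y n)}

/-- the node `j` belongs to the tree of `u`, a long enough initial part of the play -/
def InT [TP] (u : List ℕ) (j : ℕ) : Prop := TP.T (u.take (nd j).length) (nd j)

/-- the tree of the play `x` -/
def InX [TP] (x : ℕ → ℕ) (j : ℕ) : Prop := TP.T (seg x (nd j).length) (nd j)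

/-- the ordinals `ξ` played by player II at the position `u` violate the rules -/
def ViolR [TP] {α : Type*} (lt : α → α → Prop) (u : List ℕ) (ξ : List α) : Prop :=
  ∃ j a b, 1 ≤ j ∧ InT u j ∧ ξ[j]? = some a ∧ ξ[par j]? = some b ∧ ¬ lt a b

/-- player I, to move, has won the auxiliary game already or wins with shifted rank `< ν` -/
def WE [TP] (κ ν : Ordinal.{0}) (u : List ℕ) (ξ : List Ordinal.{0}) : Prop :=
  ViolR (· < ·) u ξ ∨ ∃ ν₀, ∃ _ : ν₀ < ν, κ < ν₀ ∧ ∃ c, ∀ l, ∀ x < κ,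
    WE κ ν₀ (u ++ [c] ++ [l]) (ξ ++ [x])
termination_by ν

/-- player II is to move in the auxiliary game -/
def WO [TP] (κ ν : Ordinal.{0}) (u : List ℕ) (ξ : List Ordinal.{0}) : Prop :=
  ∀ l, ∀ x < κ, WE κ ν (u ++ [l]) (ξ ++ [x])

/-- both cases -/
def WB [TP] : Bool → Ordinal.{0} → Ordinal.{0} → List ℕ → List Ordinal.{0} → Prop
  | true => WO
  | false => WE

/-! ### Formulas and truth -/

/-- formulas; variables are positions in the environment, which is a list -/
inductive Fm : Type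
  | bot : Fm
  | lt : ℕ → ℕ → Fm
  | W : Bool → List ℕ → List ℕ → ℕ → Fm
  | S : Fm → List ℕ → ℕ → Fm
  | R : List ℕ → Fm → Fm
  | imp : Fm → Fm → Fm
  | all : Fm → Fm
deriving Encodable

/-- truth -/
def Fm.top : Fm := Fm.imp Fm.bot Fm.bot

/-- negation -/
def Fm.neg (φ : Fm) : Fm := Fm.imp φ Fm.bot

/-- conjunction -/
def Fm.and (φ ψ : Fm) : Fm := (Fm.imp φ ψ.neg).neg

/-- existential quantifier -/
def Fm.ex (φ : Fm) : Fm := (Fm.all φ.neg).neg

/-- `c` is the list of the entries of `e` at the positions `l` -/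
def Sel {α : Type*} (l : List ℕ) (e c : List α) : Prop :=
  List.Forall₂ (fun i x => e[i]? = some x) l c

/-- one step of the recursion for truth in the structure of height `ν` -/
def SatStep [TP] (ν : Ordinal.{0}) (IH : ∀ ν' < ν, Fm → List Ordinal.{0} → Prop) :
    Fm → List Ordinal.{0} → Prop
  | .bot, _ => False
  | .lt i j, e => ∃ a b, e[i]? = some a ∧ e[j]? = some b ∧ a < b
  | .W b u l k, e => ∃ c a, Sel l e c ∧ e[k]? = some a ∧ (∀ x ∈ c, x < a) ∧ WB b a ν u c
  | .S φ l v, e => ∃ c a, Sel l e c ∧ e[v]? = some a ∧ (∀ x ∈ c, x < a) ∧ ∃ h : a < ν, IH a h φ c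
  | .R l φ, e => ∃ c, Sel l e c ∧ SatStep ν IH φ c
  | .imp φ ψ, e => SatStep ν IH φ e → SatStep ν IH ψ e
  | .all φ, e => ∀ x < ν, SatStep ν IH φ (x :: e)

/-- truth in the structure of height `ν`; the entries of the environment should be `< ν` -/
def Sat [TP] (ν : Ordinal.{0}) : Fm → List Ordinal.{0} → Prop :=
  SatStep ν fun ν' _ => Sat ν'
termination_by ν

/-- the facts about ordinals -/
def FO [TP] (φ : Fm) (e : List Ordinal.{0}) (a : Ordinal.{0}) : Prop :=
  (∀ x ∈ e, x < a) ∧ Sat a φ e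

/-- the fact `φ` about the entries of `l` at the positions `f`, at the level given by position `v` -/
def FctP {α : Type*} (F : Fm → List α → α → Prop) (φ : Fm) (f : List ℕ) (v : ℕ) (l : List α) :
    Prop :=
  ∃ c a, Sel f l c ∧ l[v]? = some a ∧ F φ c a

/-- the tuples `p` and `r` have the same type over the ordinal `γ` -/
def SameTy [TP] (γ : Ordinal.{0}) (p r : List Ordinal.{0}) : Prop :=
  ∀ s : List Ordinal.{0}, (∀ x ∈ s, x < γ) → ∀ φ f v,
    FctP FO φ f v (s ++ p) ↔ FctP FO φ f v (s ++ r)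

/-- `x` is the least element of the structure of height `ν` with `φ` -/
def IsMin [TP] (ν : Ordinal.{0}) (φ : Fm) (e : List Ordinal.{0}) (x : Ordinal.{0}) : Prop :=
  x < ν ∧ Sat ν φ (x :: e) ∧ ∀ y < x, ¬ Sat ν φ (y :: e)

/-- the set of ordinals is closed under definable least elements -/
def ClM [TP] (X : Set Ordinal.{0}) : Prop :=
  ∀ ν ∈ X, ∀ φ e, (∀ y ∈ e, y ∈ X ∧ y < ν) → ∀ x, IsMin ν φ e x → x ∈ X

/-- every element of the structure of height `μ + 1` is definable from ordinals `< γ` and `p` -/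
def Full [TP] (γ : Ordinal.{0}) (p : List Ordinal.{0}) (μ : Ordinal.{0}) : Prop :=
  γ ≤ μ ∧ (∀ x ∈ p, x ≤ μ) ∧
    ∀ ξ ≤ μ, ∃ φ s, (∀ x ∈ s, x < γ) ∧ IsMin (μ + 1) φ (s ++ p) ξ

/-- iterated limits -/
def MuR {α : Type*} (lt : α → α → Prop) : ℕ → α → Prop
  | 0, _ => True
  | n + 1, x => ∀ a, lt a x → ∃ b, lt a b ∧ lt b x ∧ MuR lt n b

/-- the multiples of `ω ^ ω` -/
def Kc (ξ : Ordinal.{0}) : Prop := ∀ n, MuR (· < ·) n ξ

/-- the tree ranks allowed with a structure of height `γ` -/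
def JO [TP] (γ η : Ordinal.{0}) : Prop :=
  η = 0 ∨ ∃ μ p, μ ≤ η ∧ Full γ p μ ∧ ∀ k, μ < k → k ≤ η → ¬ Kc k

/-! ### Codes -/

/-- the number of a fact -/
def fc (φ : Fm) (f : List ℕ) (v : ℕ) : ℕ := 2 * Encodable.encode (φ, f, v) + 1

/-- the facts of a real -/
def Fz (z : ℕ → ℕ) (φ : Fm) (f : List ℕ) (v : ℕ) : Prop := z (fc φ f v) ≠ 0

/-- the facts of an enumeration of ordinals -/
def Fg [TP] (g : ℕ → Ordinal.{0}) (φ : Fm) (f : List ℕ) (v : ℕ) : Prop := FO φ (f.map g) (g v)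

/-- the order given by facts -/
def ltF {α : Type*} (F : Fm → List α → α → Prop) (m v : α) : Prop := F Fm.top [m] v

/-- the child relation of the tree of a real -/
def relX (z : ℕ → ℕ) (j i : ℕ) : Prop := 1 ≤ j ∧ par j = i ∧ z (2 * j) ≠ 0

/-- the order of a real, with a formal largest element -/
def relZ (z : ℕ → ℕ) : Option ℕ → Option ℕ → Prop
  | some m, some v => ltF (Fz z) m v
  | some _, none => True
  | none, _ => False

/-- the winning positions read off from the facts -/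
def WcF (F : Fm → List ℕ → ℕ → Prop) (b : Bool) (u c : List ℕ) (a v : ℕ) : Prop :=
  F (Fm.W b u (List.range c.length) c.length) (c ++ [a]) v

/-- the facts obey all recursion clauses -/
structure BoF [TP] (F : Fm → List ℕ → ℕ → Prop) : Prop where
  irr : ∀ a, ¬ ltF F a a
  tr : ∀ a b c, ltF F a b → ltF F b c → ltF F a c
  tot : ∀ a b c, ltF F a b → ltF F a c ∨ ltF F c b
  sub : ∀ φ f v, F φ f v → ∀ m ∈ f, ltF F m v
  bot : ∀ f v, ¬ F Fm.bot f v
  lt : ∀ i j f v, F (Fm.lt i j) f v ↔ (∀ m ∈ f, ltF F m v) ∧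
    ∃ a b, f[i]? = some a ∧ f[j]? = some b ∧ ltF F a b
  S : ∀ φ l k f v, F (Fm.S φ l k) f v ↔ (∀ m ∈ f, ltF F m v) ∧
    ∃ c a, Sel l f c ∧ f[k]? = some a ∧ F φ c a
  R : ∀ l φ f v, F (Fm.R l φ) f v ↔ (∀ m ∈ f, ltF F m v) ∧ ∃ c, Sel l f c ∧ F φ c v
  imp : ∀ φ ψ f v, F (Fm.imp φ ψ) f v ↔ (∀ m ∈ f, ltF F m v) ∧ (F φ f v → F ψ f v)
  all : ∀ φ f v, F (Fm.all φ) f v ↔ (∀ m ∈ f, ltF F m v) ∧ ∀ m, ltF F m v → F φ (m :: f) v
  W : ∀ b u l k f v, F (Fm.W b u l k) f v ↔ (∀ m ∈ f, ltF F m v) ∧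
    ∃ c a, Sel l f c ∧ f[k]? = some a ∧ (∀ x ∈ c, ltF F x a) ∧ WcF F b u c a v
  we : ∀ u c a v, (∀ x ∈ c, ltF F x a) → ltF F a v → (WcF F false u c a v ↔
    ViolR (ltF F) u c ∨ ∃ v₀, ltF F a v₀ ∧ ltF F v₀ v ∧ ∃ n, WcF F true (u ++ [n]) c a v₀)
  wo : ∀ u c a v, (∀ x ∈ c, ltF F x a) → ltF F a v → (WcF F true u c a v ↔
    ∀ n x, ltF F x a → WcF F false (u ++ [n]) (c ++ [x]) a v)

/-- the codes, up to well-foundedness -/
def Bo [TP] : Set (ℕ → ℕ) := {z | BoF (Fz z)}

/-- the set `VV` -/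
def Vset [TP] : Set (ℕ → ℕ) := {z | z ∈ Bo ∧ Acc (relZ z) none ∧ Acc (relX z) 0 ∧
  rk (relX z) 0 ≤ rk (relZ z) none}

/-- the set `UU` -/
def Uset [TP] : Set (ℕ → ℕ) := {w | ev w ∈ Vset ∨ od w ∈ Vset}

/-- the set `AA` -/
def Aset [TP] : Set (ℕ → ℕ) := {z | z ∈ Bo ∧ Acc (relZ z) none ∧ Acc (relX z) 0 ∧
  JO (rk (relZ z) none) (rk (relX z) 0)}

/-- the local version of `Full` -/
def FullR {α : Type*} (F : Fm → List α → α → Prop) (c : α) (p : List α) (b b' : α) : Prop :=
  ¬ ltF F b c ∧ (∀ x ∈ p, ¬ ltF F b x) ∧ ∀ m, ltF F m b' →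
    ∃ φ s, (∀ x ∈ s, ltF F x c) ∧ F φ (m :: (s ++ p)) b' ∧
      ∀ y, ltF F y m → ¬ F φ (y :: (s ++ p)) b'

/-- the local version of `JO` -/
def JR {α : Type*} (F : Fm → List α → α → Prop) (c b : α) : Prop :=
  (∀ m, ¬ ltF F m b) ∨ ∃ μ μ' p, ¬ ltF F b μ ∧ ltF F μ μ' ∧ (∀ m, ltF F m μ' → ¬ ltF F μ m) ∧
    FullR F c p μ μ' ∧ ∀ k, ltF F μ k → ¬ ltF F b k → ¬ ∀ n, MuR (ltF F) n k

/-- witnesses which make an enumeration elementary -/
def Wit [TP] (g : ℕ → Ordinal.{0}) : Fm → List ℕ → ℕ → ℕ × ℕ → Prop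
  | .all ψ, f, v, t => (∀ x ∈ f, g x < g v) → ¬ Sat (g v) (.all ψ) (f.map g) →
      g t.2 < g v ∧ ¬ Sat (g v) ψ (g t.2 :: f.map g)
  | .W false u l k, f, v, t => ∀ c a, Sel l f c → f[k]? = some a → (∀ x ∈ c, g x < g a) →
      g a < g v → WE (g a) (g v) u (c.map g) → ViolR (· < ·) u (c.map g) ∨
        (g a < g t.2 ∧ g t.2 < g v ∧ WO (g a) (g t.2) (u ++ [t.1]) (c.map g))
  | .W true u l k, f, v, t => ∀ c a, Sel l f c → f[k]? = some a → (∀ x ∈ c, g x < g a) →
      g a < g v → ¬ WO (g a) (g v) u (c.map g) →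
        g t.2 < g a ∧ ¬ WE (g a) (g v) (u ++ [t.1]) (c.map g ++ [g t.2])
  | _, _, _, _ => True

/-! ### Forcing -/

/-- the forcing relation for `the rank of m is at most ξ` -/
def FL {A ι : Type*} (V : List A → Prop) (D : List A → Set (ℕ → ℕ) → Prop)
    (O : ι → ι → Set (ℕ → ℕ)) (ξ : Ordinal.{0}) (m : ι) (c : List A) : Prop :=
  ∀ m' d, V d → c <+: d → D d (O m' m) → ∃ ξ', ∃ _ : ξ' < ξ, ∃ e, V e ∧ d <+: e ∧
    FL V D O ξ' m' e
termination_by ξ

/-- the forcing relation for a countable intersection of open sets -/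
def FB {A : Type*} (V : List A → Prop) (D : List A → Set (ℕ → ℕ) → Prop)
    (O : ℕ → Set (ℕ → ℕ)) (c : List A) : Prop :=
  ∀ k d, V d → c <+: d → ∃ e, V e ∧ d <+: e ∧ D e (O k)

/-- the forcing relation for `the rank of m is exactly ξ` -/
def FT {A ι : Type*} (V : List A → Prop) (D : List A → Set (ℕ → ℕ) → Prop)
    (O : ι → ι → Set (ℕ → ℕ)) (ξ : Ordinal.{0}) (m : ι) (c : List A) : Prop :=
  FL V D O ξ m c ∧ ∀ ξ' < ξ, ∀ e, V e → c <+: e → ¬ FL V D O ξ' m e

/-- the relation names given by a continuous map -/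
def OX (G : (ℕ → ℕ) → ℕ → ℕ) (m' m : ℕ) : Set (ℕ → ℕ) := {w | relX (G w) m' m}

/-- the relation names given by a continuous map -/
def OZ (G : (ℕ → ℕ) → ℕ → ℕ) (m' m : Option ℕ) : Set (ℕ → ℕ) := {w | relZ (G w) m' m}

/-- the forcing relation for a fact about elements of ranks `ζ` and the elements `n` -/
def FPsi {A : Type*} (V : List A → Prop) (D : List A → Set (ℕ → ℕ) → Prop)
    (G : (ℕ → ℕ) → ℕ → ℕ) (φ : Fm) (f : List ℕ) (v : ℕ) (ζ : List Ordinal.{0}) (n : List ℕ)
    (c : List A) : Prop :=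
  ∀ d, V d → c <+: d → ∃ e, V e ∧ d <+: e ∧ ∃ mm : List ℕ,
    List.Forall₂ (fun z m => FT V D (OZ G) z (some m) e) ζ mm ∧
      D e {w | FctP (Fz (G w)) φ f v (mm ++ n)}

/-- generic branches: every set of the family is decided -/
def Gen {A J : Type*} (V : List A → Prop) (Q : J → List A → Prop) (b : ℕ → A) : Prop :=
  (∀ n, V (seg b n)) ∧ ∀ j, ∃ n, Q j (seg b n) ∨ ∀ e, V e → seg b n <+: e → ¬ Q j e

/-! ### The conditions -/

/-- entries of conditions -/
structure Ent : Type 1 where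
  h : Bool → Option Ordinal.{0}
  g : Bool → Ordinal.{0}

instance : Inhabited Ent := ⟨⟨fun _ => none, fun _ => 0⟩⟩

/-- the extension of a finite condition by default entries -/
def ext {A : Type*} [Inhabited A] (c : List A) : ℕ → A := fun i => c.getD i default

open Classical in
/-- a component of the real of a branch -/
noncomputable def realC [TP] (β : Bool) (b : ℕ → Ent) (k : ℕ) : ℕ :=
  if k % 2 = 0 then (if ((b (k / 2)).h β).isSome then 1 else 0)
  else match (Encodable.decode (k / 2) : Option (Fm × List ℕ × ℕ)) with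
    | none => 0
    | some (φ, f, v) => if Fg (fun i => (b i).g β) φ f v then 1 else 0

/-- the real of a branch -/
noncomputable def real [TP] (b : ℕ → Ent) : ℕ → ℕ := jn (realC true b) (realC false b)

/-- validity of the entry number `i` -/
def VN (η κ : Bool → Ordinal.{0}) (b : ℕ → Ent) (i : ℕ) : Prop :=
  ∀ β, (b i).g β < κ β ∧ (i = 0 → (b i).h β = some (η β)) ∧
    (i ≠ 0 → ∀ ζ, (b i).h β = some ζ → ∃ ζ', (b (par i)).h β = some ζ' ∧ ζ < ζ')

/-- the valid conditions -/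
def Val (η κ : Bool → Ordinal.{0}) (c : List Ent) : Prop := ∀ i < c.length, VN η κ (ext c) i

/-- the value number `k` of the real is known from the first `N` entries -/
def Knw [TP] (N k : ℕ) : Prop :=
  ∀ b b' : ℕ → Ent, (∀ i < N, b i = b' i) → real b k = real b' k

/-- the condition decides that the real lies in `O` -/
def dec [TP] (c : List Ent) (O : Set (ℕ → ℕ)) : Prop :=
  ∃ n, (∀ k < n, Knw c.length k) ∧ ∀ w : ℕ → ℕ, (∀ k < n, w k = real (ext c) k) → w ∈ O

/-- retagging -/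
def Rt (ρ : Ordinal.{0}) (c c' : List Ent) : Prop :=
  List.Forall₂ (fun a a' : Ent => ∀ β, a.g β = a'.g β ∧
    ((a.h β = none ∧ a'.h β = none) ∨ ∃ ζ ζ', a.h β = some ζ ∧ a'.h β = some ζ' ∧
      (ζ = ζ' ∨ (ρ ≤ ζ ∧ ρ ≤ ζ')))) c c'

/-- the threshold of `the rank of m is at most ξ` -/
noncomputable def thr (ξ : Ordinal.{0}) : Ordinal.{0} := Ordinal.omega0 * 2 * (ξ + 1)

/-- the parameters of the conditions used for the first reduction -/
noncomputable def ηI (κ : Ordinal.{0}) : Bool → Ordinal.{0}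
  | true => κ + Ordinal.omega0
  | false => 0

/-- the parameters of the conditions used for the first reduction -/
noncomputable def κI (κ : Ordinal.{0}) : Bool → Ordinal.{0}
  | true => κ
  | false => 1

/-! ### Closed sets of ordinals -/

/-- closure under a countable family of finitary functions -/
def Cl (G : ℕ → List Ordinal.{0} → List Ordinal.{0}) (X : Set Ordinal.{0}) : Prop :=
  ∀ n l, (∀ x ∈ l, x ∈ X) → ∀ x ∈ G n l, x ∈ X

/-- finite structures over the ordinals: a natural number and a list of ordinals -/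
abbrev St : Type 1 := ℕ × List Ordinal.{0}

/-- image of a structure -/
def St.map (π : Ordinal.{0} → Ordinal.{0}) (z : St) : St := (z.1, z.2.map π)

/-- absolute families of relations -/
structure ASys [TP] where
  E : Ordinal.{0} → St → St → Prop
  G : ℕ → List Ordinal.{0} → List Ordinal.{0}
  bd : ∀ κ z z', E κ z z' → (∀ x ∈ z.2, x ≤ κ + Ordinal.omega0) ∧
    ∀ x ∈ z'.2, x ≤ κ + Ordinal.omega0
  abs : ∀ X, ClM X → Cl G X → (∀ n : ℕ, (n : Ordinal.{0}) ∈ X) → (∀ x ∈ X, ∀ n : ℕ, x + n ∈ X) →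
    (∀ x ∈ X, x + Ordinal.omega0 ∈ X) →
    ∀ κ ∈ X, ∀ z z' : St, (∀ x ∈ z.2, x ∈ X) → (∀ x ∈ z'.2, x ∈ X) →
      (E κ z z' ↔ E (col X κ) (z.map (col X)) (z'.map (col X)))

/-- the ranks of the relation are `< α` -/
def Bdd [TP] (E : Ordinal.{0} → St → St → Prop) (κ α : Ordinal.{0}) : Prop :=
  ∀ z : St, (∀ x ∈ z.2, x ≤ κ + Ordinal.omega0) → Acc (E κ) z → ∃ ξ < α, LR (E κ) ξ z

/-! ### Formulas for least elements -/

/-- the entry `ix` is the least `x` such that `φ` holds of `x` and the entries `l` -/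
def minF (φ : Fm) (ix : ℕ) (l : List ℕ) : Fm :=
  Fm.and (Fm.R (ix :: l) φ)
    (Fm.all (Fm.imp (Fm.lt 0 (ix + 1)) (Fm.neg (Fm.R (0 :: l.map (· + 1)) φ))))

/-- for the environment `s ++ s' ++ p` with lengths `k, k', m`: the least element given by `φ` and
`s ++ p` is less than the least element given by `φ'` and `s' ++ p` -/
def cmpF (φ φ' : Fm) (k k' m : ℕ) : Fm :=
  Fm.ex (Fm.ex (Fm.and (Fm.lt 1 0)
    (Fm.and (minF φ 1 ((List.range k ++ (List.range m).map (· + (k + k'))).map (· + 2)))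
      (minF φ' 0 (((List.range k').map (· + k) ++ (List.range m).map (· + (k + k'))).map (· + 2))))))

/-! ### The two absolute systems -/

/-- the component of a real -/
def cmpt (β : Bool) (w : ℕ → ℕ) : ℕ → ℕ := match β with
  | true => ev w
  | false => od w

/-- the number and the ordinals of a condition and a term -/
noncomputable def encI (i : Bool) (c : List Ent) (n : List ℕ) (φ : Fm) (s : List Ordinal.{0}) :
    St :=
  (Encodable.encode (i, c.map (fun a => ((a.h true).isSome, (a.h false).isSome)), n, φ),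
    c.flatMap (fun a => [(a.h true).getD 0, (a.h false).getD 0, a.g true, a.g false]) ++ s)

/-- the relation of the first reduction -/
def EI [TP] (F : (ℕ → ℕ) → ℕ → ℕ) (κ : Ordinal.{0}) (z z' : St) : Prop :=
  ∃ (i : Bool) (c : List Ent) (n : List ℕ) (m : ℕ) (φ : Fm) (s : List Ordinal.{0}) (φ' : Fm)
    (s' : List Ordinal.{0}), Val (ηI κ) (κI κ) c ∧ (∀ x ∈ s, x < κ) ∧ (∀ x ∈ s', x < κ) ∧
      n.length = m + 1 ∧ z = encI i c n φ s ∧ z' = encI i c n φ' s' ∧
      FPsi (Val (ηI κ) (κI κ)) dec (fun w => cmpt i (F (ev w))) (cmpF φ φ' s.length s'.length m)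
        (List.range (s.length + s'.length + m)) (s.length + s'.length + m) (s ++ s') n c

/-- natural numbers attached to an entry of an attempt -/
structure Aux where
  x : ℕ
  r : ℕ
  v : ℕ
  y : ℕ
  t1 : ℕ
  t2 : ℕ
  d : ℕ
deriving Encodable, Inhabited

/-- entries of attempts -/
abbrev At : Type 1 := Ordinal.{0} × Aux

open Classical in
/-- the input real of an attempt -/
noncomputable def wr [TP] (b : ℕ → At) : ℕ → ℕ :=
  jn (fun k => if k % 2 = 0 then (if (b (k / 2)).2.x = 0 then 0 else 1)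
      else match (Encodable.decode (k / 2) : Option (Fm × List ℕ × ℕ)) with
        | none => 0
        | some (φ, f, v) => if Fg (fun i => (b i).1) φ f v then 1 else 0)
    (fun i => (b i).2.v)

/-- the names of the conditions of an attempt -/
inductive CIx
  | tr : ℕ → CIx
  | fn : ℕ → CIx
  | wt : ℕ → CIx
  | ds : ℕ → CIx

/-- the conditions of an attempt -/
def Cnd [TP] (F : (ℕ → ℕ) → ℕ → ℕ) : CIx → (ℕ → At) → Prop
  | .tr i, b => i ≠ 0 → (b i).2.x ≠ 0 → par i ≠ 0 → (b (par i)).2.x ≠ 0 →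
      (b (b i).2.r).1 < (b (b (par i)).2.r).1
  | .fn n, b => ∃ w : ℕ → ℕ, (∀ k < n, w k = wr b k) ∧ ∀ k < n, F w k = (b k).2.y
  | .wt k, b => match (Encodable.decode k : Option (Fm × List ℕ × ℕ)) with
      | none => True
      | some (φ, f, v) => Wit (fun i => (b i).1) φ f v ((b k).2.t1, (b k).2.t2)
  | .ds i, b => ltF (Fz (fun k => (b k).2.y)) (b (i + 1)).2.d (b i).2.d

/-- the condition only refers to the first `N` entries -/
def Rlv [TP] : CIx → ℕ → (ℕ → At) → Prop
  | .tr i, N, b => i < N ∧ (b i).2.r < N ∧ (b (par i)).2.r < N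
  | .fn n, N, _ => n ≤ N ∧ ∀ k < n, ∀ b b' : ℕ → At, (∀ i < N, b i = b' i) → wr b k = wr b' k
  | .wt k, N, b => k < N ∧ (b k).2.t2 < N ∧
      match (Encodable.decode k : Option (Fm × List ℕ × ℕ)) with
      | none => True
      | some (_, f, v) => (∀ i ∈ f, i < N) ∧ v < N
  | .ds i, N, b => i + 1 < N ∧ fc Fm.top [(b (i + 1)).2.d] (b i).2.d < N

/-- the attempt of finite length obeys all conditions which only refer to its entries -/
def OKt [TP] (F : (ℕ → ℕ) → ℕ → ℕ) (t : List At) : Prop :=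
  ∀ i, Rlv i t.length (ext t) → Cnd F i (ext t)

/-- the number and the ordinals of an attempt -/
noncomputable def encA (t : List At) : St := (Encodable.encode (t.map Prod.snd), t.map Prod.fst)

/-- the relation of the second reduction: `z` extends `z'` by one entry -/
def EII [TP] (F : (ℕ → ℕ) → ℕ → ℕ) (κ : Ordinal.{0}) (z z' : St) : Prop :=
  ∃ (t : List At) (a : At), z = encA (t ++ [a]) ∧ z' = encA t ∧
    (∀ x ∈ t ++ [a], x.1 < κ + Ordinal.omega0) ∧ OKt F (t ++ [a])

/-- the key property of an absolute system -/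
def Key [TP] (E : Ordinal.{0} → St → St → Prop) : Prop :=
  ∀ κ α μ p, 0 < κ → Ctb κ → Kc κ → Bdd E κ α → Full κ p μ → μ < α

end MP2900
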