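import Pool.Agent.Lib.MP_2900b9_lc.C.Basic

/-!
Module MinFor: the formulas `minF` and `cmpF`.

* sat_minF: sat_and, sat_R (the selection `x :: c` is unique), sat_all, sat_imp, sat_lt (`y < x`: entries 0 and `ix + 1` of `y :: e`),
  sat_neg, sat_R, sel_shift with `d = [y]`. For `y < ν` the second conjunct is needed; `y < x` implies `y < ν` as `x < ν`.
* sat_cmpF: environment `x' :: x :: (s ++ s' ++ p)`; sat_ex twice (the first bound variable `x` gets position 1, the second `x'` position 0),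
  sat_and, sat_lt, sat_minF twice. Selection of `(range k ++ (range m).map (· + (k + k'))).map (· + 2)` from
  `x' :: x :: (s ++ s' ++ p)` is `s ++ p`: sel_shift with `d = [x', x]`, sel_append, sel_range_append, sel_shift with `d = s ++ s'`
  (length `k + k'`), sel_range. Similarly `s' ++ p`.
-/

set_option autoImplicit false

namespace MP2900

open Set Pool.Agent.Lib.MP_2900b9_lc

variable [TP]

theorem sat_minF {ν : Ordinal.{0}} {φ : Fm} {ix : ℕ} {l : List ℕ} {e c : List Ordinal.{0}}
    {x : Ordinal.{0}} (hx : e[ix]? = some x) (hν : x < ν) (hc : Sel l e c) :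
    Sat ν (minF φ ix l) e ↔ IsMin ν φ c x := by
  have h1 : (∃ c', Sel (ix :: l) e c' ∧ Sat ν φ c') ↔ Sat ν φ (x :: c) := by
    constructor
    · rintro ⟨c', h, h'⟩
      rwa [h.unique ((sel_cons ix l e x c).2 ⟨hx, hc⟩)] at h'
    · intro h
      exact ⟨x :: c, (sel_cons ix l e x c).2 ⟨hx, hc⟩, h⟩
  have h2 : ∀ y, (∃ c', Sel (0 :: l.map (· + 1)) (y :: e) c' ∧ Sat ν φ c') ↔
      Sat ν φ (y :: c) := by
    intro y
    have h3 : Sel (0 :: l.map (· + 1)) (y :: e) (y :: c) :=
      (sel_cons _ _ _ _ _).2 ⟨by simp, (sel_shift l [y] e c).2 hc⟩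
    constructor
    · rintro ⟨c', h, h'⟩
      rwa [h.unique h3] at h'
    · intro h
      exact ⟨y :: c, h3, h⟩
  have h4 : ∀ y, (∃ a b, (y :: e)[0]? = some a ∧ (y :: e)[ix + 1]? = some b ∧ a < b) ↔ y < x := by
    intro y
    constructor
    · rintro ⟨a, b, ha, hb, hab⟩
      rw [List.getElem?_cons_zero] at ha
      rw [List.getElem?_cons_succ, hx] at hb
      cases ha; cases hb; exact hab
    · intro h
      exact ⟨y, x, by simp, by simp [hx], h⟩
  rw [minF, sat_and, sat_R, h1, sat_all]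
  constructor
  · rintro ⟨h5, h6⟩
    refine ⟨hν, h5, fun y hy => ?_⟩
    have h7 := h6 y (hy.trans hν)
    rw [sat_imp, sat_lt, h4, sat_neg, sat_R, h2] at h7
    exact h7 hy
  · rintro ⟨_, h5, h6⟩
    refine ⟨h5, fun y _ => ?_⟩
    rw [sat_imp, sat_lt, h4, sat_neg, sat_R, h2]
    exact h6 y

theorem sat_cmpF {ν : Ordinal.{0}} (φ φ' : Fm) (s s' p : List Ordinal.{0}) :
    Sat ν (cmpF φ φ' s.length s'.length p.length) (s ++ s' ++ p) ↔
      ∃ x x', IsMin ν φ (s ++ p) x ∧ IsMin ν φ' (s' ++ p) x' ∧ x < x' := by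
  have hp : Sel ((List.range p.length).map (· + (s.length + s'.length))) (s ++ s' ++ p) p := by
    have h := (sel_shift (List.range p.length) (s ++ s') p p).2 (sel_range p)
    rwa [List.length_append] at h
  have hs : Sel (List.range s.length) (s ++ s' ++ p) s := by
    rw [List.append_assoc]
    exact sel_range_append s (s' ++ p)
  have hs' : Sel ((List.range s'.length).map (· + s.length)) (s ++ s' ++ p) s' := by
    rw [List.append_assoc]
    exact (sel_shift (List.range s'.length) s (s' ++ p) s').2 (sel_range_append s' p)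
  have h1 : ∀ x x' : Ordinal.{0}, Sel ((List.range s.length ++ (List.range p.length).map
      (· + (s.length + s'.length))).map (· + 2)) (x' :: x :: (s ++ s' ++ p)) (s ++ p) := by
    intro x x'
    exact (sel_shift _ [x', x] (s ++ s' ++ p) (s ++ p)).2 (sel_append _ _ _ _ _ hs hp)
  have h2 : ∀ x x' : Ordinal.{0}, Sel (((List.range s'.length).map (· + s.length) ++
      (List.range p.length).map (· + (s.length + s'.length))).map (· + 2))
      (x' :: x :: (s ++ s' ++ p)) (s' ++ p) := by
    intro x x'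
    exact (sel_shift _ [x', x] (s ++ s' ++ p) (s' ++ p)).2 (sel_append _ _ _ _ _ hs' hp)
  have h3 : ∀ x x' : Ordinal.{0}, (∃ a b, (x' :: x :: (s ++ s' ++ p))[1]? = some a ∧
      (x' :: x :: (s ++ s' ++ p))[0]? = some b ∧ a < b) ↔ x < x' := by
    intro x x'
    constructor
    · rintro ⟨a, b, ha, hb, hab⟩
      rw [List.getElem?_cons_zero] at hb
      rw [List.getElem?_cons_succ, List.getElem?_cons_zero] at ha
      cases ha; cases hb; exact hab
    · intro h
      exact ⟨x, x', by simp, by simp, h⟩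
  rw [cmpF, sat_ex]
  constructor
  · rintro ⟨x, hx, h⟩
    rw [sat_ex] at h
    obtain ⟨x', hx', h⟩ := h
    rw [sat_and, sat_and, sat_lt, h3, sat_minF (x := x) (by simp) hx (h1 x x'),
      sat_minF (x := x') (by simp) hx' (h2 x x')] at h
    exact ⟨x, x', h.2.1, h.2.2, h.1⟩
  · rintro ⟨x, x', h4, h5, h6⟩
    refine ⟨x, h4.1, ?_⟩
    rw [sat_ex]
    refine ⟨x', h5.1, ?_⟩
    rw [sat_and, sat_and, sat_lt, h3, sat_minF (x := x) (by simp) h4.1 (h1 x x'),
      sat_minF (x := x') (by simp) h5.1 (h2 x x')]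
    exact ⟨h6, h4, h5⟩

theorem isMin_unique {ν : Ordinal.{0}} {φ : Fm} {e : List Ordinal.{0}} {x x' : Ordinal.{0}}
    (h : IsMin ν φ e x) (h' : IsMin ν φ e x') : x = x' := by
  rcases lt_trichotomy x x' with hlt | heq | hlt
  · exact absurd h.2.1 (h'.2.2 x hlt)
  · exact heq
  · exact absurd h'.2.1 (h.2.2 x' hlt)

end MP2900
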