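import Pool.Agent.Lib.MP_2900b9_lc.C.EDefs
import Pool.Agent.Lib.MP_2900b9_lc.C.Corr
import Pool.Agent.Lib.MP_2900b9_lc.C.MinFor

/-!
Module EConv: conversely the conditions characterize `Eset`.

Let `lt = ltF (Fz z)`, `ρ = rk lt`; all elements are accessible (acc_none), `lt` is transitive and `corr_lt`, `corr_onto`, `corr` apply. Let `b, p` be as in `CE`; `μ = ρ b`. `ρ 0 = μ + 1`: `μ < ρ 0` (rk_lt / corr_lt), and if `μ < ζ < ρ 0` then `ζ = ρ m`, `lt m 0`, so `¬ lt b m`, `ρ m ≤ ρ b`, contradiction. Every `m` has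
`ρ m ≤ ρ 0` as `¬ lt 0 m`. `γ ≤ μ`: otherwise `ξ = μ < γ` and `LR lt μ b` (LR_rk). Let `p' = p.map ρ`, entries `< μ + 1`. For `k`, `σ.map ρ = (tm k).2` (ERk, erk_iff'), and `Fz z φ (y :: (σ ++ p)) 0 ↔ (entries below 0) ∧ Sat (μ+1) φ (ρ y :: ((tm k).2 ++ p'))` (corr). First alternative: `ρ (k+1)` is the least ordinal `x < μ + 1` with
`Sat (μ+1) φ (x :: ..)` (ordinals `< ρ (k+1)` are ranks of elements below `k+1`), i.e. IsMin, so `gmp tm μ p' (k+1) = ρ (k+1)`. Second alternative: no ordinal `x < μ + 1` satisfies it (such `x` is `ρ y` with `lt y 0`; entries of `σ` have rank `< γ ≤ μ`, so they are below 0), so the set is empty and `gmp = 0 = ρ (k+1)`.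
So `gmp tm μ p' = ρ` on all of `ℕ`. Hence `Fz z φ f v ↔ Fg ρ φ f v` (corr_FO) and `z = cod (Fz z) = cod (Fg (gmp tm μ p'))`. `Full γ p' μ`: every `ξ ≤ μ` is `ρ m` for some `m`; `m ≠ 0`, `m = k + 1`; in the first alternative it is `IsMin`; in the second alternative `ξ = 0`, and `0` is `IsMin (μ+1) Fm.top ([] ++ p') 0`.
-/

set_option autoImplicit false

namespace MP2900

open Set Pool.Agent.Lib.MP_2900b9_lc

variable [TP] {tm : ℕ → Fm × List Ordinal.{0}} {γ : Ordinal.{0}}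

private theorem eConv_map {R : ℕ → ℕ → Prop} {l : List Ordinal.{0}} {σ : List ℕ}
    (h : List.Forall₂ (ERk R) l σ) : σ.map (rk R) = l := by
  induction h with
  | nil => rfl
  | cons h _ ih => rw [List.map_cons, ih, (erk_iff'.1 h).2]

theorem ce_eset (h1 : ∀ k, ∀ x ∈ (tm k).2, x < γ) {z : ℕ → ℕ} (hz : z ∈ Bo)
    (hacc : Acc (relZ z) none) (hce : CE tm γ z) : z ∈ Eset tm γ := by
  have hF : BoF (Fz z) := hz
  have hall : ∀ m, Acc (ltF (Fz z)) m := (acc_none z).1 hacc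
  obtain ⟨hcod, b, p, h0, hb0, hbm, hp, hγ, hk⟩ := hce
  have hlt : ∀ a c, ltF (Fz z) a c ↔ rk (ltF (Fz z)) a < rk (ltF (Fz z)) c :=
    fun a c => corr_lt hF (hall a) (hall c)
  obtain ⟨ρ, hρ⟩ : ∃ ρ, ρ = rk (ltF (Fz z)) := ⟨_, rfl⟩
  obtain ⟨μ, hμ⟩ : ∃ μ, μ = ρ b := ⟨_, rfl⟩
  rw [← hρ] at hlt
  have honto : ∀ a, ∀ ζ < ρ a, ∃ c, ltF (Fz z) c a ∧ ρ c = ζ := by
    intro a ζ hζ
    rw [hρ] at hζ ⊢
    exact corr_onto hF (hall a) hζ
  have hlt0 : μ < ρ 0 := by
    rw [hμ]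
    exact (hlt b 0).1 hb0
  have hρ0 : ρ 0 = μ + 1 := by
    apply le_antisymm
    · by_contra h
      obtain ⟨m, hm, hm'⟩ := honto 0 (μ + 1) (not_le.1 h)
      refine hbm m hm ((hlt b m).2 ?_)
      rw [hm', ← hμ]
      exact Order.lt_add_one_iff.2 le_rfl
    · exact Order.add_one_le_of_lt hlt0
  have hγμ : γ ≤ μ := by
    by_contra h
    refine hγ μ (not_le.1 h) ?_
    rw [hμ, hρ]
    exact LR_rk (exists_LR (hall b))
  have hp' : ∀ x ∈ p.map ρ, x ≤ μ := by
    intro x hx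
    obtain ⟨m, hm, rfl⟩ := List.mem_map.1 hx
    have h := (hlt m 0).1 (hp m hm)
    rw [hρ0] at h
    exact Order.lt_add_one_iff.1 h
  have key : ∀ k, (IsMin (μ + 1) (tm k).1 ((tm k).2 ++ p.map ρ) (ρ (k + 1))) ∨
      ((∀ x, ¬ IsMin (μ + 1) (tm k).1 ((tm k).2 ++ p.map ρ) x) ∧ ρ (k + 1) = 0) := by
    intro k
    obtain ⟨σ, hσ, halt⟩ := hk k
    have hσ' : σ.map ρ = (tm k).2 := by
      rw [hρ]
      exact eConv_map hσ
    have hσ0 : ∀ m ∈ σ, ltF (Fz z) m 0 := by
      intro m hm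
      rw [hlt m 0]
      have h2 : ρ m ∈ (tm k).2 := by
        rw [← hσ']
        exact List.mem_map_of_mem hm
      exact ((h1 k _ h2).trans_le hγμ).trans hlt0
    have hFz : ∀ y, Fz z (tm k).1 (y :: (σ ++ p)) 0 ↔
        ltF (Fz z) y 0 ∧ Sat (μ + 1) (tm k).1 (ρ y :: ((tm k).2 ++ p.map ρ)) := by
      intro y
      rw [corr hF (hall 0), ← hρ, hρ0, List.map_cons, List.map_append, hσ']
      constructor
      · rintro ⟨h2, h3⟩
        exact ⟨h2 y List.mem_cons_self, h3⟩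
      · rintro ⟨h2, h3⟩
        refine ⟨fun m hm => ?_, h3⟩
        rcases List.mem_cons.1 hm with rfl | hm
        · exact h2
        · rcases List.mem_append.1 hm with hm | hm
          · exact hσ0 m hm
          · exact hp m hm
    rcases halt with ⟨h2, h3⟩ | ⟨h2, h3⟩
    · left
      obtain ⟨h4, h5⟩ := (hFz _).1 h2
      refine ⟨?_, h5, ?_⟩
      · rw [← hρ0]
        exact (hlt _ _).1 h4
      · intro x hx hx'
        obtain ⟨y, hy, rfl⟩ := honto _ x hx
        exact h3 y hy ((hFz y).2 ⟨hF.tr _ _ _ hy h4, hx'⟩)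
    · right
      refine ⟨fun x hx => ?_, ?_⟩
      · have h4 := hx.1
        rw [← hρ0] at h4
        obtain ⟨y, hy, rfl⟩ := honto _ x h4
        exact h2 y ((hFz y).2 ⟨hy, hx.2.1⟩)
      · rw [hρ]
        exact (erk_iff'.1 h3).2
  have hgmp : gmp tm μ (p.map ρ) = ρ := by
    funext n
    cases n with
    | zero => rw [gmp, hρ0]
    | succ k =>
      rw [gmp]
      rcases key k with h2 | ⟨h2, h3⟩
      · have h4 : {x | IsMin (μ + 1) (tm k).1 ((tm k).2 ++ p.map ρ) x} = {ρ (k + 1)} := by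
          ext x
          constructor
          · intro hx
            exact isMin_unique hx h2
          · intro hx
            rw [mem_singleton_iff] at hx
            rw [hx]
            exact h2
        rw [h4]
        exact csInf_singleton _
      · have h4 : {x | IsMin (μ + 1) (tm k).1 ((tm k).2 ++ p.map ρ) x} = ∅ :=
          eq_empty_iff_forall_notMem.2 h2
        rw [h4, h3]
        exact Ordinal.sInf_empty
  refine ⟨μ, p.map ρ, ⟨hγμ, hp', fun ξ hξ => ?_⟩, ?_⟩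
  · have h2 : ξ < ρ 0 := by
      rw [hρ0]
      exact Order.lt_add_one_iff.2 hξ
    obtain ⟨m, hm, rfl⟩ := honto 0 ξ h2
    cases m with
    | zero => exact absurd hm (hF.irr 0)
    | succ k =>
      rcases key k with h3 | ⟨_, h3⟩
      · exact ⟨(tm k).1, (tm k).2, h1 k, h3⟩
      · refine ⟨Fm.top, [], by simp, ?_, sat_top _ _, ?_⟩
        · rw [h3]
          exact (zero_le (a := μ)).trans_lt (Order.lt_add_one_iff.2 le_rfl)
        · intro y hy
          rw [h3] at hy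
          exact absurd hy (not_lt.2 (zero_le (a := y)))
  · rw [hgmp]
    refine hcod.trans (cod_congr fun φ f v => ?_)
    rw [hρ]
    exact corr_FO hF (hall v) φ fun m _ => hall m

end MP2900
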