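import Pool.Agent.Lib.MP_2900b9_lc.C.Rank

/-!
More definitions (forcing, exact ranks) and short lemmas about them. (Proved file, not a module.)
-/

set_option autoImplicit false

namespace MP2900

open Set Pool.Agent.Lib.MP_2900b9_lc

/-- the rank of the point is exactly `z` -/
def ERk {ι : Type*} (R : ι → ι → Prop) (z : Ordinal.{0}) (m : ι) : Prop :=
  LR R z m ∧ ∀ z' < z, ¬ LR R z' m

theorem erk_iff {ι : Type*} {R : ι → ι → Prop} {z : Ordinal.{0}} {m : ι} :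
    ERk R z m ↔ (∃ ξ, LR R ξ m) ∧ rk R m = z := by
  constructor
  · rintro ⟨h1, h2⟩
    refine ⟨⟨z, h1⟩, le_antisymm (rk_le h1) ?_⟩
    by_contra h
    exact h2 _ (not_le.1 h) (LR_rk ⟨z, h1⟩)
  · rintro ⟨h1, rfl⟩
    exact ⟨LR_rk h1, fun z' hz' h => absurd (rk_le h) (not_le.2 hz')⟩

theorem erk_iff' {ι : Type} {R : ι → ι → Prop} {z : Ordinal.{0}} {m : ι} :
    ERk R z m ↔ Acc R m ∧ rk R m = z := by
  rw [erk_iff]
  constructor
  · rintro ⟨⟨ξ, h1⟩, h2⟩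
    exact ⟨LR_acc h1, h2⟩
  · rintro ⟨h1, h2⟩
    exact ⟨exists_LR h1, h2⟩

/-- the decision relation `D` is sound, complete for open sets, and monotone for the map `r` from
branches to reals -/
structure DOK {A : Type*} (V : List A → Prop) (D : List A → Set (ℕ → ℕ) → Prop)
    (r : (ℕ → A) → ℕ → ℕ) : Prop where
  pre : ∀ c d, c <+: d → V d → V c
  ex : ∀ c, V c → ∃ a, V (c ++ [a])
  snd : ∀ b n O, D (seg b n) O → r b ∈ O
  cpl : ∀ b O, IsOpen O → r b ∈ O → ∃ n, D (seg b n) O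
  mono : ∀ c d O, c <+: d → D c O → D d O

theorem FL_mono {A ι : Type*} {V : List A → Prop} {D : List A → Set (ℕ → ℕ) → Prop}
    {O : ι → ι → Set (ℕ → ℕ)} {ξ : Ordinal.{0}} {m : ι} {c d : List A} (h : c <+: d)
    (hc : FL V D O ξ m c) : FL V D O ξ m d := by
  rw [FL_iff] at hc ⊢
  exact fun m' d' h1 h2 => hc m' d' h1 (h.trans h2)

theorem FT_mono {A ι : Type*} {V : List A → Prop} {D : List A → Set (ℕ → ℕ) → Prop}
    {O : ι → ι → Set (ℕ → ℕ)} {ξ : Ordinal.{0}} {m : ι} {c d : List A} (h : c <+: d)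
    (hc : FT V D O ξ m c) : FT V D O ξ m d :=
  ⟨FL_mono h hc.1, fun ξ' h1 e h2 h3 => hc.2 ξ' h1 e h2 (h.trans h3)⟩

theorem FB_mono {A : Type*} {V : List A → Prop} {D : List A → Set (ℕ → ℕ) → Prop}
    {O : ℕ → Set (ℕ → ℕ)} {c d : List A} (h : c <+: d) (hc : FB V D O c) : FB V D O d :=
  fun k e h1 h2 => hc k e h1 (h.trans h2)

theorem FPsi_mono {A : Type*} {V : List A → Prop} {D : List A → Set (ℕ → ℕ) → Prop}
    {G : (ℕ → ℕ) → ℕ → ℕ} {φ : Fm} {f : List ℕ} {v : ℕ} {ζ : List Ordinal.{0}} {n : List ℕ}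
    {c d : List A} (h : c <+: d) (hc : FPsi V D G φ f v ζ n c) : FPsi V D G φ f v ζ n d :=
  fun e h1 h2 => hc e h1 (h.trans h2)

end MP2900
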