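import Pool.Agent.Lib.MP_2900b9_lc.C.RelZ
import Pool.Agent.Lib.MP_2900b9_lc.C.FDefs

/-!
Definitions for the bound of `JO` (section (F2) of the proof). The theorems of this file are the module EDefs.

* exists_tm: the set of pairs `(φ, s)` with `s < γ` is countable (lists over a countable set: `Set.countable_setOf_finite..`, or the type `Fm × List (Iio γ)` is countable) and nonempty, so it is the range of a sequence.
* Fz_cod: injectivity of `fc` (`Encodable.encode_injective`).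
* cod_le: clear.
-/

set_option autoImplicit false

namespace MP2900

open Set Pool.Agent.Lib.MP_2900b9_lc

theorem exists_tm {γ : Ordinal.{0}} (hγ : Ctb γ) : ∃ tm : ℕ → Fm × List Ordinal.{0},
    (∀ k, ∀ x ∈ (tm k).2, x < γ) ∧ ∀ φ s, (∀ x ∈ s, x < γ) → ∃ k, tm k = (φ, s) := by
  have h1 : Countable (Iio γ) := hγ.to_subtype
  have h2 : Nonempty (Fm × List (Iio γ)) := ⟨(Fm.bot, [])⟩
  obtain ⟨t, ht⟩ := exists_surjective_nat (Fm × List (Iio γ))
  refine ⟨fun k => ((t k).1, (t k).2.map Subtype.val), ?_, ?_⟩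
  · intro k x hx
    obtain ⟨y, _, rfl⟩ := List.mem_map.1 hx
    exact y.2
  · intro φ s hs
    have h3 : ∀ s : List Ordinal.{0}, (∀ x ∈ s, x < γ) →
        ∃ s' : List (Iio γ), s'.map Subtype.val = s := by
      intro s
      induction s with
      | nil => exact fun _ => ⟨[], rfl⟩
      | cons a s ih =>
        intro h
        obtain ⟨s', hs'⟩ := ih fun x hx => h x (List.mem_cons_of_mem _ hx)
        exact ⟨⟨a, h a List.mem_cons_self⟩ :: s', by rw [List.map_cons, hs']⟩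
    obtain ⟨s', hs'⟩ := h3 s hs
    obtain ⟨k, hk⟩ := ht (φ, s')
    refine ⟨k, ?_⟩
    simp only [hk, hs']

/-- the enumeration of the structure of height `μ + 2` by terms -/
noncomputable def gmp [TP] (tm : ℕ → Fm × List Ordinal.{0}) (μ : Ordinal.{0})
    (p : List Ordinal.{0}) : ℕ → Ordinal.{0}
  | 0 => μ + 1
  | k + 1 => sInf {x | IsMin (μ + 1) (tm k).1 ((tm k).2 ++ p) x}

open Classical in
/-- the normalized real of a fact structure -/
noncomputable def cod (F : Fm → List ℕ → ℕ → Prop) (k : ℕ) : ℕ :=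
  if ∃ φ f v, k = fc φ f v ∧ F φ f v then 1 else 0

/-- the set of codes -/
def Eset [TP] (tm : ℕ → Fm × List Ordinal.{0}) (γ : Ordinal.{0}) : Set (ℕ → ℕ) :=
  {z | ∃ μ p, Full γ p μ ∧ z = cod (Fg (gmp tm μ p))}

/-- the measurable part of the definition of `Eset` -/
def CE (tm : ℕ → Fm × List Ordinal.{0}) (γ : Ordinal.{0}) (z : ℕ → ℕ) : Prop :=
  z = cod (Fz z) ∧ ∃ (b : ℕ) (p : List ℕ), (∀ m, ¬ ltF (Fz z) 0 m) ∧ ltF (Fz z) b 0 ∧
    (∀ m, ltF (Fz z) m 0 → ¬ ltF (Fz z) b m) ∧ (∀ x ∈ p, ltF (Fz z) x 0) ∧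
    (∀ ξ < γ, ¬ LR (ltF (Fz z)) ξ b) ∧
    ∀ k, ∃ σ : List ℕ, List.Forall₂ (ERk (ltF (Fz z))) (tm k).2 σ ∧
      ((Fz z (tm k).1 ((k + 1) :: (σ ++ p)) 0 ∧
          ∀ y, ltF (Fz z) y (k + 1) → ¬ Fz z (tm k).1 (y :: (σ ++ p)) 0) ∨
        ((∀ y, ¬ Fz z (tm k).1 (y :: (σ ++ p)) 0) ∧ ERk (ltF (Fz z)) 0 (k + 1)))

theorem Fz_cod (F : Fm → List ℕ → ℕ → Prop) (φ : Fm) (f : List ℕ) (v : ℕ) :
    Fz (cod F) φ f v ↔ F φ f v := by
  unfold Fz cod
  constructor
  · intro h
    split_ifs at h with h1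
    · obtain ⟨φ', f', v', h2, h3⟩ := h1
      have h4 : Encodable.encode (φ, f, v) = Encodable.encode (φ', f', v') := by
        unfold fc at h2
        omega
      have h5 := Encodable.encode_injective h4
      simp only [Prod.mk.injEq] at h5
      obtain ⟨rfl, rfl, rfl⟩ := h5
      exact h3
    · exact absurd rfl h
  · intro h
    rw [if_pos ⟨φ, f, v, rfl, h⟩]
    exact one_ne_zero

theorem cod_congr {F F' : Fm → List ℕ → ℕ → Prop} (h : ∀ φ f v, F φ f v ↔ F' φ f v) :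
    cod F = cod F' := by
  have h1 : F = F' := by
    funext φ f v
    exact propext (h φ f v)
  rw [h1]

end MP2900
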