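import Pool.Agent.Lib.MP_2900b9_lc.C.EDefs
import Pool.Agent.Lib.MP_2900b9_lc.C.AJMeas

/-!
Module EMeas: measurability.

* meas_LR: for a countable ordinal `ξ` the set `{z | LR (ltF (Fz z)) ξ m}` is measurable: induction on `ξ`: by LR_iff it is `⋂ b, ({z | ltF (Fz z) b m}ᶜ ∪ ⋃ ξ' < ξ, {z | LR .. ξ' b})`, the union is over a countable set (`MeasurableSet.biUnion`, `Ctb`).
* meas_ERk: likewise (`ξ` countable).
* meas_CE: all quantifiers are over countable sets: natural numbers, lists, `ξ < γ`. The condition `z = cod (Fz z)` is `∀ k, z k = cod (Fz z) k`, where `{z | cod (Fz z) k = 1}` is measurable (for each `k`, a countable union over `φ, f, v`). `Forall₂ (ERk ..) s σ` for fixed lists `s, σ`: induction on `s` (finite intersection).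
-/

set_option autoImplicit false

namespace MP2900

open Set Pool.Agent.Lib.MP_2900b9_lc

open Topology MeasureTheory

private theorem emeas_Fz (φ : Fm) (f : List ℕ) (v : ℕ) :
    Measurable fun z : ℕ → ℕ => Fz z φ f v :=
  measurableSet_setOfPred.1 (clopen_Fz φ f v).2.measurableSet

private theorem emeas_ltF (a b : ℕ) : Measurable fun z : ℕ → ℕ => ltF (Fz z) a b :=
  emeas_Fz _ _ _

private theorem emeas_ctb {ξ ξ' : Ordinal.{0}} (h : Ctb ξ) (hle : ξ' ≤ ξ) : Ctb ξ' :=
  Set.Countable.mono (Iio_subset_Iio hle) h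

private theorem emeas_ex {ξ : Ordinal.{0}} (hξ : Ctb ξ) {P : Ordinal.{0} → (ℕ → ℕ) → Prop}
    (h : ∀ ξ' < ξ, Measurable (P ξ')) : Measurable fun z => ∃ ξ' < ξ, P ξ' z := by
  have : Countable (Iio ξ) := Set.Countable.to_subtype hξ
  have h1 : (fun z => ∃ ξ' < ξ, P ξ' z) = fun z => ∃ ξ' : Iio ξ, P ξ'.1 z := by
    funext z
    exact propext ⟨fun ⟨ξ', h1, h2⟩ => ⟨⟨ξ', h1⟩, h2⟩, fun ⟨ξ', h2⟩ => ⟨ξ'.1, ξ'.2, h2⟩⟩
  rw [h1]
  exact Measurable.exists fun ξ' => h ξ'.1 ξ'.2

private theorem emeas_all {ξ : Ordinal.{0}} (hξ : Ctb ξ) {P : Ordinal.{0} → (ℕ → ℕ) → Prop}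
    (h : ∀ ξ' < ξ, Measurable (P ξ')) : Measurable fun z => ∀ ξ' < ξ, P ξ' z := by
  have : Countable (Iio ξ) := Set.Countable.to_subtype hξ
  have h1 : (fun z => ∀ ξ' < ξ, P ξ' z) = fun z => ∀ ξ' : Iio ξ, P ξ'.1 z := by
    funext z
    exact propext ⟨fun h ξ' => h ξ'.1 ξ'.2, fun h ξ' h1 => h ⟨ξ', h1⟩⟩
  rw [h1]
  exact Measurable.forall fun ξ' => h ξ'.1 ξ'.2

private theorem emeas_LR : ∀ ξ : Ordinal.{0}, Ctb ξ → ∀ m : ℕ,
    Measurable fun z : ℕ → ℕ => LR (ltF (Fz z)) ξ m := by
  intro ξ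
  induction ξ using WellFoundedLT.induction with
  | _ ξ ih =>
    intro hξ m
    have h1 : (fun z : ℕ → ℕ => LR (ltF (Fz z)) ξ m) = fun z =>
        ∀ b, ltF (Fz z) b m → ∃ ξ' < ξ, LR (ltF (Fz z)) ξ' b := by
      funext z
      exact propext (LR_iff _ _ _)
    rw [h1]
    refine Measurable.forall fun b => (emeas_ltF b m).imp ?_
    exact emeas_ex hξ fun ξ' h => ih ξ' h (emeas_ctb hξ h.le) b

private theorem emeas_ERk {ξ : Ordinal.{0}} (hξ : Ctb ξ) (m : ℕ) :
    Measurable fun z : ℕ → ℕ => ERk (ltF (Fz z)) ξ m :=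
  (emeas_LR ξ hξ m).and (emeas_all hξ fun ξ' h => (emeas_LR ξ' (emeas_ctb hξ h.le) m).not)

private theorem emeas_F2 : ∀ (s : List Ordinal.{0}), (∀ x ∈ s, Ctb x) → ∀ σ : List ℕ,
    Measurable fun z : ℕ → ℕ => List.Forall₂ (ERk (ltF (Fz z))) s σ := by
  intro s
  induction s with
  | nil =>
    intro _ σ
    have h1 : (fun z : ℕ → ℕ => List.Forall₂ (ERk (ltF (Fz z))) [] σ) = fun _ => σ = [] := by
      funext z
      exact propext List.forall₂_nil_left_iff
    rw [h1]
    exact measurable_const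
  | cons x s ih =>
    intro hs σ
    cases σ with
    | nil =>
      have h1 : (fun z : ℕ → ℕ => List.Forall₂ (ERk (ltF (Fz z))) (x :: s) []) =
          fun _ => False := by
        funext z
        exact propext ⟨fun h => (nomatch h), False.elim⟩
      rw [h1]
      exact measurable_const
    | cons a σ =>
      simp only [List.forall₂_cons]
      exact (emeas_ERk (hs x List.mem_cons_self) a).and
        (ih (fun y hy => hs y (List.mem_cons_of_mem _ hy)) σ)

theorem meas_LR {ξ : Ordinal.{0}} (hξ : Ctb ξ) (m : ℕ) :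
    MeasurableSet {z : ℕ → ℕ | LR (ltF (Fz z)) ξ m} := by
  exact measurableSet_setOfPred.2 (emeas_LR ξ hξ m)

theorem meas_CE {tm : ℕ → Fm × List Ordinal.{0}} {γ : Ordinal.{0}} (hγ : Ctb γ)
    (h1 : ∀ k, ∀ x ∈ (tm k).2, x < γ) : MeasurableSet {z : ℕ → ℕ | CE tm γ z} := by
  refine measurableSet_setOfPred.2 ?_
  have hcod : Measurable fun z : ℕ → ℕ => z = cod (Fz z) := by
    have h1 : (fun z : ℕ → ℕ => z = cod (Fz z)) = fun z => ∀ k, z k = cod (Fz z) k := by
      funext z
      exact propext ⟨fun h k => congrFun h k, fun h => funext h⟩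
    rw [h1]
    refine Measurable.forall fun k => measurableSet_setOfPred.1 (measurableSet_eq_fun
      (measurable_pi_apply k) ?_)
    unfold cod
    refine Measurable.ite (measurableSet_setOfPred.2 ?_) measurable_const measurable_const
    exact Measurable.exists fun φ => Measurable.exists fun f => Measurable.exists fun v =>
      measurable_const.and (emeas_Fz φ f v)
  unfold CE
  refine hcod.and (Measurable.exists fun b => Measurable.exists fun p => ?_)
  refine (Measurable.forall fun m => (emeas_ltF _ _).not).and ?_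
  refine (emeas_ltF _ _).and ?_
  refine (Measurable.forall fun m => (emeas_ltF _ _).imp (emeas_ltF _ _).not).and ?_
  refine (Measurable.forall fun x => Measurable.forall fun _ => emeas_ltF _ _).and ?_
  refine (emeas_all hγ fun ξ hξ => (emeas_LR ξ (emeas_ctb hγ hξ.le) b).not).and ?_
  refine Measurable.forall fun k => Measurable.exists fun σ => ?_
  refine (emeas_F2 _ (fun x hx => emeas_ctb hγ (h1 k x hx).le) σ).and ?_
  refine Measurable.or ?_ ?_
  · exact (emeas_Fz _ _ _).and (Measurable.forall fun y => (emeas_ltF _ _).imp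
      (emeas_Fz _ _ _).not)
  · refine (Measurable.forall fun y => (emeas_Fz _ _ _).not).and (emeas_ERk ?_ _)
    refine Set.Countable.mono (Iio_subset_Iio (zero_le (a := γ))) hγ

end MP2900
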