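import Pool.Agent.Lib.MP_2900b9_lc.C.MinFor

/-!
Module Hull: the hull of the ordinals `< γ` and the tuple `p` in the structure of height `ν`.

* hull_lt: `x < γ`: `φ = (y = position 1)`, e.g. `Fm.and (Fm.lt 0 1).neg ... ` simplest: `φ := Fm.neg (Fm.lt 0 1)` (i.e. `y ≥ x`), `s = [x]`: the least `y`
  with `¬ y < x` is `x`.
* hull_p: `x ∈ p` is `p[i]`: `φ := Fm.neg (Fm.lt 0 (i + 1))`, `s = []`.
* hull_ind: general statement by induction on the list `e` of elements of the hull: for all `ψ` and `s < γ`, if `IsMin ν ψ (e ++ s ++ p) x` then `x` is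
  in the hull. `e = []`: definition. `e = e1 :: e'` with `IsMin ν φ1 (s1 ++ p) e1`: put
  `ψ' := Fm.ex (Fm.and (minF φ1 0 l1) (Fm.R l2 ψ))`; environment after the quantifier: `z :: y :: (e' ++ (s1 ++ s) ++ p)`; `l1` = positions of `s1 ++ p`
  in it, `l2` = `1 :: 0 ::` positions of `e' ++ s ++ p` in it. By sat_minF the only `z` is `e1`, so `ψ'` holds of `y` iff `ψ` holds of
  `y :: e1 :: (e' ++ s ++ p)`. So `IsMin ν ψ' (e' ++ (s1 ++ s) ++ p) x` and the induction hypothesis applies with `s1 ++ s`.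
* hull_clM: let `ν₁ ∈ Hul ∪ {ν}`, `IsMin ν₁ φ e x`, entries of `e` in the set and `< ν₁ ≤ ν`, so in the hull. If `ν₁ = ν`: hull_ind with
  `s = []` (environment `e ++ [] ++ p`: replace `φ` by `Fm.R (range (e.length + 1)) φ` which ignores `p`). If `ν₁` is in the hull, so `< ν`:
  `ψ := Fm.R (range (e.length + 2)) (Fm.S φ (0 :: (List.range e.length).map (· + 2)) 1)` for the list `ν₁ :: e`:
  `ψ` holds of `y` iff `y < ν₁` and `Sat ν₁ φ (y :: e)`. So `IsMin ν ψ ((ν₁ :: e) ++ [] ++ p) x`.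
-/

set_option autoImplicit false

namespace MP2900

open Set Pool.Agent.Lib.MP_2900b9_lc

variable [TP]

/-- the elements definable in the structure of height `ν` from ordinals `< γ` and `p` -/
def Hul (γ : Ordinal.{0}) (p : List Ordinal.{0}) (ν : Ordinal.{0}) : Set Ordinal.{0} :=
  {x | ∃ φ s, (∀ y ∈ s, y < γ) ∧ IsMin ν φ (s ++ p) x}

variable {γ ν : Ordinal.{0}} {p : List Ordinal.{0}}

private theorem satR_of {φ : Fm} {l : List ℕ} {e c : List Ordinal.{0}} (hc : Sel l e c) :
    Sat ν (Fm.R l φ) e ↔ Sat ν φ c := by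
  rw [sat_R]
  constructor
  · rintro ⟨c', h1, h2⟩
    rw [hc.unique h1]
    exact h2
  · intro h
    exact ⟨c, hc, h⟩

theorem hull_lt (hγ : γ ≤ ν) {x : Ordinal.{0}} (hx : x < γ) : x ∈ Hul γ p ν := by
  refine ⟨Fm.neg (Fm.lt 0 1), [x], by simpa using hx, lt_of_lt_of_le hx hγ, ?_, ?_⟩
  · rw [sat_neg, sat_lt]
    rintro ⟨a, b, h1, h2, h3⟩
    simp only [List.cons_append, List.nil_append, List.getElem?_cons_zero,
      List.getElem?_cons_succ, Option.some.injEq] at h1 h2
    subst h1
    subst h2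
    exact lt_irrefl _ h3
  · intro y hy
    rw [sat_neg, sat_lt, not_not]
    exact ⟨y, x, by simp, by simp, hy⟩

theorem hull_p (hp : ∀ x ∈ p, x < ν) {x : Ordinal.{0}} (hx : x ∈ p) : x ∈ Hul γ p ν := by
  obtain ⟨i, hi⟩ := List.mem_iff_getElem?.1 hx
  refine ⟨Fm.neg (Fm.lt 0 (i + 1)), [], by simp, hp x hx, ?_, ?_⟩
  · rw [sat_neg, sat_lt]
    rintro ⟨a, b, h1, h2, h3⟩
    simp only [List.nil_append, List.getElem?_cons_zero,
      List.getElem?_cons_succ, Option.some.injEq, hi] at h1 h2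
    subst h1
    subst h2
    exact lt_irrefl _ h3
  · intro y hy
    rw [sat_neg, sat_lt, not_not]
    exact ⟨y, x, by simp, by simpa using hi, hy⟩

theorem hull_ind (hγ : γ ≤ ν) (hp : ∀ x ∈ p, x < ν) (e : List Ordinal.{0})
    (he : ∀ x ∈ e, x ∈ Hul γ p ν) (ψ : Fm) (s : List Ordinal.{0}) (hs : ∀ x ∈ s, x < γ)
    {x : Ordinal.{0}} (h : IsMin ν ψ (e ++ s ++ p) x) : x ∈ Hul γ p ν := by
  induction e generalizing ψ s with
  | nil => exact ⟨ψ, s, hs, by simpa using h⟩
  | cons e1 e' ih =>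
    obtain ⟨φ1, s1, hs1, h1⟩ := he e1 (by simp)
    obtain ⟨l1, hsel1⟩ : ∃ l1, ∀ z y : Ordinal.{0}, Sel l1
        (z :: y :: (e' ++ (s1 ++ s) ++ p)) (s1 ++ p) := by
      refine ⟨((List.range s1.length).map (· + e'.length) ++
          (List.range p.length).map (· + (e' ++ s1 ++ s).length)).map (· + 2), ?_⟩
      intro z y
      refine (sel_shift _ [z, y] (e' ++ (s1 ++ s) ++ p) (s1 ++ p)).2 ?_
      refine sel_append _ _ _ _ _ ?_ ?_
      · have h2 := (sel_shift (List.range s1.length) e' (s1 ++ (s ++ p)) s1).2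
          (sel_range_append s1 (s ++ p))
        simpa [List.append_assoc] using h2
      · have h2 := (sel_shift (List.range p.length) (e' ++ s1 ++ s) p p).2 (sel_range p)
        simpa [List.append_assoc] using h2
    obtain ⟨l2, hsel2⟩ : ∃ l2, ∀ z y : Ordinal.{0}, Sel l2
        (z :: y :: (e' ++ (s1 ++ s) ++ p)) (y :: z :: (e' ++ s ++ p)) := by
      refine ⟨1 :: 0 :: ((List.range e'.length ++
          (List.range s.length).map (· + (e' ++ s1).length)) ++
          (List.range p.length).map (· + (e' ++ s1 ++ s).length)).map (· + 2), ?_⟩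
      intro z y
      refine (sel_cons _ _ _ _ _).2 ⟨by simp, (sel_cons _ _ _ _ _).2 ⟨by simp, ?_⟩⟩
      refine (sel_shift _ [z, y] (e' ++ (s1 ++ s) ++ p) (e' ++ s ++ p)).2 ?_
      refine sel_append _ _ _ _ _ (sel_append _ _ _ _ _ ?_ ?_) ?_
      · have h2 := sel_range_append e' ((s1 ++ s) ++ p)
        simpa [List.append_assoc] using h2
      · have h2 := (sel_shift (List.range s.length) (e' ++ s1) (s ++ p) s).2
          (sel_range_append s p)
        simpa [List.append_assoc] using h2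
      · have h2 := (sel_shift (List.range p.length) (e' ++ s1 ++ s) p p).2 (sel_range p)
        simpa [List.append_assoc] using h2
    have key : ∀ y, Sat ν (Fm.ex (Fm.and (minF φ1 0 l1) (Fm.R l2 ψ)))
        (y :: (e' ++ (s1 ++ s) ++ p)) ↔ Sat ν ψ (y :: ((e1 :: e') ++ s ++ p)) := by
      intro y
      rw [sat_ex]
      constructor
      · rintro ⟨z, hz, h2⟩
        rw [sat_and, sat_minF (ix := 0) rfl hz (hsel1 z y), satR_of (hsel2 z y)] at h2
        rw [isMin_unique h2.1 h1] at h2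
        exact h2.2
      · intro h2
        refine ⟨e1, h1.1, ?_⟩
        rw [sat_and, sat_minF (ix := 0) rfl h1.1 (hsel1 e1 y), satR_of (hsel2 e1 y)]
        exact ⟨h1, h2⟩
    refine ih (fun x hx => he x (List.mem_cons_of_mem _ hx)) _ (s1 ++ s) ?_ ⟨h.1, (key x).2 h.2.1, ?_⟩
    · intro x hx
      rcases List.mem_append.1 hx with hx | hx
      · exact hs1 x hx
      · exact hs x hx
    · intro y hy hsat
      exact h.2.2 y hy ((key y).1 hsat)

theorem hull_clM (hγ : γ ≤ ν) (hp : ∀ x ∈ p, x < ν) : ClM (Hul γ p ν ∪ {ν}) := by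
  rintro ν₁ hν₁ φ e he x hx
  left
  have hlt : ∀ y ∈ Hul γ p ν, y < ν := by
    rintro y ⟨φ', s, -, h⟩
    exact h.1
  have hle : ν₁ ≤ ν := by
    rcases hν₁ with h | h
    · exact (hlt _ h).le
    · exact (show ν₁ = ν from h).le
  have he' : ∀ y ∈ e, y ∈ Hul γ p ν := by
    intro y hy
    rcases (he y hy).1 with h | h
    · exact h
    · exact absurd (lt_of_lt_of_le (he y hy).2 hle) (by rw [show y = ν from h]; exact lt_irrefl _)
  rcases hν₁ with h | h
  · have key : ∀ y, Sat ν (Fm.S φ (0 :: (List.range e.length).map (· + 2)) 1)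
        (y :: ((ν₁ :: e) ++ [] ++ p)) ↔ y < ν₁ ∧ Sat ν₁ φ (y :: e) := by
      intro y
      have hsel : Sel (0 :: (List.range e.length).map (· + 2)) (y :: ((ν₁ :: e) ++ [] ++ p))
          (y :: e) := by
        refine (sel_cons _ _ _ _ _).2 ⟨by simp, ?_⟩
        have h2 := (sel_shift (List.range e.length) [y, ν₁] (e ++ p) e).2 (sel_range_append e p)
        simpa using h2
      rw [sat_S]
      constructor
      · rintro ⟨c, a, h1, h2, h3, h4, h5⟩
        have h6 := hsel.unique h1
        subst h6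
        have h7 : a = ν₁ := by simpa using h2.symm
        subst h7
        exact ⟨h3 y (by simp), h5⟩
      · rintro ⟨h1, h2⟩
        refine ⟨y :: e, ν₁, hsel, by simp, ?_, hlt _ h, h2⟩
        intro z hz
        rcases List.mem_cons.1 hz with rfl | hz
        · exact h1
        · exact (he z hz).2
    refine hull_ind hγ hp (ν₁ :: e) ?_ (Fm.S φ (0 :: (List.range e.length).map (· + 2)) 1) []
      (by simp) ⟨hx.1.trans (hlt _ h), (key x).2 ⟨hx.1, hx.2.1⟩, ?_⟩
    · intro z hz
      rcases List.mem_cons.1 hz with rfl | hz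
      · exact h
      · exact he' z hz
    · intro y hy hsat
      exact hx.2.2 y hy ((key y).1 hsat).2
  · have h' : ν₁ = ν := h
    subst h'
    have key : ∀ y, Sat ν₁ (Fm.R (List.range (e.length + 1)) φ) (y :: (e ++ [] ++ p)) ↔
        Sat ν₁ φ (y :: e) := by
      intro y
      refine satR_of ?_
      have h2 := sel_range_append (y :: e) p
      simpa using h2
    refine hull_ind hγ hp e he' (Fm.R (List.range (e.length + 1)) φ) [] (by simp)
      ⟨hx.1, (key x).2 hx.2.1, ?_⟩
    intro y hy hsat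
    exact hx.2.2 y hy ((key y).1 hsat)

end MP2900
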