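import Pool.Agent.Lib.MP_2900b9_lc.C.Cond
import Pool.Agent.Lib.MP_2900b9_lc.C.Hull

/-!
Module Unreal: (E3) a type which is not realized gives a full structure.

Call `p` bad if there is no `r ⊆ X` of the same length with `SameTy δ p r`. Let `μ` be the least ordinal such that some bad `p` has all entries `≤ μ`
(every list of ordinals is bounded). Then `δ ≤ μ`: otherwise `p ⊆ δ ⊆ X` is realized by itself. Let `ν = μ + 1`, `Z = Hul δ p ν`, `X' = Z ∪ {ν}`:
ClM by hull_clM, contains all ordinals `< δ` and `p`. Let `π = col X'`, `p' = p.map π`. By sameTy_col, `SameTy δ p p'`; so `p'` is bad (if `r` realizes `p'`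
then it realizes `p`: SameTy is an equivalence). Entries of `p'` are `< π ν`. If `π ν ≤ μ` then all entries of `p'` are `< μ`, so `≤ μ'` for some `μ' < μ`
(a finite list; if `p' = []` then `p = []` is realized by `[]`, contradiction; alternatively `μ = 0` is impossible then), contradiction with the choice of `μ`. So
`π ν = ν` (col_le). Now `Full δ p' μ`: `δ ≤ μ`; entries of `p'` are `< π ν = μ + 1`; every `ξ ≤ μ` is `π x` with `x ∈ X'`, `x < ν` (col_onto), so `x ∈ Z`:
`IsMin ν φ (s ++ p) x` with `s < δ`, and isMin_col gives `IsMin (π ν) φ ((s ++ p).map π) (π x)`, where `s.map π = s` (col_id).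
-/

set_option autoImplicit false

namespace MP2900

open Set Pool.Agent.Lib.MP_2900b9_lc

private theorem unreal_bd (l : List Ordinal.{0}) : ∃ μ, ∀ x ∈ l, x ≤ μ := by
  induction l with
  | nil => exact ⟨0, by simp⟩
  | cons a l ih =>
    obtain ⟨μ, hμ⟩ := ih
    refine ⟨max a μ, fun x hx => ?_⟩
    rcases List.mem_cons.1 hx with rfl | h
    · exact le_max_left _ _
    · exact (hμ x h).trans (le_max_right _ _)

private theorem unreal_lt (l : List Ordinal.{0}) (μ : Ordinal.{0}) (h : ∀ x ∈ l, x < μ) :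
    l = [] ∨ ∃ μ' < μ, ∀ x ∈ l, x ≤ μ' := by
  induction l with
  | nil => exact Or.inl rfl
  | cons a l ih =>
    right
    rcases ih fun x hx => h x (List.mem_cons_of_mem _ hx) with rfl | ⟨μ', h1, h2⟩
    · exact ⟨a, h a (List.mem_cons_self), by simp⟩
    · refine ⟨max a μ', max_lt (h a List.mem_cons_self) h1, fun x hx => ?_⟩
      rcases List.mem_cons.1 hx with rfl | h
      · exact le_max_left _ _
      · exact (h2 x h).trans (le_max_right _ _)

variable [TP]

theorem sameTy_symm {γ : Ordinal.{0}} {p r : List Ordinal.{0}} (h : SameTy γ p r) :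
    SameTy γ r p := by
  exact fun s hs φ f v => (h s hs φ f v).symm

theorem sameTy_trans {γ : Ordinal.{0}} {p r q : List Ordinal.{0}} (h : SameTy γ p r)
    (h' : SameTy γ r q) : SameTy γ p q := by
  exact fun s hs φ f v => (h s hs φ f v).trans (h' s hs φ f v)

theorem full_of_unrealized {X : Set Ordinal.{0}} {δ : Ordinal.{0}} (hδ : ∀ x < δ, x ∈ X)
    (h : ∃ p : List Ordinal.{0},
      ¬ ∃ r : List Ordinal.{0}, (∀ x ∈ r, x ∈ X) ∧ r.length = p.length ∧ SameTy δ p r) :
    ∃ p μ, Full δ p μ ∧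
      ¬ ∃ r : List Ordinal.{0}, (∀ x ∈ r, x ∈ X) ∧ r.length = p.length ∧ SameTy δ p r := by
  obtain ⟨p0, hp0⟩ := h
  set M : Set Ordinal.{0} := {μ | ∃ p : List Ordinal.{0}, (¬ ∃ r : List Ordinal.{0},
    (∀ x ∈ r, x ∈ X) ∧ r.length = p.length ∧ SameTy δ p r) ∧ ∀ x ∈ p, x ≤ μ} with hM
  have hne : M.Nonempty := by
    obtain ⟨μ, hμ⟩ := unreal_bd p0
    exact ⟨μ, p0, hp0, hμ⟩
  obtain ⟨p, hbad, hpμ⟩ : sInf M ∈ M := csInf_mem hne
  have hmin : ∀ μ' ∈ M, sInf M ≤ μ' := fun μ' h => csInf_le' h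
  set μ : Ordinal.{0} := sInf M with hμ
  clear_value μ
  have hδμ : δ ≤ μ := by
    by_contra hlt
    push Not at hlt
    exact hbad ⟨p, fun x hx => hδ x ((hpμ x hx).trans_lt hlt), rfl, fun _ _ _ _ _ => Iff.rfl⟩
  have hδν : δ ≤ μ + 1 := hδμ.trans (Order.le_succ μ)
  have hpν : ∀ x ∈ p, x < μ + 1 := fun x hx => Order.lt_add_one_iff.2 (hpμ x hx)
  have hcl := hull_clM hδν hpν
  set X' : Set Ordinal.{0} := Hul δ p (μ + 1) ∪ {μ + 1} with hX'
  have hδ' : ∀ x < δ, x ∈ X' := fun x hx => Or.inl (hull_lt hδν hx)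
  have hp' : ∀ x ∈ p, x ∈ X' := fun x hx => Or.inl (hull_p hpν hx)
  have hν' : μ + 1 ∈ X' := Or.inr rfl
  have hsame : SameTy δ p (p.map (col X')) := sameTy_col hcl hδ' hp'
  have hbad' : ¬ ∃ r : List Ordinal.{0}, (∀ x ∈ r, x ∈ X) ∧
      r.length = (p.map (col X')).length ∧ SameTy δ (p.map (col X')) r := by
    rintro ⟨r, hr, hrl, hrs⟩
    exact hbad ⟨r, hr, by rw [hrl, List.length_map], sameTy_trans hsame hrs⟩
  have hlt' : ∀ x ∈ p.map (col X'), x < col X' (μ + 1) := by
    intro x hx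
    obtain ⟨y, hy, rfl⟩ := List.mem_map.1 hx
    exact col_lt (hp' y hy) (hpν y hy)
  have hπ : col X' (μ + 1) = μ + 1 := by
    refine le_antisymm (col_le _ _) (Order.add_one_le_iff.2 ?_)
    by_contra hle
    push Not at hle
    rcases unreal_lt (p.map (col X')) μ (fun x hx => (hlt' x hx).trans_le hle) with h0 | ⟨μ', h1, h2⟩
    · have h3 : p = [] := List.map_eq_nil_iff.1 h0
      subst h3
      exact hbad ⟨[], by simp, rfl, fun _ _ _ _ _ => Iff.rfl⟩
    · exact absurd (hmin μ' ⟨_, hbad', h2⟩) (not_le.2 h1)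
  refine ⟨p.map (col X'), μ, ⟨hδμ, ?_, ?_⟩, hbad'⟩
  · intro x hx
    have h1 := hlt' x hx
    rw [hπ] at h1
    exact Order.lt_add_one_iff.1 h1
  · intro ξ hξ
    have h1 : ξ < col X' (μ + 1) := by rw [hπ]; exact Order.lt_add_one_iff.2 hξ
    obtain ⟨η, hη, hην, rfl⟩ := col_onto h1
    rcases hη with hη | hη
    · obtain ⟨φ, s, hs, hm⟩ := hη
      refine ⟨φ, s, hs, ?_⟩
      have h2 := (isMin_col hcl hν' (e := s ++ p) (fun x hx => by
        rcases List.mem_append.1 hx with h | h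
        · exact ⟨hδ' x (hs x h), (hs x h).trans_le hδν⟩
        · exact ⟨hp' x h, hpν x h⟩) hm).2
      rw [hπ, List.map_append] at h2
      have h3 : s.map (col X') = s := by
        conv_rhs => rw [← List.map_id s]
        exact List.map_congr_left fun x hx => col_id hδ' (hs x hx).le
      rw [h3] at h2
      exact h2
    · exact absurd hην (by rw [Set.mem_singleton_iff.1 hη]; exact lt_irrefl _)

end MP2900
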