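import Pool.Agent.Lib.MP_2900b9_lc.C.EDefs
import Pool.Agent.Lib.MP_2900b9_lc.C.Unreal

/-!
Module EOnto: under `Full γ p μ` the enumeration by terms is onto `μ + 2`, and its code satisfies `CE`.

* gmp_eq: `IsMin (μ+1) (tm k).1 ((tm k).2 ++ p) x` implies `gmp tm μ p (k + 1) = x` (isMin_unique: the set is `{x}`).
* gmp_onto: `⊆`: values are `μ + 1`, or `< μ + 1`, or `sInf ∅ = 0`. `⊇`: `Full`.
* full_ctb: `μ` is countable: `Iio (μ+1)` is contained in the range.
* eset_ce: let `z = cod (Fg g)`, `g = gmp tm μ p`. `Fz z = Fg g` (Fz_cod, funext), so `ltF (Fz z) a b ↔ g a < g b`. By relZ_onto: `z ∈ Bo`, accessible, height `μ + 2`, `rk (ltF (Fz z)) m = g m` (rk_some). `z = cod (Fz z)` by cod_congr. Take `b` with `g b = μ`, `p' : List ℕ` with `p'.map g = p`; `g m < μ + 1 → ¬ μ < g m`;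
  entries of `p'` have `g x ≤ μ < μ + 1`; `¬ LR ξ b` for `ξ < γ ≤ μ` (rk_le). For `k`: choose `σ` with `σ.map g = (tm k).2` (entries `< γ ≤ μ`), ERk by erk_iff'. `Fz z φ (y :: (σ ++ p')) 0 ↔ (all entries < μ + 1) ∧ Sat (μ+1) φ (g y :: ((tm k).2 ++ p))`. If there is `y` with this, there is a least value, so
  `IsMin`, and `g (k+1)` is this least value (gmp_eq): first alternative. Otherwise `g (k + 1) = sInf ∅ = 0` and the second alternative.
-/

set_option autoImplicit false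

namespace MP2900

open Set Pool.Agent.Lib.MP_2900b9_lc

variable [TP] {tm : ℕ → Fm × List Ordinal.{0}} {γ μ : Ordinal.{0}} {p : List Ordinal.{0}}

private theorem eonto_two (μ : Ordinal.{0}) : μ + 2 = Order.succ (μ + 1) := by
  rw [Order.succ_eq_add_one, add_assoc, one_add_one_eq_two]

private theorem gmp_eq {k : ℕ} {x : Ordinal.{0}}
    (h : IsMin (μ + 1) (tm k).1 ((tm k).2 ++ p) x) : gmp tm μ p (k + 1) = x := by
  have h1 : {x | IsMin (μ + 1) (tm k).1 ((tm k).2 ++ p) x} = {x} := by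
    ext y
    exact ⟨fun h' => isMin_unique h' h, fun h' => by rw [Set.mem_singleton_iff.1 h']; exact h⟩
  rw [gmp, h1, csInf_singleton]

private theorem gmp_zero' {k : ℕ} (h : ¬ ∃ x, IsMin (μ + 1) (tm k).1 ((tm k).2 ++ p) x) :
    gmp tm μ p (k + 1) = 0 := by
  have h1 : {x | IsMin (μ + 1) (tm k).1 ((tm k).2 ++ p) x} = ∅ :=
    eq_empty_iff_forall_notMem.2 fun x hx => h ⟨x, hx⟩
  rw [gmp, h1, Ordinal.sInf_empty]

omit [TP] in
private theorem eonto_list {g : ℕ → Ordinal.{0}} : ∀ l : List Ordinal.{0},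
    (∀ x ∈ l, x ∈ range g) → ∃ l' : List ℕ, l'.map g = l := by
  intro l
  induction l with
  | nil => exact fun _ => ⟨[], rfl⟩
  | cons x l ih =>
    intro h
    obtain ⟨m, hm⟩ := h x List.mem_cons_self
    obtain ⟨l', hl'⟩ := ih fun y hy => h y (List.mem_cons_of_mem _ hy)
    exact ⟨m :: l', by rw [List.map_cons, hm, hl']⟩

theorem gmp_onto (h1 : ∀ k, ∀ x ∈ (tm k).2, x < γ)
    (h2 : ∀ φ s, (∀ x ∈ s, x < γ) → ∃ k, tm k = (φ, s)) (h : Full γ p μ) :
    range (gmp tm μ p) = Iio (μ + 2) := by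
  ext y
  rw [eonto_two, mem_Iio, Order.lt_succ_iff]
  constructor
  · rintro ⟨k, rfl⟩
    cases k with
    | zero => exact le_rfl
    | succ k =>
      by_cases hex : ∃ x, IsMin (μ + 1) (tm k).1 ((tm k).2 ++ p) x
      · obtain ⟨x, hx⟩ := hex
        rw [gmp_eq hx]
        exact hx.1.le
      · rw [gmp_zero' hex]
        exact zero_le
  · intro hy
    rcases hy.lt_or_eq with hlt | heq
    · obtain ⟨φ, s, hs, hm⟩ := h.2.2 y (Order.lt_add_one_iff.1 hlt)
      obtain ⟨k, hk⟩ := h2 φ s hs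
      refine ⟨k + 1, gmp_eq ?_⟩
      rw [hk]
      exact hm
    · exact ⟨0, heq.symm⟩

theorem full_ctb (hγ : Ctb γ) (h : Full γ p μ) : Ctb μ := by
  obtain ⟨tm, h1, h2⟩ := exists_tm hγ
  have h3 := gmp_onto h1 h2 h
  have h4 : (Iio (μ + 2)).Countable := by
    rw [← h3]
    exact countable_range _
  refine h4.mono (Iio_subset_Iio ?_)
  exact le_self_add

theorem eset_ce (h1 : ∀ k, ∀ x ∈ (tm k).2, x < γ)
    (h2 : ∀ φ s, (∀ x ∈ s, x < γ) → ∃ k, tm k = (φ, s)) {z : ℕ → ℕ} (hz : z ∈ Eset tm γ) :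
    z ∈ Bo ∧ Acc (relZ z) none ∧ CE tm γ z := by
  obtain ⟨μ, p, hf, hzc⟩ := hz
  set g : ℕ → Ordinal.{0} := gmp tm μ p with hg
  have honto : range g = Iio (μ + 2) := gmp_onto h1 h2 hf
  have hFz : ∀ φ f v, Fz z φ f v ↔ Fg g φ f v := by
    intro φ f v
    rw [hzc]
    exact Fz_cod _ _ _ _
  obtain ⟨hBo, hacc, -, hrk⟩ := relZ_onto z g (μ + 2) honto hFz
  refine ⟨hBo, hacc, ?_⟩
  have hF : Fz z = Fg g := by
    funext φ f v
    exact propext (hFz φ f v)
  have hlt : ∀ a b, ltF (Fz z) a b ↔ g a < g b := by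
    intro a b
    rw [hF]
    exact ltF_Fg g a b
  have hrk' : ∀ m, rk (ltF (Fz z)) m = g m := fun m => by rw [← rk_some, hrk]
  have hacc' := (acc_none z).1 hacc
  have hg0 : g 0 = μ + 1 := rfl
  have hle : ∀ m, g m ≤ μ + 1 := by
    intro m
    have h3 : g m ∈ range g := ⟨m, rfl⟩
    rw [honto, mem_Iio, eonto_two, Order.lt_succ_iff] at h3
    exact h3
  have hmem : ∀ x, x ≤ μ → x ∈ range g := by
    intro x hx
    rw [honto, mem_Iio, eonto_two, Order.lt_succ_iff]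
    exact hx.trans le_self_add
  obtain ⟨b, hb⟩ := hmem μ le_rfl
  obtain ⟨p', hp'⟩ := eonto_list p fun x hx => hmem x (hf.2.1 x hx)
  refine ⟨?_, b, p', ?_, ?_, ?_, ?_, ?_, ?_⟩
  · rw [hF]
    exact hzc
  · intro m
    rw [hlt, hg0, not_lt]
    exact hle m
  · rw [hlt, hb, hg0]
    exact Order.lt_add_one_iff.2 le_rfl
  · intro m hm
    rw [hlt, hg0] at hm
    rw [hlt, hb, not_lt]
    exact Order.lt_add_one_iff.1 hm
  · intro x hx
    rw [hlt, hg0]
    refine Order.lt_add_one_iff.2 (hf.2.1 _ ?_)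
    rw [← hp']
    exact List.mem_map_of_mem hx
  · intro ξ hξ hL
    have h3 := rk_le hL
    rw [hrk', hb] at h3
    exact absurd (hξ.trans_le hf.1) (not_lt.2 h3)
  · intro k
    obtain ⟨σ, hσ⟩ := eonto_list (g := g) (tm k).2 fun x hx =>
      hmem x ((h1 k x hx).le.trans hf.1)
    refine ⟨σ, ?_, ?_⟩
    · rw [← hσ, List.forall₂_map_left_iff, List.forall₂_same]
      exact fun m _ => erk_iff'.2 ⟨hacc' m, hrk' m⟩
    · have hfact : ∀ y, Fz z (tm k).1 (y :: (σ ++ p')) 0 ↔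
          g y < μ + 1 ∧ Sat (μ + 1) (tm k).1 (g y :: ((tm k).2 ++ p)) := by
        intro y
        rw [hFz]
        unfold Fg FO
        rw [List.map_cons, List.map_append, hσ, hp', hg0]
        constructor
        · rintro ⟨h3, h4⟩
          exact ⟨h3 _ List.mem_cons_self, h4⟩
        · rintro ⟨h3, h4⟩
          refine ⟨fun x hx => ?_, h4⟩
          rcases List.mem_cons.1 hx with rfl | hx
          · exact h3
          · rcases List.mem_append.1 hx with hx | hx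
            · exact Order.lt_add_one_iff.2 ((h1 k x hx).le.trans hf.1)
            · exact Order.lt_add_one_iff.2 (hf.2.1 x hx)
      by_cases hex : ∃ x, IsMin (μ + 1) (tm k).1 ((tm k).2 ++ p) x
      · obtain ⟨x, hx⟩ := hex
        have h3 : g (k + 1) = x := gmp_eq hx
        refine Or.inl ⟨(hfact _).2 ⟨by rw [h3]; exact hx.1, by rw [h3]; exact hx.2.1⟩, ?_⟩
        intro y hy h4
        rw [hlt, h3] at hy
        exact hx.2.2 _ hy ((hfact y).1 h4).2
      · refine Or.inr ⟨?_, erk_iff'.2 ⟨hacc' _, ?_⟩⟩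
        · intro y hy
          have h4 := (hfact y).1 hy
          obtain ⟨x, hx, hmin⟩ := wellFounded_lt.has_min
            {x : Ordinal.{0} | x < μ + 1 ∧ Sat (μ + 1) (tm k).1 (x :: ((tm k).2 ++ p))} ⟨_, h4⟩
          refine hex ⟨x, hx.1, hx.2, fun y' hy' h5 => ?_⟩
          exact hmin y' ⟨hy'.trans hx.1, h5⟩ hy'
        · rw [hrk']
          exact gmp_zero' hex

theorem rk_eset (h1 : ∀ k, ∀ x ∈ (tm k).2, x < γ)
    (h2 : ∀ φ s, (∀ x ∈ s, x < γ) → ∃ k, tm k = (φ, s)) (h : Full γ p μ) :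
    rk (relZ (cod (Fg (gmp tm μ p)))) none = μ + 2 := by
  exact (relZ_onto _ _ _ (gmp_onto h1 h2 h) fun φ f v => Fz_cod _ φ f v).2.2.1

end MP2900
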