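import Pool.Agent.Lib.MP_2900b9_lc.C.Basic

/-!
Module ElemBo: elementary enumerations give codes.

* ltF_Fg: `Fg g top [a] b` is `g a < g b` (sat_top).
* bo_of_wit: check all clauses for `F = Fg g`, `Fg g φ f v = (∀ x ∈ f.map g, x < g v) ∧ Sat (g v) φ (f.map g)`. irr, tr, tot: order of ordinals (for `tot`: `g a < g b` gives
  `g a < g c` or `g c < g b`). sub, bot, lt, imp: sat lemmas, with sel_map_iff for `S`, `R`, `W`; S: sat_S, level `a` an entry. all: (→) clear; (←) if `¬ Sat (g v) (all φ) (f.map g)` the witness `t` for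
  `Fm.all φ` gives a contradiction. W: sat_W; `WcF (Fg g) b u c a v ↔ (g c < g v, g a < g v) ∧ WB b (g a) (g v) u (c.map g)` given `c < a` (lemma wcF_Fg below, sel_range_append).
  we: by wcF_Fg and WE_iff: (→) the witness for `Fm.W false u (range c.length) c.length`, `f = c ++ [a]`. (←) clear, with `ν₀ = g v₀`. wo: (→) clear (`x = g x'`); (←) the witness for
  `Fm.W true u ..`: if `¬ WO` then the witness contradicts.
* wit_of_onto: if `range g = Iio κ` then every ordinal `< g v` is some `g m`, so all witnesses exist (by cases on `φ`; classical choice of the witness; in the W cases `c`, `a` are unique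
  by Sel.unique; if there are none any `t` will do).
-/

set_option autoImplicit false

namespace MP2900

open Set Pool.Agent.Lib.MP_2900b9_lc

variable [TP]

theorem ltF_Fg (g : ℕ → Ordinal.{0}) (a b : ℕ) : ltF (Fg g) a b ↔ g a < g b := by
  simp [ltF, Fg, FO, sat_top]

private theorem elembo_iff (g : ℕ → Ordinal.{0}) (φ : Fm) (f : List ℕ) (v : ℕ) :
    Fg g φ f v ↔ (∀ m ∈ f, g m < g v) ∧ Sat (g v) φ (f.map g) := by
  simp [Fg, FO]

private theorem elembo_h (g : ℕ → Ordinal.{0}) (f : List ℕ) (v : ℕ) :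
    (∀ m ∈ f, ltF (Fg g) m v) ↔ ∀ m ∈ f, g m < g v := by
  simp only [ltF_Fg]

theorem wcF_Fg (g : ℕ → Ordinal.{0}) (b : Bool) (u c : List ℕ) (a v : ℕ)
    (hc : ∀ x ∈ c, g x < g a) (ha : g a < g v) :
    WcF (Fg g) b u c a v ↔ WB b (g a) (g v) u (c.map g) := by
  unfold WcF
  rw [elembo_iff, sat_W]
  have hs : Sel (List.range c.length) ((c ++ [a]).map g) (c.map g) := by
    rw [List.map_append]
    have := sel_range_append (c.map g) ([a].map g)
    rwa [List.length_map] at this
  have hk : ((c ++ [a]).map g)[c.length]? = some (g a) := by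
    simp
  constructor
  · rintro ⟨-, c', a', h1, h2, -, h4⟩
    have e1 := Sel.unique h1 hs
    rw [hk] at h2
    have e2 := Option.some.inj h2
    rw [e1, ← e2] at h4
    exact h4
  · intro h
    refine ⟨?_, c.map g, g a, hs, hk, ?_, h⟩
    · intro m hm
      rcases List.mem_append.1 hm with hm | hm
      · exact (hc m hm).trans ha
      · rw [List.mem_singleton.1 hm]; exact ha
    · intro x hx
      obtain ⟨y, hy, rfl⟩ := List.mem_map.1 hx
      exact hc y hy

private theorem elembo_viol (g : ℕ → Ordinal.{0}) (u c : List ℕ) :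
    ViolR (ltF (Fg g)) u c ↔ ViolR (· < ·) u (c.map g) :=
  violR_map _ _ g u c fun a _ b _ => ltF_Fg g a b

theorem bo_of_wit (g : ℕ → Ordinal.{0}) (h : ∀ φ f v, ∃ t, Wit g φ f v t) : BoF (Fg g) where
  irr := fun a => by rw [ltF_Fg]; exact lt_irrefl _
  tr := fun a b c => by simp only [ltF_Fg]; exact lt_trans
  tot := fun a b c hab => by
    simp only [ltF_Fg] at *
    rcases lt_or_ge (g a) (g c) with h1 | h1
    · exact Or.inl h1
    · exact Or.inr (h1.trans_lt hab)
  sub := fun φ f v hF m hm => by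
    rw [ltF_Fg]
    exact ((elembo_iff g φ f v).1 hF).1 m hm
  bot := fun f v hF => sat_bot _ _ ((elembo_iff g _ f v).1 hF).2
  lt := fun i j f v => by
    rw [elembo_iff, elembo_h, sat_lt]
    refine and_congr_right fun _ => ?_
    constructor
    · rintro ⟨a', b', h1, h2, h3⟩
      rw [List.getElem?_map, Option.map_eq_some_iff] at h1 h2
      obtain ⟨a, h1, rfl⟩ := h1
      obtain ⟨b, h2, rfl⟩ := h2
      exact ⟨a, b, h1, h2, (ltF_Fg g a b).2 h3⟩
    · rintro ⟨a, b, h1, h2, h3⟩
      exact ⟨g a, g b, by simp [h1], by simp [h2], (ltF_Fg g a b).1 h3⟩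
  S := fun φ l k f v => by
    rw [elembo_iff, elembo_h, sat_S]
    refine and_congr_right fun hf => ?_
    constructor
    · rintro ⟨c', a', h1, h2, h3, h4, h5⟩
      obtain ⟨c, hc, rfl⟩ := (sel_map_iff g).1 h1
      rw [List.getElem?_map, Option.map_eq_some_iff] at h2
      obtain ⟨a, h2, rfl⟩ := h2
      refine ⟨c, a, hc, h2, (elembo_iff g φ c a).2 ⟨fun m hm => h3 _ (List.mem_map_of_mem hm), h5⟩⟩
    · rintro ⟨c, a, h1, h2, h3⟩
      obtain ⟨h4, h5⟩ := (elembo_iff g φ c a).1 h3
      refine ⟨c.map g, g a, h1.map g, by simp [h2], ?_, hf a (List.mem_of_getElem? h2), h5⟩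
      intro x hx
      obtain ⟨y, hy, rfl⟩ := List.mem_map.1 hx
      exact h4 y hy
  R := fun l φ f v => by
    rw [elembo_iff, elembo_h, sat_R]
    refine and_congr_right fun hf => ?_
    constructor
    · rintro ⟨c', h1, h2⟩
      obtain ⟨c, hc, rfl⟩ := (sel_map_iff g).1 h1
      exact ⟨c, hc, (elembo_iff g φ c v).2 ⟨fun m hm => hf m (hc.mem m hm), h2⟩⟩
    · rintro ⟨c, h1, h2⟩
      exact ⟨c.map g, h1.map g, ((elembo_iff g φ c v).1 h2).2⟩
  imp := fun φ ψ f v => by
    rw [elembo_iff, elembo_h, sat_imp, elembo_iff, elembo_iff]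
    refine and_congr_right fun hf => ?_
    constructor
    · rintro h1 ⟨-, h2⟩
      exact ⟨hf, h1 h2⟩
    · intro h1 h2
      exact (h1 ⟨hf, h2⟩).2
  all := fun φ f v => by
    rw [elembo_iff, elembo_h]
    refine and_congr_right fun hf => ?_
    constructor
    · intro h1 m hm
      rw [ltF_Fg] at hm
      rw [sat_all] at h1
      refine (elembo_iff g φ (m :: f) v).2 ⟨?_, h1 _ hm⟩
      intro x hx
      rcases List.mem_cons.1 hx with rfl | hx
      · exact hm
      · exact hf x hx
    · intro h1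
      by_contra h2
      obtain ⟨t, ht⟩ := h (Fm.all φ) f v
      obtain ⟨h3, h4⟩ := ht hf h2
      exact h4 ((elembo_iff g φ (t.2 :: f) v).1 (h1 t.2 ((ltF_Fg g t.2 v).2 h3))).2
  W := fun b u l k f v => by
    rw [elembo_iff, elembo_h, sat_W]
    refine and_congr_right fun hf => ?_
    constructor
    · rintro ⟨c', a', h1, h2, h3, h4⟩
      obtain ⟨c, hc, rfl⟩ := (sel_map_iff g).1 h1
      rw [List.getElem?_map, Option.map_eq_some_iff] at h2
      obtain ⟨a, h2, rfl⟩ := h2
      have h5 : ∀ x ∈ c, g x < g a := fun x hx => h3 _ (List.mem_map_of_mem hx)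
      exact ⟨c, a, hc, h2, (elembo_h g c a).2 h5,
        (wcF_Fg g b u c a v h5 (hf a (List.mem_of_getElem? h2))).2 h4⟩
    · rintro ⟨c, a, h1, h2, h3, h4⟩
      have h5 := (elembo_h g c a).1 h3
      refine ⟨c.map g, g a, h1.map g, by simp [h2], ?_,
        (wcF_Fg g b u c a v h5 (hf a (List.mem_of_getElem? h2))).1 h4⟩
      intro x hx
      obtain ⟨y, hy, rfl⟩ := List.mem_map.1 hx
      exact h5 y hy
  we := fun u c a v hc ha => by
    rw [elembo_h] at hc
    rw [ltF_Fg] at ha
    rw [wcF_Fg g false u c a v hc ha, WB_false, elembo_viol]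
    constructor
    · intro h1
      obtain ⟨t, ht⟩ := h (Fm.W false u (List.range c.length) c.length) (c ++ [a]) v
      rcases ht c a (sel_range_append c [a]) (by simp) hc ha h1 with h2 | ⟨h2, h3, h4⟩
      · exact Or.inl h2
      · refine Or.inr ⟨t.2, (ltF_Fg g _ _).2 h2, (ltF_Fg g _ _).2 h3, t.1, ?_⟩
        exact (wcF_Fg g true (u ++ [t.1]) c a t.2 hc h2).2 h4
    · rw [WE_iff]
      rintro (h1 | ⟨v₀, h1, h2, n, h3⟩)
      · exact Or.inl h1
      · rw [ltF_Fg] at h1 h2
        exact Or.inr ⟨g v₀, h2, h1, n, (wcF_Fg g true (u ++ [n]) c a v₀ hc h1).1 h3⟩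
  wo := fun u c a v hc ha => by
    rw [elembo_h] at hc
    rw [ltF_Fg] at ha
    rw [wcF_Fg g true u c a v hc ha, WB_true]
    have hcx : ∀ x, g x < g a → ∀ y ∈ c ++ [x], g y < g a := by
      intro x hx y hy
      rcases List.mem_append.1 hy with hy | hy
      · exact hc y hy
      · rw [List.mem_singleton.1 hy]; exact hx
    constructor
    · intro h1 n x hx
      rw [ltF_Fg] at hx
      rw [wcF_Fg g false (u ++ [n]) (c ++ [x]) a v (hcx x hx) ha, WB_false, List.map_append]
      exact (WO_iff _ _ _ _).1 h1 n (g x) hx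
    · intro h1
      by_contra h2
      obtain ⟨t, ht⟩ := h (Fm.W true u (List.range c.length) c.length) (c ++ [a]) v
      obtain ⟨h3, h4⟩ := ht c a (sel_range_append c [a]) (by simp) hc ha h2
      apply h4
      have h5 := h1 t.1 t.2 ((ltF_Fg g _ _).2 h3)
      rw [wcF_Fg g false (u ++ [t.1]) (c ++ [t.2]) a v (hcx t.2 h3) ha, WB_false,
        List.map_append] at h5
      exact h5

theorem wit_of_onto (g : ℕ → Ordinal.{0}) (κ : Ordinal.{0}) (hg : range g = Iio κ) (φ : Fm)
    (f : List ℕ) (v : ℕ) : ∃ t, Wit g φ f v t := by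
  have hgκ : ∀ n, g n < κ := fun n => by
    have : g n ∈ range g := ⟨n, rfl⟩
    rw [hg] at this
    exact this
  have honto : ∀ n x, x < g n → ∃ m, g m = x := fun n x hx => by
    have : x ∈ Iio κ := hx.trans (hgκ n)
    rw [← hg] at this
    exact this
  cases φ with
  | bot => exact ⟨(0, 0), trivial⟩
  | lt i j => exact ⟨(0, 0), trivial⟩
  | S φ l k => exact ⟨(0, 0), trivial⟩
  | R l φ => exact ⟨(0, 0), trivial⟩
  | imp φ ψ => exact ⟨(0, 0), trivial⟩
  | all ψ =>
    by_cases h : Sat (g v) (Fm.all ψ) (f.map g)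
    · exact ⟨(0, 0), fun _ h2 => absurd h h2⟩
    · have h1 := h
      rw [sat_all] at h1
      push Not at h1
      obtain ⟨x, hx, h2⟩ := h1
      obtain ⟨m, rfl⟩ := honto v x hx
      exact ⟨(0, m), fun _ _ => ⟨hx, h2⟩⟩
  | W b u l k =>
    cases b with
    | false =>
      by_cases h : ∃ c a, Sel l f c ∧ f[k]? = some a ∧ WE (g a) (g v) u (c.map g)
      · obtain ⟨c, a, h1, h2, h3⟩ := h
        rw [WE_iff] at h3
        rcases h3 with h3 | ⟨ν₀, h4, h5, n, h6⟩
        · refine ⟨(0, 0), fun c' a' h1' h2' _ _ _ => ?_⟩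
          rw [Sel.unique h1' h1]
          exact Or.inl h3
        · obtain ⟨m, rfl⟩ := honto v ν₀ h4
          refine ⟨(n, m), fun c' a' h1' h2' _ _ _ => ?_⟩
          rw [Sel.unique h1' h1]
          rw [h2] at h2'
          rw [← Option.some.inj h2']
          exact Or.inr ⟨h5, h4, h6⟩
      · refine ⟨(0, 0), fun c' a' h1' h2' _ _ h3 => ?_⟩
        exact absurd ⟨c', a', h1', h2', h3⟩ h
    | true =>
      by_cases h : ∃ c a, Sel l f c ∧ f[k]? = some a ∧ ¬ WO (g a) (g v) u (c.map g)
      · obtain ⟨c, a, h1, h2, h3⟩ := h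
        rw [WO_iff] at h3
        push Not at h3
        obtain ⟨n, x, hx, h4⟩ := h3
        obtain ⟨m, rfl⟩ := honto a x hx
        refine ⟨(n, m), fun c' a' h1' h2' _ _ _ => ?_⟩
        rw [Sel.unique h1' h1]
        rw [h2] at h2'
        rw [← Option.some.inj h2']
        exact ⟨hx, h4⟩
      · refine ⟨(0, 0), fun c' a' h1' h2' _ _ h3 => ?_⟩
        exact absurd ⟨c', a', h1', h2', h3⟩ h

end MP2900
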