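import Pool.Agent.Lib.MP_2900b9_lc.C.Poset

/-!
Module EncI: the encoding of the structures of the first reduction.

* encI_inj: the natural number determines `i`, the list of pairs of bits, `n`, `φ` (`Encodable.encode_injective`); in particular `c.length = c'.length`; the list of ordinals is a concatenation of blocks of length 4, so the first `4 * c.length` ordinals determine the ordinals of `c` (with the bits, the tags), and the rest is `s` (`List.append_inj`; induction on `c`).
* encI_map: `π 0 = 0`; `flatMap` and `map`.
* encI_le: for a valid `c` all tags are `≤ η β` (by induction along `par`), the values `g` are `< κ β`.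
-/

set_option autoImplicit false

namespace MP2900

open Set Pool.Agent.Lib.MP_2900b9_lc

variable [TP]

/-- image of an entry -/
noncomputable def Ent.map (π : Ordinal.{0} → Ordinal.{0}) (a : Ent) : Ent :=
  ⟨fun β => (a.h β).map π, fun β => π (a.g β)⟩

omit [TP] in
private theorem opt_ext {o o' : Option Ordinal.{0}} (h1 : o.isSome = o'.isSome)
    (h2 : o.getD 0 = o'.getD 0) : o = o' := by
  cases o with
  | none =>
    cases o' with
    | none => rfl
    | some x' => exact absurd h1 (by simp)
  | some x =>
    cases o' with
    | none => exact absurd h1 (by simp)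
    | some x' => exact congrArg some h2

omit [TP] in
private theorem ent_ext {a a' : Ent} (h1 : (a.h true).isSome = (a'.h true).isSome)
    (h2 : (a.h false).isSome = (a'.h false).isSome) (h3 : (a.h true).getD 0 = (a'.h true).getD 0)
    (h4 : (a.h false).getD 0 = (a'.h false).getD 0) (h5 : a.g true = a'.g true)
    (h6 : a.g false = a'.g false) : a = a' := by
  have e1 : a.h = a'.h := by
    funext β
    cases β with
    | true => exact opt_ext h1 h3
    | false => exact opt_ext h2 h4
  have e2 : a.g = a'.g := by
    funext β
    cases β with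
    | true => exact h5
    | false => exact h6
  cases a
  cases a'
  simp only at e1 e2
  rw [e1, e2]

omit [TP] in
private theorem blk_len (c : List Ent) : (c.flatMap (fun a : Ent =>
    [(a.h true).getD 0, (a.h false).getD 0, a.g true, a.g false])).length = 4 * c.length := by
  induction c with
  | nil => rfl
  | cons a c ih =>
    rw [List.flatMap_cons, List.length_append, ih, List.length_cons]
    simp only [List.length_cons, List.length_nil]
    omega

omit [TP] in
private theorem blk_inj (c : List Ent) : ∀ c' : List Ent,
    c.map (fun a => ((a.h true).isSome, (a.h false).isSome)) =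
      c'.map (fun a => ((a.h true).isSome, (a.h false).isSome)) →
    c.flatMap (fun a => [(a.h true).getD 0, (a.h false).getD 0, a.g true, a.g false]) =
      c'.flatMap (fun a => [(a.h true).getD 0, (a.h false).getD 0, a.g true, a.g false]) →
    c = c' := by
  induction c with
  | nil =>
    intro c' h1 _
    cases c' with
    | nil => rfl
    | cons a' c' => exact absurd h1 (by simp)
  | cons a c ih =>
    intro c' h1 h2
    cases c' with
    | nil => exact absurd h1 (by simp)
    | cons a' c' =>
      rw [List.map_cons, List.map_cons, List.cons.injEq, Prod.mk.injEq] at h1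
      rw [List.flatMap_cons, List.flatMap_cons] at h2
      obtain ⟨h3, h4⟩ := List.append_inj h2 rfl
      simp only [List.cons.injEq, and_true] at h3
      rw [ent_ext h1.1.1 h1.1.2 h3.1 h3.2.1 h3.2.2.1 h3.2.2.2, ih c' h1.2 h4]

omit [TP] in
theorem encI_inj {i i' : Bool} {c c' : List Ent} {n n' : List ℕ} {φ φ' : Fm}
    {s s' : List Ordinal.{0}} (h : encI i c n φ s = encI i' c' n' φ' s') :
    i = i' ∧ c = c' ∧ n = n' ∧ φ = φ' ∧ s = s' := by
  unfold encI at h
  rw [Prod.mk.injEq] at h
  obtain ⟨h1, h2⟩ := h
  have h3 := Encodable.encode_injective h1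
  rw [Prod.mk.injEq, Prod.mk.injEq, Prod.mk.injEq] at h3
  obtain ⟨h4, h5, h6, h7⟩ := h3
  have h8 : c.length = c'.length := by
    have := congrArg List.length h5
    rw [List.length_map, List.length_map] at this
    exact this
  obtain ⟨h9, h10⟩ := List.append_inj h2 (by rw [blk_len, blk_len, h8])
  exact ⟨h4, blk_inj c c' h5 h9, h6, h7, h10⟩

omit [TP] in
theorem encI_map (π : Ordinal.{0} → Ordinal.{0}) (h0 : π 0 = 0) (i : Bool) (c : List Ent)
    (n : List ℕ) (φ : Fm) (s : List Ordinal.{0}) :
    (encI i c n φ s).map π = encI i (c.map (Ent.map π)) n φ (s.map π) := by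
  have ho : ∀ o : Option Ordinal.{0}, π (o.getD 0) = (o.map π).getD 0 := by
    intro o
    cases o with
    | none => exact h0
    | some x => rfl
  have h1 : (c.map (Ent.map π)).map (fun a => ((a.h true).isSome, (a.h false).isSome)) =
      c.map (fun a => ((a.h true).isSome, (a.h false).isSome)) := by
    rw [List.map_map]
    refine List.map_congr_left fun a _ => ?_
    simp [Ent.map]
  have h2 : (c.map (Ent.map π)).flatMap
      (fun a => [(a.h true).getD 0, (a.h false).getD 0, a.g true, a.g false]) =
      (c.flatMap (fun a => [(a.h true).getD 0, (a.h false).getD 0, a.g true, a.g false])).map π := by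
    rw [List.map_flatMap, List.flatMap_map]
    congr 1
    funext a
    simp only [Ent.map, List.map_cons, List.map_nil, ho]
  unfold encI St.map
  rw [h1, h2, List.map_append]

omit [TP] in
private theorem tag_le_aux {η κ : Bool → Ordinal.{0}} {c : List Ent} (hc : Val η κ c) (β : Bool)
    (i : ℕ) : i < c.length → ∀ ζ, (ext c i).h β = some ζ → ζ ≤ η β := by
  induction i using Nat.strong_induction_on with
  | _ i ih =>
    intro hi ζ hζ
    obtain ⟨-, h1, h2⟩ := hc i hi β
    rcases Nat.eq_zero_or_pos i with h0 | h0
    · rw [h1 h0] at hζ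
      exact (Option.some.inj hζ).symm.le
    · obtain ⟨ζ', h3, h4⟩ := h2 h0.ne' ζ hζ
      have h5 : par i < i := par_lt h0
      exact h4.le.trans (ih (par i) h5 (h5.trans hi) ζ' h3)

omit [TP] in
theorem tag_le {η κ : Bool → Ordinal.{0}} {c : List Ent} (hc : Val η κ c) {a : Ent} (ha : a ∈ c)
    (β : Bool) : a.g β < κ β ∧ ∀ ζ, a.h β = some ζ → ζ ≤ η β := by
  obtain ⟨i, hi, rfl⟩ := List.mem_iff_getElem.1 ha
  have h1 : ext c i = (c)[i] := by
    simp [ext, List.getD, hi]
  have h2 := (hc i hi β).1
  have h3 := tag_le_aux hc β i hi
  rw [h1] at h2 h3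
  exact ⟨h2, h3⟩

omit [TP] in
theorem encI_le {κ : Ordinal.{0}} (hκ : 0 < κ) {i : Bool} {c : List Ent} {n : List ℕ} {φ : Fm}
    {s : List Ordinal.{0}} (hc : Val (ηI κ) (κI κ) c) (hs : ∀ x ∈ s, x < κ) :
    ∀ x ∈ (encI i c n φ s).2, x ≤ κ + Ordinal.omega0 := by
  have hle : κ ≤ κ + Ordinal.omega0 := le_self_add
  intro x hx
  rcases List.mem_append.1 hx with hx | hx
  · obtain ⟨a, ha, hx⟩ := List.mem_flatMap.1 hx
    obtain ⟨h1, h2⟩ := tag_le hc ha true
    obtain ⟨h3, h4⟩ := tag_le hc ha false
    simp only [List.mem_cons, List.not_mem_nil, or_false] at hx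
    rcases hx with rfl | rfl | rfl | rfl
    · cases h5 : a.h true with
      | none => exact zero_le
      | some ζ => exact h2 ζ h5
    · cases h5 : a.h false with
      | none => exact zero_le
      | some ζ => exact (h4 ζ h5).trans zero_le
    · exact (show a.g true < κ from h1).le.trans hle
    · have h5 : a.g false < 1 := h3
      exact h5.le.trans ((Order.one_le_iff_pos.2 hκ).trans hle)
  · exact (hs x hx).le.trans hle

end MP2900
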