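import Pool.Agent.Lib.MP_2900b9_lc.C.ClDefs

/-!
Module LPf: facts about the successor `LP` of the continuum.
-/

set_option autoImplicit false

namespace MP2900

open Set Pool.Agent.Lib.MP_2900b9_lc

private theorem lp_card : Cardinal.mk (ℕ → ℕ) = Cardinal.continuum.{0} := by
  rw [← Cardinal.power_def, Cardinal.mk_nat, Cardinal.aleph0_power_aleph0]

private theorem lp_lim : Order.IsSuccLimit LP :=
  Cardinal.isSuccLimit_ord (Cardinal.aleph0_le_continuum.trans (Order.le_succ _))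

theorem lp_sup (e : (ℕ → ℕ) → Ordinal.{0}) (h : ∀ x, e x < LP) : ∃ δ < LP, ∀ x, e x < δ := by
  have h1 : iSup e < LP := by
    refine Ordinal.iSup_lt_of_lt_cof ?_ h
    rw [LP, (Cardinal.isRegular_succ Cardinal.aleph0_le_continuum).cof_ord, lp_card]
    exact Order.lt_succ _
  refine ⟨Order.succ (iSup e), lp_lim.succ_lt h1, fun x => ?_⟩
  exact Order.lt_succ_of_le (Ordinal.le_iSup e x)

theorem lp_surj {ξ : Ordinal.{0}} (h : ξ < LP) (h0 : 0 < ξ) :
    ∃ s : (ℕ → ℕ) → Ordinal.{0}, range s = Iio ξ := by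
  have h1 : Cardinal.mk ξ.ToType ≤ Cardinal.mk (ℕ → ℕ) := by
    rw [lp_card, Cardinal.mk_toType]
    exact Order.lt_succ_iff.1 (Cardinal.lt_ord.1 h)
  obtain ⟨f⟩ := h1
  have hne : Nonempty ξ.ToType := Ordinal.nonempty_toType_iff.2 h0.ne'
  refine ⟨fun x => Ordinal.typein (α := ξ.ToType) (· < ·) (Function.invFun f x), ?_⟩
  apply Subset.antisymm
  · rintro _ ⟨x, rfl⟩
    have h2 := Ordinal.typein_lt_type (α := ξ.ToType) (· < ·) (Function.invFun f x)
    rwa [Ordinal.type_toType] at h2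
  · intro y hy
    have h2 : y < Ordinal.type (α := ξ.ToType) (· < ·) := by
      rw [Ordinal.type_toType]
      exact hy
    obtain ⟨z, hz⟩ := Ordinal.typein_surj (α := ξ.ToType) (· < ·) h2
    obtain ⟨x, hx⟩ := Function.invFun_surjective f.injective z
    exact ⟨x, by rw [← hz, ← hx]⟩

theorem lp_omega : Ordinal.omega0 < LP := by
  rw [← Cardinal.ord_aleph0, LP]
  exact Cardinal.ord_lt_ord.2 (Cardinal.aleph0_le_continuum.trans_lt (Order.lt_succ _))

end MP2900
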