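import Pool.Agent.Lib.MP_2900b9_lc.C.ClOm
import Pool.Agent.Lib.MP_2900b9_lc.C.LPf
import Pool.Agent.Lib.MP_2900b9_lc.C.ClW

/-!
Module ExX: the big closed set.

Apply exists_wcl to one function `H i a`, the index `i : ℕ → ℕ` codes a case (by `i 0`) and further data (`fun k => i (k+1)`):
 case 0: `i 1 = n`, `i 2 = m`, `i 3 = r`: the `r`-th entry of `G n [a 0, .., a (m-1)]` (0 if there is none).
 case 1: surjections: for `0 < a 0 < LP` the value `s_{a 0} x`, `x = fun k => i (k+1)`, where `s_ξ` is the chosen surjection of lp_surj (0 otherwise).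
 case 2: a sequence of signed facts: the data `φ_n, f_n, v_n, ε_n` and the lengths of `l1_n, l2_n` are coded in the naturals `i (k+1)` (`Encodable (Fm × List ℕ × ℕ × Bool × ℕ × ℕ)`), the entries of `l1_n ++ l2_n` are `a (Nat.pair n r)`. Value: `sInf {ξ | ∀ n, (fact n).Holds ξ}`.
 Start function `f`: `f x = LP` if `x 0 = 0`, `νs` if `x 0 = 1`, `0` otherwise.
 `X = range e`. It is closed under `G`, contains `LP`, `νs`, `0`. X ∩ LP is an initial segment: if `ξ ∈ X`, `ξ < LP`, `x < ξ` then `x = s_ξ y` for some `y`, in `X` by case 1. It is bounded below `LP` by lp_sup (replace values `≥ LP` by 0). So `X ∩ LP = Iio δ` with `δ = sInf {x | x ∉ X}` (or the supremum of the successors), `δ < LP`, `0 < δ` as `0 ∈ X`.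
 bdd: the range of `e` is small (index type in universe 0): bounded (`Ordinal.bddAbove_range`). wcl: case 2: the infimum is `≤ ξ`, belongs to the set.
-/

set_option autoImplicit false

namespace MP2900

open Set Pool.Agent.Lib.MP_2900b9_lc

/-- the indices of the closure functions -/
private abbrev XJ : Type := (ℕ × ℕ × ℕ) ⊕ (ℕ → ℕ) ⊕ (ℕ → Fm × List ℕ × ℕ × Bool × ℕ × ℕ)

open Classical in
private noncomputable def xpi (i : ℕ → ℕ) : XJ :=
  if i 0 = 0 then Sum.inl (i 1, i 2, i 3) else
    if i 0 = 1 then Sum.inr (Sum.inl fun k => i (k + 1)) else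
      Sum.inr (Sum.inr fun k => ((Encodable.decode (i (k + 1)) :
        Option (Fm × List ℕ × ℕ × Bool × ℕ × ℕ))).getD (Fm.bot, [], 0, true, 0, 0))

private theorem xpi_surj (j : XJ) : ∃ i, xpi i = j := by
  rcases j with ⟨n, m, r⟩ | x | d
  · refine ⟨fun k => if k = 0 then 0 else if k = 1 then n else if k = 2 then m else r, ?_⟩
    unfold xpi
    simp
  · refine ⟨fun k => if k = 0 then 1 else x (k - 1), ?_⟩
    unfold xpi
    simp
  · refine ⟨fun k => if k = 0 then 2 else Encodable.encode (d (k - 1)), ?_⟩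
    unfold xpi
    simp [Encodable.encodek]

/-- the coded signed fact -/
private def xfact (d : ℕ → Fm × List ℕ × ℕ × Bool × ℕ × ℕ) (a : ℕ → Ordinal.{0}) (n : ℕ) : UF where
  φ := (d n).1
  f := (d n).2.1
  v := (d n).2.2.1
  ε := (d n).2.2.2.1
  l1 := (List.range (d n).2.2.2.2.1).map fun r => a (Nat.pair n r)
  l2 := (List.range (d n).2.2.2.2.2).map fun r => a (Nat.pair n ((d n).2.2.2.2.1 + r))

open Classical in
private noncomputable def xH [TP] (G : ℕ → List Ordinal.{0} → List Ordinal.{0}) :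
    XJ → (ℕ → Ordinal.{0}) → Ordinal.{0}
  | Sum.inl (n, m, r), a => ((G n ((List.range m).map a))[r]?).getD 0
  | Sum.inr (Sum.inl x), a =>
    if h : a 0 < LP ∧ 0 < a 0 then (lp_surj h.1 h.2).choose x else 0
  | Sum.inr (Sum.inr d), a => sInf {ξ | ∀ n, (xfact d a n).Holds ξ}

private theorem map_getD (l : List Ordinal.{0}) :
    (List.range l.length).map (fun k => l.getD k 0) = l := by
  refine List.ext_getElem (by simp) fun i h1 h2 => ?_
  simp [List.getD, h2]

private theorem getD_mem {X : Set Ordinal.{0}} (h0 : (0 : Ordinal.{0}) ∈ X) {l : List Ordinal.{0}}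
    (hl : ∀ x ∈ l, x ∈ X) (k : ℕ) : l.getD k 0 ∈ X := by
  by_cases h : k < l.length
  · have e : l.getD k 0 = l[k] := by simp [List.getD, h]
    rw [e]
    exact hl _ (List.getElem_mem h)
  · have e : l.getD k 0 = 0 := by simp [List.getD, h]
    rw [e]
    exact h0

theorem exists_X [TP] (G : ℕ → List Ordinal.{0} → List Ordinal.{0}) (νs : Ordinal.{0}) :
    ∃ (X : Set Ordinal.{0}) (δ : Ordinal.{0}), IsX G νs X δ := by
  classical
  obtain ⟨e, he1, he2⟩ := exists_wcl (fun i a => xH G (xpi i) a)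
    (fun x => if x 0 = 0 then LP else if x 0 = 1 then νs else 0)
  obtain ⟨X, hX⟩ : ∃ X : Set Ordinal.{0}, X = range e := ⟨_, rfl⟩
  have hlp : LP ∈ X := by
    rw [hX]
    obtain ⟨y, hy⟩ := he1 fun _ => 0
    exact ⟨y, by simpa using hy⟩
  have hns : νs ∈ X := by
    rw [hX]
    obtain ⟨y, hy⟩ := he1 fun _ => 1
    exact ⟨y, by simpa using hy⟩
  have h0 : (0 : Ordinal.{0}) ∈ X := by
    rw [hX]
    obtain ⟨y, hy⟩ := he1 fun _ => 2
    exact ⟨y, by simpa using hy⟩
  have hH : ∀ j a, (∀ n, a n ∈ X) → xH G j a ∈ X := by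
    intro j a ha
    obtain ⟨i, rfl⟩ := xpi_surj j
    rw [hX] at ha ⊢
    exact he2 i a ha
  -- downward closure below `LP`
  have hdown : ∀ ξ ∈ X, ξ < LP → ∀ x < ξ, x ∈ X := by
    intro ξ hξ hξL x hx
    have h1 : ξ < LP ∧ 0 < ξ := ⟨hξL, (zero_le).trans_lt hx⟩
    have h2 : range (lp_surj h1.1 h1.2).choose = Iio ξ := (lp_surj h1.1 h1.2).choose_spec
    obtain ⟨y, hy⟩ : x ∈ range (lp_surj h1.1 h1.2).choose := by
      rw [h2]
      exact hx
    have h3 := hH (Sum.inr (Sum.inl y)) (fun _ => ξ) (fun _ => hξ)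
    have h4 : xH G (Sum.inr (Sum.inl y)) (fun _ => ξ) = x := by
      unfold xH
      simp only [dif_pos h1]
      exact hy
    rw [h4] at h3
    exact h3
  -- bound below `LP`
  have hLP0 : 0 < LP := Ordinal.omega0_pos.trans lp_omega
  obtain ⟨δ0, hδ0, hδ1⟩ := lp_sup (fun x => if e x < LP then e x else 0) (by
    intro x
    by_cases h : e x < LP
    · simp only [h, if_true]
    · simp only [h, if_false]
      exact hLP0)
  have hb : ∀ x ∈ X, x < LP → x < δ0 := by
    intro x hx hxL
    rw [hX] at hx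
    obtain ⟨y, rfl⟩ := hx
    have h := hδ1 y
    simp only [hxL, if_true] at h
    exact h
  have hδ0X : δ0 ∉ X := fun h => lt_irrefl _ (hb δ0 h hδ0)
  have hne : {x : Ordinal.{0} | x ∉ X}.Nonempty := ⟨δ0, hδ0X⟩
  have hδX : sInf {x : Ordinal.{0} | x ∉ X} ∉ X := csInf_mem hne
  have hδle : sInf {x : Ordinal.{0} | x ∉ X} ≤ δ0 := csInf_le' hδ0X
  refine ⟨X, sInf {x : Ordinal.{0} | x ∉ X}, ?_, hlp, hns, ?_, hδle.trans_lt hδ0, ?_, ?_, ?_⟩
  · -- cl
    intro n l hl x hx
    obtain ⟨r, hr⟩ := List.mem_iff_getElem?.1 hx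
    have h1 := hH (Sum.inl (n, l.length, r)) (fun k => l.getD k 0) (getD_mem h0 hl)
    have h2 : xH G (Sum.inl (n, l.length, r)) (fun k => l.getD k 0) = x := by
      change ((G n ((List.range l.length).map fun k => l.getD k 0))[r]?).getD 0 = x
      rw [map_getD, hr]
      rfl
    rw [h2] at h1
    exact h1
  · -- pos
    refine lt_of_le_of_ne (zero_le) fun h => hδX ?_
    rw [← h]
    exact h0
  · -- init
    intro x hx
    constructor
    · intro hxX
      by_contra h
      rcases (not_lt.1 h).lt_or_eq with h1 | h1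
      · exact hδX (hdown x hxX hx _ h1)
      · exact hδX (h1 ▸ hxX)
    · intro h
      by_contra h1
      exact absurd (csInf_le' (show x ∈ {x : Ordinal.{0} | x ∉ X} from h1)) (not_le.2 h)
  · -- bdd
    have hb' : BddAbove X := by
      rw [hX]
      exact Ordinal.bddAbove_of_small
    obtain ⟨τ, hτ⟩ := hb'
    exact ⟨τ + 1, fun x hx => (hτ hx).trans_lt (lt_add_one τ)⟩
  · -- wcl
    intro a ha ξ hξ
    obtain ⟨d, hd⟩ : ∃ d : ℕ → Fm × List ℕ × ℕ × Bool × ℕ × ℕ, d = fun n =>
      ((a n).φ, (a n).f, (a n).v, (a n).ε, (a n).l1.length, (a n).l2.length) := ⟨_, rfl⟩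
    obtain ⟨b, hbd⟩ : ∃ b : ℕ → Ordinal.{0}, b = fun k =>
      if (Nat.unpair k).2 < (a (Nat.unpair k).1).l1.length then
        (a (Nat.unpair k).1).l1.getD (Nat.unpair k).2 0
      else (a (Nat.unpair k).1).l2.getD ((Nat.unpair k).2 - (a (Nat.unpair k).1).l1.length) 0 :=
      ⟨_, rfl⟩
    have hbX : ∀ n, b n ∈ X := by
      intro n
      rw [hbd]
      dsimp only
      split_ifs
      · exact getD_mem h0 (ha _).1 _
      · exact getD_mem h0 (ha _).2 _
    have e1 : ∀ n, (List.range (a n).l1.length).map (fun r => b (Nat.pair n r)) = (a n).l1 := by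
      intro n
      refine Eq.trans (List.map_congr_left fun r hr => ?_) (map_getD _)
      have hr' : r < (a n).l1.length := List.mem_range.1 hr
      rw [hbd]
      simp only [Nat.unpair_pair, hr', if_true]
    have e2 : ∀ n, (List.range (a n).l2.length).map
        (fun r => b (Nat.pair n ((a n).l1.length + r))) = (a n).l2 := by
      intro n
      refine Eq.trans (List.map_congr_left fun r hr => ?_) (map_getD _)
      rw [hbd]
      simp only [Nat.unpair_pair]
      have hr' : ¬ (a n).l1.length + r < (a n).l1.length := by omega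
      rw [if_neg hr', Nat.add_sub_cancel_left]
    have e3 : ∀ n, xfact d b n = a n := by
      intro n
      unfold xfact
      rw [hd]
      dsimp only
      rw [e1, e2]
    have h1 := hH (Sum.inr (Sum.inr d)) b hbX
    have h2 : xH G (Sum.inr (Sum.inr d)) b = sInf {ξ | ∀ n, (a n).Holds ξ} := by
      unfold xH
      simp only [e3]
    rw [h2] at h1
    have hne2 : {ξ | ∀ n, (a n).Holds ξ}.Nonempty := ⟨ξ, hξ⟩
    exact ⟨_, csInf_le' (show ξ ∈ {ξ | ∀ n, (a n).Holds ξ} from hξ), h1, csInf_mem hne2⟩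

end MP2900
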