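import Pool.Agent.Lib.MP_2900b9_lc.C.Basic

/-!
Module GameII: if `WE κ ν [] []` fails for every `ν` then player II wins.

Call `(u, ξ)` good if `¬ WE κ ν u ξ` for all `ν`. Step: if `(u, ξ)` is good, then for every `c` there are `l` and `x < κ` such that `(u ++ [c] ++ [l], ξ ++ [x])` is good: otherwise for all `l`, `x < κ` there is `ν_{l,x}` with `WE κ ν_{l,x} ..`; `WE` is monotone in `ν` (same witness), so with an upper bound `ν₀ > κ` of all `ν_{l,x}` (a small family: `ℕ × Iio κ`;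
`Ordinal.bddAbove_range` needs a small index type) we have `WO κ ν₀ (u ++ [c]) ξ`, so `WE κ (ν₀ + 1) u ξ`, contradiction.
Choose `l(u, ξ, c)`, `x(u, ξ, c)`. For a sequence of moves of I, given by `h : List ℕ` (the history of length `2n + 1`, its even entries), define the position `pos n h : List ℕ × List Ordinal` by recursion: `pos 0 = ([], [])`, `pos (n+1) h = (u ++ [h_{2n}] ++ [l], ξ ++ [x])` where `(u, ξ) = pos n h`, `l = l(u, ξ, h_{2n})`. The strategy: `τ h := l(u, ξ, h_{2n})` for `h` of length `2n+1`, `(u, ξ) = pos n h`.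
If `z` is consistent with `τ` then `u_n = seg z (2n)` by induction (`List.ofFn (fun i : Fin m => z i) = seg z m`), `ξ_n` is an increasing chain of lists, giving ordinals `o j` (`j`-th entry of `ξ_n`, `n > j`), all positions good. Suppose `z ∈ pay`: there is `y` with `TP.T (seg z n) (seg y n)` for all `n`. The nodes `j_n = num (seg y n)` satisfy `par j_{n+1} = j_n`, `j_{n+1} ≥ 1`,
`nd j_n = seg y n`. Goodness of the position `n' > j_{n+1}` gives no violation (`¬ ViolR`, WE_iff), and `InT (seg z (2 n')) j_{n+1}` holds (`(seg z (2n')).take (n+1) = seg z (n+1)`, as `n + 1 = (nd j_{n+1}).length ≤ j_{n+1} < n'`), so `o j_{n+1} < o j_n`. Infinite descending sequence: contradiction.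
-/

set_option autoImplicit false

namespace MP2900

open Set Pool.Agent.Lib.MP_2900b9_lc

variable [TP]

omit [TP] in
theorem ofFn_eq_seg (z : ℕ → ℕ) (m : ℕ) : (List.ofFn fun i : Fin m => z i.val) = seg z m := by
  apply List.ext_getElem?
  intro i
  by_cases h : i < m
  · rw [seg_getElem? z h]
    simp [h]
  · have h1 : (seg z m).length ≤ i := by rw [length_seg]; omega
    have h2 : (List.ofFn fun i : Fin m => z i.val).length ≤ i := by
      rw [List.length_ofFn]; omega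
    rw [List.getElem?_eq_none h1, List.getElem?_eq_none h2]

theorem we_mono {κ ν ν' : Ordinal.{0}} (h : ν ≤ ν') {u : List ℕ} {ξ : List Ordinal.{0}}
    (hW : WE κ ν u ξ) : WE κ ν' u ξ := by
  rw [WE_iff] at hW ⊢
  rcases hW with hW | ⟨ν₀, h1, h2⟩
  · exact Or.inl hW
  · exact Or.inr ⟨ν₀, h1.trans_le h, h2⟩

private theorem gII_step {κ : Ordinal.{0}} {u : List ℕ} {ξ : List Ordinal.{0}}
    (h : ∀ ν, ¬ WE κ ν u ξ) (c : ℕ) :
    ∃ (l : ℕ) (x : Ordinal.{0}), x < κ ∧ ∀ ν, ¬ WE κ ν (u ++ [c] ++ [l]) (ξ ++ [x]) := by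
  by_contra hcon
  push Not at hcon
  choose f hf using hcon
  have hb : BddAbove (Set.range fun p : ℕ × Iio κ => f p.1 p.2.1 p.2.2) := by
    have : Small.{0} (ℕ × Iio κ) := inferInstance
    exact Ordinal.bddAbove_of_small
  obtain ⟨B, hB⟩ := hb
  apply h (max B (Order.succ κ) + 1)
  rw [WE_iff]
  refine Or.inr ⟨max B (Order.succ κ), ?_, ?_, c, ?_⟩
  · rw [← Order.succ_eq_add_one]
    exact Order.lt_succ _
  · exact lt_max_of_lt_right (Order.lt_succ κ)
  · rw [WO_iff]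
    intro l x hx
    refine we_mono ?_ (hf l x hx)
    exact le_max_of_le_left (hB ⟨(l, ⟨x, hx⟩), rfl⟩)

open Classical in
private noncomputable def gIIr (κ : Ordinal.{0}) (u : List ℕ) (ξ : List Ordinal.{0}) (c : ℕ) :
    ℕ × Ordinal.{0} :=
  if h : ∃ p : ℕ × Ordinal.{0}, p.2 < κ ∧ ∀ ν, ¬ WE κ ν (u ++ [c] ++ [p.1]) (ξ ++ [p.2]) then
    h.choose else (0, 0)

private theorem gIIr_spec {κ : Ordinal.{0}} {u : List ℕ} {ξ : List Ordinal.{0}}
    (h : ∀ ν, ¬ WE κ ν u ξ) (c : ℕ) :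
    ∀ ν, ¬ WE κ ν (u ++ [c] ++ [(gIIr κ u ξ c).1]) (ξ ++ [(gIIr κ u ξ c).2]) := by
  obtain ⟨l, x, hx, h1⟩ := gII_step h c
  have h2 : ∃ p : ℕ × Ordinal.{0}, p.2 < κ ∧
      ∀ ν, ¬ WE κ ν (u ++ [c] ++ [p.1]) (ξ ++ [p.2]) := ⟨(l, x), hx, h1⟩
  rw [gIIr, dif_pos h2]
  exact h2.choose_spec.2

private noncomputable def gIIpos (κ : Ordinal.{0}) (z : ℕ → ℕ) : ℕ → List ℕ × List Ordinal.{0}
  | 0 => ([], [])
  | n + 1 => ((gIIpos κ z n).1 ++ [z (2 * n)] ++
        [(gIIr κ (gIIpos κ z n).1 (gIIpos κ z n).2 (z (2 * n))).1],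
      (gIIpos κ z n).2 ++ [(gIIr κ (gIIpos κ z n).1 (gIIpos κ z n).2 (z (2 * n))).2])

private theorem gIIpos_congr (κ : Ordinal.{0}) {z z' : ℕ → ℕ} {n : ℕ}
    (h : ∀ i < 2 * n, z i = z' i) : gIIpos κ z n = gIIpos κ z' n := by
  induction n with
  | zero => rfl
  | succ n ih =>
    rw [gIIpos, gIIpos, ih fun i hi => h i (by omega), h (2 * n) (by omega)]

omit [TP] in
private theorem gII_getD (z : ℕ → ℕ) {m i : ℕ} (h : i < m) : (seg z m).getD i 0 = z i := by
  rw [List.getD_eq_getElem?_getD, seg_getElem? z h]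
  rfl

omit [TP] in
private theorem gII_desc (o : ℕ → Ordinal.{0}) (f : ℕ → ℕ) (h : ∀ n, o (f (n + 1)) < o (f n)) :
    False := by
  obtain ⟨m, ⟨n, rfl⟩, h2⟩ := (wellFounded_lt (α := Ordinal.{0})).has_min
    (Set.range fun n => o (f n)) ⟨_, ⟨0, rfl⟩⟩
  exact h2 _ ⟨n + 1, rfl⟩ (h n)

theorem game_II (κ : Ordinal.{0}) (h : ∀ ν, ¬ WE κ ν [] []) :
    ∃ τ : List ℕ → ℕ, ∀ z : ℕ → ℕ,
      (∀ n : ℕ, z (2 * n + 1) = τ (List.ofFn fun i : Fin (2 * n + 1) => z i.val)) → z ∉ pay := by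
  refine ⟨fun h => (gIIr κ (gIIpos κ (fun i => h.getD i 0) ((h.length - 1) / 2)).1
    (gIIpos κ (fun i => h.getD i 0) ((h.length - 1) / 2)).2 (h.getD (h.length - 1) 0)).1, ?_⟩
  intro z hz
  have hz' : ∀ n, z (2 * n + 1) =
      (gIIr κ (gIIpos κ z n).1 (gIIpos κ z n).2 (z (2 * n))).1 := by
    intro n
    have h1 := hz n
    rw [ofFn_eq_seg] at h1
    have h2 : 2 * n / 2 = n := by omega
    have h3 : 2 * n + 1 - 1 = 2 * n := by omega
    have h4 : gIIpos κ (fun i => (seg z (2 * n + 1)).getD i 0) n = gIIpos κ z n :=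
      gIIpos_congr κ fun i hi => gII_getD z (by omega)
    have h5 : (seg z (2 * n + 1)).getD (2 * n) 0 = z (2 * n) := gII_getD z (by omega)
    simp only [length_seg, h3, h2, h4, h5] at h1
    exact h1
  obtain ⟨o, ho⟩ : ∃ o : ℕ → Ordinal.{0},
      ∀ n, o n = (gIIr κ (gIIpos κ z n).1 (gIIpos κ z n).2 (z (2 * n))).2 := ⟨_, fun _ => rfl⟩
  have hpos : ∀ n, gIIpos κ z n = (seg z (2 * n), seg o n) := by
    intro n
    induction n with
    | zero => simp [gIIpos, seg_zero]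
    | succ n ih =>
      have h1 : 2 * (n + 1) = 2 * n + 1 + 1 := by ring
      rw [h1, seg_succ, seg_succ, seg_succ, gIIpos, Prod.mk.injEq]
      refine ⟨?_, ?_⟩
      · rw [hz' n, ih]
      · rw [ho n, ih]
  have hgood : ∀ n, ∀ ν, ¬ WE κ ν (seg z (2 * n)) (seg o n) := by
    intro n
    induction n with
    | zero => simpa [seg_zero] using h
    | succ n ih =>
      have h1 : 2 * (n + 1) = 2 * n + 1 + 1 := by ring
      have h2 := gIIr_spec ih (z (2 * n))
      have h3 : (gIIr κ (seg z (2 * n)) (seg o n) (z (2 * n))).1 = z (2 * n + 1) := by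
        rw [hz' n, hpos n]
      have h4 : (gIIr κ (seg z (2 * n)) (seg o n) (z (2 * n))).2 = o n := by
        rw [ho n, hpos n]
      rw [h3, h4] at h2
      rw [h1, seg_succ, seg_succ, seg_succ]
      exact h2
  rintro ⟨y, hy⟩
  refine gII_desc o (fun n => num (seg y n)) fun n => ?_
  by_contra hlt
  have hj : num (seg y (n + 1)) = chd (num (seg y n)) (y n) := by rw [seg_succ, num_append]
  have hpar : par (num (seg y (n + 1))) = num (seg y n) := by rw [hj, par_chd]
  have h1 : 1 ≤ num (seg y (n + 1)) := by rw [hj]; exact one_le_chd _ _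
  have hlen : n + 1 ≤ num (seg y (n + 1)) := by
    have h2 := length_nd_le (num (seg y (n + 1)))
    rwa [nd_num, length_seg] at h2
  apply hgood (num (seg y (n + 1)) + 1) 0
  rw [WE_iff]
  refine Or.inl ⟨num (seg y (n + 1)), o (num (seg y (n + 1))), o (num (seg y n)), h1, ?_, ?_, ?_,
    hlt⟩
  · unfold InT
    rw [nd_num, length_seg, seg_take z (by omega)]
    exact hy (n + 1)
  · exact seg_getElem? o (by omega)
  · rw [hpar]
    have h3 := par_lt h1
    rw [hpar] at h3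
    exact seg_getElem? o (by omega)

end MP2900
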