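import Pool.Agent.Lib.MP_2900b9_lc.C.GCode
import Pool.Agent.Lib.MP_2900b9_lc.C.GameII

/-!
Module GameI: if player I wins the auxiliary game with bound `κ`, and homogeneous sets exist, then player I wins.

For `u : List ℕ` let `n = u.length / 2`, `L_u` the list of kb_list for `u`, `n`; codes `b_{u,c}` from code_ex for all `u` and `c` (countably many: enumerate pairs by `ℕ`), with `q = [0, κ, νs]`. The hypothesis hhom gives `ε_{u,c}` (Prop). Strategy: `σ u := ` some `c` with `ε_{u,c}` if there is one (0 otherwise).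
Let `z` be a play with `z (2n) = σ (seg z (2n))` (ofFn_eq_seg) and suppose `z ∉ pay`. kb_embed gives `θ, e`; hhom gives `g` for `θ`. Let `a j = g (e j)`, `ξ_n = pl (seg z (2n)) a n`. For `j < n`: `InT (seg z (2n)) j ↔ InX z j` (`(seg z (2n)).take m = seg z m` for `m = (nd j).length ≤ j ≤ 2n`: length_nd_le). So `ξ_{n+1} = ξ_n ++ [x_n]` with `x_n = a n` or `0`, `x_n < κ` (`a n < δ ≤ κ`).
No violation: ViolR would give `1 ≤ j < n`, `InX z j`, and the entries at `j` and `par j` with `¬ a j < (entry at par j)`; `par j` is in the tree too (TP.take, nd_par), so the entry is `a (par j)`, and `kb j (par j)` (kb_par) gives `e j < e (par j) < θ`, `g` increasing. Contradiction.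
Claim: for all `n`: `WE κ ν u ξ_n` with `u = seg z (2n)`, for some `ν ≤ νs`; moreover if `WE κ ν u ξ_n`, `ν ≤ νs` then there is `ν' < ν` with `WE κ ν' (seg z (2(n+1))) ξ_{n+1}`. This gives an infinite descending sequence of ordinals, contradiction. Proof: by `WE κ νs u ξ_n` (we_mono) and no violation, the set of `ν₀ > κ`, `ν₀ < νs` with `∃ c, WO κ ν₀ (u ++ [c]) ξ_n` is nonempty; let `ν₀` be the least and `c` the least for
`ν₀`. Then `¬ WE κ ν₀ u ξ_n` (WE_iff, minimality of `ν₀`), so `Rr κ νs u c ξ_n`. As `WE κ ν u ξ_n` there is an element of this set `< ν`, so `ν₀ < ν`. Uniqueness: if `Rr κ νs u c' ξ_n` with `ν₀'` then `ν₀' = ν₀`, `c' = c` (`WE κ ν₀' u ξ_n` would hold if `ν₀ < ν₀'`; symmetric; then the least `c`). By code_ex and homogeneity (the list `L_u.map e` is strictly increasing with entries `< θ`, `(L_u.map e).map g = L_u.map a`): `ε_{u,c'} ↔ Rr κ νs u c' ξ_n ↔ c' = c`.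
So `σ u = c = z (2n)`. `WO κ ν₀ (u ++ [c]) ξ_n` gives `WE κ ν₀ (u ++ [c] ++ [z (2n+1)]) (ξ_n ++ [x_n])`, i.e. `WE κ ν₀ (seg z (2(n+1))) ξ_{n+1}` (seg_succ twice), `ν' = ν₀`.
-/

set_option autoImplicit false

namespace MP2900

open Set Pool.Agent.Lib.MP_2900b9_lc

private theorem gI_desc [TP] {κ νs : Ordinal.{0}} {z : ℕ → ℕ} {xs : ℕ → Ordinal.{0}}
    (hx : ∀ n, xs n < κ)
    (hnv : ∀ n, ¬ ViolR (· < ·) (seg z (2 * n)) (seg xs n))
    (hst : ∀ n c, Rr κ νs (seg z (2 * n)) c (seg xs n) →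
      (∀ c', Rr κ νs (seg z (2 * n)) c' (seg xs n) → c' = c) → z (2 * n) = c)
    (ν : Ordinal.{0}) : ∀ n, ν ≤ νs → ¬ WE κ ν (seg z (2 * n)) (seg xs n) := by
  induction ν using WellFoundedLT.induction with
  | _ ν ih =>
    intro n hν hW
    rw [WE_iff] at hW
    rcases hW with hW | ⟨ν₀, h1, h2, c₀, h3⟩
    · exact hnv n hW
    obtain ⟨m, ⟨hm1, hm2, hm3⟩, hmin⟩ := (wellFounded_lt (α := Ordinal.{0})).has_min
      {μ | κ < μ ∧ μ < νs ∧ ∃ c, WO κ μ (seg z (2 * n) ++ [c]) (seg xs n)}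
      ⟨ν₀, h2, h1.trans_le hν, c₀, h3⟩
    have hmν : m ≤ ν₀ := not_lt.1 (hmin ν₀ ⟨h2, h1.trans_le hν, c₀, h3⟩)
    classical
    obtain ⟨c, hc, hc'⟩ : ∃ c, WO κ m (seg z (2 * n) ++ [c]) (seg xs n) ∧
        ∀ c' < c, ¬ WO κ m (seg z (2 * n) ++ [c']) (seg xs n) :=
      ⟨Nat.find hm3, Nat.find_spec hm3, fun c' h => Nat.find_min hm3 h⟩
    have hnW : ¬ WE κ m (seg z (2 * n)) (seg xs n) := by
      intro h
      rw [WE_iff] at h
      rcases h with h | ⟨ν₁, h4, h5, h6⟩
      · exact hnv n h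
      · exact hmin ν₁ ⟨h5, h4.trans hm2, h6⟩ h4
    have hz : z (2 * n) = c := by
      refine hst n c ⟨m, hm1, hm2, hc, hc', hnW⟩ ?_
      rintro c' ⟨ν₁, h4, h5, h6, h7, h8⟩
      have h9 : m ≤ ν₁ := not_lt.1 (hmin ν₁ ⟨h4, h5, c', h6⟩)
      have h10 : m = ν₁ := by
        refine le_antisymm h9 (not_lt.1 fun h => h8 ?_)
        rw [WE_iff]
        exact Or.inr ⟨m, h, hm1, c, hc⟩
      subst h10
      rcases lt_trichotomy c' c with h | h | h
      · exact absurd h6 (hc' c' h)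
      · exact h
      · exact absurd hc (h7 c h)
    rw [WO_iff] at hc
    have h4 := hc (z (2 * n + 1)) (xs n) (hx n)
    refine ih m (hmν.trans_lt h1) (n + 1) hm2.le ?_
    have h5 : 2 * (n + 1) = 2 * n + 1 + 1 := by ring
    rw [h5, seg_succ, seg_succ, seg_succ, hz]
    exact h4

private theorem gI_inT [TP] (z : ℕ → ℕ) {j n : ℕ} (h : j < n) :
    InT (seg z (2 * n)) j ↔ InX z j := by
  unfold InT InX
  have h1 := length_nd_le j
  rw [seg_take z (by omega)]

private theorem gI_par [TP] {z : ℕ → ℕ} {j : ℕ} (h : 1 ≤ j) (hj : InX z j) : InX z (par j) := by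
  unfold InX at hj ⊢
  obtain ⟨k, hk⟩ := nd_par h
  have h1 := TP.take _ _ (nd (par j)).length hj
  have h2 : (nd j).take (nd (par j)).length = nd (par j) := by
    rw [hk, List.take_left']
    rfl
  have h3 : (nd (par j)).length ≤ (nd j).length := by
    rw [hk, List.length_append]
    omega
  rwa [h2, seg_take z h3] at h1

theorem game_I [TP] {κ νs δ : Ordinal.{0}} (h0 : 0 < κ) (h1 : κ < νs) (hδ : δ ≤ κ)
    (hW : WE κ νs [] [])
    (hhom : ∀ b : ℕ → HC, (∀ n, (b n).q = [0, κ, νs]) →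
      ∃ ε : ℕ → Prop, ∀ θ, Ctb θ → ∃ g : Ordinal.{0} → Ordinal.{0},
        (∀ i j, i < j → j < θ → g i < g j) ∧ (∀ i < θ, g i < δ) ∧
        ∀ n (l : List Ordinal.{0}), l.Pairwise (· < ·) → (∀ i ∈ l, i < θ) →
          l.length = (b n).k → ((b n).Holds (l.map g) ↔ ε n)) :
    ∃ σ : List ℕ → ℕ, ∀ z : ℕ → ℕ,
      (∀ n : ℕ, z (2 * n) = σ (List.ofFn fun i : Fin (2 * n) => z i.val)) → z ∈ pay := by
  choose Lu hL1 hL2 using fun u : List ℕ => kb_list u (u.length / 2)
  choose B hB1 hB2 hB3 using fun (u : List ℕ) (c : ℕ) =>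
    code_ex h0 h1 u c (u.length / 2) (Lu u) (hL1 u) (hL2 u)
  obtain ⟨dec, hdec⟩ := exists_surjective_nat (List ℕ × ℕ)
  obtain ⟨ε, hε⟩ := hhom (fun m => B (dec m).1 (dec m).2) fun m => hB1 _ _
  choose inv hinv using hdec
  classical
  refine ⟨fun u => if h : ∃ c, ε (inv (u, c)) then h.choose else 0, ?_⟩
  intro z hz
  by_contra hpay
  obtain ⟨θ, e, hθ, he, hkb⟩ := kb_embed hpay
  obtain ⟨g, hg1, hg2, hg3⟩ := hε θ hθ
  obtain ⟨xs, hxs⟩ : ∃ xs : ℕ → Ordinal.{0}, ∀ j, xs j = if InX z j then g (e j) else 0 :=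
    ⟨_, fun _ => rfl⟩
  have hxκ : ∀ n, xs n < κ := by
    intro n
    rw [hxs]
    split_ifs with h
    · exact (hg2 _ (he n h)).trans_le hδ
    · exact h0
  have hpl : ∀ n, pl (seg z (2 * n)) (fun j => g (e j)) n = seg xs n := by
    intro n
    unfold pl seg
    refine List.map_congr_left fun j hj => ?_
    rw [hxs]
    have h2 := gI_inT z (List.mem_range.1 hj)
    unfold seg at h2
    simp only [h2]
  have hnv : ∀ n, ¬ ViolR (· < ·) (seg z (2 * n)) (seg xs n) := by
    rintro n ⟨j, α, β, hj1, hj2, hj3, hj4, hj5⟩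
    have hjn : j < n := by
      obtain ⟨h2, -⟩ := List.getElem?_eq_some_iff.1 hj3
      rwa [length_seg] at h2
    have hX := (gI_inT z hjn).1 hj2
    have hX' := gI_par hj1 hX
    have hpj := par_lt hj1
    rw [seg_getElem? xs hjn, Option.some.injEq, hxs, if_pos hX] at hj3
    rw [seg_getElem? xs (hpj.trans hjn), Option.some.injEq, hxs, if_pos hX'] at hj4
    subst hj3
    subst hj4
    exact hj5 (hg1 _ _ ((hkb j (par j) hX hX').1 (kb_par hj1)) (he _ hX'))
  refine gI_desc (κ := κ) (νs := νs) (z := z) (xs := xs) hxκ hnv ?_ νs 0 le_rfl ?_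
  · intro n c hc huniq
    have hlen : (seg z (2 * n)).length / 2 = n := by
      rw [length_seg]
      omega
    have hX : ∀ j ∈ Lu (seg z (2 * n)), InX z j := by
      intro j hj
      have h2 := (hL2 _ j).1 hj
      rw [hlen] at h2
      exact (gI_inT z h2.1).1 h2.2
    have hE : ∀ c', ε (inv (seg z (2 * n), c')) ↔ c' = c := by
      intro c'
      have h2 := hg3 (inv (seg z (2 * n), c')) ((Lu (seg z (2 * n))).map e) ?_ ?_ ?_
      · rw [← h2, hinv, List.map_map]
        have h3 := hB3 (seg z (2 * n)) c' (fun j => g (e j))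
          fun j hj => (hg2 _ (he j (hX j hj))).trans_le hδ
        rw [hlen, hpl] at h3
        refine h3.trans ⟨huniq c', ?_⟩
        rintro rfl
        exact hc
      · rw [List.pairwise_map]
        refine List.Pairwise.imp_of_mem ?_ (hL1 (seg z (2 * n)))
        intro i j hi hj hij
        exact (hkb i j (hX i hi) (hX j hj)).1 hij
      · intro i hi
        obtain ⟨j, hj, rfl⟩ := List.mem_map.1 hi
        exact he j (hX j hj)
      · rw [hinv, List.length_map, hB2]
    have h2 := hz n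
    rw [ofFn_eq_seg] at h2
    have h3 : ∃ c', ε (inv (seg z (2 * n), c')) := ⟨c, (hE c).2 rfl⟩
    simp only [dif_pos h3] at h2
    rw [h2]
    exact (hE _).1 h3.choose_spec
  · simpa [seg_zero] using hW

end MP2900
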