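import Pool.Agent.Lib.MP_2900b9_lc.C.ClDefs
import Pool.Agent.Lib.MP_2900b9_lc.C.Basic
import Pool.Agent.Lib.MP_2900b9_lc.C.ClW

/-!
Module Homog: homogeneous sets of every countable order type with the same values.

* derived: for a code `b` over `X` let `r` be a realization over `X` of the type of `δ :: b.q` over `δ`; `b' = {b with q := r, k := b.k - 1}`. For `l < δ`: `b'.Holds l ↔ FctP FO φ f v (l ++ r) ↔ FctP FO φ f v (l ++ (δ :: b.q)) ↔ b.Holds (l ++ [δ])` (SameTy with `s = l`).
* main: let `D j n` be the `j`-th derived code of `b n` (`D 0 n = b n`), over `X`; `ε n := (D (b n).k n).Holds []`. Let `θ` be countable. Define `g` on `θ` by recursion such that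
 (I) for all `n`, all `l` strictly increasing (Pairwise) with entries `< i` (`i ≤ θ`) and `l.length ≤ (b n).k`: `(D ((b n).k - l.length) n).Holds (l.map g) ↔ ε n`, and `g` strictly increasing with values `< δ`.
 Step: let `i < θ`. Consider the countably many signed facts about `ξ`: `g j < ξ` for `j < i` (UF: `φ = Fm.top, f = [0], v = 1, l1 = [g j], l2 = [], ε = true`: FctP FO holds iff `g j < ξ`), and for each `n` and each increasing `l` with entries `< i`, `l.length < (b n).k`, with `m = (b n).k - l.length - 1`: `(D m n).Holds (l.map g ++ [ξ]) ↔ ε n` (UF with `l1 = l.map g`, `l2 = (D m n).q`, `φ, f, v`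
 of the code, `ε = decide (ε n)`). All parameters are in `X` (values of `g` are `< δ`, so in `X`). `ξ = δ` satisfies all of them: `(D m n).Holds (l.map g ++ [δ]) ↔ (D (m+1) n).Holds (l.map g) ↔ ε n` by (I). The family is countable (lists over a countable set; if it is empty take a trivial fact), so WCl gives `ξ' ≤ δ` in `X` satisfying all; `ξ' ≠ δ` as `δ ∉ X`
 (`δ < LP` and IsX.init), so `ξ' < δ`. Put `g i = ξ'`. (I) for `i + 1`: a list containing `i` has it as last entry.
 Formally: show for all `i < θ` existence by well-founded recursion: `g i := ` choose `ξ'` for the restriction of `g` to `Iio i` (e.g. `WellFounded.fix`, choose by `Classical.epsilon`, and prove (I) by strong induction).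
-/

set_option autoImplicit false

namespace MP2900

open Set Pool.Agent.Lib.MP_2900b9_lc

/-- recursion over the ordinals: a function all whose values satisfy a condition which only
depends on the earlier values -/
private theorem hom_rec (θ : Ordinal.{0})
    (R : Ordinal.{0} → (Ordinal.{0} → Ordinal.{0}) → Ordinal.{0} → Prop)
    (hcong : ∀ i g g' ξ, (∀ j < i, g j = g' j) → R i g ξ → R i g' ξ)
    (hex : ∀ i < θ, ∀ g, (∀ j < i, R j g (g j)) → ∃ ξ, R i g ξ) :
    ∃ g : Ordinal.{0} → Ordinal.{0}, ∀ i < θ, R i g (g i) := by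
  classical
  let F : (i : Ordinal.{0}) → ((j : Ordinal.{0}) → j < i → Ordinal.{0}) → Ordinal.{0} :=
    fun i rec => Classical.epsilon fun ξ => R i (fun j => if h : j < i then rec j h else 0) ξ
  let g : Ordinal.{0} → Ordinal.{0} := WellFounded.fix (wellFounded_lt (α := Ordinal.{0})) F
  have hg : ∀ i, g i = Classical.epsilon fun ξ => R i (fun j => if j < i then g j else 0) ξ := by
    intro i
    show WellFounded.fix (wellFounded_lt (α := Ordinal.{0})) F i = _
    rw [WellFounded.fix_eq]
    rfl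
  refine ⟨g, fun i => ?_⟩
  induction i using WellFoundedLT.induction with
  | _ i ih =>
    intro hi
    have h1 : ∀ j < i, g j = (fun j => if j < i then g j else 0) j := by
      intro j hj
      simp [hj]
    obtain ⟨ξ, hξ⟩ := hex i hi g fun j hj => ih j hj (hj.trans hi)
    have h2 : ∃ ξ, R i (fun j => if j < i then g j else 0) ξ := ⟨ξ, hcong i _ _ ξ h1 hξ⟩
    have h3 := Classical.epsilon_spec h2
    rw [← hg i] at h3
    exact hcong i _ _ _ (fun j hj => (h1 j hj).symm) h3

private theorem hom_ltF [TP] (x ξ : Ordinal.{0}) :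
    FctP FO Fm.top [0] 1 ([x] ++ ξ :: []) ↔ x < ξ := by
  unfold FctP
  constructor
  · rintro ⟨c, a, h1, h2, h3⟩
    rw [sel_cons'] at h1
    obtain ⟨y, c', rfl, h4, -⟩ := h1
    simp only [List.cons_append, List.nil_append, List.getElem?_cons_zero, Option.some.injEq] at h4
    simp only [List.cons_append, List.nil_append, List.getElem?_cons_succ,
      List.getElem?_cons_zero, Option.some.injEq] at h2
    subst h4 h2
    exact h3.1 _ List.mem_cons_self
  · intro h
    refine ⟨[x], ξ, ?_, rfl, ?_⟩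
    · rw [sel_cons]
      exact ⟨rfl, (sel_nil _ _).2 rfl⟩
    · refine ⟨fun y hy => ?_, sat_top _ _⟩
      rw [List.mem_singleton.1 hy]
      exact h

theorem homog [TP] {G : ℕ → List Ordinal.{0} → List Ordinal.{0}} {νs : Ordinal.{0}}
    {X : Set Ordinal.{0}} {δ : Ordinal.{0}} (hX : IsX G νs X δ)
    (hT : ∀ p : List Ordinal.{0}, ∃ r : List Ordinal.{0}, Ov X r ∧ r.length = p.length ∧
      SameTy δ p r) (b : ℕ → HC) (hb : ∀ n, Ov X (b n).q) :
    ∃ ε : ℕ → Prop, ∀ θ, Ctb θ → ∃ g : Ordinal.{0} → Ordinal.{0},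
      (∀ i j, i < j → j < θ → g i < g j) ∧ (∀ i < θ, g i < δ) ∧
      ∀ n (l : List Ordinal.{0}), l.Pairwise (· < ·) → (∀ i ∈ l, i < θ) → l.length = (b n).k →
        ((b n).Holds (l.map g) ↔ ε n) := by
  classical
  choose R0 hR1 hR2 hR3 using hT
  -- the derived codes
  let dv : HC → HC := fun b => ⟨b.φ, b.f, b.v, b.k - 1, R0 (δ :: b.q)⟩
  have hdv : ∀ (c : HC) (l : List Ordinal.{0}), (∀ x ∈ l, x < δ) →
      ((dv c).Holds l ↔ c.Holds (l ++ [δ])) := by
    intro c l hl
    have h1 := hR3 (δ :: c.q) l hl c.φ c.f c.v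
    show FctP FO c.φ c.f c.v (l ++ R0 (δ :: c.q)) ↔ FctP FO c.φ c.f c.v ((l ++ [δ]) ++ c.q)
    rw [← h1, List.append_assoc]
    rfl
  let D : ℕ → ℕ → HC := fun j n => dv^[j] (b n)
  have hD : ∀ j n, D (j + 1) n = dv (D j n) := fun j n => Function.iterate_succ_apply' _ _ _
  have hDq : ∀ j n, Ov X (D j n).q := by
    intro j n
    cases j with
    | zero => exact hb n
    | succ j =>
      rw [hD]
      exact hR1 _
  let ε : ℕ → Prop := fun n => (D (b n).k n).Holds []
  refine ⟨ε, fun θ hθ => ?_⟩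
  have hXδ : ∀ x < δ, x ∈ X := fun x hx => (hX.init x (hx.trans hX.lt)).2 hx
  let R : Ordinal.{0} → (Ordinal.{0} → Ordinal.{0}) → Ordinal.{0} → Prop := fun i g ξ =>
    ξ < δ ∧ (∀ j < i, g j < ξ) ∧ ∀ n (l : List Ordinal.{0}), l.Pairwise (· < ·) →
      (∀ x ∈ l, x < i) → l.length < (b n).k →
        ((D ((b n).k - l.length - 1) n).Holds (l.map g ++ [ξ]) ↔ ε n)
  have hall : ∀ i g, (∀ j < i, R j g (g j)) → ∀ n (l : List Ordinal.{0}), l.Pairwise (· < ·) →
      (∀ x ∈ l, x < i) → l.length ≤ (b n).k →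
        ((D ((b n).k - l.length) n).Holds (l.map g) ↔ ε n) := by
    intro i g h n l hl1 hl2 hl3
    induction l using List.reverseRecOn with
    | nil => exact Iff.rfl
    | append_singleton l a _ =>
      rw [List.pairwise_append] at hl1
      rw [List.length_append, List.length_singleton] at hl3 ⊢
      have h1 := (h a (hl2 a (by simp))).2.2 n l hl1.1 (fun x hx => hl1.2.2 x hx a (by simp))
        (by omega)
      rw [List.map_append, List.map_singleton, ← Nat.sub_sub]
      exact h1
  obtain ⟨g, hg⟩ := hom_rec θ R (by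
    rintro i g g' ξ hgg ⟨h1, h2, h3⟩
    refine ⟨h1, fun j hj => by rw [← hgg j hj]; exact h2 j hj, fun n l hl1 hl2 hl3 => ?_⟩
    have h4 : l.map g' = l.map g := List.map_congr_left fun x hx => (hgg x (hl2 x hx)).symm
    rw [h4]
    exact h3 n l hl1 hl2 hl3) (by
    intro i hi g h
    have hgδ : ∀ j < i, g j < δ := fun j hj => (h j hj).1
    have hmap : ∀ l : List Ordinal.{0}, (∀ x ∈ l, x < i) → ∀ y ∈ l.map g, y < δ := by
      intro l hl y hy
      obtain ⟨x, hx, rfl⟩ := List.mem_map.1 hy
      exact hgδ x (hl x hx)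
    have hic : Countable ↥(Iio i) := (hθ.mono (Iio_subset_Iio hi.le)).to_subtype
    -- the facts
    let J := ↥(Iio i) ⊕ {p : ℕ × List ↥(Iio i) // p.2.length < (b p.1).k ∧ p.2.Pairwise (· < ·)}
    let A : J → UF := fun p => match p with
      | Sum.inl j => ⟨Fm.top, [0], 1, true, [g j], []⟩
      | Sum.inr p => ⟨(D ((b p.1.1).k - p.1.2.length - 1) p.1.1).φ,
          (D ((b p.1.1).k - p.1.2.length - 1) p.1.1).f,
          (D ((b p.1.1).k - p.1.2.length - 1) p.1.1).v, decide (ε p.1.1),
          (p.1.2.map Subtype.val).map g, (D ((b p.1.1).k - p.1.2.length - 1) p.1.1).q⟩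
    have hAX : ∀ p, Ov X (A p).l1 ∧ Ov X (A p).l2 := by
      rintro (j | p)
      · refine ⟨fun x hx => ?_, fun x hx => by simp [A] at hx⟩
        have : x = g j := List.mem_singleton.1 hx
        rw [this]
        exact hXδ _ (hgδ j j.2)
      · refine ⟨fun x hx => hXδ x (hmap _ ?_ x hx), hDq _ _⟩
        intro y hy
        obtain ⟨z, _, rfl⟩ := List.mem_map.1 hy
        exact z.2
    have hA1 : ∀ (j : ↥(Iio i)) ξ, (A (Sum.inl j)).Holds ξ ↔ g j < ξ := by
      intro j ξ
      show (FctP FO Fm.top [0] 1 ([g j] ++ ξ :: []) ↔ true = true) ↔ _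
      rw [hom_ltF]
      simp
    have hA2 : ∀ (p : {p : ℕ × List ↥(Iio i) // p.2.length < (b p.1).k ∧ p.2.Pairwise (· < ·)}) ξ,
        (A (Sum.inr p)).Holds ξ ↔
          ((D ((b p.1.1).k - p.1.2.length - 1) p.1.1).Holds
            ((p.1.2.map Subtype.val).map g ++ [ξ]) ↔ ε p.1.1) := by
      intro p ξ
      show (FctP FO _ _ _ ((p.1.2.map Subtype.val).map g ++ ξ :: _) ↔ decide (ε p.1.1) = true) ↔ _
      unfold HC.Holds
      rw [List.append_assoc, decide_eq_true_iff]
      rfl
    have hAδ : ∀ p, (A p).Holds δ := by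
      rintro (j | p)
      · rw [hA1]
        exact hgδ j j.2
      · rw [hA2]
        have hl2 : ∀ x ∈ p.1.2.map Subtype.val, x < i := by
          intro y hy
          obtain ⟨z, _, rfl⟩ := List.mem_map.1 hy
          exact z.2
        have hl1 : (p.1.2.map Subtype.val).Pairwise (· < ·) := by
          rw [List.pairwise_map]
          exact p.2.2
        rw [← hdv _ _ (hmap _ hl2), ← hD]
        have h1 := hall i g h p.1.1 (p.1.2.map Subtype.val) hl1 hl2
          (by rw [List.length_map]; exact p.2.1.le)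
        rw [List.length_map] at h1
        have h2 : (b p.1.1).k - p.1.2.length - 1 + 1 = (b p.1.1).k - p.1.2.length := by
          have := p.2.1
          omega
        rw [h2]
        exact h1
    have hfin : ∀ ξ, ξ < δ → (∀ p, (A p).Holds ξ) → R i g ξ := by
      intro ξ hξ hp
      refine ⟨hξ, fun j hj => (hA1 ⟨j, hj⟩ ξ).1 (hp (Sum.inl ⟨j, hj⟩)),
        fun n l hl1 hl2 hl3 => ?_⟩
      obtain ⟨l', rfl⟩ : ∃ l' : List ↥(Iio i), l'.map Subtype.val = l := by
        clear hl1 hl3
        induction l with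
        | nil => exact ⟨[], rfl⟩
        | cons a l ih =>
          obtain ⟨l', hl'⟩ := ih fun x hx => hl2 x (List.mem_cons_of_mem _ hx)
          exact ⟨⟨a, hl2 a List.mem_cons_self⟩ :: l', by rw [List.map_cons, hl']⟩
      rw [List.length_map] at hl3 ⊢
      have hl4 : l'.Pairwise (· < ·) := by
        rw [List.pairwise_map] at hl1
        exact hl1
      exact (hA2 ⟨(n, l'), hl3, hl4⟩ ξ).1 (hp (Sum.inr ⟨(n, l'), hl3, hl4⟩))
    rcases isEmpty_or_nonempty J with hJ | hJ
    · exact ⟨0, hfin 0 hX.pos fun p => (hJ.false p).elim⟩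
    · obtain ⟨e, he⟩ := exists_surjective_nat J
      obtain ⟨ξ, h1, h2, h3⟩ := hX.wcl (fun m => A (e m)) (fun m => hAX _) δ (fun m => hAδ _)
      refine ⟨ξ, hfin ξ ?_ fun p => ?_⟩
      · refine lt_of_le_of_ne h1 ?_
        rintro rfl
        exact lt_irrefl _ ((hX.init _ hX.lt).1 h2)
      · obtain ⟨m, rfl⟩ := he p
        exact h3 m)
  refine ⟨g, fun i j hij hj => (hg j hj).2.1 i hij, fun i hi => (hg i hi).1, ?_⟩
  intro n l hl1 hl2 hl3
  have h1 := hall θ g hg n l hl1 hl2 hl3.le
  rw [hl3, Nat.sub_self] at h1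
  exact h1

end MP2900
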