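import Pool.Agent.Lib.MP_2900b9_lc.C.Basic

/-!
Module KOrd: the multiples of `ω ^ ω` (pure ordinal arithmetic).

* muR_dvd: `MuR (· < ·) n ξ ↔ ω ^ n ∣ ξ`, induction on `n`. (→) write `ξ = ω ^ (n+1) * q + r`, `r < ω ^ (n+1)` (`Ordinal.div_add_mod`); by IH `ω^n ∣ ξ` (if `MuR (n+1) ξ` then `MuR n ξ`: limit of multiples of `ω^(n-1)`..., or directly): if `r ≠ 0`, then, `r < ω^n * k` for some `k : ℕ`; let `k` be such that
  `ω^n * k ≤ r` is largest; the condition for `a = ω^(n+1) * q + ω^n * k` if `a < ξ` gives `b` with `a < b < ξ`, `b = ω^n * c`, but there is no multiple of `ω^n` in `(ω^n * (ω q + k), ω^n * (ω q + k + 1))`; if `a = ξ` and `k ≥ 1` use `a' = ω^(n+1) q + ω^n (k-1)`: no multiple of `ω^n` strictly between `a'` and `ξ`.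
  (←) `ξ = ω^(n+1) * q = ω^n * (ω * q)`: for `a < ξ`, `a < ω^n * c` with `c < ω * q` (limit or 0), so `b = ω^n * (c+1)`. Only one direction of each may be needed; you may use any other route.
* Kc_closed: `Kc k` gives `ω^n ∣ k` for all `n`; write `k = ω^ω * q + r`, `r < ω^ω`, so `r < ω^n` for some `n`, and `ω^n ∣ r`, so `r = 0`. `ζ < ω^ω * q`: `ζ = ω^ω * q' + r'` with `q' < q`, `r' < ω^m`. `ω * 2 * (ζ + 3) = ω * 2 * ω^ω * q' + ω * 2 * (r' + 3) = ω^ω * q' + ω*2*(r'+3)` and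
  `ω * 2 * (r' + 3) < ω^(m+2) ≤ ω^ω` (`ω * 2 * ω^ω = ω^ω`: `ω * 2 * ω^ω ≤ ω^2 * ω^ω = ω^(2+ω) = ω^ω`), so the value is `< ω^ω * (q'+1) ≤ k`.
* exists_Kc: `k = ω^ω * (θ + 1)`; `Iio k` is countable (product of countable ordinals; `Ordinal.card_mul`, `card_opow_omega0..` or `Set.countable` via cardinals: `Ctb ξ ↔ ξ.card ≤ ℵ₀`), Kc by muR_dvd (`ω^n ∣ ω^ω`).
* Kc_ord: for an uncountable cardinal `c`, `c.ord` is closed under ordinal multiplication and addition for smaller ordinals; show `MuR n c.ord` by: for `a < c.ord`, `b = ω^n * (a + 1)` is `> a`, of cardinality `≤ max ℵ₀ a.card < c`, so `< c.ord`, and `MuR n b` by muR_dvd.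
* ctb facts: `Ctb` is closed under `+`, `*`, successor, and finite suprema; `ctb_iff : Ctb ξ ↔ ξ.card ≤ ℵ₀`.
-/

set_option autoImplicit false

namespace MP2900

open Set Pool.Agent.Lib.MP_2900b9_lc

theorem ctb_iff (ξ : Ordinal.{0}) : Ctb ξ ↔ ξ.card ≤ Cardinal.aleph0 := by
  unfold Ctb
  rw [← Cardinal.le_aleph0_iff_set_countable, Cardinal.mk_Iio_ordinal, Cardinal.lift_le_aleph0]

theorem ctb_mono {ξ ξ' : Ordinal.{0}} (h : ξ ≤ ξ') (h' : Ctb ξ') : Ctb ξ :=
  Set.Countable.mono (Iio_subset_Iio h) h'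

theorem ctb_add {ξ ξ' : Ordinal.{0}} (h : Ctb ξ) (h' : Ctb ξ') : Ctb (ξ + ξ') := by
  rw [ctb_iff] at *
  rw [Ordinal.card_add]
  exact Cardinal.add_le_aleph0.2 ⟨h, h'⟩

theorem ctb_mul {ξ ξ' : Ordinal.{0}} (h : Ctb ξ) (h' : Ctb ξ') : Ctb (ξ * ξ') := by
  rw [ctb_iff] at *
  rw [Ordinal.card_mul]
  exact (mul_le_mul' h h').trans (by simp)

theorem ctb_omega : Ctb Ordinal.omega0 := by
  rw [ctb_iff, Ordinal.card_omega0]

theorem ctb_nat (n : ℕ) : Ctb n := by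
  rw [ctb_iff, Ordinal.card_nat]
  exact (Cardinal.natCast_lt_aleph0).le

theorem ctb_sup {S : Set Ordinal.{0}} (hS : S.Countable) (h : ∀ x ∈ S, Ctb x) :
    ∃ θ, Ctb θ ∧ ∀ x ∈ S, x ≤ θ := by
  have hc := hS.to_subtype
  have hb : BddAbove S := by
    have : Small.{0} S := inferInstance
    exact Ordinal.bddAbove_of_small
  refine ⟨sSup S, ?_, fun x hx => le_csSup hb hx⟩
  rcases S.eq_empty_or_nonempty with rfl | hne
  · have : sSup (∅ : Set Ordinal.{0}) = 0 := by simp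
    rw [this]
    unfold Ctb
    simp
  · have h1 : Iio (sSup S) ⊆ ⋃ x ∈ S, Iio x := by
      intro y hy
      obtain ⟨x, hx, hyx⟩ := exists_lt_of_lt_csSup hne hy
      exact mem_iUnion₂.2 ⟨x, hx, hyx⟩
    exact (hS.biUnion h).mono h1

private theorem omega_pow_pos (n : ℕ) : 0 < (Ordinal.omega0.{0}) ^ n :=
  pow_pos Ordinal.omega0_pos n

theorem muR_dvd (n : ℕ) (ξ : Ordinal.{0}) :
    MuR (· < ·) n ξ ↔ Ordinal.omega0 ^ n ∣ ξ := by
  induction n generalizing ξ with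
  | zero => simp [MuR]
  | succ n ih =>
    have hw : (Ordinal.omega0.{0}) ^ n ≠ 0 := (omega_pow_pos n).ne'
    rw [MuR]
    constructor
    · intro h
      have h0 : Ordinal.omega0 ^ n ∣ ξ := by
        by_contra hnd
        have h1 : Ordinal.omega0 ^ n * (ξ / Ordinal.omega0 ^ n) < ξ := by
          refine lt_of_le_of_ne (Ordinal.mul_div_le _ _) fun he => hnd ⟨_, he.symm⟩
        obtain ⟨b, hb1, hb2, hb3⟩ := h _ h1
        obtain ⟨c, rfl⟩ := (ih b).1 hb3
        have h2 := (mul_lt_mul_iff_right₀ (omega_pow_pos n)).1 hb1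
        have h3 := Ordinal.lt_mul_succ_div ξ hw
        have h4 := (mul_lt_mul_iff_right₀ (omega_pow_pos n)).1 (hb2.trans h3)
        exact absurd h2 (not_lt.2 (Order.lt_succ_iff.1 h4))
      obtain ⟨d, rfl⟩ := h0
      rw [pow_succ]
      refine mul_dvd_mul_left _ ?_
      rw [← Ordinal.isSuccPrelimit_iff_omega0_dvd]
      intro a ha
      have h1 : Ordinal.omega0 ^ n * a < Ordinal.omega0 ^ n * d :=
        (mul_lt_mul_iff_right₀ (omega_pow_pos n)).2 ha.1
      obtain ⟨b, hb1, hb2, hb3⟩ := h _ h1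
      obtain ⟨c, rfl⟩ := (ih b).1 hb3
      exact ha.2 ((mul_lt_mul_iff_right₀ (omega_pow_pos n)).1 hb1)
        ((mul_lt_mul_iff_right₀ (omega_pow_pos n)).1 hb2)
    · rintro ⟨q, rfl⟩ a ha
      rw [pow_succ, mul_assoc] at ha ⊢
      have h1 : a / Ordinal.omega0 ^ n < Ordinal.omega0 * q := (Ordinal.lt_mul_iff_div_lt hw).1 ha
      have h2 : Order.IsSuccPrelimit (Ordinal.omega0 * q) :=
        Ordinal.isSuccPrelimit_iff_omega0_dvd.2 ⟨q, rfl⟩
      refine ⟨Ordinal.omega0 ^ n * Order.succ (a / Ordinal.omega0 ^ n),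
        Ordinal.lt_mul_succ_div a hw, ?_, (ih _).2 ⟨_, rfl⟩⟩
      exact (mul_lt_mul_iff_right₀ (omega_pow_pos n)).2 (h2.succ_lt h1)

private theorem pow_dvd_ww (n : ℕ) :
    (Ordinal.omega0.{0}) ^ n ∣ Ordinal.omega0 ^ Ordinal.omega0 := by
  have h := Ordinal.opow_dvd_opow Ordinal.omega0.{0} (Ordinal.natCast_lt_omega0 n).le
  rwa [Ordinal.opow_natCast] at h

private theorem ww_pos : 0 < (Ordinal.omega0.{0}) ^ (Ordinal.omega0.{0}) :=
  Ordinal.opow_pos _ Ordinal.omega0_pos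

theorem kc_dvd {k : Ordinal.{0}} (hk : Kc k) : Ordinal.omega0 ^ Ordinal.omega0.{0} ∣ k := by
  have h0 := Ordinal.div_add_mod k (Ordinal.omega0 ^ Ordinal.omega0.{0})
  have h1 : k % (Ordinal.omega0 ^ Ordinal.omega0.{0}) < _ := Ordinal.mod_lt k ww_pos.ne'
  obtain ⟨c, hc, hlt⟩ := (Ordinal.lt_opow_of_isSuccLimit Ordinal.omega0_ne_zero
    Ordinal.isSuccLimit_omega0).1 h1
  obtain ⟨n, rfl⟩ := Ordinal.lt_omega0.1 hc
  rw [Ordinal.opow_natCast] at hlt
  have h2 : Ordinal.omega0 ^ n ∣ k := (muR_dvd n k).1 (hk n)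
  have h3 : Ordinal.omega0 ^ n ∣ k % (Ordinal.omega0 ^ Ordinal.omega0.{0}) := by
    rw [← h0] at h2
    exact (Ordinal.dvd_add_iff ((pow_dvd_ww n).trans (dvd_mul_right _ _))).1 h2
  have h4 : k % (Ordinal.omega0 ^ Ordinal.omega0.{0}) = 0 := by
    by_contra hne
    exact absurd hlt (not_lt.2 (Ordinal.le_of_dvd hne h3))
  exact Ordinal.dvd_of_mod_eq_zero h4

theorem Kc_closed {k ζ : Ordinal.{0}} (hk : Kc k) (h : ζ < k) :
    Ordinal.omega0 * 2 * (ζ + 3) < k := by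
  obtain ⟨q, rfl⟩ := kc_dvd hk
  set W := Ordinal.omega0 ^ Ordinal.omega0.{0} with hW
  have hWe : W = Ordinal.omega0 ^ Ordinal.omega0 ^ (1 : Ordinal.{0}) := by
    rw [hW, Ordinal.opow_one]
  have hpm : Ordinal.IsPrincipal (· * ·) W := by
    rw [hWe]
    exact Ordinal.isPrincipal_mul_omega0_opow_opow 1
  have hpa : Ordinal.IsPrincipal (· + ·) W := Ordinal.isPrincipal_add_omega0_opow _
  have hWp : 0 < W := ww_pos
  have hwW : Ordinal.omega0 < W := by
    have h1 : Ordinal.omega0 ^ (1 : Ordinal.{0}) < W :=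
      (Ordinal.opow_lt_opow_iff_right Ordinal.one_lt_omega0).2 Ordinal.one_lt_omega0
    rwa [Ordinal.opow_one] at h1
  have hnW : ∀ n : ℕ, (n : Ordinal.{0}) < W := fun n => (Ordinal.natCast_lt_omega0 n).trans hwW
  have h2W : Ordinal.omega0 * 2 < W := hpm hwW (by exact_mod_cast hnW 2)
  have hmW : Ordinal.omega0 * 2 * W = W := by
    have h1 := Ordinal.mul_omega0_opow_opow (a := Ordinal.omega0 * 2) (b := 1)
      (by
        refine mul_pos Ordinal.omega0_pos ?_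
        norm_num) (by rw [← hWe]; exact h2W)
    rwa [← hWe] at h1
  have h0 := Ordinal.div_add_mod ζ W
  have h1 : ζ % W < W := Ordinal.mod_lt ζ hWp.ne'
  have h2 : ζ / W < q := (Ordinal.lt_mul_iff_div_lt hWp.ne').1 h
  have h3 : ζ % W + 3 < W := hpa h1 (by exact_mod_cast hnW 3)
  have h4 : Ordinal.omega0 * 2 * (ζ % W + 3) < W := hpm h2W h3
  have h5 : Ordinal.omega0 * 2 * (ζ + 3) =
      W * (ζ / W) + Ordinal.omega0 * 2 * (ζ % W + 3) := by
    conv_lhs => rw [← h0]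
    rw [add_assoc, mul_add, ← mul_assoc, hmW]
  rw [h5]
  calc W * (ζ / W) + Ordinal.omega0 * 2 * (ζ % W + 3)
      < W * (ζ / W) + W := (add_lt_add_iff_left _).2 h4
    _ = W * Order.succ (ζ / W) := (Ordinal.mul_succ _ _).symm
    _ ≤ W * q := mul_le_mul_right (Order.succ_le_of_lt h2) W

theorem exists_Kc {θ : Ordinal.{0}} (hθ : Ctb θ) : ∃ k, Ctb k ∧ Kc k ∧ θ < k := by
  refine ⟨Ordinal.omega0 ^ Ordinal.omega0.{0} * (θ + 1), ?_, ?_, ?_⟩
  · refine ctb_mul ?_ (ctb_add hθ ?_)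
    · rw [ctb_iff, Ordinal.card_omega0_opow Ordinal.omega0_ne_zero, Ordinal.card_omega0]
      simp
    · exact_mod_cast ctb_nat 1
  · intro n
    rw [muR_dvd]
    exact (pow_dvd_ww n).trans (dvd_mul_right _ _)
  · exact (lt_add_one θ).trans_le (Ordinal.le_mul_right _ ww_pos)

theorem Kc_ord {c : Cardinal.{0}} (hc : Cardinal.aleph0 < c) : Kc c.ord := by
  intro n
  cases n with
  | zero => simp [MuR]
  | succ n =>
    rw [MuR]
    intro a ha
    refine ⟨Ordinal.omega0 ^ n * (a + 1), ?_, ?_, (muR_dvd n _).2 ⟨_, rfl⟩⟩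
    · exact (lt_add_one a).trans_le (Ordinal.le_mul_right _ (omega_pow_pos n))
    · have ha' : a.card < c := Cardinal.lt_ord.1 ha
      rw [Cardinal.lt_ord, Ordinal.card_mul]
      have h1 : (Ordinal.omega0.{0} ^ n).card ≤ Cardinal.aleph0 := by
        rw [← ctb_iff]
        induction n with
        | zero => exact_mod_cast ctb_nat 1
        | succ n ih =>
          rw [pow_succ]
          exact ctb_mul ih ctb_omega
      have h2 : (a + 1).card < c := by
        rw [Ordinal.card_add, Ordinal.card_one]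
        exact Cardinal.add_lt_of_lt hc.le ha' (Cardinal.one_lt_aleph0.trans hc)
      exact Cardinal.mul_lt_of_lt hc.le (h1.trans_lt hc) h2

end MP2900
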