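import Pool.Agent.Lib.MP_2900b9_lc.C.Rank

/-!
Module TreeRk: trees of arbitrary countable rank.

Let `ρ` be countable, and let `e : ℕ → Ordinal` have range `Iio (ρ + 1)` or (if you prefer) let `e` be a function with `Iio ρ ⊆ range e` (`ρ = 0`: the empty tree `t = 0` works). Node `j` is in the tree iff its sequence `nd j = (k_1, .., k_m)` satisfies
`ρ > e k_1 > e k_2 > ... > e k_m`. Define `h j := ` the ordinal `e k_m` of the last element (`ρ` for the root). By induction on the ordinal, for node `j` of the tree, `LR (relX t) ξ j ↔ h j ≤ ξ`: the children of `j` in the tree are the `chd j k` with `e k < h j`. So `rk (relX t) j = h j`.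
-/

set_option autoImplicit false

namespace MP2900

open Set Pool.Agent.Lib.MP_2900b9_lc

theorem exists_treeRk (ρ : Ordinal.{0}) (hρ : Ctb ρ) :
    ∃ t : ℕ → ℕ, Acc (relX t) 0 ∧ rk (relX t) 0 = ρ := by
  classical
  obtain ⟨e, he⟩ := Set.countable_iff_exists_subset_range.1 hρ
  set h : ℕ → Ordinal.{0} := fun j => if j = 0 then ρ else e (Nat.unpair (j - 1)).1 with hh
  have h0 : h 0 = ρ := by simp [hh]
  have hc : ∀ i k, h (chd i k) = e k := by
    intro i k
    have h1 : chd i k ≠ 0 := Nat.succ_ne_zero _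
    have h2 : chd i k - 1 = Nat.pair k i := rfl
    simp only [hh]
    rw [if_neg h1, h2, Nat.unpair_pair]
  set t : ℕ → ℕ := fun n => if h (n / 2) < h (par (n / 2)) then 1 else 0 with ht
  have hrel : ∀ j i, relX t j i ↔ 1 ≤ j ∧ par j = i ∧ h j < h i := by
    intro j i
    unfold relX
    have h1 : 2 * j / 2 = j := by omega
    constructor
    · rintro ⟨h2, h3, h4⟩
      refine ⟨h2, h3, ?_⟩
      by_contra h5
      apply h4
      simp only [ht]
      rw [h1, if_neg (by rw [h3]; exact h5)]
    · rintro ⟨h2, h3, h4⟩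
      refine ⟨h2, h3, ?_⟩
      simp only [ht]
      rw [h1, if_pos (by rw [h3]; exact h4)]
      exact one_ne_zero
  have key : ∀ ξ : Ordinal.{0}, ∀ i, h i = ξ → ξ ≤ ρ →
      LR (relX t) ξ i ∧ rk (relX t) i = ξ := by
    intro ξ
    induction ξ using WellFoundedLT.induction with
    | _ ξ ih =>
      intro i hi hξ
      have h1 : LR (relX t) ξ i := by
        rw [LR_iff]
        intro j hj
        obtain ⟨h2, h3, h4⟩ := (hrel j i).1 hj
        rw [hi] at h4
        exact ⟨h j, h4, (ih (h j) h4 j rfl (h4.le.trans hξ)).1⟩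
      refine ⟨h1, le_antisymm (rk_le h1) ?_⟩
      by_contra hlt
      rw [not_le] at hlt
      obtain ⟨k, hk⟩ := he (mem_Iio.2 (hlt.trans_le hξ))
      have h5 : relX t (chd i k) i :=
        (hrel _ _).2 ⟨one_le_chd i k, par_chd i k, by rw [hc, hk, hi]; exact hlt⟩
      have h6 := (ih _ hlt (chd i k) (by rw [hc, hk]) (hlt.le.trans hξ)).2
      have h7 := rk_lt ⟨ξ, h1⟩ h5
      rw [h6] at h7
      exact lt_irrefl _ h7
  have h1 := key ρ 0 h0 le_rfl
  exact ⟨t, LR_acc h1.1, h1.2⟩

end MP2900
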