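import Pool.Agent.Lib.MP_2900b9_lc.C.WFna
import Pool.Agent.Lib.MP_2900b9_lc.C.TreeRk
import Pool.Agent.Lib.MP_2900b9_lc.C.ASim
import Pool.Agent.Lib.MP_2900b9_lc.C.AClop

/-!
Module RelBdd: boundedness for arbitrary measurable families of relations.

`N' := {t | ∃ z ∈ N, Sim (relX t) 0 (R z) a}` is analytic: the set of pairs `(t, z)` with `z ∈ N` (preimage of an analytic set under the continuous projection: `AnalyticSet.preimage`) and `Sim ..` (analytic_sim on the product, measurability of `relX` by clopen_relX) is analytic, and `N'` is its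
image under the first projection. By sim_iff all `t ∈ N'` are accessible at 0. wf_bounded gives `θ`. For `z ∈ N` the rank `ρ = rk (R z) a` is countable (ctb_rk), so there is `t` of rank `ρ` (exists_treeRk), `t ∈ N'` by sim_iff, so `ρ ≤ θ`.
-/

set_option autoImplicit false

namespace MP2900

open Set Pool.Agent.Lib.MP_2900b9_lc

open Topology MeasureTheory

private theorem inter_an {α : Type*} [TopologicalSpace α] [T2Space α] {s t : Set α}
    (hs : AnalyticSet s) (ht : AnalyticSet t) : AnalyticSet (s ∩ t) := by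
  rw [Set.inter_eq_iInter]
  apply AnalyticSet.iInter
  intro b
  cases b
  · exact ht
  · exact hs

theorem rel_bounded {ι : Type} [Countable ι] (R : (ℕ → ℕ) → ι → ι → Prop)
    (hR : ∀ i j, MeasurableSet {z | R z i j}) (a : ι) {N : Set (ℕ → ℕ)} (hN : AnalyticSet N)
    (h : ∀ z ∈ N, Acc (R z) a) : ∃ θ, Ctb θ ∧ ∀ z ∈ N, rk (R z) a ≤ θ := by
  have h1 : AnalyticSet {w : (ℕ → ℕ) × (ℕ → ℕ) | Sim (relX w.1) 0 (R w.2) a} :=
    analytic_sim (fun w : (ℕ → ℕ) × (ℕ → ℕ) => relX w.1) (fun w => R w.2)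
      (fun i j => measurable_fst (clopen_relX i j).isOpen.measurableSet)
      (fun i j => measurable_snd (hR i j)) 0 a
  have h2 : AnalyticSet {w : (ℕ → ℕ) × (ℕ → ℕ) | w.2 ∈ N} := hN.preimage continuous_snd
  have h3 := (inter_an h2 h1).image_of_continuous continuous_fst
  have h4 : ∀ t ∈ Prod.fst '' ({w : (ℕ → ℕ) × (ℕ → ℕ) | w.2 ∈ N} ∩
      {w : (ℕ → ℕ) × (ℕ → ℕ) | Sim (relX w.1) 0 (R w.2) a}), Acc (relX t) 0 := by
    rintro t ⟨⟨t', z⟩, ⟨hz, hs⟩, rfl⟩
    exact ((sim_iff (h z hz)).1 hs).1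
  obtain ⟨θ, hθ, h5⟩ := wf_bounded h3 h4
  refine ⟨θ, hθ, fun z hz => ?_⟩
  obtain ⟨t, ht, hrk⟩ := exists_treeRk _ (ctb_rk (R z) a)
  have h6 : Sim (relX t) 0 (R z) a := (sim_iff (h z hz)).2 ⟨ht, hrk.le⟩
  have h7 := h5 t ⟨(t, z), ⟨hz, h6⟩, rfl⟩
  rw [← hrk]
  exact h7

end MP2900
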