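import Pool.Agent.Lib.MP_2900b9_lc.C.EOnto
import Pool.Agent.Lib.MP_2900b9_lc.C.EConv
import Pool.Agent.Lib.MP_2900b9_lc.C.EMeas
import Pool.Agent.Lib.MP_2900b9_lc.C.RelBdd
import Pool.Agent.Lib.MP_2900b9_lc.C.KOrd

/-!
Module JBdd: (F2) the allowed tree ranks `JO γ` are bounded in `ω₁`, from the perfect set property.

Let `γ` be countable, `tm` from exists_tm, `E = Eset tm γ`. By eset_ce and ce_eset, `E = {z | z ∈ Bo ∧ Acc (relZ z) none ∧ CE tm γ z}`, so `Eᶜ` is analytic (meas_Bo, meas_CE, analytic_not_acc with clopen_relZ).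
Claim: `E` is countable. Otherwise perfect_set_property (from the file PSP.lean, hypothesis hcomp is literally the same) gives a continuous injective `e : (ℕ → Bool) → (ℕ → ℕ)` with values in `E`. Its range is analytic (compact image / `analyticSet_range_of_polishSpace`), all its elements are accessible, so rel_bounded (relZ, none) gives a countable `θ` bounding the
heights. But `{z ∈ E | rk (relZ z) none ≤ θ}` is contained in the image of the countable set `{(μ, p) | μ ≤ θ, p ≤ μ entrywise}` under `(μ, p) ↦ cod (Fg (gmp tm μ p))` (rk_eset), so countable, while the range of `e` is uncountable. Contradiction.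
So the set `{μ | ∃ p, Full γ p μ}` is countable (for each such `μ`, `cod (Fg (gmp tm μ p)) ∈ E` has height `μ + 2`, so `μ ↦` is injective into a countable set: the set is contained in `{μ | μ + 2 ∈ (fun z => rk (relZ z) none) '' E}`), its members are countable (full_ctb), so bounded by a countable `θ₀` (ctb_sup). Let `k` be countable, `Kc k`,
`θ₀ < k` (exists_Kc). If `JO γ η` and `k < η` (so `η ≠ 0`), then `μ ≤ θ₀ < k ≤ η` for some `Full γ p μ` with no element of K in `(μ, η]`, contradiction. So `η ≤ k`.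
-/

set_option autoImplicit false

namespace MP2900

open Set Pool.Agent.Lib.MP_2900b9_lc

open Topology MeasureTheory

private theorem jb_union {α : Type*} [TopologicalSpace α] {s t : Set α}
    (hs : AnalyticSet s) (ht : AnalyticSet t) : AnalyticSet (s ∪ t) := by
  rw [Set.union_eq_iUnion]
  apply AnalyticSet.iUnion
  intro b
  cases b
  · exact ht
  · exact hs

private theorem jb_cantor : ¬ Countable (ℕ → Bool) := by
  intro h
  obtain ⟨f, hf⟩ := exists_surjective_nat (ℕ → Bool)
  obtain ⟨n, hn⟩ := hf fun n => !(f n n)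
  have h1 := congrFun hn n
  simp at h1

private theorem jb_add_two {a b : Ordinal.{0}} (h : a + 2 = b + 2) : a = b := by
  have h1 : ∀ c : Ordinal.{0}, c + 2 = Order.succ (Order.succ c) := by
    intro c
    rw [Order.succ_eq_add_one, Order.succ_eq_add_one, add_assoc, one_add_one_eq_two]
  rw [h1, h1] at h
  exact Order.succ_injective (Order.succ_injective h)

theorem J_bounded [TP]
    (hcomp : ∀ A B : Set (ℕ → ℕ),
      AnalyticSet A → ¬ @MeasurableSet (ℕ → ℕ) (borel (ℕ → ℕ)) A →
      AnalyticSet B → ¬ @MeasurableSet (ℕ → ℕ) (borel (ℕ → ℕ)) B →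
      (∃ f : (ℕ → ℕ) → (ℕ → ℕ), Continuous f ∧ ∀ x, x ∈ B ↔ f x ∈ A) ∨
      (∃ f : (ℕ → ℕ) → (ℕ → ℕ), Continuous f ∧ ∀ x, x ∈ A ↔ f x ∈ B))
    (γ : Ordinal.{0}) (hγ : Ctb γ) : ∃ θ, Ctb θ ∧ ∀ η, JO γ η → η ≤ θ := by
  classical
  obtain ⟨tm, t1, t2⟩ := exists_tm hγ
  have hEc : AnalyticSet (Eset tm γ)ᶜ := by
    have h1 : (Eset tm γ)ᶜ = ((Bo : Set (ℕ → ℕ))ᶜ ∪ {z | ¬ Acc (relZ z) none}) ∪
        {z : ℕ → ℕ | CE tm γ z}ᶜ := by
      ext z
      simp only [mem_compl_iff, mem_union]
      constructor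
      · intro h
        by_contra h2
        rw [not_or, not_or, not_not, not_not] at h2
        obtain ⟨⟨h3, h4⟩, h5⟩ := h2
        have h4' : Acc (relZ z) none := by
          by_contra h6
          exact h4 h6
        exact h (ce_eset t1 h3 h4' h5)
      · intro h h2
        obtain ⟨h3, h4, h5⟩ := eset_ce t1 t2 h2
        rcases h with (h | h) | h
        · exact h h3
        · exact h h4
        · exact h h5
    rw [h1]
    refine jb_union (jb_union meas_Bo.compl.analyticSet ?_) (meas_CE hγ t1).compl.analyticSet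
    exact analytic_not_acc (fun z : ℕ → ℕ => relZ z)
      (fun i j => (clopen_relZ i j).isOpen.measurableSet) none
  have hEcount : (Eset tm γ).Countable := by
    by_contra hunc
    obtain ⟨e, he1, he2, he3⟩ := perfect_set_property hcomp hEc hunc
    have han : AnalyticSet (range e) := analyticSet_range_of_polishSpace he1
    obtain ⟨θ, hθ, hb⟩ := rel_bounded (fun z : ℕ → ℕ => relZ z)
      (fun i j => (clopen_relZ i j).isOpen.measurableSet) none han (by
        rintro _ ⟨α, rfl⟩
        exact (eset_ce t1 t2 (he3 α)).2.1)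
    have hA : (Iic θ).Countable := by
      have h1 : Iic θ = insert θ (Iio θ) := by
        ext x
        simp only [mem_Iic, mem_insert_iff, mem_Iio]
        exact le_iff_eq_or_lt
      rw [h1]
      exact Set.Countable.insert θ hθ
    have hAc : Countable (Iic θ) := hA
    have hsub : range e ⊆ range (fun q : (Iic θ) × List (Iic θ) =>
        cod (Fg (gmp tm q.1 (q.2.map Subtype.val)))) := by
      rintro _ ⟨α, rfl⟩
      obtain ⟨μ, p, hF, hz⟩ := he3 α
      have h1 : rk (relZ (e α)) none ≤ θ := hb _ ⟨α, rfl⟩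
      rw [hz, rk_eset t1 t2 hF] at h1
      have h2 : μ ≤ θ := le_self_add.trans h1
      have h3 : ∀ x ∈ p, x ∈ Iic θ := fun x hx => (hF.2.1 x hx).trans h2
      refine ⟨(⟨μ, h2⟩, p.attach.map fun x => ⟨x.1, h3 x.1 x.2⟩), ?_⟩
      have h4 : (p.attach.map fun x => (⟨x.1, h3 x.1 x.2⟩ : Iic θ)).map Subtype.val = p := by
        simp
      simp only [h4]
      exact hz.symm
    have h5 : (range e).Countable := (countable_range _).mono hsub
    have h6 : Countable (range e) := h5
    exact jb_cantor ((Equiv.ofInjective e he2).countable_iff.2 h6)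
  have hS : {μ : Ordinal.{0} | ∃ p, Full γ p μ}.Countable := by
    have h1 : ((fun z : ℕ → ℕ => rk (relZ z) none) '' (Eset tm γ)).Countable := hEcount.image _
    refine (h1.preimage_of_injOn (f := fun μ : Ordinal.{0} => μ + 2)
      (fun a _ b _ h => jb_add_two h)).mono ?_
    rintro μ ⟨p, hF⟩
    exact ⟨_, ⟨μ, p, hF, rfl⟩, rk_eset t1 t2 hF⟩
  obtain ⟨θ₀, hθ₀, hle⟩ := ctb_sup hS (fun μ hμ => by
    obtain ⟨p, hF⟩ := hμ
    exact full_ctb hγ hF)
  obtain ⟨k, hk1, hk2, hk3⟩ := exists_Kc hθ₀
  refine ⟨k, hk1, fun η hη => ?_⟩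
  rcases hη with rfl | ⟨μ, p, h1, h2, h3⟩
  · exact zero_le
  · by_contra hlt
    rw [not_le] at hlt
    exact h3 k ((hle μ ⟨p, h2⟩).trans_lt hk3) hlt.le hk2

end MP2900
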