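import Pool.Agent.Lib.MP_2900b9_lc.C.TTAux
import Pool.Agent.Lib.MP_2900b9_lc.C.TTAcc

/-!
Module TTHt: the height of the image is bounded by the rank of the tree of attempts.

Let `y = F (real b)`, `R = relZ y`, `g`, `a` from exists_aux. For a finite list `l` of natural numbers let `d_l : ℕ → ℕ` be `fun i => l.getD i 0` and `t_l = seg (atd g a d_l) l.length`. Let `last l = none` if `l = []` and `some` of the last element otherwise. Call `l` descending if `ltF (Fz y) l[i+1] l[i]` for all `i + 1 < l.length`.
Claim: if `l` is descending and `LR (EII F κ) ε (encA t_l)` then `LR R ε (last l)`. Induction on `ε`. A predecessor of `last l` in `R` is `some m` with `l' = l ++ [m]` descending. `t_{l'} = t_l ++ [entry]` (the first `l.length` entries agree), and `EII F κ (encA t_{l'}) (encA t_l)`: ordinals `g i < κ + ω`; `OKt F t_{l'}`: let `Rlv i N (ext t_{l'})`, `N = l'.length`; the sequences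
`ext t_{l'}` and `b* = atd g a d_{l'}` agree below `N` (ext_seg), so by rlv_congr and cnd_congr it is enough to show `Cnd F i b*`: tr, fn, wt by exists_aux; `ds j`: `j + 1 < N`, `ltF (Fz y) (l'[j+1]) (l'[j])`, and `Fz (fun k => (b* k).2.y) = Fz y`. So `LR (EII F κ) ε' (encA t_{l'})` with `ε' < ε`, induction hypothesis: `LR R ε' (some m)`.
For `l = []`: `LR R ξ none`, so `rk R none ≤ ξ` (rk_le). No accessibility hypothesis is needed.
-/

set_option autoImplicit false

namespace MP2900

open Set Pool.Agent.Lib.MP_2900b9_lc

variable [TP]

theorem tt_height {F : (ℕ → ℕ) → ℕ → ℕ} {η κ' : Bool → Ordinal.{0}} (b : ℕ → Ent)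
    (hb : ∀ n, Val η κ' (seg b n)) {κ : Ordinal.{0}} (hη : η true = κ + Ordinal.omega0)
    (hr : range (fun i => (b i).g true) = Iio (κ + Ordinal.omega0)) {ξ : Ordinal.{0}}
    (hξ : LR (EII F κ) ξ (encA [])) : rk (relZ (F (real b))) none ≤ ξ := by
  obtain ⟨a, ha⟩ := exists_aux F b hb hη hr
  set g : ℕ → Ordinal.{0} := fun i => (b i).g true with hg
  set y : ℕ → ℕ := F (real b) with hy
  let B : List ℕ → ℕ → At := fun l => atd g a fun i => l.getD i 0
  let T : List ℕ → List At := fun l => seg (B l) l.length
  have hBy : ∀ l, (fun k => (B l k).2.y) = y := by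
    intro l
    funext k
    exact (ha fun i => l.getD i 0).2.2.2 k
  have hgl : ∀ i, g i < κ + Ordinal.omega0 := by
    intro i
    have h1 : g i ∈ range g := ⟨i, rfl⟩
    rw [hr] at h1
    exact h1
  have key : ∀ ε : Ordinal.{0}, ∀ l : List ℕ,
      (∀ i, i + 1 < l.length → ltF (Fz y) (l.getD (i + 1) 0) (l.getD i 0)) →
      LR (EII F κ) ε (encA (T l)) → LR (relZ y) ε l.getLast? := by
    intro ε
    induction ε using WellFoundedLT.induction with
    | _ ε ih =>
      intro l hl hL
      rw [LR_iff]
      intro o ho
      cases o with
      | none => exact ho.elim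
      | some m =>
        have hd : ∀ i, i + 1 < (l ++ [m]).length →
            ltF (Fz y) ((l ++ [m]).getD (i + 1) 0) ((l ++ [m]).getD i 0) := by
          intro i hi
          rw [List.length_append, List.length_singleton] at hi
          rcases Nat.lt_succ_iff_lt_or_eq.1 hi with h | h
          · rw [List.getD_append _ _ _ _ h, List.getD_append _ _ _ _ (by omega)]
            exact hl i h
          · have e1 : (l ++ [m]).getD (i + 1) 0 = m := by
              rw [h, List.getD_append_right _ _ _ _ le_rfl, Nat.sub_self]
              rfl
            have e2 : (l ++ [m]).getD i 0 = l.getD i 0 := List.getD_append _ _ _ _ (by omega)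
            have e3 : l.getLast? = some (l.getD i 0) := by
              rw [List.getLast?_eq_getElem?, show l.length - 1 = i by omega,
                List.getD_eq_getElem?_getD, List.getElem?_eq_getElem (by omega)]
              rfl
            rw [e1, e2]
            rw [e3] at ho
            exact ho
        have hT : T (l ++ [m]) = T l ++ [B (l ++ [m]) l.length] := by
          show seg (B (l ++ [m])) (l ++ [m]).length = seg (B l) l.length ++ _
          rw [List.length_append, List.length_singleton, seg_succ]
          congr 1
          rw [seg_congr]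
          intro i hi
          have e : (l ++ [m]).getD i 0 = l.getD i 0 := List.getD_append _ _ _ _ hi
          show (g i, ({ a i with d := (l ++ [m]).getD i 0 } : Aux)) =
            (g i, ({ a i with d := l.getD i 0 } : Aux))
          rw [e]
        have hN : (T (l ++ [m])).length = (l ++ [m]).length := length_seg _ _
        have hagree : ∀ j < (l ++ [m]).length, ext (T (l ++ [m])) j = B (l ++ [m]) j :=
          fun j hj => ext_seg _ hj
        have hE : EII F κ (encA (T (l ++ [m]))) (encA (T l)) := by
          refine ⟨T l, B (l ++ [m]) l.length, by rw [hT], rfl, ?_, ?_⟩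
          · rw [← hT]
            intro x hx
            obtain ⟨i, -, rfl⟩ := List.mem_map.1 hx
            exact hgl i
          · rw [← hT]
            intro i hR
            rw [hN] at hR
            refine (cnd_congr hagree hR).2 ?_
            have hR' := (rlv_congr hagree).1 hR
            have hh := ha fun i => (l ++ [m]).getD i 0
            cases i with
            | tr j => exact hh.1 j
            | fn j => exact hh.2.1 j
            | wt j => exact hh.2.2.1 j
            | ds j =>
              show ltF (Fz fun k => (B (l ++ [m]) k).2.y) ((l ++ [m]).getD (j + 1) 0)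
                ((l ++ [m]).getD j 0)
              rw [hBy]
              exact hd j hR'.1
        obtain ⟨ε', hε', h1⟩ := (LR_iff _ _ _).1 hL _ hE
        refine ⟨ε', hε', ?_⟩
        have h2 := ih ε' hε' (l ++ [m]) hd h1
        rwa [List.getLast?_concat] at h2
  have h1 := key ξ [] (fun i hi => absurd hi (Nat.not_lt_zero _)) (by
    show LR (EII F κ) ξ (encA (seg (B []) 0))
    rw [seg_zero]
    exact hξ)
  exact rk_le h1

end MP2900
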