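import Pool.Agent.Lib.MP_2900b9_lc.C.KIIMain
import Pool.Agent.Lib.MP_2900b9_lc.C.TTHt

/-!
Module KeyII: the key property for the second reduction.

Let `Bdd (EII F κ) κ α`.. precisely `Bdd (EII F) κ α`, `Full κ p μ`, `0 < κ ≤ μ`. By tt_acc and Bdd (`encA []` has no ordinals) there is `ξ < α` with `LR (EII F κ) ξ (encA [])`. keyII_cond gives `ρ, c, n`. Let `b` be generic through `c` for gen_real (`η3 κ ρ`, `κ2 κ ρ`) and FPsi_sound (`G = F`, bound `θ = κ`; `dok`). `cmpt true (real b) = ev (real b)` is in `Vset` (tree rank `κ + ω` = height), so `real b ∈ Uset`,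
`y = F (real b) ∈ Aset`; `y ∈ Bo`, all elements of `relZ y` accessible (acc_none). tt_height: `rk (relZ y) none ≤ ξ`. Let `r = n.map (rk (ltF (Fz y)))`, of length `p.length + 1`, so `r = r0 ++ [ν']` with `r0.length = p.length`, and `ν' < rk (relZ y) none ≤ ξ < α` (rk_some, rk_lt).
For `s, s' < κ` with `x < x'` the minima for `(φ, s ++ p)`, `(φ', s' ++ p)` in height `μ + 1`: FPsi_sound gives `mm` with exact ranks `s ++ s'` and `FctP (Fz y) (cmpF ..) .. (mm ++ n)`; corr_Fct: `FctP FO (cmpF ..) .. ((s ++ s') ++ (r0 ++ [ν']))` (erk_iff', rk_some); fct_cmp': there are `x1 < x1'` with `IsMin ν' φ (s ++ r0) x1`, `IsMin ν' φ' (s' ++ r0) x1'`.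
For `ξ' ≤ μ` fix a name `(φ_ξ', s_ξ')` with `IsMin (μ+1) φ_ξ' (s_ξ' ++ p) ξ'` (Full). As `μ ≥ κ > 0` every `ξ' ≤ μ` occurs in a pair `ξ' < ζ` or `ζ < ξ'`, `ζ ≤ μ`; so there is a unique `x_ξ' < ν'` with `IsMin ν' φ_ξ' (s_ξ' ++ r0) x_ξ'` (isMin_unique) and `ξ' < ζ ≤ μ` implies `x_ξ' < x_ζ`. By induction `ξ' ≤ x_ξ'`, so `μ ≤ x_μ < ν' < α`.
-/

set_option autoImplicit false

namespace MP2900

open Set Pool.Agent.Lib.MP_2900b9_lc

open Topology

variable [TP]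

private theorem kii_unique {ν : Ordinal.{0}} {φ : Fm} {e : List Ordinal.{0}} {x y : Ordinal.{0}}
    (hx : IsMin ν φ e x) (hy : IsMin ν φ e y) : x = y := by
  rcases lt_trichotomy x y with h | h | h
  · exact absurd hx.2.1 (hy.2.2 x h)
  · exact h
  · exact absurd hy.2.1 (hx.2.2 y h)

private theorem kii_ranks {y : ℕ → ℕ} {q : List Ordinal.{0}} {mm : List ℕ}
    (h : List.Forall₂ (fun z m => ERk (relZ y) z (some m)) q mm) :
    mm.map (rk (ltF (Fz y))) = q := by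
  induction h with
  | nil => rfl
  | cons h1 _ ih =>
    rw [List.map_cons, ih, ← rk_some, (erk_iff'.1 h1).2]

theorem keyII {F : (ℕ → ℕ) → ℕ → ℕ} (hF : Continuous F)
    (hFU : ∀ w, w ∈ Uset ↔ F w ∈ Aset)
    (hJ : ∀ γ, Ctb γ → ∃ θ, Ctb θ ∧ ∀ η, JO γ η → η ≤ θ) : Key (EII F) := by
  intro κ α μ p hκ0 hκ hK hBdd hfull
  obtain ⟨ξ, hξα, hξ⟩ := hBdd (encA []) (by simp [encA]) (tt_acc hF hFU κ)
  obtain ⟨ρ, c, n, hρ, hρ0, hc, hn, hPsi⟩ := keyII_cond hF hFU hJ hκ0 hκ hK hfull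
  have hη3 : ∀ β, Ctb (η3 κ ρ β) := by
    intro β
    cases β
    · exact hρ
    · exact ctb_add hκ ctb_omega
  have hκ2 : ∀ β, Ctb (κ2 κ ρ β) := by
    intro β
    cases β
    · exact hρ
    · exact ctb_add hκ ctb_omega
  have hκ20 : ∀ β, 0 < κ2 κ ρ β := by
    intro β
    cases β
    · exact hρ0
    · exact hκ0.trans_le le_self_add
  obtain ⟨Q1, hQ1⟩ := gen_real hη3 hκ2 hκ20
  obtain ⟨Q2, hQ2⟩ := FPsi_sound (dok (η := η3 κ ρ) hκ20) hF hκ
  obtain ⟨Q, hQ⟩ := gen_and (V := Val (η3 κ ρ) (κ2 κ ρ)) Q1 Q2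
  obtain ⟨b, hb, hbc⟩ := gen_exists (fun _ h => val_ex hκ20 h) (fun _ _ h h' => val_pre h h') Q hc
  obtain ⟨hb1, hb2⟩ := hQ b hb
  obtain ⟨r1, r2, r3, r4, r5, r6⟩ := hQ1 b hb1 true
  have hU : real b ∈ Uset := Or.inl ⟨r1, r2, r4, by
    show rk (relX (cmpt true (real b))) 0 ≤ rk (relZ (cmpt true (real b))) none
    rw [r5, r3]
    exact le_rfl⟩
  obtain ⟨a1, a2, -, -⟩ := (hFU _).1 hU
  have hht : rk (relZ (F (real b))) none ≤ ξ := tt_height b hb.1 (η := η3 κ ρ) rfl r6 hξ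
  obtain ⟨n0, v, rfl⟩ : ∃ n0 v, n = n0 ++ [v] := by
    rcases List.eq_nil_or_concat n with h | ⟨L, w, h⟩
    · rw [h] at hn
      simp at hn
    · exact ⟨L, w, by rw [h, List.concat_eq_append]⟩
  have hn0 : (n0.map (rk (ltF (Fz (F (real b)))))).length = p.length := by
    rw [List.length_append, List.length_singleton] at hn
    rw [List.length_map]
    omega
  have hacc := (acc_none _).1 a2
  have hν : rk (ltF (Fz (F (real b)))) v < rk (relZ (F (real b))) none := by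
    rw [← rk_some]
    exact rk_lt (exists_LR a2) (show relZ (F (real b)) (some v) none from trivial)
  obtain ⟨ν', hν'⟩ : ∃ ν', ν' = rk (ltF (Fz (F (real b)))) v := ⟨_, rfl⟩
  obtain ⟨r0, hr0⟩ : ∃ r0, r0 = n0.map (rk (ltF (Fz (F (real b))))) := ⟨_, rfl⟩
  rw [← hr0] at hn0
  rw [← hν'] at hν
  have hpair : ∀ (φ φ' : Fm) (s s' : List Ordinal.{0}), (∀ x ∈ s, x < κ) → (∀ x ∈ s', x < κ) →
      ∀ x x', IsMin (μ + 1) φ (s ++ p) x → IsMin (μ + 1) φ' (s' ++ p) x' → x < x' →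
      ∃ x1 x1', IsMin ν' φ (s ++ r0) x1 ∧ IsMin ν' φ' (s' ++ r0) x1' ∧ x1 < x1' := by
    intro φ φ' s s' hs hs' x x' hx hx' hxx
    have h1 := hPsi φ φ' s s' hs hs' ⟨x, x', hx, hx', hxx⟩
    rw [← hbc] at h1
    obtain ⟨mm, h2, h3⟩ := hQ2 b hb2 _ _ _ _ _ _ (fun z hz => by
      rcases List.mem_append.1 hz with h | h
      · exact (hs z h).le
      · exact (hs' z h).le) h1
    rw [corr_Fct a1 _ _ _ (fun m _ => hacc m), List.map_append, List.map_append, kii_ranks h2,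
      List.map_singleton, ← hr0, ← hν'] at h3
    exact fct_cmp' hn0 h3
  obtain ⟨hκμ, -, hnm⟩ := hfull
  have hFm : Nonempty Fm := ⟨Fm.bot⟩
  choose! φf sf hsf hmf using hnm
  have hpr : ∀ ξ' ζ, ξ' < ζ → ζ ≤ μ → ∃ x1 x1', IsMin ν' (φf ξ') (sf ξ' ++ r0) x1 ∧
      IsMin ν' (φf ζ) (sf ζ ++ r0) x1' ∧ x1 < x1' := fun ξ' ζ h h' =>
    hpair _ _ _ _ (hsf ξ' (h.le.trans h')) (hsf ζ h') ξ' ζ (hmf ξ' (h.le.trans h')) (hmf ζ h') h
  have key : ∀ ξ', ξ' ≤ μ → ∀ x, IsMin ν' (φf ξ') (sf ξ' ++ r0) x → ξ' ≤ x := by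
    intro ξ'
    induction ξ' using WellFoundedLT.induction with
    | _ ξ' ih =>
      intro hξ' x hx
      by_contra hlt
      rw [not_le] at hlt
      obtain ⟨x1, x1', h1, h2, h3⟩ := hpr x ξ' hlt hξ'
      rw [kii_unique h2 hx] at h3
      exact absurd (ih x hlt (hlt.le.trans hξ') x1 h1) (not_le.2 h3)
  obtain ⟨x1, x1', -, h2, -⟩ := hpr 0 μ (hκ0.trans_le hκμ) le_rfl
  exact (((key μ le_rfl x1' h2).trans_lt h2.1).trans hν).trans_le (hht.trans hξα.le)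

end MP2900
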