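import Pool.Agent.Lib.MP_2900b9_lc.C.ClSk
import Pool.Agent.Lib.MP_2900b9_lc.C.Cond
import Pool.Agent.Lib.MP_2900b9_lc.C.KOrd
import Pool.Agent.Lib.MP_2900b9_lc.C.FDefs
import Pool.Agent.Lib.MP_2900b9_lc.C.CmpFact

/-!
Module Refl: reflection of `Kc` and `Full` in closed sets.

* kc_refl: skolem for `J = ℕ`, `R n [ξ, a] [b] := a < b ∧ b < ξ ∧ MuR (· < ·) n b`. Claim for all `n` and `ξ ∈ X`: `MuR (· < ·) n ξ → MuR (· < ·) n (col X ξ)`: induction on `n`; `a' < col X ξ` is `col X a`, `a ∈ X`, `a < ξ` (col_onto); there is `b ∈ X` with `a < b < ξ`, `MuR n b`; `col X b` works (col_lt).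
* full_refl: skolem for `J = Fm`, `R φ (γ :: μ :: ξ :: p) s := (∀ x ∈ s, x < γ) ∧ IsMin (μ + 1) φ (s ++ p) ξ`, together with gc_ex. Let `π = col X`. `π γ ≤ π μ` (col_mono), `π x ≤ π μ` for `x ∈ p`. `π (μ + 1) = π μ + 1` (col_add_nat with `n = 1`). `ξ' ≤ π μ` is `π ξ`, `ξ ∈ X`, `ξ < μ + 1` (col_onto). `Full` gives some `φ` and `s`; for this `φ` we may choose `s` over `X`;
  isMin_col at `ν = μ + 1 ∈ X` (entries of `s ++ p` are in `X` and `< μ + 1`), `(s ++ p).map π = s.map π ++ p.map π`, `π x < π γ` for `x ∈ s`.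
-/

set_option autoImplicit false

namespace MP2900

open Set Pool.Agent.Lib.MP_2900b9_lc

variable [TP]

theorem kc_refl : ∃ G : ℕ → List Ordinal.{0} → List Ordinal.{0}, ∀ X, Cl G X → ∀ κ ∈ X,
    Kc κ → Kc (col X κ) := by
  obtain ⟨G, hG⟩ := skolem (J := ℕ) (fun n l l' => ∃ ξ a b : Ordinal.{0}, l = [ξ, a] ∧
    l' = [b] ∧ a < b ∧ b < ξ ∧ MuR (· < ·) n b)
  refine ⟨G, fun X hX κ hκ hK n => ?_⟩
  have key : ∀ (n : ℕ) (ξ : Ordinal.{0}), ξ ∈ X → MuR (· < ·) n ξ →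
      MuR (· < ·) n (col X ξ) := by
    intro n
    induction n with
    | zero => exact fun ξ _ _ => trivial
    | succ n ih =>
      intro ξ hξ h a' ha'
      obtain ⟨a, haX, hax, rfl⟩ := col_onto ha'
      obtain ⟨b, hab, hbx, hb⟩ := h a hax
      obtain ⟨l', hl', ξ₁, a₁, b₁, e1, e2, h1, h2, h3⟩ := hG X hX n [ξ, a] (by
        intro x hx
        rcases List.mem_cons.1 hx with rfl | hx
        · exact hξ
        · rw [List.mem_singleton.1 hx]
          exact haX) ⟨[b], ξ, a, b, rfl, rfl, hab, hbx, hb⟩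
      obtain ⟨e3, e4⟩ := List.cons.inj e1
      have e5 : a = a₁ := (List.cons.inj e4).1
      subst e3 e5 e2
      have hbX : b₁ ∈ X := hl' b₁ (List.mem_singleton.2 rfl)
      exact ⟨col X b₁, col_lt haX h1, col_lt hbX h2, ih b₁ hbX h3⟩
  exact key n κ hκ (hK n)

theorem full_refl : ∃ G : ℕ → List Ordinal.{0} → List Ordinal.{0}, ∀ X, GC G X →
    ∀ γ p μ, γ ∈ X → Ov X p → μ ∈ X → Full γ p μ →
      Full (col X γ) (p.map (col X)) (col X μ) := by
  obtain ⟨G, hG⟩ := skolem (J := Fm) (fun φ l s => ∃ (γ μ ξ : Ordinal.{0})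
    (p : List Ordinal.{0}), l = γ :: μ :: ξ :: p ∧ (∀ x ∈ s, x < γ) ∧
      IsMin (μ + 1) φ (s ++ p) ξ)
  refine ⟨G, fun X hX γ p μ hγ hp hμ hF => ?_⟩
  obtain ⟨h1, h2, h3⟩ := hF
  have hadd : col X (μ + 1) = col X μ + 1 := by
    have h := col_add_nat (hX.addn μ hμ) 1
    rwa [Nat.cast_one] at h
  have hμ1 : μ + 1 ∈ X := by
    have h := hX.addn μ hμ 1
    rwa [Nat.cast_one] at h
  refine ⟨col_mono h1, ?_, ?_⟩
  · intro x' hx'
    obtain ⟨x, hx, rfl⟩ := List.mem_map.1 hx'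
    exact col_mono (h2 x hx)
  · intro ξ' hξ'
    have h4 : ξ' < col X (μ + 1) := by
      rw [hadd]
      exact Order.lt_add_one_iff.2 hξ'
    obtain ⟨ξ, hξX, hξμ, rfl⟩ := col_onto h4
    obtain ⟨φ, s₀, hs₀, hm₀⟩ := h3 ξ (Order.lt_add_one_iff.1 hξμ)
    obtain ⟨s, hs, γ₁, μ₁, ξ₁, p₁, e1, g1, g2⟩ := hG X hX.cl φ (γ :: μ :: ξ :: p) (by
      intro x hx
      rcases List.mem_cons.1 hx with rfl | hx
      · exact hγ
      rcases List.mem_cons.1 hx with rfl | hx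
      · exact hμ
      rcases List.mem_cons.1 hx with rfl | hx
      · exact hξX
      · exact hp x hx) ⟨s₀, γ, μ, ξ, p, rfl, hs₀, hm₀⟩
    obtain ⟨e2, e3⟩ := List.cons.inj e1
    obtain ⟨e4, e5⟩ := List.cons.inj e3
    obtain ⟨e6, e7⟩ := List.cons.inj e5
    subst e2 e4 e6 e7
    have h5 := (isMin_col hX.clm hμ1 (e := s ++ p) (by
      intro x hx
      rcases List.mem_append.1 hx with hx | hx
      · exact ⟨hs x hx, (g1 x hx).trans_le (h1.trans (Order.lt_add_one_iff.2 le_rfl).le)⟩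
      · exact ⟨hp x hx, Order.lt_add_one_iff.2 (h2 x hx)⟩) g2).2
    rw [hadd, List.map_append] at h5
    refine ⟨φ, s.map (col X), ?_, h5⟩
    intro x' hx'
    obtain ⟨x, hx, rfl⟩ := List.mem_map.1 hx'
    exact col_lt (hs x hx) (g1 x hx)

end MP2900
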