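import Pool.Agent.Lib.MP_2900b9_lc.C.Basic

/-!
Module Rank: ranks of points of relations (LR, rk). All by well-founded induction on the ordinal, using `LR_iff`.

* LR_acc: induction on `ξ`.
* LR_rk: `{ξ | LR R ξ a}` is nonempty, so its infimum belongs to it (`csInf_mem`).
* rk_lt: `LR R (rk R a) a` gives `ξ' < rk R a` with `LR R ξ' b`.
* exists_LR: induction on `Acc`; for every predecessor `b` choose `ξ_b`; the supremum of the successors (over `ι`, a type in
  universe 0) works. exists_LR_small: the same with the supremum over the small set `s`.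
* rk_le_of: `LR R ξ a` holds, as every predecessor `b` has `LR R (rk R b) b` with `rk R b < ξ`.
* rk_onto': if no point `b` below `a` (transitive closure) has rank `ζ`, then by induction every point `b` below or equal `a` of rank
  `≥ ζ`... simplest: let `b` be a point with `TransGen R b a` or `b = a`, of least rank `≥ ζ`; if its rank is `> ζ`, then all its
  predecessors have rank `≥ ζ` (excluded by minimality as they have smaller rank) or `< ζ`, so all have rank `< ζ`, hence
  `rk R b ≤ ζ` by rk_le_of, contradiction. So the rank of `b` is `ζ`, and `b ≠ a` as `ζ < rk R a`.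
* rk_onto: from rk_onto' and transitivity.
* ctb_rk: if no `ξ` has `LR R ξ a`, then `rk R a = sInf ∅ = 0`. Otherwise `Iio (rk R a)` is contained in the range of
  `rk R : ι → Ordinal` by rk_onto'.
-/

set_option autoImplicit false

namespace MP2900

open Set Pool.Agent.Lib.MP_2900b9_lc

variable {ι : Type*} {R : ι → ι → Prop}

theorem LR_mono {ξ ξ' : Ordinal.{0}} {a : ι} (h : ξ ≤ ξ') (hL : LR R ξ a) : LR R ξ' a := by
  rw [LR_iff] at hL ⊢
  intro b hb
  obtain ⟨η, hη, h1⟩ := hL b hb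
  exact ⟨η, hη.trans_le h, h1⟩

theorem LR_acc {ξ : Ordinal.{0}} {a : ι} (h : LR R ξ a) : Acc R a := by
  induction ξ using WellFoundedLT.induction generalizing a with
  | _ ξ ih =>
    rw [LR_iff] at h
    refine Acc.intro a fun b hb => ?_
    obtain ⟨η, hη, h1⟩ := h b hb
    exact ih η hη h1

theorem LR_congr {R R' : ι → ι → Prop} (h : ∀ b a, R b a ↔ R' b a) (ξ : Ordinal.{0}) (a : ι) :
    LR R ξ a ↔ LR R' ξ a := by
  induction ξ using WellFoundedLT.induction generalizing a with
  | _ ξ ih =>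
    rw [LR_iff, LR_iff]
    constructor
    · intro h1 b hb
      obtain ⟨η, hη, h2⟩ := h1 b ((h b a).2 hb)
      exact ⟨η, hη, (ih η hη b).1 h2⟩
    · intro h1 b hb
      obtain ⟨η, hη, h2⟩ := h1 b ((h b a).1 hb)
      exact ⟨η, hη, (ih η hη b).2 h2⟩

theorem rk_le {ξ : Ordinal.{0}} {a : ι} (h : LR R ξ a) : rk R a ≤ ξ := by
  unfold rk
  exact csInf_le' h

theorem LR_rk {a : ι} (h : ∃ ξ, LR R ξ a) : LR R (rk R a) a := by
  have h1 : {ξ | LR R ξ a}.Nonempty := h
  exact csInf_mem h1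

theorem LR_iff_rk {a : ι} (h : ∃ ξ, LR R ξ a) (ξ : Ordinal.{0}) : LR R ξ a ↔ rk R a ≤ ξ :=
  ⟨rk_le, fun h' => LR_mono h' (LR_rk h)⟩

private theorem exists_aux {ι : Type*} {R : ι → ι → Prop} (s : Set ι) [Small.{0} s]
    (hs : ∀ b c, R b c → b ∈ s) {a : ι} (h : Acc R a) : ∃ ξ, LR R ξ a := by
  induction h with
  | intro a _ ih =>
    have ih' : ∀ b : s, ∃ ξ, R b a → LR R ξ b := by
      intro b
      by_cases hb : R b a
      · obtain ⟨ξ, hξ⟩ := ih b hb
        exact ⟨ξ, fun _ => hξ⟩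
      · exact ⟨0, fun h => absurd h hb⟩
    choose f hf using ih'
    have hb : BddAbove (range f) := Ordinal.bddAbove_of_small
    obtain ⟨ξ, hξ⟩ := hb
    refine ⟨Order.succ ξ, (LR_iff R _ a).2 fun b hba => ?_⟩
    have h1 := hξ (mem_range_self (⟨b, hs b a hba⟩ : s))
    exact ⟨f ⟨b, hs b a hba⟩, Order.lt_succ_of_le h1, hf ⟨b, hs b a hba⟩ hba⟩

theorem exists_LR {ι : Type} {R : ι → ι → Prop} {a : ι} (h : Acc R a) : ∃ ξ, LR R ξ a :=
  exists_aux univ (fun b _ _ => mem_univ b) h

theorem exists_LR_small (s : Set ι) [Small.{0} s] (hs : ∀ b c, R b c → b ∈ s) {a : ι}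
    (h : Acc R a) : ∃ ξ, LR R ξ a :=
  exists_aux s hs h

theorem rk_lt {a b : ι} (ha : ∃ ξ, LR R ξ a) (h : R b a) : rk R b < rk R a := by
  obtain ⟨η, hη, h1⟩ := (LR_iff R _ a).1 (LR_rk ha) b h
  exact (rk_le h1).trans_lt hη

private theorem pred_LR {a b : ι} (ha : ∃ ξ, LR R ξ a) (h : R b a) : ∃ ξ, LR R ξ b := by
  obtain ⟨η, _, h1⟩ := (LR_iff R _ a).1 (LR_rk ha) b h
  exact ⟨η, h1⟩

theorem rk_le_of {a : ι} (ha : ∃ ξ, LR R ξ a) {ξ : Ordinal.{0}} (h : ∀ b, R b a → rk R b < ξ) :
    rk R a ≤ ξ :=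
  rk_le ((LR_iff R ξ a).2 fun b hb => ⟨rk R b, h b hb, LR_rk (pred_LR ha hb)⟩)

theorem rk_onto' {a : ι} (ha : ∃ ξ, LR R ξ a) {ζ : Ordinal.{0}} (hζ : ζ < rk R a) :
    ∃ b, Relation.TransGen R b a ∧ rk R b = ζ := by
  have hall : ∀ b, Relation.ReflTransGen R b a → ∃ ξ, LR R ξ b := by
    intro b hb
    induction hb using Relation.ReflTransGen.head_induction_on with
    | refl => exact ha
    | head h _ ih => exact pred_LR ih h
  have key : ∀ θ : Ordinal.{0}, ∀ b, Relation.ReflTransGen R b a → rk R b = θ → ζ < θ →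
      ∃ b', Relation.TransGen R b' a ∧ rk R b' = ζ := by
    intro θ
    induction θ using WellFoundedLT.induction with
    | _ θ ih =>
      intro b hb hθ hlt
      by_contra hcon
      have h1 : ∀ c, R c b → rk R c < ζ := by
        intro c hc
        by_contra h2
        rw [not_lt] at h2
        have hca : Relation.TransGen R c a := Relation.TransGen.head' hc hb
        rcases h2.lt_or_eq with h3 | h3
        · exact hcon (ih (rk R c) (hθ ▸ rk_lt (hall b hb) hc) c hca.to_reflTransGen rfl h3)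
        · exact hcon ⟨c, hca, h3.symm⟩
      have h2 := rk_le_of (hall b hb) h1
      rw [hθ] at h2
      exact absurd hlt (not_lt.2 h2)
  exact key (rk R a) a Relation.ReflTransGen.refl rfl hζ

theorem rk_onto (htr : ∀ a b c, R a b → R b c → R a c) {a : ι} (ha : ∃ ξ, LR R ξ a)
    {ζ : Ordinal.{0}} (hζ : ζ < rk R a) : ∃ b, R b a ∧ rk R b = ζ := by
  obtain ⟨b, hb, h⟩ := rk_onto' ha hζ
  refine ⟨b, ?_, h⟩
  clear h hζ ha
  induction hb with
  | single h => exact h
  | tail _ h ih => exact htr _ _ _ ih h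

theorem ctb_rk {ι : Type} [Countable ι] (R : ι → ι → Prop) (a : ι) : Ctb (rk R a) := by
  unfold Ctb
  by_cases h : ∃ ξ, LR R ξ a
  · refine (countable_range (rk R)).mono ?_
    intro ζ hζ
    obtain ⟨b, -, hb⟩ := rk_onto' h hζ
    exact ⟨b, hb⟩
  · have h1 : {ξ | LR R ξ a} = ∅ := eq_empty_iff_forall_notMem.2 fun ξ h2 => h ⟨ξ, h2⟩
    have h2 : rk R a = 0 := by
      unfold rk
      rw [h1]
      exact Ordinal.sInf_empty
    rw [h2]
    have h3 : Iio (0 : Ordinal.{0}) = ∅ := by
      ext x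
      simp
    rw [h3]
    exact countable_empty

end MP2900
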