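import Pool.Agent.Lib.MP_2900b9_lc.C.ClSk
import Pool.Agent.Lib.MP_2900b9_lc.C.Col
import Pool.Agent.Lib.MP_2900b9_lc.C.Rank

/-!
Module Transf: ranks of absolute relations under the collapse.

For a fixed `κ` predecessors for `S.E κ` have all ordinals `≤ κ + ω` (S.bd), so they form a small set: `exists_LR_small` applies and every accessible point has `∃ ξ, LR (S.E κ) ξ z`.
Functions (skolem / direct definition of `G`): (a) `(κ, z) ↦ rk (S.E κ) z` (index `z.1`, list `κ :: z.2`); (b) for every `κ, z` with `z` not accessible choose a sequence `D κ z : ℕ → St` with `D κ z 0 = z` and `S.E κ (D κ z (n+1)) (D κ z n)`; (index `(z.1, n)`, list `κ :: z.2`) ↦ `(D κ z n).2`.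
Let `X` be closed, `π = col X`, `κ ∈ X`, `τ` as in the hypothesis. Let `z'` have ordinals `≤ π κ + ω = π (κ + ω)` (col_add_omega), accessible for `S.E (π κ)`. Every ordinal `≤ π (κ + ω)` is `π x` with `x ∈ X`, `x ≤ κ + ω` (col_onto, or `x = κ + ω ∈ X`). So `z' = z.map π` with `z` over `X`, ordinals `≤ κ + ω`.
(1) `z` is accessible: otherwise the sequence `D κ z n` is over `X`, and by S.abs its image is an infinite descending sequence starting with `z'`.
(2) Claim: for `z` over `X`, accessible, `LR (S.E (π κ)) (π (rk (S.E κ) z)) (z.map π)`: induction on `rk (S.E κ) z`. A predecessor `y'` of `z.map π` has ordinals `≤ π κ + ω`, so `y' = y.map π`, `y` over `X`; S.abs: `S.E κ y z`, so `y` is accessible and `rk y < rk z` (rk_lt), both in `X` by (a), so `π (rk y) < π (rk z)` (col_lt), induction hypothesis.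
(3) `rk z < τ` and `rk z ∈ X`, so `π (rk z) < π τ`.
-/

set_option autoImplicit false

namespace MP2900

open Set Pool.Agent.Lib.MP_2900b9_lc

/-- the structures with ordinals at most `δ` form a small set -/
private theorem transf_small (δ : Ordinal.{0}) : Small.{0} {z : St | ∀ x ∈ z.2, x ≤ δ} := by
  have h1 : Small.{0} (ℕ × List (Iic δ)) := inferInstance
  have h2 : Function.Surjective (fun z : ℕ × List (Iic δ) =>
      (⟨(z.1, z.2.map Subtype.val), by
        intro x hx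
        obtain ⟨y, -, rfl⟩ := List.mem_map.1 hx
        exact y.2⟩ : {z : St | ∀ x ∈ z.2, x ≤ δ})) := by
    rintro ⟨⟨n, l⟩, hl⟩
    refine ⟨(n, l.attach.map (fun x => ⟨x.1, hl x.1 x.2⟩)), ?_⟩
    apply Subtype.ext
    refine Prod.ext rfl ?_
    simp
  exact small_of_surjective h2

/-- every accessible point has a rank -/
private theorem transf_LR [TP] (S : ASys) (κ : Ordinal.{0}) {z : St} (h : Acc (S.E κ) z) :
    ∃ ξ, LR (S.E κ) ξ z :=
  haveI := transf_small (κ + Ordinal.omega0)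
  exists_LR_small {z : St | ∀ x ∈ z.2, x ≤ κ + Ordinal.omega0}
    (fun b c hbc => (S.bd κ b c hbc).1) h

/-- ordinals below the collapse come from `X` -/
private theorem transf_onto [TP] {G : ℕ → List Ordinal.{0} → List Ordinal.{0}}
    {X : Set Ordinal.{0}} (hX : GC G X) {κ : Ordinal.{0}} (hκ : κ ∈ X) (l : List Ordinal.{0})
    (hl : ∀ x ∈ l, x ≤ col X κ + Ordinal.omega0) :
    ∃ m : List Ordinal.{0}, Ov X m ∧ (∀ x ∈ m, x ≤ κ + Ordinal.omega0) ∧ m.map (col X) = l := by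
  induction l with
  | nil => exact ⟨[], fun x hx => absurd hx List.not_mem_nil,
      fun x hx => absurd hx List.not_mem_nil, rfl⟩
  | cons a l ih =>
    obtain ⟨m, h1, h2, h3⟩ := ih (fun x hx => hl x (List.mem_cons_of_mem _ hx))
    have ha := hl a List.mem_cons_self
    rw [← col_add_omega (fun n => hX.addn κ hκ n)] at ha
    have hb : ∃ b ∈ X, b ≤ κ + Ordinal.omega0 ∧ col X b = a := by
      rcases ha.lt_or_eq with h | h
      · obtain ⟨b, h4, h5, h6⟩ := col_onto h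
        exact ⟨b, h4, h5.le, h6⟩
      · exact ⟨κ + Ordinal.omega0, hX.addw κ hκ, le_refl _, h.symm⟩
    obtain ⟨b, h4, h5, h6⟩ := hb
    refine ⟨b :: m, ?_, ?_, ?_⟩
    · intro x hx
      rcases List.mem_cons.1 hx with rfl | hx
      · exact h4
      · exact h1 x hx
    · intro x hx
      rcases List.mem_cons.1 hx with rfl | hx
      · exact h5
      · exact h2 x hx
    · rw [List.map_cons, h3, h6]

theorem transfer [TP] (S : ASys) : ∃ G : ℕ → List Ordinal.{0} → List Ordinal.{0}, ∀ X,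
    GC G X → Cl S.G X → ∀ κ ∈ X, (∀ z : St, Ov X z.2 → rk (S.E κ) z ∈ X) ∧
      ∀ τ, (∀ z : St, Ov X z.2 → (∀ x ∈ z.2, x ≤ κ + Ordinal.omega0) → Acc (S.E κ) z →
        rk (S.E κ) z < τ) → Bdd S.E (col X κ) (col X τ) := by
  have hD : ∀ (κ : Ordinal.{0}) (z : St), ∃ D : ℕ → St, ¬ Acc (S.E κ) z →
      D 0 = z ∧ ∀ n, S.E κ (D (n + 1)) (D n) := by
    intro κ z
    by_cases h : Acc (S.E κ) z
    · exact ⟨fun _ => z, fun h' => absurd h h'⟩
    · obtain ⟨f, hf⟩ := not_acc_iff_exists_descending_chain.1 h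
      exact ⟨f, fun _ => hf⟩
  choose D hD using hD
  obtain ⟨G1, hG1⟩ := skolem (J := ℕ) (fun n l l' => ∃ κ s, l = κ :: s ∧
    l' = [rk (S.E κ) ((n, s) : St)])
  obtain ⟨G2, hG2⟩ := skolem (J := ℕ × ℕ) (fun j l l' => ∃ κ s, l = κ :: s ∧
    l' = (D κ ((j.1, s) : St) j.2).2)
  obtain ⟨G, hG⟩ := cl_and G1 G2
  refine ⟨G, fun X hX hS κ hκ => ?_⟩
  obtain ⟨c1, c2⟩ := hG X hX.cl
  have hcons : ∀ s, Ov X s → Ov X (κ :: s) := by
    intro s hs x hx
    rcases List.mem_cons.1 hx with rfl | hx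
    · exact hκ
    · exact hs x hx
  have hrk : ∀ z : St, Ov X z.2 → rk (S.E κ) z ∈ X := by
    rintro ⟨n, s⟩ hz
    obtain ⟨l', h1, κ', s', h2, h3⟩ := hG1 X c1 n (κ :: s) (hcons s hz)
      ⟨[rk (S.E κ) ((n, s) : St)], κ, s, rfl, rfl⟩
    obtain ⟨rfl, rfl⟩ := List.cons.inj h2
    exact h1 _ (by rw [h3]; exact List.mem_singleton.2 rfl)
  have hDX : ∀ z : St, Ov X z.2 → ∀ n, Ov X (D κ z n).2 := by
    rintro ⟨m, s⟩ hz n
    obtain ⟨l', h1, κ', s', h2, h3⟩ := hG2 X c2 (m, n) (κ :: s) (hcons s hz)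
      ⟨(D κ ((m, s) : St) n).2, κ, s, rfl, rfl⟩
    obtain ⟨rfl, rfl⟩ := List.cons.inj h2
    rw [h3] at h1
    exact h1
  have habs : ∀ z z' : St, Ov X z.2 → Ov X z'.2 →
      (S.E κ z z' ↔ S.E (col X κ) (z.map (col X)) (z'.map (col X))) :=
    fun z z' h1 h2 => S.abs X hX.clm hS hX.nat hX.addn hX.addw κ hκ z z' h1 h2
  have honto : ∀ z' : St, (∀ x ∈ z'.2, x ≤ col X κ + Ordinal.omega0) →
      ∃ z : St, Ov X z.2 ∧ (∀ x ∈ z.2, x ≤ κ + Ordinal.omega0) ∧ z.map (col X) = z' := by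
    rintro ⟨n, l⟩ hl
    obtain ⟨m, h1, h2, h3⟩ := transf_onto hX hκ l hl
    refine ⟨(n, m), h1, h2, ?_⟩
    unfold St.map
    rw [h3]
  -- the claim (2)
  have hcl : ∀ ρ : Ordinal.{0}, ∀ z : St, Ov X z.2 → Acc (S.E κ) z → rk (S.E κ) z = ρ →
      LR (S.E (col X κ)) (col X ρ) (z.map (col X)) := by
    intro ρ
    induction ρ using WellFoundedLT.induction with
    | ind ρ ih =>
    intro z hz hacc hρ
    rw [LR_iff]
    intro b hb
    obtain ⟨y, hy, -, rfl⟩ := honto b (S.bd _ _ _ hb).1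
    have hyz : S.E κ y z := (habs y z hy hz).2 hb
    have hyacc : Acc (S.E κ) y := hacc.inv hyz
    have hlt : rk (S.E κ) y < ρ := by
      rw [← hρ]
      exact rk_lt (transf_LR S κ hacc) hyz
    exact ⟨col X (rk (S.E κ) y), col_lt (hrk y hy) hlt, ih _ hlt y hy hyacc rfl⟩
  refine ⟨hrk, fun τ hτ z' hz' hacc' => ?_⟩
  obtain ⟨z, hz, hzb, rfl⟩ := honto z' hz'
  have hacc : Acc (S.E κ) z := by
    by_contra hn
    obtain ⟨h0, h1⟩ := hD κ z hn
    refine not_acc_iff_exists_descending_chain.2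
      ⟨fun n => (D κ z n).map (col X), ?_, fun n => ?_⟩ hacc'
    · simp only [h0]
    · exact (habs _ _ (hDX z hz (n + 1)) (hDX z hz n)).1 (h1 n)
  exact ⟨col X (rk (S.E κ) z), col_lt (hrk z hz) (hτ z hz hzb hacc), hcl _ z hz hacc rfl⟩

end MP2900
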