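import Pool.Agent.Lib.MP_2900b9_lc.C.ExX
import Pool.Agent.Lib.MP_2900b9_lc.C.Refl
import Pool.Agent.Lib.MP_2900b9_lc.C.Transf
import Pool.Agent.Lib.MP_2900b9_lc.C.Unreal

/-!
Module TypesX: (C) every type over `δ` is realized in `X`.

Let `G` combine (cl_and, gc_ex) the families of `transfer S`, `S.G`, kc_refl, full_refl, so that `Cl G X` implies `GC` of each of them (state: for every `X`, `Cl G X → GC Gt X ∧ Cl S.G X ∧ Cl Gk X ∧ GC Gf X`). Take `X, δ` from exists_X for `G`, `νs`. `π = col X`. `π` is the identity on ordinals `≤ δ` (col_id, init). `π LP = δ`: `π LP ≥ π δ..`: every `x ∈ X`, `x < LP` is `< δ` and has `π x = x`,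
so `π LP = δ` (`≤`: col_onto: `θ < π LP` is `π x`, `x ∈ X`, `x < LP`, so `θ = x < δ`; `≥`: `x < δ` gives `x = π x < π LP`). Let `τ` be an upper bound of `X`, `α = π τ`. By transfer (`κ = LP`; ranks are in `X` so `< τ`): `Bdd S.E δ α`. `Kc LP` (Kc_ord), so `Kc δ` (kc_refl).
Suppose some type over `δ` is not realized in `X`. full_of_unrealized (`∀ x < δ, x ∈ X`) gives `p, μ` with `Full δ p μ` and `p` not realized. `α ≤ μ`: otherwise `μ < α = π τ`, and every entry `x ≤ μ` of `p` is `π y` with `y ∈ X` (col_onto); let `r` be the list of these `y`, `r.map π = p`; sameTy_col (`ClM X`): `SameTy δ r (r.map π)`, so `r` realizes `p`. Contradiction.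
Let `W` be countable, closed under `G`, containing `δ, α, μ` and the entries of `p` (exists_W). `π' = col W`, `κ = π' δ`: countable (ctb_col), `Kc κ` (kc_refl), `0 < κ` (`0 ∈ W`, `0 < δ`, col_lt). `Full κ (p.map π') (π' μ)` (full_refl). `Bdd S.E κ (π' α)` by transfer with `κ := δ ∈ W`, `τ := α`: for `z` over `W`.. accessible with ordinals `≤ δ + ω`: Bdd S.E δ α gives
`ξ < α` with `LR ξ z`, so `rk z ≤ ξ < α` (rk_le). So `Key` gives `π' μ < π' α`, so `μ < α` (col_mono contrapositive). Contradiction.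
-/

set_option autoImplicit false

namespace MP2900

open Set Pool.Agent.Lib.MP_2900b9_lc

private theorem tyx_list {X : Set Ordinal.{0}} (p : List Ordinal.{0})
    (h : ∀ x ∈ p, ∃ y ∈ X, col X y = x) : ∃ r, Ov X r ∧ r.map (col X) = p := by
  induction p with
  | nil => exact ⟨[], by simp [Ov], rfl⟩
  | cons x p ih =>
    obtain ⟨r, hr, hrp⟩ := ih fun z hz => h z (List.mem_cons_of_mem _ hz)
    obtain ⟨y, hy, hyx⟩ := h x List.mem_cons_self
    refine ⟨y :: r, fun z hz => ?_, by rw [List.map_cons, hrp, hyx]⟩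
    rcases List.mem_cons.1 hz with rfl | hz
    · exact hy
    · exact hr z hz

theorem types_X [TP] (S : ASys) (hK : Key S.E) (νs : Ordinal.{0}) :
    ∃ (X : Set Ordinal.{0}) (δ : Ordinal.{0}) (G : ℕ → List Ordinal.{0} → List Ordinal.{0}),
      IsX G νs X δ ∧
      ∀ p : List Ordinal.{0}, ∃ r : List Ordinal.{0}, Ov X r ∧ r.length = p.length ∧
        SameTy δ p r := by
  obtain ⟨Gt, hGt⟩ := transfer S
  obtain ⟨Gk, hGk⟩ := kc_refl
  obtain ⟨Gf, hGf⟩ := full_refl
  obtain ⟨G1, hG1⟩ := cl_and Gt S.G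
  obtain ⟨G2, hG2⟩ := cl_and Gk Gf
  obtain ⟨G3, hG3⟩ := cl_and G1 G2
  obtain ⟨G, hG⟩ := gc_ex G3
  have hGG : ∀ X, Cl G X → GC Gt X ∧ Cl S.G X ∧ Cl Gk X ∧ GC Gf X := by
    intro X hX
    have h := hG X hX
    obtain ⟨h1, h2⟩ := hG3 X h.cl
    obtain ⟨h3, h4⟩ := hG1 X h1
    obtain ⟨h5, h6⟩ := hG2 X h2
    exact ⟨⟨h3, h.clm, h.nat, h.addn, h.addw⟩, h4, h5, ⟨h6, h.clm, h.nat, h.addn, h.addw⟩⟩
  obtain ⟨X, δ, hX⟩ := exists_X G νs
  obtain ⟨g1, g2, g3, g4⟩ := hGG X hX.cl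
  refine ⟨X, δ, G, hX, ?_⟩
  by_contra hcon
  rw [not_forall] at hcon
  have hinX : ∀ x < δ, x ∈ X := fun x hx => (hX.init x (hx.trans hX.lt)).2 hx
  have hπLP : col X LP = δ := by
    apply le_antisymm
    · by_contra hlt
      rw [not_le] at hlt
      obtain ⟨η, hη, hηL, he⟩ := col_onto hlt
      have h1 := (hX.init η hηL).1 hη
      rw [col_id hinX h1.le] at he
      exact absurd he h1.ne
    · have h1 := col_id hinX (le_refl δ)
      conv_lhs => rw [← h1]
      exact col_mono hX.lt.le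
  obtain ⟨τ, hτ⟩ := hX.bdd
  obtain ⟨t1, t2⟩ := hGt X g1 g2 LP hX.lp
  have hBdd : Bdd S.E δ (col X τ) := by
    have h1 := t2 τ fun z hz _ _ => hτ _ (t1 z hz)
    rwa [hπLP] at h1
  have hKcL : Kc LP := by
    refine Kc_ord ?_
    exact (Cardinal.aleph0_le_continuum).trans_lt (Order.lt_succ _)
  have hKδ : Kc δ := by
    have h1 := hGk X g3 LP hX.lp hKcL
    rwa [hπLP] at h1
  obtain ⟨p, μ, hfull, hbad⟩ := full_of_unrealized hinX hcon
  have hαμ : col X τ ≤ μ := by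
    by_contra hlt
    rw [not_le] at hlt
    obtain ⟨r, hr, hrp⟩ := tyx_list (X := X) p fun x hx => by
      obtain ⟨η, hη, -, he⟩ := col_onto ((hfull.2.1 x hx).trans_lt hlt)
      exact ⟨η, hη, he⟩
    refine hbad ⟨r, hr, ?_, ?_⟩
    · rw [← hrp, List.length_map]
    · have h1 := sameTy_col g1.clm hinX (p := r) hr
      rw [hrp] at h1
      exact sameTy_symm h1
  obtain ⟨W, hWc, hSW, hWG⟩ := exists_W G ({δ, col X τ, μ} ∪ {x | x ∈ p})
    (((Set.toFinite _).union (List.finite_toSet p)).countable)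
  obtain ⟨k1, k2, k3, k4⟩ := hGG W hWG
  have hδW : δ ∈ W := hSW (by simp)
  have hμW : μ ∈ W := hSW (by simp)
  have hpW : Ov W p := fun x hx => hSW (Or.inr hx)
  have h0W : (0 : Ordinal.{0}) ∈ W := by simpa using k1.nat 0
  have hFull := hGf W k4 δ p μ hδW hpW hμW hfull
  have hB : Bdd S.E (col W δ) (col W (col X τ)) := by
    refine (hGt W k1 k2 δ hδW).2 _ fun z _ hz hacc => ?_
    obtain ⟨ξ, hξ, hL⟩ := hBdd z hz hacc
    exact (rk_le hL).trans_lt hξ
  have h1 := hK (col W δ) (col W (col X τ)) (col W μ) (p.map (col W))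
    (bot_le.trans_lt (col_lt h0W hX.pos)) (ctb_col hWc δ) (hGk W k3 δ hδW hKδ) hB hFull
  exact absurd ((col_lt_iff hμW).1 h1) (not_lt.2 hαμ)

end MP2900
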