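import Pool.Agent.Lib.MP_2900b9_lc.C.KeyI
import Pool.Agent.Lib.MP_2900b9_lc.C.KeyII
import Pool.Agent.Lib.MP_2900b9_lc.C.AsysI
import Pool.Agent.Lib.MP_2900b9_lc.C.AsysII
import Pool.Agent.Lib.MP_2900b9_lc.C.TypesX
import Pool.Agent.Lib.MP_2900b9_lc.C.Homog
import Pool.Agent.Lib.MP_2900b9_lc.C.GameI
import Pool.Agent.Lib.MP_2900b9_lc.C.GameII
import Pool.Agent.Lib.MP_2900b9_lc.C.JBdd
import Pool.Agent.Lib.MP_2900b9_lc.C.AA

/-!
Final assembly: comparability of non-Borel analytic sets implies analytic determinacy.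
-/

set_option autoImplicit false

namespace MP2900

open Set MeasureTheory Pool.Agent.Lib.MP_2900b9_lc

/-- the key property holds for one of the two absolute systems -/
theorem exists_asys [TP]
    (hcomp : ∀ A B : Set (ℕ → ℕ),
      AnalyticSet A → ¬ @MeasurableSet (ℕ → ℕ) (borel (ℕ → ℕ)) A →
      AnalyticSet B → ¬ @MeasurableSet (ℕ → ℕ) (borel (ℕ → ℕ)) B →
      (∃ f : (ℕ → ℕ) → (ℕ → ℕ), Continuous f ∧ ∀ x, x ∈ B ↔ f x ∈ A) ∨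
      (∃ f : (ℕ → ℕ) → (ℕ → ℕ), Continuous f ∧ ∀ x, x ∈ A ↔ f x ∈ B)) :
    ∃ S : ASys, Key S.E := by
  have hJ := J_bounded hcomp
  have hA : ¬ @MeasurableSet (ℕ → ℕ) (borel (ℕ → ℕ)) (Aset : Set (ℕ → ℕ))ᶜ := fun h =>
    A_not_borel (by simpa using @MeasurableSet.compl _ _ (borel (ℕ → ℕ)) h)
  have hU : ¬ @MeasurableSet (ℕ → ℕ) (borel (ℕ → ℕ)) (Uset : Set (ℕ → ℕ))ᶜ := fun h =>
    U_not_borel (by simpa using @MeasurableSet.compl _ _ (borel (ℕ → ℕ)) h)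
  rcases hcomp _ _ analytic_compl_A hA analytic_compl_U hU with ⟨f, hf, h⟩ | ⟨f, hf, h⟩
  · obtain ⟨S, hS⟩ := asysII f
    refine ⟨S, hS ▸ keyII hf (fun w => ?_) hJ⟩
    have h1 := h w
    simp only [mem_compl_iff] at h1
    exact not_iff_not.1 h1
  · obtain ⟨S, hS⟩ := asysI f
    refine ⟨S, hS ▸ keyI hf (fun w => ?_) hJ⟩
    have h1 := h w
    simp only [mem_compl_iff] at h1
    exact not_iff_not.1 h1

theorem pay_determined [TP]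
    (hcomp : ∀ A B : Set (ℕ → ℕ),
      AnalyticSet A → ¬ @MeasurableSet (ℕ → ℕ) (borel (ℕ → ℕ)) A →
      AnalyticSet B → ¬ @MeasurableSet (ℕ → ℕ) (borel (ℕ → ℕ)) B →
      (∃ f : (ℕ → ℕ) → (ℕ → ℕ), Continuous f ∧ ∀ x, x ∈ B ↔ f x ∈ A) ∨
      (∃ f : (ℕ → ℕ) → (ℕ → ℕ), Continuous f ∧ ∀ x, x ∈ A ↔ f x ∈ B)) :
    (∃ σ : List ℕ → ℕ, ∀ z : ℕ → ℕ,
      (∀ n : ℕ, z (2 * n) = σ (List.ofFn fun i : Fin (2 * n) => z i.val)) → z ∈ pay) ∨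
    (∃ τ : List ℕ → ℕ, ∀ z : ℕ → ℕ,
      (∀ n : ℕ, z (2 * n + 1) = τ (List.ofFn fun i : Fin (2 * n + 1) => z i.val)) →
        z ∉ pay) := by
  by_cases h : ∀ ν, ¬ WE LP ν [] []
  · exact Or.inr (game_II LP h)
  · left
    push Not at h
    obtain ⟨ν, hν⟩ := h
    obtain ⟨S, hK⟩ := exists_asys hcomp
    set νs : Ordinal.{0} := max ν (LP + 1) with hνs
    have h1 : LP < νs := lt_of_lt_of_le (by simp) (le_max_right ν (LP + 1))
    have hW : WE LP νs [] [] := we_mono (le_max_left _ _) hν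
    obtain ⟨X, δ, G, hX, hT⟩ := types_X S hK νs
    have h0 : 0 < LP := hX.pos.trans hX.lt
    refine game_I (δ := δ) h0 h1 hX.lt.le hW fun b hb => homog hX hT b fun n => ?_
    rw [hb n]
    intro x hx
    simp only [List.mem_cons, List.not_mem_nil, or_false] at hx
    rcases hx with rfl | rfl | rfl
    · exact (hX.init 0 h0).2 hX.pos
    · exact hX.lp
    · exact hX.ns

theorem analytic_determined
    (hcomp : ∀ A B : Set (ℕ → ℕ),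
      AnalyticSet A → ¬ @MeasurableSet (ℕ → ℕ) (borel (ℕ → ℕ)) A →
      AnalyticSet B → ¬ @MeasurableSet (ℕ → ℕ) (borel (ℕ → ℕ)) B →
      (∃ f : (ℕ → ℕ) → (ℕ → ℕ), Continuous f ∧ ∀ x, x ∈ B ↔ f x ∈ A) ∨
      (∃ f : (ℕ → ℕ) → (ℕ → ℕ), Continuous f ∧ ∀ x, x ∈ A ↔ f x ∈ B))
    (A : Set (ℕ → ℕ)) (hA : AnalyticSet A) :
    (∃ σ : List ℕ → ℕ, ∀ z : ℕ → ℕ,
      (∀ n : ℕ, z (2 * n) = σ (List.ofFn fun i : Fin (2 * n) => z i.val)) → z ∈ A) ∨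
    (∃ τ : List ℕ → ℕ, ∀ z : ℕ → ℕ,
      (∀ n : ℕ, z (2 * n + 1) = τ (List.ofFn fun i : Fin (2 * n + 1) => z i.val)) →
        z ∉ A) := by
  obtain ⟨T, hT, h⟩ := exists_tree hA
  letI : TP := ⟨T, hT⟩
  have hpay : A = pay := by
    ext x
    exact h x
  rw [hpay]
  exact pay_determined hcomp

end MP2900
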