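import Pool.Agent.Lib.MP_2900b9_lc.C.Poset
import Pool.Agent.Lib.MP_2900b9_lc.C.AClop
import Pool.Agent.Lib.MP_2900b9_lc.C.KOrd

/-!
Module GenAna: the set of reals of generic branches is analytic.

Valid branches have entries in the countable set `S = {a : Ent | ∀ β, a.g β < κ β ∧ ∀ ζ, a.h β = some ζ → ζ ≤ η β}` (tags: by induction along `par`, the tags of a valid branch are `≤ η β`). `S` is countable (functions on `Bool` with values in countable sets) and nonempty; let `s : ℕ → Ent` have range `S`. Let `Z = {x : ℕ → ℕ | Gen (Val η κ) Q (fun i => s (x i))}`. Each condition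
`Val η κ (seg b n)`, `Q j (seg b n)`, `∀ e, ..` on `seg b n` is a clopen condition on `x` (it depends only on `x` restricted to `n`: preimage under the continuous map `x ↦ seg x n` into a discrete countable space), so `Z` is measurable, so analytic; the map `x ↦ real (fun i => s (x i))` is continuous: each value depends on finitely many entries
(knw_ex; `continuous_pi`, locally constant). The image of an analytic set under a continuous map is analytic.
-/

set_option autoImplicit false

namespace MP2900

open Set Pool.Agent.Lib.MP_2900b9_lc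

open Topology MeasureTheory

variable [TP] {η κ : Bool → Ordinal.{0}}

/-- the entries which occur in valid branches -/
private def gaS (η κ : Bool → Ordinal.{0}) : Set Ent :=
  {a : Ent | ∀ β, a.g β < κ β ∧ ∀ ζ, a.h β = some ζ → ζ ≤ η β}

omit [TP] in
private theorem gaS_countable (hη : ∀ β, Ctb (η β)) (hκ : ∀ β, Ctb (κ β)) :
    (gaS η κ).Countable := by
  have h1 : ∀ β, ({none} ∪ some '' Iic (η β) : Set (Option Ordinal.{0})).Countable := by
    intro β
    have h2 : (Iic (η β)).Countable := by
      rw [← Iio_insert]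
      exact (hη β).insert _
    exact (countable_singleton none).union (h2.image _)
  have h2 := ((h1 true).prod (h1 false)).prod (((hκ true : (Iio (κ true)).Countable)).prod
    (hκ false : (Iio (κ false)).Countable))
  have h3 : Function.Injective (fun a : Ent =>
      (((a.h true, a.h false), (a.g true, a.g false)) :
        (Option Ordinal.{0} × Option Ordinal.{0}) × (Ordinal.{0} × Ordinal.{0}))) := by
    rintro ⟨h, g⟩ ⟨h', g'⟩ e
    simp only [Prod.mk.injEq] at e
    obtain ⟨⟨e1, e2⟩, e3, e4⟩ := e
    congr 1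
    · funext β
      cases β
      · exact e2
      · exact e1
    · funext β
      cases β
      · exact e4
      · exact e3
  refine (h2.preimage h3).mono ?_
  intro a ha
  have key : ∀ β, a.h β ∈ ({none} ∪ some '' Iic (η β) : Set (Option Ordinal.{0})) := by
    intro β
    cases h : a.h β with
    | none => exact Or.inl rfl
    | some ζ => exact Or.inr ⟨ζ, (ha β).2 ζ h, rfl⟩
  exact ⟨⟨key true, key false⟩, (ha true).1, (ha false).1⟩

omit [TP] in
private theorem gaS_mem {b : ℕ → Ent} (h : ∀ n, Val η κ (seg b n)) (i : ℕ) : b i ∈ gaS η κ := by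
  induction i using Nat.strong_induction_on with
  | _ i ih =>
    intro β
    have h1 : VN η κ (ext (seg b (i + 1))) i := h (i + 1) i (by simp)
    have h2 := h1 β
    rw [ext_seg b (Nat.lt_succ_self i)] at h2
    refine ⟨h2.1, ?_⟩
    intro ζ hζ
    by_cases hi : i = 0
    · have h3 := h2.2.1 hi
      rw [hζ] at h3
      exact (Option.some.inj h3).le
    · obtain ⟨ζ', h3, h4⟩ := h2.2.2 hi ζ hζ
      have h5 : par i < i := par_lt (Nat.one_le_iff_ne_zero.2 hi)
      rw [ext_seg b (h5.trans (Nat.lt_succ_self i))] at h3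
      exact h4.le.trans ((ih _ h5 β).2 ζ' h3)

omit [TP] in
private theorem ga_open {n : ℕ} {P : (ℕ → ℕ) → Prop}
    (h : ∀ x y : ℕ → ℕ, (∀ i < n, x i = y i) → P x → P y) : IsOpen {x | P x} := by
  rw [isOpen_iff_mem_nhds]
  intro x hx
  have h1 : (Iio n).pi (fun i => ({x i} : Set ℕ)) ∈ 𝓝 x :=
    set_pi_mem_nhds (Set.finite_Iio n) (fun i _ => (isOpen_discrete {x i}).mem_nhds rfl)
  refine Filter.mem_of_superset h1 ?_
  intro y hy
  exact h x y (fun i hi => (hy i hi).symm) hx

private theorem ga_seg (s : ℕ → Ent) (n : ℕ) (P : List Ent → Prop) :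
    MeasurableSet {x : ℕ → ℕ | P (seg (fun i => s (x i)) n)} := by
  refine (ga_open (n := n) ?_).measurableSet
  intro x y hxy hx
  have h1 : seg (fun i => s (x i)) n = seg (fun i => s (y i)) n :=
    seg_congr.2 (fun i hi => by rw [hxy i hi])
  rw [← h1]
  exact hx

theorem gen_analytic (hη : ∀ β, Ctb (η β)) (hκ : ∀ β, Ctb (κ β)) (hκ0 : ∀ β, 0 < κ β)
    (Q : ℕ → List Ent → Prop) :
    AnalyticSet {w : ℕ → ℕ | ∃ b, Gen (Val η κ) Q b ∧ real b = w} := by
  have hne : (gaS η κ).Nonempty :=
    ⟨⟨fun _ => none, fun _ => 0⟩, fun β => ⟨hκ0 β, fun ζ h => by simp at h⟩⟩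
  obtain ⟨s, hs⟩ := (gaS_countable hη hκ).exists_eq_range hne
  have hZ : MeasurableSet {x : ℕ → ℕ | Gen (Val η κ) Q (fun i => s (x i))} := by
    have h1 : {x : ℕ → ℕ | Gen (Val η κ) Q (fun i => s (x i))} =
        (⋂ n, {x : ℕ → ℕ | Val η κ (seg (fun i => s (x i)) n)}) ∩
        ⋂ j, ⋃ n, {x : ℕ → ℕ | (fun c : List Ent => Q j c ∨ ∀ e, Val η κ e → c <+: e → ¬ Q j e)
          (seg (fun i => s (x i)) n)} := by
      ext x
      simp only [Gen, Set.mem_ofPred_eq, mem_inter_iff, mem_iInter, mem_iUnion]
    rw [h1]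
    exact (MeasurableSet.iInter fun n => ga_seg s n _).inter
      (MeasurableSet.iInter fun j => MeasurableSet.iUnion fun n =>
        ga_seg s n (fun c : List Ent => Q j c ∨ ∀ e, Val η κ e → c <+: e → ¬ Q j e))
  have hF : Continuous (fun x : ℕ → ℕ => real (fun i => s (x i))) := by
    refine continuous_pi fun k => ?_
    obtain ⟨N, hN⟩ := knw_ex k
    rw [continuous_discrete_rng]
    intro v
    refine ga_open (n := N) ?_
    intro x y hxy hx
    have h1 : real (fun i => s (x i)) k = real (fun i => s (y i)) k :=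
      hN _ _ (fun i hi => by simp only [hxy i hi])
    change real (fun i => s (y i)) k ∈ ({v} : Set ℕ)
    rw [← h1]
    exact hx
  have h2 := hZ.analyticSet.image_of_continuous hF
  convert h2 using 1
  ext w
  constructor
  · rintro ⟨b, hb, rfl⟩
    have h3 : ∀ i, ∃ m, s m = b i := by
      intro i
      have h4 : b i ∈ range s := hs ▸ gaS_mem hb.1 i
      exact h4
    choose x hx using h3
    have h5 : (fun i => s (x i)) = b := funext hx
    refine ⟨x, ?_, ?_⟩
    · change Gen (Val η κ) Q (fun i => s (x i))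
      rw [h5]
      exact hb
    · change real (fun i => s (x i)) = real b
      rw [h5]
  · rintro ⟨x, hx, rfl⟩
    exact ⟨_, hx, rfl⟩

end MP2900
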