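import Pool.Agent.Lib.MP_2900b9_lc.C.FDefs

/-!
Module Gener: generic branches.

* gen_exists: recursion: from the valid condition `c_j` pass to `c_{j+1} ⊇ c_j`: if some valid extension of `c_j` satisfies `Q j` take it, otherwise take `c_j`; then append one more entry (so the lengths go to infinity). Let `b i` be the entry number `i` of `c_j` for any `j` with `i < c_j.length`. All `seg b n` are prefixes of some `c_j`,
  so valid; `c_j = seg b (c_j.length)`. For `j`: either `Q j (c)` for the condition chosen at stage `j`, or no valid extension of `c_j` satisfies `Q j`.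
* gen_nat: if `J` is empty take `fun _ _ => True`; otherwise a surjection `ℕ → J`.
* gen_and: interleave, or gen_nat for `ℕ ⊕ ℕ`. gen_iInf: gen_nat for `ℕ × ℕ`.
-/

set_option autoImplicit false

namespace MP2900

open Set Pool.Agent.Lib.MP_2900b9_lc

variable {A : Type*} {V : List A → Prop}

private theorem gen_step (hex : ∀ c, V c → ∃ a, V (c ++ [a])) (Q : ℕ → List A → Prop) (j : ℕ)
    (c : {c : List A // V c}) : ∃ c' : {c : List A // V c}, c.1.length < c'.1.length ∧
      ∃ d, c.1 <+: d ∧ d <+: c'.1 ∧ (Q j d ∨ ∀ e, V e → d <+: e → ¬ Q j e) := by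
  by_cases h : ∃ d, V d ∧ c.1 <+: d ∧ Q j d
  · obtain ⟨d, h1, h2, h3⟩ := h
    obtain ⟨a, ha⟩ := hex d h1
    refine ⟨⟨d ++ [a], ha⟩, ?_, d, h2, List.prefix_append _ _, Or.inl h3⟩
    have := h2.length_le
    simp only [List.length_append, List.length_singleton]
    omega
  · obtain ⟨a, ha⟩ := hex c.1 c.2
    refine ⟨⟨c.1 ++ [a], ha⟩, ?_, c.1, List.prefix_rfl, List.prefix_append _ _, Or.inr ?_⟩
    · simp only [List.length_append, List.length_singleton]
      omega
    · intro e h1 h2 h3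
      exact h ⟨e, h1, h2, h3⟩

theorem gen_exists (hex : ∀ c, V c → ∃ a, V (c ++ [a])) (hpre : ∀ c d, c <+: d → V d → V c)
    (Q : ℕ → List A → Prop) {c : List A} (hc : V c) :
    ∃ b : ℕ → A, Gen V Q b ∧ seg b c.length = c := by
  choose st hst1 hst2 using gen_step hex Q
  let C : ℕ → {c : List A // V c} := fun n => Nat.rec ⟨c, hc⟩ (fun j x => st j x) n
  have hC0 : (C 0).1 = c := rfl
  have hCs : ∀ j, C (j + 1) = st j (C j) := fun j => rfl
  have hpc : ∀ i j, i ≤ j → (C i).1 <+: (C j).1 := by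
    intro i j hij
    induction j, hij using Nat.le_induction with
    | base => exact List.prefix_rfl
    | succ j _ ih =>
      obtain ⟨d, h1, h2, -⟩ := hst2 j (C j)
      rw [hCs]
      exact ih.trans (h1.trans h2)
  have hlen : ∀ j, j ≤ (C j).1.length := by
    intro j
    induction j with
    | zero => exact Nat.zero_le _
    | succ j ih =>
      have := hst1 j (C j)
      rw [← hCs] at this
      omega
  let b : ℕ → A := fun i => (C (i + 1)).1[i]'(lt_of_lt_of_le (Nat.lt_succ_self i) (hlen (i + 1)))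
  have hb0 : ∀ i, (C (i + 1)).1[i]? = some (b i) := fun i =>
    List.getElem?_eq_getElem (lt_of_lt_of_le (Nat.lt_succ_self i) (hlen (i + 1)))
  have hb : ∀ j i, i < (C j).1.length → (C j).1[i]? = some (b i) := by
    intro j i hi
    have h0 := hb0 i
    rcases le_total j (i + 1) with h | h
    · obtain ⟨t, ht⟩ := hpc _ _ h
      rw [← ht, List.getElem?_append_left hi] at h0
      exact h0
    · obtain ⟨t, ht⟩ := hpc _ _ h
      rw [← ht, List.getElem?_append_left (lt_of_lt_of_le (Nat.lt_succ_self i) (hlen (i + 1)))]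
      exact h0
  have hseg : ∀ j, seg b (C j).1.length = (C j).1 := by
    intro j
    apply List.ext_getElem?
    intro i
    by_cases hi : i < (C j).1.length
    · rw [seg_getElem? b hi, hb j i hi]
    · rw [List.getElem?_eq_none (by rw [length_seg]; omega), List.getElem?_eq_none (by omega)]
  refine ⟨b, ⟨?_, ?_⟩, ?_⟩
  · intro n
    refine hpre _ _ (seg_prefix b (hlen n)) ?_
    rw [hseg]
    exact (C n).2
  · intro j
    obtain ⟨d, -, h2, h3⟩ := hst2 j (C j)
    rw [← hCs, ← hseg (j + 1)] at h2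
    have h4 := seg_eq_of_prefix h2
    refine ⟨d.length, ?_⟩
    rw [← h4]
    exact h3
  · exact hseg 0

theorem gen_nat {J : Type*} [Countable J] (Q : J → List A → Prop) :
    ∃ Q' : ℕ → List A → Prop, ∀ b, Gen V Q' b → Gen V Q b := by
  rcases isEmpty_or_nonempty J with hJ | hJ
  · exact ⟨fun _ _ => True, fun b hb => ⟨hb.1, fun j => isEmptyElim j⟩⟩
  · obtain ⟨f, hf⟩ := exists_surjective_nat J
    refine ⟨fun n => Q (f n), fun b hb => ⟨hb.1, fun j => ?_⟩⟩
    obtain ⟨n, rfl⟩ := hf j
    exact hb.2 n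

theorem gen_and (Q Q' : ℕ → List A → Prop) :
    ∃ Q'' : ℕ → List A → Prop, ∀ b, Gen V Q'' b → Gen V Q b ∧ Gen V Q' b := by
  obtain ⟨Q'', h⟩ := gen_nat (V := V) (Sum.elim Q Q')
  refine ⟨Q'', fun b hb => ?_⟩
  have h1 := h b hb
  exact ⟨⟨h1.1, fun j => h1.2 (Sum.inl j)⟩, ⟨h1.1, fun j => h1.2 (Sum.inr j)⟩⟩

theorem gen_iInf (Q : ℕ → ℕ → List A → Prop) :
    ∃ Q' : ℕ → List A → Prop, ∀ b, Gen V Q' b → ∀ i, Gen V (Q i) b := by
  obtain ⟨Q', h⟩ := gen_nat (V := V) (fun p : ℕ × ℕ => Q p.1 p.2)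
  refine ⟨Q', fun b hb i => ?_⟩
  have h1 := h b hb
  exact ⟨h1.1, fun j => h1.2 (i, j)⟩

end MP2900
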