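import Pool.Agent.Lib.MP_2900b9_lc.C.Rank
import Pool.Agent.Lib.MP_2900b9_lc.C.ElemBo

/-!
Module RelZ: the order of a real with its formal top element.

* acc_some: `Acc (relZ z) (some m) ↔ Acc (ltF (Fz z)) m` (the predecessors of `some m` are the `some m'` with `m' < m`; two inductions).
* rk_some: `rk (relZ z) (some m) = rk (ltF (Fz z)) m`: `LR (relZ z) ξ (some m) ↔ LR (ltF (Fz z)) ξ m` by induction on `ξ`, so the two infima are over the same set.
* acc_none: `Acc (relZ z) none ↔ ∀ m, Acc (ltF (Fz z)) m`.
* rk_some_lt: `rk (relZ z) (some m) < rk (relZ z) none` when `none` is accessible (rk_lt).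
* relZ_onto: `z` has the facts of `g` which is onto `κ`: then `Fz z = Fg g` (funext), `z ∈ Bo` by bo_of_wit and wit_of_onto; the relation `ltF (Fz z) a b ↔ g a < g b` is well-founded;
  `rk (ltF (Fz z)) m = g m`: by induction (`≤`: rk_le_of; `≥`: for `ζ < g m` there is `m'` with `g m' = ζ < g m`, so `ζ = rk m' < rk m`). `rk none = κ`: `≤` by rk_le_of; `≥`: every `ζ < κ` is
  some `g m = rk (some m) < rk none`.
* exists_real: `z (2 j) := if x j then 1 else 0`, `z (2 k + 1) := 1` iff the decoding of `k` is a true fact of `F` (`Encodable.encodek`).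
-/

set_option autoImplicit false

namespace MP2900

open Set Pool.Agent.Lib.MP_2900b9_lc

variable [TP]

theorem acc_some (z : ℕ → ℕ) (m : ℕ) : Acc (relZ z) (some m) ↔ Acc (ltF (Fz z)) m := by
  constructor
  · intro h
    have key : ∀ o : Option ℕ, Acc (relZ z) o → ∀ m, o = some m → Acc (ltF (Fz z)) m := by
      intro o ho
      induction ho with
      | intro o _ ih =>
        rintro m rfl
        exact Acc.intro m fun m' hm' => ih (some m') hm' m' rfl
    exact key _ h m rfl
  · intro h
    induction h with
    | intro m _ ih =>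
      refine Acc.intro _ fun o ho => ?_
      cases o with
      | none => exact ho.elim
      | some m' => exact ih m' ho

theorem rk_some (z : ℕ → ℕ) (m : ℕ) : rk (relZ z) (some m) = rk (ltF (Fz z)) m := by
  have key : ∀ (ξ : Ordinal.{0}) (m : ℕ), LR (relZ z) ξ (some m) ↔ LR (ltF (Fz z)) ξ m := by
    intro ξ
    induction ξ using WellFoundedLT.induction with
    | _ ξ ih =>
      intro m
      rw [LR_iff, LR_iff]
      constructor
      · intro h b hb
        obtain ⟨ξ', h1, h2⟩ := h (some b) hb
        exact ⟨ξ', h1, (ih ξ' h1 b).1 h2⟩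
      · intro h o ho
        cases o with
        | none => exact ho.elim
        | some b =>
          obtain ⟨ξ', h1, h2⟩ := h b ho
          exact ⟨ξ', h1, (ih ξ' h1 b).2 h2⟩
  unfold rk
  have h1 : {ξ | LR (relZ z) ξ (some m)} = {ξ | LR (ltF (Fz z)) ξ m} := by
    ext ξ
    exact key ξ m
  rw [h1]

theorem acc_none (z : ℕ → ℕ) : Acc (relZ z) none ↔ ∀ m, Acc (ltF (Fz z)) m := by
  constructor
  · intro h m
    exact (acc_some z m).1 (h.inv (show relZ z (some m) none from trivial))
  · intro h
    refine Acc.intro _ fun o ho => ?_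
    cases o with
    | none => exact ho.elim
    | some m => exact (acc_some z m).2 (h m)

theorem relZ_onto (z : ℕ → ℕ) (g : ℕ → Ordinal.{0}) (κ : Ordinal.{0}) (hg : range g = Iio κ)
    (hz : ∀ φ f v, Fz z φ f v ↔ Fg g φ f v) :
    z ∈ Bo ∧ Acc (relZ z) none ∧ rk (relZ z) none = κ ∧ ∀ m, rk (relZ z) (some m) = g m := by
  have hF : Fz z = Fg g := by
    funext φ f v
    exact propext (hz φ f v)
  have hlt : ∀ a b, ltF (Fz z) a b ↔ g a < g b := by
    intro a b
    rw [hF]
    exact ltF_Fg g a b
  have hκ : ∀ m, g m < κ := fun m => by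
    have h1 : g m ∈ range g := ⟨m, rfl⟩
    rw [hg] at h1
    exact h1
  have hacc : ∀ m, Acc (ltF (Fz z)) m := by
    have h1 : ltF (Fz z) = InvImage (· < ·) g := by
      funext a b
      exact propext (hlt a b)
    intro m
    rw [h1]
    exact (InvImage.wf g wellFounded_lt).apply m
  have hrk : ∀ (θ : Ordinal.{0}) (m : ℕ), g m = θ → rk (ltF (Fz z)) m = g m := by
    intro θ
    induction θ using WellFoundedLT.induction with
    | _ θ ih =>
      intro m hm
      apply le_antisymm
      · refine rk_le_of (exists_LR (hacc m)) fun b hb => ?_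
        have h1 := (hlt b m).1 hb
        rw [ih (g b) (hm ▸ h1) b rfl]
        exact h1
      · by_contra hcon
        rw [not_le] at hcon
        have h1 : rk (ltF (Fz z)) m ∈ range g := by
          rw [hg]
          exact hcon.trans (hκ m)
        obtain ⟨m', hm'⟩ := h1
        have h2 : g m' < g m := hm' ▸ hcon
        have h3 := rk_lt (exists_LR (hacc m)) ((hlt m' m).2 h2)
        rw [ih (g m') (hm ▸ h2) m' rfl, hm'] at h3
        exact lt_irrefl _ h3
  have hrk' : ∀ m, rk (relZ z) (some m) = g m := fun m => by
    rw [rk_some]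
    exact hrk _ m rfl
  have hnone := (acc_none z).2 hacc
  refine ⟨?_, hnone, ?_, hrk'⟩
  · show BoF (Fz z)
    rw [hF]
    exact bo_of_wit g (wit_of_onto g κ hg)
  · apply le_antisymm
    · refine rk_le_of (exists_LR hnone) fun b hb => ?_
      cases b with
      | none => exact hb.elim
      | some m =>
        rw [hrk' m]
        exact hκ m
    · by_contra hcon
      rw [not_le] at hcon
      have h1 : rk (relZ z) none ∈ range g := by
        rw [hg]
        exact hcon
      obtain ⟨m, hm⟩ := h1
      have h2 := rk_lt (exists_LR hnone) (show relZ z (some m) none from trivial)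
      rw [hrk' m, hm] at h2
      exact lt_irrefl _ h2

theorem exists_real (F : Fm → List ℕ → ℕ → Prop) (x : ℕ → Prop) :
    ∃ z : ℕ → ℕ, (∀ φ f v, Fz z φ f v ↔ F φ f v) ∧ (∀ j, z (2 * j) ≠ 0 ↔ x j) ∧ ∀ k, z k ≤ 1 := by
  classical
  refine ⟨fun k => if k % 2 = 0 then (if x (k / 2) then 1 else 0)
    else match (Encodable.decode (k / 2) : Option (Fm × List ℕ × ℕ)) with
      | none => 0
      | some (φ, f, v) => if F φ f v then 1 else 0, fun φ f v => ?_, fun j => ?_, fun k => ?_⟩
  · unfold Fz fc
    have h1 : (2 * Encodable.encode (φ, f, v) + 1) % 2 ≠ 0 := by omega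
    have h2 : (2 * Encodable.encode (φ, f, v) + 1) / 2 = Encodable.encode (φ, f, v) := by omega
    simp only [h1, if_false, h2, Encodable.encodek]
    by_cases hF : F φ f v <;> simp [hF]
  · have h1 : (2 * j) % 2 = 0 := by omega
    have h2 : (2 * j) / 2 = j := by omega
    simp only [h1, if_true, h2]
    by_cases hx : x j <;> simp [hx]
  · show (if k % 2 = 0 then (if x (k / 2) then 1 else 0)
      else match (Encodable.decode (k / 2) : Option (Fm × List ℕ × ℕ)) with
        | none => 0
        | some (φ, f, v) => if F φ f v then 1 else 0) ≤ 1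
    split_ifs
    · exact le_rfl
    · exact Nat.zero_le _
    · split
      · exact Nat.zero_le _
      · split_ifs
        · exact le_rfl
        · exact Nat.zero_le _

end MP2900
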