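import Pool.Agent.Lib.MP_2900b9_lc.C.Poset
import Pool.Agent.Lib.MP_2900b9_lc.C.Gener
import Pool.Agent.Lib.MP_2900b9_lc.C.RelZ
import Pool.Agent.Lib.MP_2900b9_lc.C.KOrd

/-!
Module GenReal: the real of a generic branch.

Countable families (all parameters are countable as `η β`, `κ β` are countable): for `β`, `ζ < κ β`: `Q c := ∃ i < c.length, (ext c i).g β = ζ`; for `β`, `j : ℕ`, `ζ < η β`: `Q c := ∃ k, chd j k < c.length ∧ (ext c (chd j k)).h β = some ζ`. Let `b` be generic.
(1) `range (fun i => (b i).g β) = Iio (κ β)`: `⊆` by validity. `⊇`: every valid `c` has a valid extension in `Q`: append an entry with `g β = ζ` (other data as in val_ex). So genericity gives `Q (seg b n)`.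
(2) tags: `(b 0).h β = some (η β)`. If `(b j).h β = some ζ'` and `ζ < ζ'` (so `ζ < η β`), then there is `k` with `(b (chd j k)).h β = some ζ`: every valid extension `c` of `seg b (j+1)` has a valid extension in `Q`: choose `k` with `chd j k ≥ c.length` (chd j k > k), fill up with entries `none`/0 up to `chd j k` and there put the tag `some ζ` for `β` (`none` for the other component, if `chd j k ≠ 0`):
  valid since the parent `j` has tag `ζ' > ζ`.
(3) The tree of `cmpt β (real b)`: node `j` is in it iff `(b j).h β ≠ none` (`cmpt β (real b) = realC β b` by ev_jn, od_jn). By induction on `ζ'`: if `(b j).h β = some ζ'` then `ERk (relX (realC β b)) ζ' j` (use erk_iff'): the predecessors of `j` in `relX` are the children with a tag, their tags are `< ζ'` (validity, par) and every `ζ < ζ'` occurs by (2).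
(4) `Fz (realC β b) φ f v ↔ Fg (fun i => (b i).g β) φ f v` (`Encodable.encodek`), then relZ_onto.
-/

set_option autoImplicit false

namespace MP2900

open Set Pool.Agent.Lib.MP_2900b9_lc

variable [TP] {η κ : Bool → Ordinal.{0}}

private theorem gr_ext {c : List Ent} {a : Ent} {i : ℕ} (hi : i < c.length) :
    ext (c ++ [a]) i = ext c i :=
  ext_of_prefix (List.prefix_append c [a]) hi

private theorem gr_app {c : List Ent} (hc : Val η κ c) (a : Ent) (hg : ∀ β, a.g β < κ β)
    (h0 : c.length = 0 → ∀ β, a.h β = some (η β))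
    (h1 : c.length ≠ 0 → ∀ β ζ, a.h β = some ζ → ∃ ζ', (ext c (par c.length)).h β = some ζ' ∧
      ζ < ζ') : Val η κ (c ++ [a]) := by
  intro i hi β
  rw [List.length_append, List.length_singleton] at hi
  rcases Nat.lt_succ_iff_lt_or_eq.1 hi with hi' | rfl
  · have h2 := hc i hi' β
    rw [gr_ext hi']
    refine ⟨h2.1, h2.2.1, fun hi0 => ?_⟩
    rw [gr_ext ((par_lt (Nat.one_le_iff_ne_zero.2 hi0)).trans hi')]
    exact h2.2.2 hi0
  · rw [ext_append_length]
    refine ⟨hg β, fun h => h0 h β, fun hi0 => ?_⟩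
    rw [gr_ext (par_lt (Nat.one_le_iff_ne_zero.2 hi0))]
    exact h1 hi0 β

private theorem gr_fill (hκ0 : ∀ β, 0 < κ β) {c : List Ent} (hc : Val η κ c) (h1 : 1 ≤ c.length)
    (M : ℕ) (hM : c.length ≤ M) : ∃ d, Val η κ d ∧ c <+: d ∧ d.length = M := by
  induction M, hM using Nat.le_induction with
  | base => exact ⟨c, hc, List.prefix_rfl, rfl⟩
  | succ M hM ih =>
    obtain ⟨d, hd, hcd, hdM⟩ := ih
    refine ⟨d ++ [⟨fun _ => none, fun _ => 0⟩], gr_app hd _ hκ0 ?_ ?_,
      hcd.trans (List.prefix_append _ _), ?_⟩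
    · intro h
      omega
    · intro _ β ζ h
      simp at h
    · rw [List.length_append, hdM, List.length_singleton]

theorem cmpt_real (b : ℕ → Ent) (β : Bool) : cmpt β (real b) = realC β b := by
  cases β
  · exact od_jn _ _
  · exact ev_jn _ _

theorem Fz_realC (b : ℕ → Ent) (β : Bool) (φ : Fm) (f : List ℕ) (v : ℕ) :
    Fz (realC β b) φ f v ↔ Fg (fun i => (b i).g β) φ f v := by
  classical
  have h1 : fc φ f v % 2 ≠ 0 := by unfold fc; omega
  have h2 : fc φ f v / 2 = Encodable.encode (φ, f, v) := by unfold fc; omega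
  unfold Fz realC
  rw [if_neg h1, h2, Encodable.encodek]
  by_cases h : Fg (fun i => (b i).g β) φ f v
  · simp [h]
  · simp [h]

private theorem gr_relX (b : ℕ → Ent) (β : Bool) (j i : ℕ) :
    relX (realC β b) j i ↔ 1 ≤ j ∧ par j = i ∧ ∃ ζ, (b j).h β = some ζ := by
  classical
  have h1 : (2 * j) % 2 = 0 := by omega
  have h2 : (2 * j) / 2 = j := by omega
  unfold relX realC
  rw [if_pos h1, h2, ← Option.isSome_iff_exists]
  by_cases h : ((b j).h β).isSome = true
  · simp [h]
  · simp [h]

theorem gen_real (hη : ∀ β, Ctb (η β)) (hκ : ∀ β, Ctb (κ β)) (hκ0 : ∀ β, 0 < κ β) :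
    ∃ Q : ℕ → List Ent → Prop, ∀ b, Gen (Val η κ) Q b → ∀ β,
      cmpt β (real b) ∈ Bo ∧ Acc (relZ (cmpt β (real b))) none ∧
      rk (relZ (cmpt β (real b))) none = κ β ∧ Acc (relX (cmpt β (real b))) 0 ∧
      rk (relX (cmpt β (real b))) 0 = η β ∧ range (fun i => (b i).g β) = Iio (κ β) := by
  classical
  have hcη : ∀ β, Countable (Iio (η β)) := fun β => (hη β).to_subtype
  have hcκ : ∀ β, Countable (Iio (κ β)) := fun β => (hκ β).to_subtype
  let Q0 : ((Σ β : Bool, Iio (κ β)) ⊕ (Σ β : Bool, ℕ × Iio (η β))) → List Ent → Prop :=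
    fun j c => match j with
      | Sum.inl ⟨β, ζ⟩ => ∃ i < c.length, (ext c i).g β = ζ.1
      | Sum.inr ⟨β, (j, ζ)⟩ => ∃ k, chd j k < c.length ∧ (ext c (chd j k)).h β = some ζ.1
  obtain ⟨Q', hQ'⟩ := gen_nat (V := Val η κ) Q0
  refine ⟨Q', fun b hb' β => ?_⟩
  obtain ⟨hv, hgen⟩ := hQ' b hb'
  have hvn : ∀ i, VN η κ b i := fun i => (val_seg b (i + 1)).1 (hv (i + 1)) i (Nat.lt_succ_self i)
  -- (1)
  have hrange : range (fun i => (b i).g β) = Iio (κ β) := by
    apply Subset.antisymm
    · rintro _ ⟨i, rfl⟩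
      exact (hvn i β).1
    · intro ζ hζ
      obtain ⟨n, hn⟩ := hgen (Sum.inl ⟨β, ⟨ζ, hζ⟩⟩)
      rcases hn with hn | hn
      · obtain ⟨i, hi, h1⟩ := hn
        rw [length_seg] at hi
        rw [ext_seg b hi] at h1
        exact ⟨i, h1⟩
      · exfalso
        set a : Ent := ⟨fun β' => if n = 0 then some (η β') else none,
          fun β' => if β' = β then ζ else 0⟩ with ha
        refine hn (seg b n ++ [a]) (gr_app (hv n) a ?_ ?_ ?_) (List.prefix_append _ _) ?_
        · intro β'
          by_cases h : β' = β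
          · subst h
            simpa [ha] using hζ
          · simpa [ha, h] using hκ0 β'
        · intro h β'
          rw [length_seg] at h
          simp [ha, h]
        · intro h β' ζ' h2
          rw [length_seg] at h
          simp [ha, h] at h2
        · refine ⟨n, by simp, ?_⟩
          have h1 := ext_append_length (seg b n) a
          rw [length_seg] at h1
          rw [h1]
          simp [ha]
  -- (2)
  have htag : ∀ j ζ', (b j).h β = some ζ' → ζ' ≤ η β := by
    intro j
    induction j using Nat.strong_induction_on with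
    | _ j ih =>
      intro ζ' h
      by_cases hj : j = 0
      · have h1 := (hvn j β).2.1 hj
        rw [h] at h1
        exact (Option.some.inj h1).le
      · obtain ⟨ζ'', h1, h2⟩ := (hvn j β).2.2 hj ζ' h
        exact h2.le.trans (ih (par j) (par_lt (Nat.one_le_iff_ne_zero.2 hj)) ζ'' h1)
  have hchd : ∀ j ζ' ζ, (b j).h β = some ζ' → ζ < ζ' → ∃ k, (b (chd j k)).h β = some ζ := by
    intro j ζ' ζ hj hζ
    have hζη : ζ < η β := hζ.trans_le (htag j ζ' hj)
    obtain ⟨n, hn⟩ := hgen (Sum.inr ⟨β, (j, ⟨ζ, hζη⟩)⟩)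
    rcases hn with hn | hn
    · obtain ⟨k, hk, h1⟩ := hn
      rw [length_seg] at hk
      rw [ext_seg b hk] at h1
      exact ⟨k, h1⟩
    · exfalso
      set N := max n (j + 1) with hN
      have hnN : n ≤ N := le_max_left _ _
      have hjN : j < N := lt_of_lt_of_le (Nat.lt_succ_self j) (le_max_right _ _)
      have hM : (seg b N).length ≤ chd j N := by
        rw [length_seg]
        exact (Nat.left_le_pair N j).trans (Nat.le_succ _)
      obtain ⟨d, hd, hcd, hdM⟩ := gr_fill hκ0 (hv N) (by rw [length_seg]; omega) (chd j N) hM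
      set a : Ent := ⟨fun β' => if β' = β then some ζ else none, fun _ => 0⟩ with ha
      have hdj : ext d j = b j := by
        rw [ext_of_prefix hcd (by rw [length_seg]; exact hjN), ext_seg b hjN]
      refine hn (d ++ [a]) (gr_app hd a hκ0 ?_ ?_)
        (((seg_prefix b hnN).trans hcd).trans (List.prefix_append _ _)) ?_
      · intro h
        rw [hdM] at h
        exact absurd h (Nat.one_le_iff_ne_zero.1 (one_le_chd j N))
      · intro _ β' ζ1 h2
        rw [hdM, par_chd, hdj]
        by_cases h3 : β' = β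
        · subst h3
          have h4 : ζ1 = ζ := by simpa [ha] using h2.symm
          rw [h4]
          exact ⟨ζ', hj, hζ⟩
        · simp [ha, h3] at h2
      · refine ⟨N, ?_, ?_⟩
        · rw [List.length_append, hdM, List.length_singleton]
          exact Nat.lt_succ_self _
        · have h1 := ext_append_length d a
          rw [hdM] at h1
          rw [h1]
          simp [ha]
  -- (3)
  have herk : ∀ ζ' j, (b j).h β = some ζ' → ERk (relX (realC β b)) ζ' j := by
    intro ζ'
    induction ζ' using WellFoundedLT.induction with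
    | _ ζ' ih =>
      intro j hj
      constructor
      · rw [LR_iff]
        intro j' hj'
        obtain ⟨h1, h2, ζ'', h3⟩ := (gr_relX b β j' j).1 hj'
        obtain ⟨ζ3, h4, h5⟩ := (hvn j' β).2.2 (Nat.one_le_iff_ne_zero.1 h1) ζ'' h3
        rw [h2, hj] at h4
        have h6 : ζ' = ζ3 := Option.some.inj h4
        rw [← h6] at h5
        exact ⟨ζ'', h5, (ih ζ'' h5 j' h3).1⟩
      · intro z' hz' hL
        obtain ⟨k, hk⟩ := hchd j ζ' z' hj hz'
        rw [LR_iff] at hL
        obtain ⟨ξ', h1, h2⟩ := hL (chd j k)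
          ((gr_relX b β _ _).2 ⟨one_le_chd j k, par_chd j k, z', hk⟩)
        exact (ih z' hz' (chd j k) hk).2 ξ' h1 h2
  have h0 := erk_iff'.1 (herk (η β) 0 ((hvn 0 β).2.1 rfl))
  -- (4)
  have h4 := relZ_onto (realC β b) (fun i => (b i).g β) (κ β) hrange (Fz_realC b β)
  rw [cmpt_real]
  exact ⟨h4.1, h4.2.1, h4.2.2.1, h0.1, h0.2, hrange⟩

end MP2900
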