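import Pool.Agent.Lib.MP_2900b9_lc.C.VU

/-!
Module UBdd: boundedness for analytic subsets of `UU` and of `AA`.

* U_bounded: `B` analytic, `B ⊆ Uset`. `N := {t | ∃ w ∈ B, ∀ β, cmpt β w ∉ Vset ∨ Sim (relX t) 0 (relZ (cmpt β w)) none}` is analytic (analytic_compl_V, analytic_sim on the product, `AnalyticSet.preimage`, finite intersection over `β : Bool`, projection), and all its elements are accessible at 0 (some
  component of `w` is in `Vset`, so for it the second alternative holds; sim_iff). wf_bounded gives `θ`. Let `w ∈ B`; if for every `β` the component is not in `Vset` or has height `> θ`, take `t` of rank `θ + 1` (exists_treeRk): `t ∈ N` by sim_iff, contradiction.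
* A_bounded: rel_bounded for `relZ` at `none` and for `relX` at `0`, maximum of the two bounds.
-/

set_option autoImplicit false

namespace MP2900

open Set Pool.Agent.Lib.MP_2900b9_lc

open Topology MeasureTheory

variable [TP]

private theorem ub_meas_relX_fst (j i : ℕ) :
    MeasurableSet {p : (ℕ → ℕ) × (ℕ → ℕ) | relX p.1 j i} :=
  measurable_fst (clopen_relX j i).isOpen.measurableSet

private theorem ub_meas_relZ (β : Bool) (a b : Option ℕ) :
    MeasurableSet {p : (ℕ → ℕ) × (ℕ → ℕ) | relZ (cmpt β p.2) a b} := by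
  have h1 : Continuous fun p : (ℕ → ℕ) × (ℕ → ℕ) => cmpt β p.2 := by
    cases β
    · exact continuous_od.comp continuous_snd
    · exact continuous_ev.comp continuous_snd
  exact h1.measurable (clopen_relZ a b).isOpen.measurableSet

private theorem ub_ctb_succ {θ : Ordinal.{0}} (h : Ctb θ) : Ctb (θ + 1) := by
  unfold Ctb at h ⊢
  have h1 : Iio (θ + 1) = insert θ (Iio θ) := by
    ext ξ
    rw [mem_Iio, Order.lt_add_one_iff, mem_insert_iff, mem_Iio]
    exact le_iff_eq_or_lt
  rw [h1]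
  exact h.insert θ

theorem U_bounded {B : Set (ℕ → ℕ)} (hB : AnalyticSet B) (h : B ⊆ Uset) :
    ∃ θ, Ctb θ ∧ ∀ w ∈ B, ∃ β, cmpt β w ∈ Vset ∧ rk (relZ (cmpt β w)) none ≤ θ := by
  let D : Bool → Set ((ℕ → ℕ) × (ℕ → ℕ)) := fun β =>
    {p | cmpt β p.2 ∉ Vset ∨ Sim (relX p.1) 0 (relZ (cmpt β p.2)) none}
  have hD : ∀ β, AnalyticSet (D β) := by
    intro β
    have h1 : D β = ((fun p : (ℕ → ℕ) × (ℕ → ℕ) => cmpt β p.2) ⁻¹' (Vset)ᶜ) ∪
        {p | Sim (relX p.1) 0 (relZ (cmpt β p.2)) none} := rfl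
    have h2 : Continuous fun p : (ℕ → ℕ) × (ℕ → ℕ) => cmpt β p.2 := by
      cases β
      · exact continuous_od.comp continuous_snd
      · exact continuous_ev.comp continuous_snd
    rw [h1, union_eq_iUnion]
    refine AnalyticSet.iUnion fun b => ?_
    cases b
    · exact analytic_sim (Ω := (ℕ → ℕ) × (ℕ → ℕ)) (fun p => relX p.1) (fun p => relZ (cmpt β p.2))
        ub_meas_relX_fst (ub_meas_relZ β) 0 none
    · exact analytic_compl_V.preimage h2
  let E : Set ((ℕ → ℕ) × (ℕ → ℕ)) := (Prod.snd ⁻¹' B) ∩ ⋂ β, D β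
  have hE : AnalyticSet E := by
    have h1 : E = ⋂ o : Option Bool, (match o with
      | none => Prod.snd ⁻¹' B
      | some β => D β) := by
      ext p
      simp only [E, mem_inter_iff, mem_iInter]
      constructor
      · rintro ⟨h2, h3⟩ o
        cases o with
        | none => exact h2
        | some β => exact h3 β
      · intro h2
        exact ⟨h2 none, fun β => h2 (some β)⟩
    rw [h1]
    refine AnalyticSet.iInter fun o => ?_
    cases o with
    | none => exact hB.preimage continuous_snd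
    | some β => exact hD β
  have hN : AnalyticSet (Prod.fst '' E) := hE.image_of_continuous continuous_fst
  have hacc : ∀ t ∈ Prod.fst '' E, Acc (relX t) 0 := by
    rintro _ ⟨p, ⟨hp1, hp2⟩, rfl⟩
    have h1 : ∃ β, cmpt β p.2 ∈ Vset := by
      rcases h hp1 with h2 | h2
      · exact ⟨true, h2⟩
      · exact ⟨false, h2⟩
    obtain ⟨β, hβ⟩ := h1
    rcases mem_iInter.1 hp2 β with h2 | h2
    · exact absurd hβ h2
    · exact ((sim_iff hβ.2.1).1 h2).1
  obtain ⟨θ, hθ, hθ2⟩ := wf_bounded hN hacc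
  refine ⟨θ, hθ, fun w hw => ?_⟩
  by_contra hcon
  push Not at hcon
  obtain ⟨t, ht1, ht2⟩ := exists_treeRk (θ + 1) (ub_ctb_succ hθ)
  have h1 : t ∈ Prod.fst '' E := by
    refine ⟨(t, w), ⟨hw, mem_iInter.2 fun β => ?_⟩, rfl⟩
    by_cases h2 : cmpt β w ∈ Vset
    · right
      refine (sim_iff h2.2.1).2 ⟨ht1, ?_⟩
      rw [ht2]
      exact Order.add_one_le_of_lt (hcon β h2)
    · exact Or.inl h2
  have h3 := hθ2 t h1
  rw [ht2] at h3
  exact absurd h3 (not_le.2 (Order.lt_add_one_iff.2 le_rfl))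

theorem A_bounded {B : Set (ℕ → ℕ)} (hB : AnalyticSet B) (h : B ⊆ Aset) :
    ∃ θ, Ctb θ ∧ ∀ z ∈ B, rk (relZ z) none ≤ θ ∧ rk (relX z) 0 ≤ θ := by
  obtain ⟨θ, h1, h2⟩ := rel_bounded relZ (fun i j => (clopen_relZ i j).isOpen.measurableSet) none hB
    fun z hz => (h hz).2.1
  obtain ⟨θ', h3, h4⟩ := rel_bounded relX (fun i j => (clopen_relX i j).isOpen.measurableSet) 0 hB
    fun z hz => (h hz).2.2.1
  rcases le_total θ θ' with h5 | h5
  · exact ⟨θ', h3, fun z hz => ⟨(h2 z hz).trans h5, h4 z hz⟩⟩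
  · exact ⟨θ, h1, fun z hz => ⟨h2 z hz, (h4 z hz).trans h5⟩⟩

end MP2900
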