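import Pool.Agent.Lib.MP_2900b9_lc.C.Sound
import Pool.Agent.Lib.MP_2900b9_lc.C.UBdd
import Pool.Agent.Lib.MP_2900b9_lc.C.GenAna
import Pool.Agent.Lib.MP_2900b9_lc.C.GenReal

/-!
Module GBU: if the continuous image of all generic reals lies in `UU` (or in `AA`), some condition forces exact data. `Q0` is the family for which the hypothesis is given.

* gb_U: The set `B = {F w | w = real b, b generic for Q0}` is analytic (gen_analytic, `AnalyticSet.image_of_continuous`), contained in `Uset`; U_bounded gives a countable `θ`. Let `b` be generic for `Q0` and for the families of `tru` with `G = fun w => cmpt β (F w)`, `β = true, false`, bound `θ`, through `c` (gen_exists with val_ex, val_pre; gen_and). There is `β` with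
  `y = cmpt β (F (real b)) ∈ Vset`, `γ := rk (relZ y) none ≤ θ` (countable: ctb_mono). By `tru`: `FBo`, `FH γ`, `FX γ` (`LR (relX y) γ 0` as `rk (relX y) 0 ≤ γ`: LR_iff_rk, exists_LR) hold at some `seg b n_i`; take `c' = seg b (max of n_i and c.length)`.
* gb_A: the same with A_bounded: `γ = rk (relZ y) none`, `ε = rk (relX y) 0`, both `≤ θ`, `JO γ ε` by definition of `Aset`; erk_iff'.
-/

set_option autoImplicit false

namespace MP2900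

open Set Pool.Agent.Lib.MP_2900b9_lc

open Topology MeasureTheory

variable [TP] {η κ : Bool → Ordinal.{0}}

private theorem gb_gen (hκ0 : ∀ β, 0 < κ β) (Q : ℕ → List Ent → Prop) {c : List Ent}
    (hc : Val η κ c) : ∃ b : ℕ → Ent, Gen (Val η κ) Q b ∧ seg b c.length = c :=
  gen_exists (fun _ h => val_ex hκ0 h) (fun _ _ h h' => val_pre h h') Q hc

theorem gb_U (hη : ∀ β, Ctb (η β)) (hκ : ∀ β, Ctb (κ β)) (hκ0 : ∀ β, 0 < κ β)
    {F : (ℕ → ℕ) → ℕ → ℕ} (hF : Continuous F) (Q0 : ℕ → List Ent → Prop)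
    (h : ∀ b, Gen (Val η κ) Q0 b → F (real b) ∈ Uset) {c : List Ent} (hc : Val η κ c) :
    ∃ c' β γ, Val η κ c' ∧ c <+: c' ∧ Ctb γ ∧ FBo η κ (fun w => cmpt β (F w)) c' ∧
      FH η κ (fun w => cmpt β (F w)) γ c' ∧ FX η κ (fun w => cmpt β (F w)) γ c' := by
  have hB := (gen_analytic hη hκ hκ0 Q0).image_of_continuous hF
  obtain ⟨θ, hθ, hθ'⟩ := U_bounded hB (by
    rintro _ ⟨w, ⟨b, hb, rfl⟩, rfl⟩
    exact h b hb)
  have hG : ∀ β, Continuous (fun w => cmpt β (F w)) := by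
    intro β
    cases β
    · exact continuous_od.comp hF
    · exact continuous_ev.comp hF
  obtain ⟨Q1, hQ1⟩ := tru (η := η) hκ0 (hG true) hθ
  obtain ⟨Q2, hQ2⟩ := tru (η := η) hκ0 (hG false) hθ
  obtain ⟨Q3, hQ3⟩ := gen_and (V := Val η κ) Q0 Q1
  obtain ⟨Q4, hQ4⟩ := gen_and (V := Val η κ) Q3 Q2
  obtain ⟨b, hb, hbc⟩ := gb_gen hκ0 Q4 hc
  obtain ⟨h3, h2⟩ := hQ4 b hb
  obtain ⟨h0, h1⟩ := hQ3 b h3
  obtain ⟨β, hV, hle⟩ := hθ' (F (real b)) ⟨real b, ⟨b, h0, rfl⟩, rfl⟩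
  have ht : (cmpt β (F (real b)) ∈ Bo ↔ ∃ n, FBo η κ (fun w => cmpt β (F w)) (seg b n)) ∧
      (∀ γ ≤ θ, ERk (relZ (cmpt β (F (real b)))) γ none ↔
        ∃ n, FH η κ (fun w => cmpt β (F w)) γ (seg b n)) ∧
      (∀ γ ≤ θ, LR (relX (cmpt β (F (real b)))) γ 0 ↔
        ∃ n, FX η κ (fun w => cmpt β (F w)) γ (seg b n)) := by
    cases β
    · obtain ⟨a1, a2, a3, -⟩ := hQ2 b h2
      exact ⟨a1, a2, a3⟩
    · obtain ⟨a1, a2, a3, -⟩ := hQ1 b h1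
      exact ⟨a1, a2, a3⟩
  obtain ⟨t1, t2, t3⟩ := ht
  obtain ⟨v1, v2, v3, v4⟩ := hV
  obtain ⟨n1, k1⟩ := t1.1 v1
  obtain ⟨n2, k2⟩ := (t2 _ hle).1 (erk_iff'.2 ⟨v2, rfl⟩)
  obtain ⟨n3, k3⟩ := (t3 _ hle).1 ((LR_iff_rk (exists_LR v3) _).2 v4)
  refine ⟨seg b (max (max n1 n2) (max n3 c.length)), β, _, hb.1 _, ?_, ctb_mono hle hθ,
    FBo_mono (seg_prefix b ?_) k1, FH_mono (seg_prefix b ?_) k2, FX_mono (seg_prefix b ?_) k3⟩
  · conv_lhs => rw [← hbc]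
    exact seg_prefix b ((le_max_right _ _).trans (le_max_right _ _))
  · exact (le_max_left _ _).trans (le_max_left _ _)
  · exact (le_max_right _ _).trans (le_max_left _ _)
  · exact (le_max_left _ _).trans (le_max_right _ _)

theorem gb_A (hη : ∀ β, Ctb (η β)) (hκ : ∀ β, Ctb (κ β)) (hκ0 : ∀ β, 0 < κ β)
    {F : (ℕ → ℕ) → ℕ → ℕ} (hF : Continuous F) (Q0 : ℕ → List Ent → Prop)
    (h : ∀ b, Gen (Val η κ) Q0 b → F (real b) ∈ Aset) {c : List Ent} (hc : Val η κ c) :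
    ∃ c' γ ε, Val η κ c' ∧ c <+: c' ∧ Ctb γ ∧ Ctb ε ∧ FBo η κ F c' ∧
      FH η κ F γ c' ∧ FXe η κ F ε c' ∧ JO γ ε := by
  have hB := (gen_analytic hη hκ hκ0 Q0).image_of_continuous hF
  obtain ⟨θ, hθ, hθ'⟩ := A_bounded hB (by
    rintro _ ⟨w, ⟨b, hb, rfl⟩, rfl⟩
    exact h b hb)
  obtain ⟨Q1, hQ1⟩ := tru (η := η) hκ0 hF hθ
  obtain ⟨Q3, hQ3⟩ := gen_and (V := Val η κ) Q0 Q1
  obtain ⟨b, hb, hbc⟩ := gb_gen hκ0 Q3 hc
  obtain ⟨h0, h1⟩ := hQ3 b hb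
  obtain ⟨hle, hle'⟩ := hθ' (F (real b)) ⟨real b, ⟨b, h0, rfl⟩, rfl⟩
  obtain ⟨t1, t2, -, t3, -⟩ := hQ1 b h1
  obtain ⟨v1, v2, v3, v4⟩ := h b h0
  obtain ⟨n1, k1⟩ := t1.1 v1
  obtain ⟨n2, k2⟩ := (t2 _ hle).1 (erk_iff'.2 ⟨v2, rfl⟩)
  obtain ⟨n3, k3⟩ := (t3 _ hle').1 (erk_iff'.2 ⟨v3, rfl⟩)
  refine ⟨seg b (max (max n1 n2) (max n3 c.length)), _, _, hb.1 _, ?_, ctb_mono hle hθ,
    ctb_mono hle' hθ, FBo_mono (seg_prefix b ?_) k1, FH_mono (seg_prefix b ?_) k2,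
    FXe_mono (seg_prefix b ?_) k3, v4⟩
  · conv_lhs => rw [← hbc]
    exact seg_prefix b ((le_max_right _ _).trans (le_max_right _ _))
  · exact (le_max_left _ _).trans (le_max_left _ _)
  · exact (le_max_right _ _).trans (le_max_left _ _)
  · exact (le_max_left _ _).trans (le_max_right _ _)

end MP2900
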