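import Pool.Agent.Lib.MP_2900b9_lc.C.GKB

/-!
Module GCode: the relation `Rr` composed with the Kleene-Brouwer pattern has a code.

Formula `ψ(u, c, n)` for the environment `ξ ++ [κ]`, `ξ.length = n`: `Fm.ex (Fm.and (Fm.lt (n+1) 0) (Fm.and (S true (u ++ [c])) (Fm.and (conjunction over c' < c of (S true (u ++ [c'])).neg) (S false u).neg)))`, where `S b u' := Fm.S (Fm.W b u' (List.range n) n) ((List.range (n+1)).map (· + 1)) 0` in the environment `ν₀ :: (ξ ++ [κ])`.
* sat_psi: for `ξ < κ < νs`: `Sat νs ψ (ξ ++ [κ]) ↔ Rr κ νs u c ξ`: sat_ex, sat_and, sat_lt, sat_S (`κ < ν₀` gives that all entries are `< ν₀`; the selected list is `ξ ++ [κ]`: sel_shift, sel_range), sat_W (sel_range_append, entry `n` is `κ`).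
* code: let `L` be the list of kb_list for `u`, `n`, `k = L.length`, `q = [0, κ, νs]`, so that in `l ++ q` with `l.length = k` position `k` is `0`, `k+1` is `κ`, `k+2` is `νs`. `b = ⟨ψ, f, k + 2, k, q⟩` with `f = (List.range n).map (fun j => if InT u j then L.idxOf j else k) ++ [k + 1]`. For `l = L.map a`: the selection of `l ++ q` at `f` is `pl u a n ++ [κ]` (`(L.map a)[L.idxOf j]? = some (a j)` for `j ∈ L`).
  `FctP FO ψ f (k+2) (l ++ q) ↔ (all entries of pl u a n ++ [κ] are < νs) ∧ Sat νs ψ (pl u a n ++ [κ]) ↔ Rr κ νs u c (pl u a n)`; entries of `pl u a n` are `a j < κ` or `0 < κ`.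
-/

set_option autoImplicit false

namespace MP2900

open Set Pool.Agent.Lib.MP_2900b9_lc

private def gSF (b : Bool) (u : List ℕ) (n : ℕ) : Fm :=
  Fm.S (Fm.W b u (List.range n) n) ((List.range (n + 1)).map (· + 1)) 0

private def gAnd : List Fm → Fm
  | [] => Fm.top
  | φ :: l => φ.and (gAnd l)

private def gPsi (u : List ℕ) (c n : ℕ) : Fm :=
  Fm.ex (Fm.and (Fm.lt (n + 1) 0) (Fm.and (gSF true (u ++ [c]) n)
    (Fm.and (gAnd ((List.range c).map fun c' => (gSF true (u ++ [c']) n).neg))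
      (gSF false u n).neg)))

private theorem sat_gAnd [TP] (ν : Ordinal.{0}) (e : List Ordinal.{0}) (l : List Fm) :
    Sat ν (gAnd l) e ↔ ∀ φ ∈ l, Sat ν φ e := by
  induction l with
  | nil => simp [gAnd, sat_top]
  | cons φ l ih => simp [gAnd, sat_and, ih]

private theorem sat_gSF [TP] {κ νs ν₀ : Ordinal.{0}} {ξ : List Ordinal.{0}} {n : ℕ}
    (hn : ξ.length = n) (hξ : ∀ x ∈ ξ, x < κ) (h : κ < ν₀) (h' : ν₀ < νs) (b : Bool)
    (u : List ℕ) : Sat νs (gSF b u n) (ν₀ :: (ξ ++ [κ])) ↔ WB b κ ν₀ u ξ := by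
  subst hn
  have hs : Sel ((List.range (ξ.length + 1)).map (· + 1)) (ν₀ :: (ξ ++ [κ])) (ξ ++ [κ]) := by
    have h2 := (sel_shift (List.range (ξ ++ [κ]).length) [ν₀] (ξ ++ [κ]) (ξ ++ [κ])).2
      (sel_range _)
    simpa using h2
  have hr : Sel (List.range ξ.length) (ξ ++ [κ]) ξ := sel_range_append ξ [κ]
  unfold gSF
  rw [sat_S]
  constructor
  · rintro ⟨c, a, hc, ha, -, -, hs'⟩
    have e1 : c = ξ ++ [κ] := hc.unique hs
    subst e1
    have e2 : a = ν₀ := by simpa using ha.symm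
    subst e2
    rw [sat_W] at hs'
    obtain ⟨c, a', hc', ha', -, hw⟩ := hs'
    have e3 : c = ξ := hc'.unique hr
    subst e3
    have e4 : a' = κ := by simpa using ha'.symm
    subst e4
    exact hw
  · intro hw
    refine ⟨ξ ++ [κ], ν₀, hs, by simp, ?_, h', ?_⟩
    · intro x hx
      rcases List.mem_append.1 hx with hx | hx
      · exact (hξ x hx).trans h
      · rw [List.mem_singleton.1 hx]
        exact h
    · rw [sat_W]
      exact ⟨ξ, κ, hr, by simp, hξ, hw⟩

private theorem sat_gPsi [TP] {κ νs : Ordinal.{0}} {ξ : List Ordinal.{0}} {n : ℕ}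
    (hn : ξ.length = n) (hξ : ∀ x ∈ ξ, x < κ) (u : List ℕ) (c : ℕ) :
    Sat νs (gPsi u c n) (ξ ++ [κ]) ↔ Rr κ νs u c ξ := by
  unfold gPsi Rr
  rw [sat_ex]
  constructor
  · rintro ⟨ν₀, hν, h⟩
    rw [sat_and, sat_lt, sat_and, sat_and, sat_gAnd, sat_neg] at h
    obtain ⟨⟨a, b, ha, hb, hab⟩, h2, h3, h4⟩ := h
    have e1 : a = κ := by
      subst hn
      simpa using ha.symm
    have e2 : b = ν₀ := by simpa using hb.symm
    rw [e1, e2] at hab
    rw [sat_gSF hn hξ hab hν] at h2 h4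
    refine ⟨ν₀, hab, hν, h2, fun c' hc' hw => ?_, h4⟩
    have h5 := h3 _ (List.mem_map.2 ⟨c', List.mem_range.2 hc', rfl⟩)
    rw [sat_neg, sat_gSF hn hξ hab hν] at h5
    exact h5 hw
  · rintro ⟨ν₀, hab, hν, h2, h3, h4⟩
    refine ⟨ν₀, hν, ?_⟩
    rw [sat_and, sat_lt, sat_and, sat_and, sat_gAnd, sat_neg, sat_gSF hn hξ hab hν,
      sat_gSF hn hξ hab hν]
    refine ⟨⟨κ, ν₀, ?_, by simp, hab⟩, h2, ?_, h4⟩
    · subst hn
      simp
    · intro φ hφ
      obtain ⟨c', hc', rfl⟩ := List.mem_map.1 hφ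
      rw [sat_neg, sat_gSF hn hξ hab hν]
      exact h3 c' (List.mem_range.1 hc')

theorem code_ex [TP] {κ νs : Ordinal.{0}} (h0 : 0 < κ) (h1 : κ < νs) (u : List ℕ) (c n : ℕ)
    (L : List ℕ) (hL : L.Pairwise kb) (hL' : ∀ j, j ∈ L ↔ j < n ∧ InT u j) :
    ∃ b : HC, b.q = [0, κ, νs] ∧ b.k = L.length ∧ ∀ a : ℕ → Ordinal.{0}, (∀ j ∈ L, a j < κ) →
      (b.Holds (L.map a) ↔ Rr κ νs u c (pl u a n)) := by
  classical
  refine ⟨⟨gPsi u c n, (List.range n).map (fun j => if InT u j then L.idxOf j else L.length) ++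
    [L.length + 1], L.length + 2, L.length, [0, κ, νs]⟩, rfl, rfl, fun a ha => ?_⟩
  have hlen : (pl u a n).length = n := by simp [pl]
  have hpl : ∀ x ∈ pl u a n, x < κ := by
    intro x hx
    obtain ⟨j, hj, rfl⟩ := List.mem_map.1 hx
    by_cases hT : InT u j
    · simp only [hT, if_true]
      exact ha j ((hL' j).2 ⟨List.mem_range.1 hj, hT⟩)
    · simp only [hT, if_false]
      exact h0
  have hs1 : Sel ((List.range n).map (fun j => if InT u j then L.idxOf j else L.length))
      (L.map a ++ [0, κ, νs]) (pl u a n) := by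
    unfold pl Sel
    rw [List.forall₂_map_left_iff, List.forall₂_map_right_iff, List.forall₂_same]
    intro j hj
    by_cases hT : InT u j
    · have hjL : j ∈ L := (hL' j).2 ⟨List.mem_range.1 hj, hT⟩
      have hlt : L.idxOf j < L.length := List.idxOf_lt_length_iff.2 hjL
      simp only [hT, if_true]
      rw [List.getElem?_append_left (by simpa using hlt), List.getElem?_map,
        List.getElem?_eq_getElem hlt, List.getElem_idxOf hlt]
      rfl
    · simp only [hT, if_false]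
      rw [List.getElem?_append_right (by simp)]
      simp
  have hs2 : Sel [L.length + 1] (L.map a ++ [0, κ, νs]) [κ] := by
    rw [sel_cons]
    refine ⟨?_, by simp [Sel]⟩
    rw [List.getElem?_append_right (by simp)]
    simp
  have hs := sel_append _ _ _ _ _ hs1 hs2
  have hv : (L.map a ++ [0, κ, νs])[L.length + 2]? = some νs := by
    rw [List.getElem?_append_right (by simp)]
    simp
  unfold HC.Holds FctP
  simp only
  constructor
  · rintro ⟨c', a', hc', ha', hF⟩
    have e1 := hc'.unique hs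
    rw [hv] at ha'
    have e2 := Option.some.inj ha'
    subst e1 e2
    exact (sat_gPsi hlen hpl u c).1 hF.2
  · intro hR
    refine ⟨_, νs, hs, hv, ?_, (sat_gPsi hlen hpl u c).2 hR⟩
    intro x hx
    rcases List.mem_append.1 hx with hx | hx
    · exact (hpl x hx).trans h1
    · rw [List.mem_singleton.1 hx]
      exact h1

end MP2900
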