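import Pool.Agent.Lib.MP_2900b9_lc.C.ClDefs
import Pool.Agent.Lib.MP_2900b9_lc.C.Basic

/-!
Definitions for the winning strategy of player I. (Proved file, not a module.)
-/

set_option autoImplicit false

namespace MP2900

open Set Pool.Agent.Lib.MP_2900b9_lc

/-- the Kleene-Brouwer order on finite sequences -/
def kbL : List ℕ → List ℕ → Prop
  | [], _ => False
  | _ :: _, [] => True
  | a :: s, b :: t => a < b ∨ (a = b ∧ kbL s t)

/-- the Kleene-Brouwer order on nodes -/
def kb (i j : ℕ) : Prop := kbL (nd i) (nd j)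

/-- the relation of the averaged strategy -/
def Rr [TP] (κ νs : Ordinal.{0}) (u : List ℕ) (c : ℕ) (ξ : List Ordinal.{0}) : Prop :=
  ∃ ν₀, κ < ν₀ ∧ ν₀ < νs ∧ WO κ ν₀ (u ++ [c]) ξ ∧ (∀ c' < c, ¬ WO κ ν₀ (u ++ [c']) ξ) ∧
    ¬ WE κ ν₀ u ξ

open Classical in
/-- the ordinals played for the nodes `< n`, from the ordinals `a` attached to the nodes -/
noncomputable def pl [TP] (u : List ℕ) (a : ℕ → Ordinal.{0}) (n : ℕ) : List Ordinal.{0} :=
  (List.range n).map fun j => if InT u j then a j else 0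

end MP2900
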