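import Pool.Agent.Lib.MP_2900b9_lc.C.GDefs
import Pool.Agent.Lib.MP_2900b9_lc.C.Rank

/-!
Module GKB: the Kleene-Brouwer order.

* kbL is irreflexive, transitive, total (for different lists), and `kbL (s ++ t) s` for `t ≠ []`: inductions on lists. `kb_par`: `nd j = nd (par j) ++ [k]` (nd_par).
* kb_list: the finite set `{j < n | InT u j}` sorted by the linear order `kb`, by insertion (induction on `n`).
* kb_wf: let `x ∉ pay`. The Kleene-Brouwer order on the tree of `x` is well-founded: if some sequence is not accessible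
  for the order restricted to the extensions of `p`, then the same holds for some child of `p`.
* kb_embed: `e i = rk R (some i)`; `θ = rk R none`, a formal top.
-/

set_option autoImplicit false

namespace MP2900

open Set Pool.Agent.Lib.MP_2900b9_lc

theorem kbL_irrefl (s : List ℕ) : ¬ kbL s s := by
  induction s with
  | nil => simp [kbL]
  | cons a s ih =>
    intro h
    simp only [kbL] at h
    rcases h with h | ⟨-, h⟩
    · exact absurd h (lt_irrefl _)
    · exact ih h

theorem kbL_trans {s t r : List ℕ} (h : kbL s t) (h' : kbL t r) : kbL s r := by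
  induction s generalizing t r with
  | nil => simp [kbL] at h
  | cons a s ih =>
    cases r with
    | nil => simp [kbL]
    | cons c r =>
      cases t with
      | nil => simp [kbL] at h'
      | cons b t =>
        simp only [kbL] at h h' ⊢
        rcases h with h | ⟨rfl, h⟩
        · rcases h' with h' | ⟨rfl, h'⟩
          · exact Or.inl (h.trans h')
          · exact Or.inl h
        · rcases h' with h' | ⟨rfl, h'⟩
          · exact Or.inl h'
          · exact Or.inr ⟨rfl, ih h h'⟩

theorem kbL_total {s t : List ℕ} (h : s ≠ t) : kbL s t ∨ kbL t s := by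
  induction s generalizing t with
  | nil =>
    cases t with
    | nil => exact absurd rfl h
    | cons b t => right; simp [kbL]
  | cons a s ih =>
    cases t with
    | nil => left; simp [kbL]
    | cons b t =>
      simp only [kbL]
      rcases lt_trichotomy a b with h1 | rfl | h1
      · exact Or.inl (Or.inl h1)
      · have h2 : s ≠ t := fun h2 => h (by rw [h2])
        rcases ih h2 with h3 | h3
        · exact Or.inl (Or.inr ⟨rfl, h3⟩)
        · exact Or.inr (Or.inr ⟨rfl, h3⟩)
      · exact Or.inr (Or.inl h1)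

private theorem kbL_app (s : List ℕ) {t : List ℕ} (h : t ≠ []) : kbL (s ++ t) s := by
  induction s with
  | nil =>
    cases t with
    | nil => exact absurd rfl h
    | cons b t => simp [kbL]
  | cons a s ih => simp [kbL, ih]

private theorem kbL_common (p : List ℕ) {s t : List ℕ} : kbL (p ++ s) (p ++ t) ↔ kbL s t := by
  induction p with
  | nil => simp
  | cons a p ih => simp [kbL, ih]

theorem kb_par {j : ℕ} (h : 1 ≤ j) : kb j (par j) := by
  obtain ⟨k, hk⟩ := nd_par h
  unfold kb
  rw [hk]
  exact kbL_app _ (by simp)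

private theorem kb_irrefl (i : ℕ) : ¬ kb i i := kbL_irrefl _

private theorem kb_trans {i j k : ℕ} (h : kb i j) (h' : kb j k) : kb i k := kbL_trans h h'

private theorem kb_total {i j : ℕ} (h : i ≠ j) : kb i j ∨ kb j i := by
  refine kbL_total fun h1 => h ?_
  rw [← num_nd i, h1, num_nd]

private theorem kb_insert (l : List ℕ) (hl : l.Pairwise kb) (x : ℕ) (hx : x ∉ l) :
    ∃ l' : List ℕ, l'.Pairwise kb ∧ ∀ j, j ∈ l' ↔ j = x ∨ j ∈ l := by
  classical
  refine ⟨l.filter (fun j => decide (kb j x)) ++ x :: l.filter (fun j => decide (kb x j)), ?_, ?_⟩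
  · rw [List.pairwise_append, List.pairwise_cons]
    refine ⟨hl.filter _, ⟨?_, hl.filter _⟩, ?_⟩
    · intro a ha
      simpa using (List.mem_filter.1 ha).2
    · intro a ha b hb
      have h1 : kb a x := by simpa using (List.mem_filter.1 ha).2
      rcases List.mem_cons.1 hb with rfl | hb
      · exact h1
      · have h2 : kb x b := by simpa using (List.mem_filter.1 hb).2
        exact kb_trans h1 h2
  · intro j
    simp only [List.mem_append, List.mem_filter, List.mem_cons, decide_eq_true_eq]
    constructor
    · rintro (⟨h, -⟩ | rfl | ⟨h, -⟩)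
      · exact Or.inr h
      · exact Or.inl rfl
      · exact Or.inr h
    · rintro (rfl | h)
      · exact Or.inr (Or.inl rfl)
      · have h1 : j ≠ x := fun h1 => hx (h1 ▸ h)
        rcases kb_total h1 with h2 | h2
        · exact Or.inl ⟨h, h2⟩
        · exact Or.inr (Or.inr ⟨h, h2⟩)

theorem kb_list [TP] (u : List ℕ) (n : ℕ) :
    ∃ l : List ℕ, l.Pairwise kb ∧ ∀ j, j ∈ l ↔ j < n ∧ InT u j := by
  induction n with
  | zero => exact ⟨[], List.Pairwise.nil, fun j => by simp⟩
  | succ n ih =>
    obtain ⟨l, h1, h2⟩ := ih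
    by_cases hn : InT u n
    · have h3 : n ∉ l := fun h => absurd ((h2 n).1 h).1 (lt_irrefl _)
      obtain ⟨l', h4, h5⟩ := kb_insert l h1 n h3
      refine ⟨l', h4, fun j => ?_⟩
      rw [h5, h2, Nat.lt_succ_iff_lt_or_eq]
      constructor
      · rintro (rfl | ⟨h, h'⟩)
        · exact ⟨Or.inr rfl, hn⟩
        · exact ⟨Or.inl h, h'⟩
      · rintro ⟨h | rfl, h'⟩
        · exact Or.inr ⟨h, h'⟩
        · exact Or.inl rfl
    · refine ⟨l, h1, fun j => ?_⟩
      rw [h2, Nat.lt_succ_iff_lt_or_eq]
      constructor
      · rintro ⟨h, h'⟩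
        exact ⟨Or.inl h, h'⟩
      · rintro ⟨h | rfl, h'⟩
        · exact ⟨h, h'⟩
        · exact absurd h' hn

/-- the sequence belongs to the tree of `x` -/
private def TT [TP] (x : ℕ → ℕ) (s : List ℕ) : Prop := TP.T (seg x s.length) s

private theorem TT_prefix [TP] {x : ℕ → ℕ} {p s : List ℕ} (h : p <+: s) (hs : TT x s) : TT x p := by
  have h1 := TP.take _ _ p.length hs
  rw [seg_take x h.length_le, ← List.prefix_iff_eq_take.1 h] at h1
  exact h1

/-- the Kleene-Brouwer order on the extensions of `p` in the tree of `x` -/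
private def RP [TP] (x : ℕ → ℕ) (p s t : List ℕ) : Prop :=
  p <+: s ∧ p <+: t ∧ TT x s ∧ TT x t ∧ kbL s t

private theorem RP_step [TP] {x : ℕ → ℕ} {p : List ℕ}
    (h : ∀ k s, (p ++ [k]) <+: s → Acc (RP x (p ++ [k])) s) (s : List ℕ) (hs : p <+: s) :
    Acc (RP x p) s := by
  have key : ∀ k s, (p ++ [k]) <+: s → Acc (RP x p) s := by
    intro k
    induction k using Nat.strong_induction_on with
    | _ k ih =>
      intro s hs
      have h1 := h k s hs
      induction h1 with
      | intro s _ ih2 =>
        refine Acc.intro s fun t ht => ?_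
        obtain ⟨ht1, -, ht3, ht4, ht5⟩ := ht
        obtain ⟨t', rfl⟩ := ht1
        obtain ⟨s', rfl⟩ := hs
        rw [List.append_assoc, kbL_common] at ht5
        cases t' with
        | nil => simp [kbL] at ht5
        | cons k' t' =>
          simp only [List.singleton_append, kbL] at ht5
          rcases ht5 with h2 | ⟨rfl, h2⟩
          · exact ih k' h2 _ ⟨t', by simp⟩
          · have h3 : (p ++ [k']) <+: (p ++ k' :: t') := ⟨t', by simp⟩
            refine ih2 _ ⟨h3, List.prefix_append _ _, ht3, ht4, ?_⟩ h3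
            rw [List.append_assoc, kbL_common]
            simp [kbL, h2]
  obtain ⟨s', rfl⟩ := hs
  cases s' with
  | cons k s' => exact key k _ ⟨s', by simp⟩
  | nil =>
    refine Acc.intro _ fun t ht => ?_
    obtain ⟨ht1, -, -, -, ht5⟩ := ht
    obtain ⟨t', rfl⟩ := ht1
    rw [kbL_common] at ht5
    cases t' with
    | nil => simp [kbL] at ht5
    | cons k' t' => exact key k' _ ⟨t', by simp⟩

private theorem kb_wf [TP] {x : ℕ → ℕ} (hx : x ∉ pay) (s : List ℕ) : Acc (RP x []) s := by
  by_contra hs
  apply hx
  let Q : List ℕ → Prop := fun p => ∃ s, p <+: s ∧ ¬ Acc (RP x p) s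
  have hQ0 : Q [] := ⟨s, List.nil_prefix, hs⟩
  have hQ : ∀ p, Q p → ∃ k, Q (p ++ [k]) := by
    rintro p ⟨s, h1, h2⟩
    by_contra hcon
    refine h2 (RP_step (fun k s hk => ?_) s h1)
    by_contra h3
    exact hcon ⟨k, s, hk, h3⟩
  have hT : ∀ p, Q p → TT x p := by
    rintro p ⟨s, h1, h2⟩
    by_contra hcon
    refine h2 (Acc.intro s fun t ht => ?_)
    exact absurd (TT_prefix h1 ht.2.2.2.1) hcon
  choose! f hf using hQ
  let P : ℕ → List ℕ := fun n => Nat.rec [] (fun _ p => p ++ [f p]) n
  have hP0 : P 0 = [] := rfl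
  have hPs : ∀ n, P (n + 1) = P n ++ [f (P n)] := fun _ => rfl
  have hPQ : ∀ n, Q (P n) := by
    intro n
    induction n with
    | zero => exact hQ0
    | succ n ih =>
      rw [hPs]
      exact hf _ ih
  have hseg : ∀ n, seg (fun n => f (P n)) n = P n := by
    intro n
    induction n with
    | zero => rw [seg_zero, hP0]
    | succ n ih => rw [seg_succ, ih, hPs]
  have hlen : ∀ n, (P n).length = n := by
    intro n
    rw [← hseg n, length_seg]
  refine ⟨fun n => f (P n), fun n => ?_⟩
  rw [hseg n]
  have h1 := hT _ (hPQ n)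
  unfold TT at h1
  rw [hlen n] at h1
  exact h1

/-- the tree of `x` with the Kleene-Brouwer order and a formal top -/
private def RO [TP] (x : ℕ → ℕ) : Option ℕ → Option ℕ → Prop
  | some i, some j => InX x i ∧ InX x j ∧ kb i j
  | some i, none => InX x i
  | none, _ => False

private theorem RO_acc [TP] {x : ℕ → ℕ} (hx : x ∉ pay) (i : ℕ) : Acc (RO x) (some i) := by
  have h1 := kb_wf hx (nd i)
  generalize hs : nd i = s at h1
  induction h1 generalizing i with
  | intro s _ ih =>
    subst hs
    refine Acc.intro _ fun b hb => ?_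
    cases b with
    | none => exact absurd hb (by simp [RO])
    | some j =>
      simp only [RO] at hb
      exact ih (nd j) ⟨List.nil_prefix, List.nil_prefix, hb.1, hb.2.1, hb.2.2⟩ j rfl

theorem kb_embed [TP] {x : ℕ → ℕ} (hx : x ∉ pay) :
    ∃ (θ : Ordinal.{0}) (e : ℕ → Ordinal.{0}), Ctb θ ∧ (∀ i, InX x i → e i < θ) ∧
      ∀ i j, InX x i → InX x j → (kb i j ↔ e i < e j) := by
  have hacc : ∀ i, ∃ ξ, LR (RO x) ξ (some i) := fun i => exists_LR (RO_acc hx i)
  have hnone : ∃ ξ, LR (RO x) ξ none := by
    refine exists_LR (Acc.intro _ fun b hb => ?_)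
    cases b with
    | none => exact absurd hb (by simp [RO])
    | some j => exact RO_acc hx j
  have hlt : ∀ i j, InX x i → InX x j → kb i j → rk (RO x) (some i) < rk (RO x) (some j) :=
    fun i j hi hj h => rk_lt (hacc j) (show RO x (some i) (some j) from ⟨hi, hj, h⟩)
  refine ⟨rk (RO x) none, fun i => rk (RO x) (some i), ctb_rk _ _, ?_, ?_⟩
  · intro i hi
    exact rk_lt hnone (show RO x (some i) none from hi)
  · intro i j hi hj
    refine ⟨hlt i j hi hj, fun h => ?_⟩
    by_contra h1
    have h2 : i ≠ j := by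
      rintro rfl
      exact absurd h (lt_irrefl _)
    rcases kb_total h2 with h3 | h3
    · exact h1 h3
    · exact absurd h (hlt j i hj hi h3).le.not_gt

end MP2900
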