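import Pool.Agent.Lib.MP_2900b9_lc.C.AClop
import Pool.Agent.Lib.MP_2900b9_lc.C.Gener

/-!
More definitions: the forced statements about a continuous image of the real. (Proved file, not a module.)
-/

set_option autoImplicit false

namespace MP2900

open Set Pool.Agent.Lib.MP_2900b9_lc

variable [TP]

/-- forcing `G w ∈ Bo` -/
def FBo (η κ : Bool → Ordinal.{0}) (G : (ℕ → ℕ) → ℕ → ℕ) (c : List Ent) : Prop :=
  FB (Val η κ) dec (fun k => {w | G w ∈ BoO k}) c

/-- forcing `the height of G w is exactly γ` -/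
def FH (η κ : Bool → Ordinal.{0}) (G : (ℕ → ℕ) → ℕ → ℕ) (γ : Ordinal.{0}) (c : List Ent) : Prop :=
  FT (Val η κ) dec (OZ G) γ none c

/-- forcing `the tree rank of G w is at most γ` -/
def FX (η κ : Bool → Ordinal.{0}) (G : (ℕ → ℕ) → ℕ → ℕ) (γ : Ordinal.{0}) (c : List Ent) : Prop :=
  FL (Val η κ) dec (OX G) γ 0 c

/-- forcing `the tree rank of G w is exactly γ` -/
def FXe (η κ : Bool → Ordinal.{0}) (G : (ℕ → ℕ) → ℕ → ℕ) (γ : Ordinal.{0}) (c : List Ent) :
    Prop :=
  FT (Val η κ) dec (OX G) γ 0 c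

/-- forcing `the elements nn of G w have exactly the ranks q` -/
def FN (η κ : Bool → Ordinal.{0}) (G : (ℕ → ℕ) → ℕ → ℕ) (q : List Ordinal.{0}) (nn : List ℕ)
    (c : List Ent) : Prop :=
  List.Forall₂ (fun z m => FT (Val η κ) dec (OZ G) z (some m) c) q nn

/-- parameters for the first reduction -/
noncomputable def η1 (μ : Ordinal.{0}) : Bool → Ordinal.{0}
  | true => Ordinal.omega0 * 2 * (μ + 3)
  | false => 0

/-- parameters for the second reduction: fake first component -/
noncomputable def η2 (κ ρ : Ordinal.{0}) : Bool → Ordinal.{0}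
  | true => κ + Ordinal.omega0 + 1
  | false => ρ

/-- parameters for the second reduction: both components true -/
noncomputable def η3 (κ ρ : Ordinal.{0}) : Bool → Ordinal.{0}
  | true => κ + Ordinal.omega0
  | false => ρ

/-- parameters for the second reduction: both components fake -/
noncomputable def η4 (κ ρ : Ordinal.{0}) : Bool → Ordinal.{0}
  | true => κ + Ordinal.omega0 + 1
  | false => ρ + 1

/-- parameters for the second reduction -/
noncomputable def κ2 (κ ρ : Ordinal.{0}) : Bool → Ordinal.{0}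
  | true => κ + Ordinal.omega0
  | false => ρ

theorem FBo_mono {η κ : Bool → Ordinal.{0}} {G : (ℕ → ℕ) → ℕ → ℕ} {c d : List Ent} (h : c <+: d)
    (hc : FBo η κ G c) : FBo η κ G d := FB_mono h hc

theorem FH_mono {η κ : Bool → Ordinal.{0}} {G : (ℕ → ℕ) → ℕ → ℕ} {γ : Ordinal.{0}}
    {c d : List Ent} (h : c <+: d) (hc : FH η κ G γ c) : FH η κ G γ d := FT_mono h hc

theorem FX_mono {η κ : Bool → Ordinal.{0}} {G : (ℕ → ℕ) → ℕ → ℕ} {γ : Ordinal.{0}}
    {c d : List Ent} (h : c <+: d) (hc : FX η κ G γ c) : FX η κ G γ d := FL_mono h hc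

theorem FXe_mono {η κ : Bool → Ordinal.{0}} {G : (ℕ → ℕ) → ℕ → ℕ} {γ : Ordinal.{0}}
    {c d : List Ent} (h : c <+: d) (hc : FXe η κ G γ c) : FXe η κ G γ d := FT_mono h hc

theorem FN_mono {η κ : Bool → Ordinal.{0}} {G : (ℕ → ℕ) → ℕ → ℕ} {q : List Ordinal.{0}}
    {nn : List ℕ} {c d : List Ent} (h : c <+: d) (hc : FN η κ G q nn c) : FN η κ G q nn d :=
  List.Forall₂.imp (fun _ _ h' => FT_mono h h') hc

end MP2900
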