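import Pool.Agent.Lib.MP_2900b9_lc.C.TruFT
import Pool.Agent.Lib.MP_2900b9_lc.C.AClop
import Pool.Agent.Lib.MP_2900b9_lc.C.AClop

/-!
Module TruPsi: truth lemmas for `FPsi`. The relation `fun i j => r b ∈ OZ G i j` is `relZ (G (r b))` by definition; `OZ G i j` is open (preimage of a clopen set, clopen_relZ, `G` continuous); `{w | FctP (Fz (G w)) φ f v l}` is open (clopen_FctP).

* FPsi_sound: family: truth_FT for `θ` and for all `φ, f, v, ζ, nn` with `ζ ≤ θ` (countable index set): `Q c := ∃ mm, Forall₂ (FT V D (OZ G) z (some m) c) ζ mm ∧ D c {w | FctP ..}`. If `FPsi .. (seg b n)` then every valid extension of `seg b n` has a valid extension in `Q`, so genericity gives `n'` with `Q (seg b n')`; truth_FT and snd.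
* FPsi_complete: let `d ⊇ c` be valid. Let `b` be generic for `Q0` and for the family of truth_FT, through `d` (gen_exists, gen_and, `h.ex`, `h.pre`). By hypothesis (`seg b c.length = c`) there is `mm` with exact ranks `ζ` and the fact. By truth_FT each pair has `n_i` with `FT z_i (some m_i) (seg b n_i)`; the fact is decided at some `n'` (cpl). Let `n` be the maximum of `d.length`, `n'` and
  the `n_i` (induction on the Forall₂ list), `e = seg b n`, FT_mono, mono. The list `ζ` is bounded by a countable ordinal (`θ` given with `∀ z ∈ ζ, z ≤ θ`).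
-/

set_option autoImplicit false

namespace MP2900

open Set Pool.Agent.Lib.MP_2900b9_lc

open Topology

private theorem open_OZ {G : (ℕ → ℕ) → ℕ → ℕ} (hG : Continuous G) (i j : Option ℕ) :
    IsOpen (OZ G i j) := (clopen_relZ i j).isOpen.preimage hG

private theorem open_Fct {G : (ℕ → ℕ) → ℕ → ℕ} (hG : Continuous G) (φ : Fm) (f : List ℕ) (v : ℕ)
    (l : List ℕ) : IsOpen {w | FctP (Fz (G w)) φ f v l} :=
  (clopen_FctP φ f v l).isOpen.preimage hG

private theorem countable_Iic_of {θ : Ordinal.{0}} (hθ : Ctb θ) : Countable (Iic θ) := by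
  have h1 : (Iic θ).Countable := by
    rw [← Set.Iio_insert]
    exact Set.Countable.insert θ hθ
  exact h1.to_subtype

/-- at a late stage all elements of the list have the required exact ranks -/
private theorem late {A : Type*} {V : List A → Prop} {D : List A → Set (ℕ → ℕ) → Prop}
    {r : (ℕ → A) → ℕ → ℕ} {G : (ℕ → ℕ) → ℕ → ℕ} {θ : Ordinal.{0}} {b : ℕ → A}
    (hQ : ∀ ξ ≤ θ, ∀ m, (ERk (fun i j => r b ∈ OZ G i j) ξ m ↔
      ∃ n, FT V D (OZ G) ξ m (seg b n)))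
    {ζ : List Ordinal.{0}} {mm : List ℕ}
    (hF : List.Forall₂ (fun z m => ERk (relZ (G (r b))) z (some m)) ζ mm)
    (hζ : ∀ z ∈ ζ, z ≤ θ) :
    ∃ n0, ∀ n, n0 ≤ n → List.Forall₂ (fun z m => FT V D (OZ G) z (some m) (seg b n)) ζ mm := by
  induction hF with
  | nil => exact ⟨0, fun n _ => List.Forall₂.nil⟩
  | @cons z m ζ mm h1 h2 ih =>
    obtain ⟨n0, hn0⟩ := ih fun z' hz' => hζ z' (List.mem_cons_of_mem _ hz')
    obtain ⟨n1, hn1⟩ := (hQ z (hζ z List.mem_cons_self) (some m)).1 h1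
    refine ⟨max n0 n1, fun n hn => List.Forall₂.cons ?_ (hn0 n ((le_max_left _ _).trans hn))⟩
    exact FT_mono (seg_prefix b ((le_max_right _ _).trans hn)) hn1

theorem FPsi_sound {A : Type*} {V : List A → Prop}
    {D : List A → Set (ℕ → ℕ) → Prop} {r : (ℕ → A) → ℕ → ℕ} (h : DOK V D r)
    {G : (ℕ → ℕ) → ℕ → ℕ} (hG : Continuous G) {θ : Ordinal.{0}} (hθ : Ctb θ) :
    ∃ Q : ℕ → List A → Prop, ∀ b, Gen V Q b → ∀ (φ : Fm) (f : List ℕ) (v : ℕ)
      (ζ : List Ordinal.{0}) (nn : List ℕ) (n : ℕ), (∀ z ∈ ζ, z ≤ θ) →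
      FPsi V D G φ f v ζ nn (seg b n) →
      ∃ mm : List ℕ, List.Forall₂ (fun z m => ERk (relZ (G (r b))) z (some m)) ζ mm ∧
        FctP (Fz (G (r b))) φ f v (mm ++ nn) := by
  obtain ⟨Q1, hQ1⟩ := truth_FT h (OZ G) (open_OZ hG) hθ
  haveI := countable_Iic_of hθ
  haveI : Countable Fm := Encodable.countable
  let Q2 : (Fm × List ℕ × ℕ × List (Iic θ) × List ℕ) → List A → Prop := fun j c =>
    ∃ mm : List ℕ, List.Forall₂ (fun z m => FT V D (OZ G) z (some m) c)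
      (j.2.2.2.1.map Subtype.val) mm ∧
      D c {w | FctP (Fz (G w)) j.1 j.2.1 j.2.2.1 (mm ++ j.2.2.2.2)}
  obtain ⟨Q2', hQ2⟩ := gen_nat (V := V) Q2
  obtain ⟨Q, hQ⟩ := gen_and (V := V) Q1 Q2'
  refine ⟨Q, ?_⟩
  intro b hb φ f v ζ nn n hζ hPsi
  obtain ⟨hb1, hb2⟩ := hQ b hb
  obtain ⟨ζ', hζ'⟩ : ∃ ζ' : List (Iic θ), ζ'.map Subtype.val = ζ :=
    ⟨ζ.attach.map (fun z => (⟨z.1, hζ z.1 z.2⟩ : Iic θ)), by
      rw [List.map_map]; exact List.attach_map_subtype_val ζ⟩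
  obtain ⟨n', hn'⟩ := (hQ2 b hb2).2 (φ, f, v, ζ', nn)
  have hgood : Q2 (φ, f, v, ζ', nn) (seg b n') := by
    rcases hn' with h1 | h1
    · exact h1
    · exfalso
      obtain ⟨e, he1, he2, mm, h2, h3⟩ := hPsi (seg b (max n n')) (hb.1 _)
        (seg_prefix b (le_max_left _ _))
      refine h1 e he1 ((seg_prefix b (le_max_right _ _)).trans he2) ⟨mm, ?_, h3⟩
      simp only [hζ']
      exact h2
  obtain ⟨mm, h2, h3⟩ := hgood
  simp only [hζ'] at h2
  refine ⟨mm, ?_, h.snd b n' _ h3⟩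
  have h4 : ∀ {ζ : List Ordinal.{0}} {mm : List ℕ},
      List.Forall₂ (fun z m => FT V D (OZ G) z (some m) (seg b n')) ζ mm →
      (∀ z ∈ ζ, z ≤ θ) →
      List.Forall₂ (fun z m => ERk (relZ (G (r b))) z (some m)) ζ mm := by
    intro ζ mm hF
    induction hF with
    | nil => exact fun _ => List.Forall₂.nil
    | @cons z m ζ mm h1 h2 ih =>
      intro hz
      refine List.Forall₂.cons ?_ (ih fun z' hz' => hz z' (List.mem_cons_of_mem _ hz'))
      exact (hQ1 b hb1 z (hz z List.mem_cons_self) (some m)).2 ⟨n', h1⟩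
  exact h4 h2 hζ

theorem FPsi_complete {A : Type*} {V : List A → Prop}
    {D : List A → Set (ℕ → ℕ) → Prop} {r : (ℕ → A) → ℕ → ℕ} (h : DOK V D r)
    {G : (ℕ → ℕ) → ℕ → ℕ} (hG : Continuous G) {θ : Ordinal.{0}} (hθ : Ctb θ)
    (Q0 : ℕ → List A → Prop) (φ : Fm) (f : List ℕ) (v : ℕ)
    (ζ : List Ordinal.{0}) (nn : List ℕ) (hζ : ∀ z ∈ ζ, z ≤ θ) {c : List A}
    (hc : ∀ b, Gen V Q0 b → seg b c.length = c →
      ∃ mm : List ℕ, List.Forall₂ (fun z m => ERk (relZ (G (r b))) z (some m)) ζ mm ∧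
        FctP (Fz (G (r b))) φ f v (mm ++ nn)) :
    FPsi V D G φ f v ζ nn c := by
  intro d hd hcd
  obtain ⟨Q1, hQ1⟩ := truth_FT h (OZ G) (open_OZ hG) hθ
  obtain ⟨Q, hQ⟩ := gen_and (V := V) Q0 Q1
  obtain ⟨b, hb, hbd⟩ := gen_exists h.ex h.pre Q hd
  obtain ⟨hb0, hb1⟩ := hQ b hb
  have hcb : seg b c.length = c := by
    have h1 : c <+: seg b d.length := by rw [hbd]; exact hcd
    exact (seg_eq_of_prefix h1).symm
  obtain ⟨mm, hF, hfact⟩ := hc b hb0 hcb
  obtain ⟨n0, hn0⟩ := late (hQ1 b hb1) hF hζ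
  obtain ⟨n1, hn1⟩ := h.cpl b _ (open_Fct hG φ f v (mm ++ nn)) hfact
  refine ⟨seg b (max d.length (max n0 n1)), hb.1 _, ?_, mm, ?_, ?_⟩
  · conv_lhs => rw [← hbd]
    exact seg_prefix b (le_max_left _ _)
  · exact hn0 _ ((le_max_left _ _).trans (le_max_right _ _))
  · exact h.mono _ _ _ (seg_prefix b ((le_max_right n0 n1).trans (le_max_right _ _))) hn1

end MP2900
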