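import Pool.Agent.Lib.MP_2900b9_lc.C.Sound
import Pool.Agent.Lib.MP_2900b9_lc.C.TruPsi
import Pool.Agent.Lib.MP_2900b9_lc.C.Corr
import Pool.Agent.Lib.MP_2900b9_lc.C.RelZ

/-!
Module Names: names for elements, and the forced facts.

Let `c` force `G w ∈ Bo` and height exactly `γ` (countable). For `b` generic for the family of `tru` (bound `γ`) through `c`, `y = G (real b)`: `y ∈ Bo`, `Acc (relZ y) none`, `rk (relZ y) none = γ` (erk_iff'); all elements are accessible (acc_none), `rk (relZ y) (some m) = rk (ltF (Fz y)) m` (rk_some), and every `z < γ` is the rank of some `some m`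
(rk_onto for `relZ y`, which is transitive by the clause `tr`; `none` is not below `none`).
* names: take such a `b`, choose elements `nn` of ranks `q`, then `tru` gives `n` with `FN q nn (seg b n)`; `c1 = seg b (max n c.length)`.
* facts: `c` forces also `FN q nn`. (→) FPsi_complete with `Q0` the family of `tru`, `θ = γ`: for generic `b` through `c` choose `mm` with ranks `s` (erk_iff'); then `(mm ++ nn).map (rk (ltF (Fz y))) = s ++ q`, and corr_Fct gives `FctP (Fz y) φ f v (mm ++ nn)` from `FctP FO φ f v (s ++ q)`.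
  (←) let `b` be generic through `c` for the families of `tru` and FPsi_sound: there is `mm` with ranks `s` and `FctP (Fz y) φ f v (mm ++ nn)`; corr_Fct.
-/

set_option autoImplicit false

namespace MP2900

open Set Pool.Agent.Lib.MP_2900b9_lc

open Topology

variable [TP] {η κ : Bool → Ordinal.{0}}

private theorem names_tr {y : ℕ → ℕ} (hy : y ∈ Bo) :
    ∀ a b c, relZ y a b → relZ y b c → relZ y a c := by
  intro a b c hab hbc
  cases a with
  | none => exact hab.elim
  | some a =>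
    cases b with
    | none => exact hbc.elim
    | some b =>
      cases c with
      | none => trivial
      | some c => exact BoF.tr hy a b c hab hbc

private theorem names_acc {y : ℕ → ℕ} {γ : Ordinal.{0}} (hE : ERk (relZ y) γ none) :
    ∀ m, Acc (ltF (Fz y)) m := (acc_none y).1 (erk_iff'.1 hE).1

private theorem names_ex {y : ℕ → ℕ} {γ : Ordinal.{0}} (hy : y ∈ Bo)
    (hE : ERk (relZ y) γ none) : ∀ s : List Ordinal.{0}, (∀ x ∈ s, x < γ) →
    ∃ mm : List ℕ, List.Forall₂ (fun z m => ERk (relZ y) z (some m)) s mm := by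
  intro s
  induction s with
  | nil => exact fun _ => ⟨[], List.Forall₂.nil⟩
  | cons z s ih =>
    intro h
    obtain ⟨mm, hmm⟩ := ih fun x hx => h x (List.mem_cons_of_mem _ hx)
    have hz : z < rk (relZ y) none := by
      rw [(erk_iff'.1 hE).2]
      exact h z List.mem_cons_self
    obtain ⟨b, hb, hbz⟩ := rk_onto (names_tr hy) (exists_LR (erk_iff'.1 hE).1) hz
    cases b with
    | none => exact hb.elim
    | some m =>
      exact ⟨m :: mm, List.Forall₂.cons (erk_iff'.2 ⟨(acc_some y m).2 (names_acc hE m), hbz⟩) hmm⟩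

private theorem names_map {y : ℕ → ℕ} {s : List Ordinal.{0}} {mm : List ℕ}
    (h : List.Forall₂ (fun z m => ERk (relZ y) z (some m)) s mm) :
    mm.map (rk (ltF (Fz y))) = s := by
  induction h with
  | nil => rfl
  | cons h _ ih => rw [List.map_cons, ih, ← rk_some, (erk_iff'.1 h).2]

private theorem names_lt {G : (ℕ → ℕ) → ℕ → ℕ} {γ : Ordinal.{0}} {c : List Ent}
    (hc : Val η κ c) (hH : FH η κ G γ c) {q : List Ordinal.{0}} {nn : List ℕ}
    (hN : FN η κ G q nn c) : ∀ z ∈ q, z < γ := by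
  have key : ∀ z m, FT (Val η κ) dec (OZ G) z (some m) c → z < γ := by
    intro z m h
    have h1 := (FL_iff (Val η κ) dec (OZ G) γ none c).1 hH.1 (some m) c hc List.prefix_rfl
      ⟨0, fun k hk => absurd hk (Nat.not_lt_zero k), fun w _ => trivial⟩
    obtain ⟨ξ', hξ', e, he, hce, hF⟩ := h1
    by_contra hcon
    exact h.2 ξ' (hξ'.trans_le (not_lt.1 hcon)) e he hce hF
  unfold FN at hN
  induction hN with
  | nil => intro z hz; exact absurd hz List.not_mem_nil
  | cons h _ ih =>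
    intro z hz
    rcases List.mem_cons.1 hz with rfl | hz
    · exact key _ _ h
    · exact ih z hz

private theorem names_gen (hκ0 : ∀ β, 0 < κ β) (Q : ℕ → List Ent → Prop) {c : List Ent}
    (hc : Val η κ c) : ∃ b : ℕ → Ent, Gen (Val η κ) Q b ∧ seg b c.length = c :=
  gen_exists (fun _ h => val_ex hκ0 h) (fun _ _ h hd => val_pre h hd) Q hc

theorem names (hκ0 : ∀ β, 0 < κ β) {G : (ℕ → ℕ) → ℕ → ℕ} (hG : Continuous G)
    {γ : Ordinal.{0}} (hγ : Ctb γ) {c : List Ent} (hc : Val η κ c) (hB : FBo η κ G c)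
    (hH : FH η κ G γ c) (q : List Ordinal.{0}) (hq : ∀ x ∈ q, x < γ) :
    ∃ c1 nn, Val η κ c1 ∧ c <+: c1 ∧ nn.length = q.length ∧ FN η κ G q nn c1 := by
  obtain ⟨Q, hQ⟩ := tru (η := η) (κ := κ) hκ0 hG hγ
  obtain ⟨b, hb, hbc⟩ := names_gen hκ0 Q hc
  obtain ⟨t1, t2, -, -, t5⟩ := hQ b hb
  have hBo : G (real b) ∈ Bo := t1.2 ⟨c.length, by rw [hbc]; exact hB⟩
  have hE := (t2 γ le_rfl).2 ⟨c.length, by rw [hbc]; exact hH⟩
  obtain ⟨nn, hnn⟩ := names_ex hBo hE q hq
  obtain ⟨n, hn⟩ := (t5 q nn fun z hz => (hq z hz).le).1 hnn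
  refine ⟨seg b (max c.length n), nn, hb.1 _, ?_, hnn.length_eq.symm,
    FN_mono (seg_prefix b (le_max_right _ _)) hn⟩
  have h1 := seg_prefix b (le_max_left c.length n)
  rwa [hbc] at h1

theorem facts (hκ0 : ∀ β, 0 < κ β) {G : (ℕ → ℕ) → ℕ → ℕ} (hG : Continuous G)
    {γ : Ordinal.{0}} (hγ : Ctb γ) {c : List Ent} (hc : Val η κ c) (hB : FBo η κ G c)
    (hH : FH η κ G γ c) (q : List Ordinal.{0}) (nn : List ℕ)
    (hN : FN η κ G q nn c) (φ : Fm) (f : List ℕ) (v : ℕ) (s : List Ordinal.{0})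
    (hs : ∀ x ∈ s, x < γ) :
    FPsi (Val η κ) dec G φ f v s nn c ↔ FctP FO φ f v (s ++ q) := by
  obtain ⟨Q, hQ⟩ := tru (η := η) (κ := κ) hκ0 hG hγ
  have hq := names_lt hc hH hN
  have main : ∀ b, Gen (Val η κ) Q b → seg b c.length = c → G (real b) ∈ Bo ∧
      ERk (relZ (G (real b))) γ none ∧ nn.map (rk (ltF (Fz (G (real b))))) = q := by
    intro b hb hbc
    obtain ⟨t1, t2, -, -, t5⟩ := hQ b hb
    refine ⟨t1.2 ⟨c.length, by rw [hbc]; exact hB⟩,
      (t2 γ le_rfl).2 ⟨c.length, by rw [hbc]; exact hH⟩, names_map ?_⟩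
    exact (t5 q nn fun z hz => (hq z hz).le).2 ⟨c.length, by rw [hbc]; exact hN⟩
  constructor
  · intro h
    obtain ⟨Q1, hQ1⟩ := FPsi_sound (dok (η := η) (κ := κ) hκ0) hG hγ
    obtain ⟨Q2, hQ2⟩ := gen_and (V := Val η κ) Q Q1
    obtain ⟨b, hb, hbc⟩ := names_gen hκ0 Q2 hc
    obtain ⟨hBo, hE, hnn⟩ := main b (hQ2 b hb).1 hbc
    obtain ⟨mm, hmm, hF⟩ := hQ1 b (hQ2 b hb).2 φ f v s nn c.length (fun z hz => (hs z hz).le)
      (by rw [hbc]; exact h)
    have h1 := (corr_Fct hBo φ f v fun m _ => names_acc hE m).1 hF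
    rwa [List.map_append, names_map hmm, hnn] at h1
  · intro h
    refine FPsi_complete (dok (η := η) (κ := κ) hκ0) hG hγ Q φ f v s nn
      (fun z hz => (hs z hz).le) fun b hb hbc => ?_
    obtain ⟨hBo, hE, hnn⟩ := main b hb hbc
    obtain ⟨mm, hmm⟩ := names_ex hBo hE s hs
    refine ⟨mm, hmm, (corr_Fct hBo φ f v fun m _ => names_acc hE m).2 ?_⟩
    rw [List.map_append, names_map hmm, hnn]
    exact h

end MP2900
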