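import Pool.Agent.Lib.MP_2900b9_lc.C.KISmall
import Pool.Agent.Lib.MP_2900b9_lc.C.GBU
import Pool.Agent.Lib.MP_2900b9_lc.C.Names
import Pool.Agent.Lib.MP_2900b9_lc.C.CmpFact
import Pool.Agent.Lib.MP_2900b9_lc.C.EOnto

/-!
Module KICond: the condition of the first reduction which computes the order of the definable elements.

(1) `μ` is countable (full_ctb). For `b` generic for the family of gen_real (`η1 μ`, `κI κ`; all countable, `κI κ β > 0`): `z = ev (real b) = cmpt true (real b)` is in `Bo`, height `κ`, tree rank `η = ω * 2 * (μ + 3)`. `JO κ η`: with `μ` and `p`: `μ ≤ η`, and no `k` in K with `μ < k ≤ η` by Kc_closed. So `z ∈ Aset`, `F (ev (real b)) ∈ Uset`. gb_U (for `F ∘ ev`, the condition `[]`,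
which is valid) gives `c, β, γ`. keyI_small: `μ + 1 < γ`. names for `q = p ++ [μ + 1]`: `c1, nn`. facts (FBo_mono, FH_mono): for `s, s' < κ` (so `< γ`): `FPsi (cmpF ..) (s ++ s') nn c1 ↔ FctP FO (cmpF ..) (s ++ s' ++ (p ++ [μ+1]))`, which by fct_cmp is the right side (entries `< κ ≤ μ < μ + 1`, `p ≤ μ`).
(2) rt_lower with `ρ = κ`: `c2` valid for `ηI κ` with `Rt κ c1 c2` (`κ ≤ μ ≤ η1 μ true`, `ηI κ true = κ + ω`, `η1 μ false = ηI κ false`). For given `s, s'` let `ζ` be the maximum of the entries of `s ++ s'` (0 if empty), `ζ < κ`, `ρ1 = ω * 2 * (ζ + 2)`: `thr z + ω ≤ ρ1` for all entries `z`, `ρ1 + ω + ω = ω * 2 * (ζ + 3) < κ` by Kc_closed. FPsi_rt in both directions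
(rt_mono, rt_symm) gives `FPsi .. c1 ↔ FPsi .. c2`.
-/

set_option autoImplicit false

namespace MP2900

open Set Pool.Agent.Lib.MP_2900b9_lc

open Topology

variable [TP]

omit [TP] in
private theorem kic_max {κ : Ordinal.{0}} (hκ0 : 0 < κ) (l : List Ordinal.{0})
    (h : ∀ x ∈ l, x < κ) : ∃ ζ < κ, ∀ x ∈ l, x ≤ ζ := by
  induction l with
  | nil => exact ⟨0, hκ0, fun x hx => absurd hx List.not_mem_nil⟩
  | cons a l ih =>
    obtain ⟨ζ, hζ, h1⟩ := ih fun x hx => h x (List.mem_cons_of_mem a hx)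
    refine ⟨max a ζ, max_lt (h a List.mem_cons_self) hζ, fun x hx => ?_⟩
    rcases List.mem_cons.1 hx with rfl | hx
    · exact le_max_left _ _
    · exact (h1 x hx).trans (le_max_right _ _)

omit [TP] in
private theorem kic_omega_two : Ordinal.omega0.{0} * 2 = Ordinal.omega0 + Ordinal.omega0 := by
  rw [← one_add_one_eq_two, mul_add, mul_one]

theorem keyI_cond {F : (ℕ → ℕ) → ℕ → ℕ} (hF : Continuous F)
    (hFA : ∀ z, z ∈ Aset ↔ F z ∈ Uset)
    (hJ : ∀ γ, Ctb γ → ∃ θ, Ctb θ ∧ ∀ η, JO γ η → η ≤ θ)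
    {κ μ : Ordinal.{0}} {p : List Ordinal.{0}} (hκ0 : 0 < κ) (hκ : Ctb κ) (hK : Kc κ)
    (hfull : Full κ p μ) :
    ∃ (i : Bool) (c : List Ent) (n : List ℕ), Val (ηI κ) (κI κ) c ∧ n.length = p.length + 1 ∧
      ∀ (φ φ' : Fm) (s s' : List Ordinal.{0}), (∀ x ∈ s, x < κ) → (∀ x ∈ s', x < κ) →
        (FPsi (Val (ηI κ) (κI κ)) dec (fun w => cmpt i (F (ev w)))
          (cmpF φ φ' s.length s'.length p.length)
          (List.range (s.length + s'.length + p.length)) (s.length + s'.length + p.length)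
          (s ++ s') n c ↔
        ∃ x x', IsMin (μ + 1) φ (s ++ p) x ∧ IsMin (μ + 1) φ' (s' ++ p) x' ∧ x < x') := by
  have hμ : Ctb μ := full_ctb hκ hfull
  obtain ⟨hκμ, hpμ, -⟩ := id hfull
  have hμ1 : μ < μ + 1 := lt_add_one μ
  have hbig : μ ≤ Ordinal.omega0 * 2 * (μ + 3) := by
    have h1 : (1 : Ordinal.{0}) ≤ Ordinal.omega0 * 2 := by
      rw [Order.one_le_iff_pos]
      exact mul_pos Ordinal.omega0_pos (by norm_num)
    exact le_self_add.trans (le_mul_of_one_le_left zero_le h1)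
  have hη : ∀ β, Ctb (η1 μ β) := by
    intro β
    cases β
    · exact ctb_nat 0
    · exact ctb_mul (ctb_mul ctb_omega (ctb_nat 2)) (ctb_add hμ (ctb_nat 3))
  have hκI : ∀ β, Ctb (κI κ β) := by
    intro β
    cases β
    · have h := ctb_nat 1
      rw [Nat.cast_one] at h
      exact h
    · exact hκ
  have hκI0 : ∀ β, 0 < κI κ β := by
    intro β
    cases β
    · exact zero_lt_one
    · exact hκ0
  obtain ⟨Q0, hQ0⟩ := gen_real hη hκI hκI0
  have hU : ∀ b, Gen (Val (η1 μ) (κI κ)) Q0 b → (fun w => F (ev w)) (real b) ∈ Uset := by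
    intro b hb
    obtain ⟨h1, h2, h3, h4, h5, -⟩ := hQ0 b hb true
    refine (hFA _).1 ⟨h1, h2, h4, ?_⟩
    have h6 : rk (relZ (ev (real b))) none = κ := h3
    have h7 : rk (relX (ev (real b))) 0 = Ordinal.omega0 * 2 * (μ + 3) := h5
    rw [h6, h7]
    refine Or.inr ⟨μ, p, hbig, hfull, fun k hk1 hk2 hk3 => ?_⟩
    exact absurd (Kc_closed hk3 hk1) (not_lt.2 hk2)
  have hnil : Val (η1 μ) (κI κ) [] := fun i hi => absurd hi (Nat.not_lt_zero i)
  obtain ⟨c', i, γ, hc', -, hγ, hB, hH, hX⟩ :=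
    gb_U hη hκI hκI0 (hF.comp continuous_ev) Q0 hU hnil
  have hG : Continuous (fun w => cmpt i (F (ev w))) := by
    cases i
    · exact continuous_od.comp (hF.comp continuous_ev)
    · exact continuous_ev.comp (hF.comp continuous_ev)
  have hγμ : μ + 1 < γ := by
    by_contra h
    exact keyI_small hF hFA hJ hκ0 hκ hμ (not_lt.1 h) hc' hB hH hX
  have hq : ∀ x ∈ p ++ [μ + 1], x < γ := by
    intro x hx
    rcases List.mem_append.1 hx with hx | hx
    · exact ((hpμ x hx).trans_lt hμ1).trans hγμ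
    · rw [List.mem_singleton.1 hx]
      exact hγμ
  obtain ⟨c1, nn, hc1, hcc1, hnn, hN⟩ := names hκI0 hG hγ hc' hB hH (p ++ [μ + 1]) hq
  obtain ⟨c2, hc2, hrt⟩ := rt_lower (η' := ηI κ) (ρ := κ) hc1 (by
    intro β
    cases β
    · exact Or.inl rfl
    · exact Or.inr ⟨hκμ.trans hbig, rfl⟩)
  refine ⟨i, c2, nn, hc2, by rw [hnn, List.length_append, List.length_singleton], ?_⟩
  intro φ φ' s s' hs hs'
  have hss : ∀ x ∈ s ++ s', x < κ := fun x hx =>
    (List.mem_append.1 hx).elim (hs x) (hs' x)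
  have hf := facts hκI0 hG hγ hc1 (FBo_mono hcc1 hB) (FH_mono hcc1 hH) (p ++ [μ + 1]) nn hN
    (cmpF φ φ' s.length s'.length p.length)
    (List.range (s.length + s'.length + p.length)) (s.length + s'.length + p.length) (s ++ s')
    (fun x hx => ((hss x hx).trans_le hκμ).trans (hμ1.trans hγμ))
  have hc := fct_cmp (φ := φ) (φ' := φ') (s := s) (s' := s') (p := p) (ν := μ + 1)
    (fun x hx => ((hs x hx).trans_le hκμ).trans hμ1)
    (fun x hx => ((hs' x hx).trans_le hκμ).trans hμ1)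
    (fun x hx => (hpμ x hx).trans_lt hμ1)
  rw [← hc, ← hf]
  obtain ⟨ζ, hζκ, hζ⟩ := kic_max hκ0 (s ++ s') hss
  have hρ : Ordinal.omega0 * 2 * (ζ + 2) + Ordinal.omega0 + Ordinal.omega0 ≤ κ := by
    have h1 : Ordinal.omega0 * 2 * (ζ + 2) + Ordinal.omega0 + Ordinal.omega0 =
        Ordinal.omega0 * 2 * (ζ + 3) := by
      have h2 : ζ + 3 = ζ + 2 + 1 := by
        rw [add_assoc]
        norm_num
      rw [h2, mul_add (Ordinal.omega0 * 2) (ζ + 2) 1, mul_one, kic_omega_two, ← add_assoc]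
    rw [h1]
    exact (Kc_closed hK hζκ).le
  have hthr : ∀ z ∈ s ++ s', thr z + Ordinal.omega0 ≤ Ordinal.omega0 * 2 * (ζ + 2) := by
    intro z hz
    have h2 : ζ + 2 = ζ + 1 + 1 := by
      rw [add_assoc]
      norm_num
    rw [h2, mul_add (Ordinal.omega0 * 2) (ζ + 1) 1, mul_one]
    refine add_le_add ?_ ?_
    · unfold thr
      exact mul_le_mul_right (add_le_add (hζ z hz) le_rfl) _
    · rw [kic_omega_two]
      exact le_self_add
  have hη2 : ∀ β, η1 μ β = ηI κ β ∨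
      (Ordinal.omega0 * 2 * (ζ + 2) + Ordinal.omega0 + Ordinal.omega0 ≤ η1 μ β ∧
        Ordinal.omega0 * 2 * (ζ + 2) + Ordinal.omega0 + Ordinal.omega0 ≤ ηI κ β) := by
    intro β
    cases β
    · exact Or.inl rfl
    · exact Or.inr ⟨hρ.trans (hκμ.trans hbig), hρ.trans le_self_add⟩
  have hη3 : ∀ β, ηI κ β = η1 μ β ∨
      (Ordinal.omega0 * 2 * (ζ + 2) + Ordinal.omega0 + Ordinal.omega0 ≤ ηI κ β ∧
        Ordinal.omega0 * 2 * (ζ + 2) + Ordinal.omega0 + Ordinal.omega0 ≤ η1 μ β) := fun β =>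
    (hη2 β).imp Eq.symm And.symm
  exact ⟨fun h => FPsi_rt _ _ _ _ _ _ hthr hη3 hc2 hc1 (rt_mono hρ (rt_symm hrt)) h,
    fun h => FPsi_rt _ _ _ _ _ _ hthr hη2 hc1 hc2 (rt_mono hρ hrt) h⟩

end MP2900
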