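import Pool.Agent.Lib.MP_2900b9_lc.C.KIISmall
import Pool.Agent.Lib.MP_2900b9_lc.C.GBU
import Pool.Agent.Lib.MP_2900b9_lc.C.Names
import Pool.Agent.Lib.MP_2900b9_lc.C.CmpFact
import Pool.Agent.Lib.MP_2900b9_lc.C.EOnto

/-!
Module KIIMain: a condition for the second reduction which forces all true facts of `cmpF` about elements of ranks `p ++ [μ + 1]`, with the first component true.

(1) `μ` countable (full_ctb). For each `γ ≤ μ + 1` the set `JO γ` has a countable bound (hJ); so there is a countable `θ` with `ε ≤ θ` whenever `γ ≤ μ + 1`, `JO γ ε` (ctb_sup). Let `ρ` be countable with `Kc ρ` and `ρ > max (κ + ω) (max (μ + 1) θ)` (exists_Kc). By Kc_closed: `ω * 2 * (x + 3) < ρ` for all `x < ρ`; so `ω * 2 ≤ ρ`, `thr x + ω ≤ ω * 2 * (x + 3) < ρ`.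
(2) For `b` generic for gen_real (`η2 κ ρ`, `κ2 κ ρ`): `od (real b)` is in `Vset` (tree rank `ρ` = height), so `real b ∈ Uset`, `F (real b) ∈ Aset`. gb_A (condition `[]`): `c, γ, ε` with FBo, FH γ, FXe ε, JO γ ε. If `γ ≤ μ + 1` then `ε ≤ θ < ρ`: keyII_small, contradiction. So `μ + 1 < γ`. names for `q = p ++ [μ + 1]`: `c1`, `nn`. facts (→ direction only): for `s, s' < κ` with the right side of the claim
true, fct_cmp gives `FctP FO (cmpF ..) .. (s ++ s' ++ (p ++ [μ+1]))` so `FPsi (Val (η2 κ ρ) ..) .. c1`.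
(3) rt_lower with the threshold `κ` for `η' = η3 κ ρ` (`η2 true = κ + ω + 1 ≥ κ`, `η3 true = κ + ω`, `false`: equal): `c2` with `Rt κ c1 c2`. FPsi_rt exactly as in KICond (2) (Kc_closed for `κ`): `FPsi (Val (η3 κ ρ) ..) .. c2`.
-/

set_option autoImplicit false

namespace MP2900

open Set Pool.Agent.Lib.MP_2900b9_lc

open Topology

variable [TP]

private theorem kII_max {a b : Ordinal.{0}} (ha : Ctb a) (hb : Ctb b) : Ctb (max a b) := by
  rcases le_total a b with h | h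
  · rwa [max_eq_right h]
  · rwa [max_eq_left h]

private theorem kII_bound {κ : Ordinal.{0}} (hκ0 : 0 < κ) : ∀ l : List Ordinal.{0},
    (∀ x ∈ l, x < κ) → ∃ ζ < κ, ∀ x ∈ l, x ≤ ζ := by
  intro l
  induction l with
  | nil => exact fun _ => ⟨0, hκ0, fun x hx => absurd hx List.not_mem_nil⟩
  | cons a l ih =>
    intro h
    obtain ⟨ζ, h1, h2⟩ := ih fun x hx => h x (List.mem_cons_of_mem _ hx)
    refine ⟨max a ζ, max_lt (h a List.mem_cons_self) h1, fun x hx => ?_⟩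
    rcases List.mem_cons.1 hx with rfl | hx
    · exact le_max_left _ _
    · exact (h2 x hx).trans (le_max_right _ _)

private theorem kII_two : Ordinal.omega0.{0} ≤ Ordinal.omega0 * 2 := by
  have h : (1 : Ordinal.{0}) ≤ 2 := by
    rw [← one_add_one_eq_two]
    exact le_self_add
  calc Ordinal.omega0.{0} = Ordinal.omega0 * 1 := (mul_one _).symm
    _ ≤ Ordinal.omega0 * 2 := mul_le_mul_right h _

private theorem kII_thr (z : Ordinal.{0}) :
    thr z + Ordinal.omega0 ≤ Ordinal.omega0 * 2 * (z + 2) := by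
  have h : z + 2 = z + 1 + 1 := by rw [add_assoc, one_add_one_eq_two]
  rw [h, mul_add _ (z + 1) 1, mul_one]
  exact (add_le_add_iff_left _).2 kII_two

private theorem kII_step (z : Ordinal.{0}) :
    Ordinal.omega0 * 2 * (z + 2) + Ordinal.omega0 + Ordinal.omega0 =
      Ordinal.omega0 * 2 * (z + 3) := by
  have h : z + 3 = z + 2 + 1 := by rw [add_assoc, two_add_one_eq_three]
  have h2 : Ordinal.omega0.{0} * 2 = Ordinal.omega0 + Ordinal.omega0 := by
    rw [← one_add_one_eq_two, mul_add, mul_one]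
  rw [h, mul_add _ (z + 2) 1, mul_one, add_assoc]
  congr 1
  exact h2.symm

private theorem kII_mono {z ζ : Ordinal.{0}} (h : z ≤ ζ) :
    Ordinal.omega0 * 2 * (z + 2) ≤ Ordinal.omega0 * 2 * (ζ + 2) :=
  mul_le_mul_right (add_le_add_left h 2) _

private theorem kII_thr_lt {k z : Ordinal.{0}} (hk : Kc k) (h : z < k) :
    thr z + Ordinal.omega0 ≤ k := by
  refine (kII_thr z).trans (le_trans ?_ (Kc_closed hk h).le)
  rw [← kII_step z]
  exact le_self_add.trans le_self_add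

theorem keyII_cond {F : (ℕ → ℕ) → ℕ → ℕ} (hF : Continuous F)
    (hFU : ∀ w, w ∈ Uset ↔ F w ∈ Aset)
    (hJ : ∀ γ, Ctb γ → ∃ θ, Ctb θ ∧ ∀ η, JO γ η → η ≤ θ)
    {κ μ : Ordinal.{0}} {p : List Ordinal.{0}} (hκ0 : 0 < κ) (hκ : Ctb κ) (hK : Kc κ)
    (hfull : Full κ p μ) :
    ∃ (ρ : Ordinal.{0}) (c : List Ent) (n : List ℕ), Ctb ρ ∧ 0 < ρ ∧
      Val (η3 κ ρ) (κ2 κ ρ) c ∧ n.length = p.length + 1 ∧
      ∀ (φ φ' : Fm) (s s' : List Ordinal.{0}), (∀ x ∈ s, x < κ) → (∀ x ∈ s', x < κ) →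
        (∃ x x', IsMin (μ + 1) φ (s ++ p) x ∧ IsMin (μ + 1) φ' (s' ++ p) x' ∧ x < x') →
        FPsi (Val (η3 κ ρ) (κ2 κ ρ)) dec F (cmpF φ φ' s.length s'.length p.length)
          (List.range (s.length + s'.length + p.length)) (s.length + s'.length + p.length)
          (s ++ s') n c := by
  have hμ : Ctb μ := full_ctb hκ hfull
  have hμ1 : Ctb (μ + 1) := ctb_add hμ (by exact_mod_cast ctb_nat 1)
  choose! g hg1 hg2 using hJ
  have hS : (g '' Iic (μ + 1)).Countable := by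
    refine Set.Countable.image ?_ g
    have h2 : Iic (μ + 1) = insert (μ + 1) (Iio (μ + 1)) := by
      ext x
      simp [le_iff_eq_or_lt]
    rw [h2]
    exact Set.Countable.insert _ hμ1
  obtain ⟨θ, hθ, hθ'⟩ := ctb_sup hS (by
    rintro _ ⟨x, hx, rfl⟩
    exact hg1 x (ctb_mono hx hμ1))
  have hκω : Ctb (κ + Ordinal.omega0) := ctb_add hκ ctb_omega
  obtain ⟨ρ, hρ, hρK, hρlt⟩ := exists_Kc (kII_max hκω (kII_max hμ1 hθ))
  have hρ1 : κ + Ordinal.omega0 < ρ := (le_max_left _ _).trans_lt hρlt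
  have hρ2 : μ + 1 < ρ := ((le_max_left _ _).trans (le_max_right _ _)).trans_lt hρlt
  have hρ3 : θ < ρ := ((le_max_right _ _).trans (le_max_right _ _)).trans_lt hρlt
  have hρ0 : 0 < ρ := (zero_le (a := μ + 1)).trans_lt hρ2
  have h0 : Ordinal.omega0 * 2 ≤ ρ := by
    have h1 := kII_thr_lt hρK hρ0
    unfold thr at h1
    rw [zero_add, mul_one] at h1
    exact le_self_add.trans h1
  have hη : ∀ β, Ctb (η2 κ ρ β) := by
    intro β
    cases β
    · exact hρ
    · exact ctb_add hκω (by exact_mod_cast ctb_nat 1)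
  have hκ2 : ∀ β, Ctb (κ2 κ ρ β) := by
    intro β
    cases β
    · exact hρ
    · exact hκω
  have hκ20 : ∀ β, 0 < κ2 κ ρ β := by
    intro β
    cases β
    · exact hρ0
    · exact hκ0.trans_le le_self_add
  obtain ⟨Q, hQ⟩ := gen_real hη hκ2 hκ20
  have hA : ∀ b, Gen (Val (η2 κ ρ) (κ2 κ ρ)) Q b → F (real b) ∈ Aset := by
    intro b hb
    obtain ⟨a1, a2, a3, a4, a5, -⟩ := hQ b hb false
    refine (hFU _).1 (Or.inr ⟨a1, a2, a4, ?_⟩)
    exact (a5.trans a3.symm).le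
  have hnil : Val (η2 κ ρ) (κ2 κ ρ) [] := fun i hi => absurd hi (Nat.not_lt_zero i)
  obtain ⟨c, γ, ε, hcV, -, hγc, hεc, hB, hH, hX, hJ'⟩ := gb_A hη hκ2 hκ20 hF Q hA hnil
  have hγ : μ + 1 < γ := by
    by_contra hcon
    have hγ' : γ ≤ μ + 1 := not_lt.1 hcon
    have h1 : ε ≤ θ := (hg2 γ hγc ε hJ').trans (hθ' _ ⟨γ, hγ', rfl⟩)
    exact keyII_small hF hFU hκ hρ hγc hεc h0 (kII_thr_lt hρK (hγ'.trans_lt hρ2))
      (kII_thr_lt hρK (h1.trans_lt hρ3)) hcV hB hH hX hJ'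
  have hμlt : μ < μ + 1 := Order.lt_add_one_iff.2 le_rfl
  have hq : ∀ x ∈ p ++ [μ + 1], x < γ := by
    intro x hx
    rcases List.mem_append.1 hx with hx | hx
    · exact ((hfull.2.1 x hx).trans_lt hμlt).trans hγ
    · rw [List.mem_singleton] at hx
      rw [hx]
      exact hγ
  obtain ⟨c1, nn, hc1, hcc1, hlen, hFN⟩ := names hκ20 hF hγc hcV hB hH (p ++ [μ + 1]) hq
  obtain ⟨c2, hc2, hRt⟩ := rt_lower (ρ := κ) (η' := η3 κ ρ) hc1 (by
    intro β
    cases β
    · exact Or.inl rfl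
    · refine Or.inr ⟨?_, rfl⟩
      change κ ≤ κ + Ordinal.omega0 + 1
      exact le_self_add.trans le_self_add)
  refine ⟨ρ, c2, nn, hρ, hρ0, hc2, by rw [hlen]; simp, ?_⟩
  intro φ φ' s s' hs hs' hmin
  obtain ⟨ζ, hζ, hζ'⟩ := kII_bound hκ0 (s ++ s') (by
    intro x hx
    rcases List.mem_append.1 hx with hx | hx
    · exact hs x hx
    · exact hs' x hx)
  have hκμ : κ < μ + 1 := hfull.1.trans_lt hμlt
  have hρ1' : Ordinal.omega0 * 2 * (ζ + 2) + Ordinal.omega0 + Ordinal.omega0 ≤ κ := by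
    rw [kII_step]
    exact (Kc_closed hK hζ).le
  refine FPsi_rt F _ _ _ (s ++ s') nn (ρ := Ordinal.omega0 * 2 * (ζ + 2)) ?_ ?_ hc1 hc2
    (rt_mono hρ1' hRt) ?_
  · intro z hz
    exact (kII_thr z).trans (kII_mono (hζ' z hz))
  · intro β
    cases β
    · exact Or.inl rfl
    · refine Or.inr ⟨hρ1'.trans ?_, hρ1'.trans ?_⟩
      · change κ ≤ κ + Ordinal.omega0 + 1
        exact le_self_add.trans le_self_add
      · change κ ≤ κ + Ordinal.omega0
        exact le_self_add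
  · refine (facts hκ20 hF hγc hc1 (FBo_mono hcc1 hB) (FH_mono hcc1 hH) (p ++ [μ + 1]) nn hFN
      _ _ _ (s ++ s') ?_).2 ?_
    · intro x hx
      exact ((hζ' x hx).trans_lt hζ).trans (hκμ.trans hγ)
    · refine (fct_cmp (fun x hx => (hs x hx).trans hκμ) (fun x hx => (hs' x hx).trans hκμ)
        (fun x hx => (hfull.2.1 x hx).trans_lt hμlt)).2 hmin

end MP2900
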