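import Pool.Agent.Lib.MP_2900b9_lc.C.RtStep

/-!
Module RtFL: the forcing relations are invariant under retagging.

* thr_step: for `ξ' < ξ`: `thr ξ' + ω + ω ≤ thr ξ`, as `thr ξ' + ω * 2 = ω * 2 * (ξ' + 1) + ω * 2 = ω * 2 * (ξ' + 2) ≤ ω * 2 * (ξ + 1)`. So there is a decomposition `thr ξ = ρ + ω + ω` with `ρ = ω * 2 * ξ ≥ thr ξ'` for all `ξ' < ξ` (`ω * 2 * (ξ' + 1) ≤ ω * 2 * ξ`).
* FL_rt: induction on `ξ`. Put `ρ = ω * 2 * ξ`, `thr ξ = ρ + ω + ω`. Let `d' ⊇ c'` be valid for `η'` with `dec d' (O m' m)`. rt_step (for `ρ + ω`) gives `d ⊇ c` valid with `Rt (ρ + ω) d d'`; dec_rt; `FL` gives `ξ' < ξ` and `e ⊇ d` valid with `FL ξ' m' e`; rt_step in the other direction (roles of `η, η'` exchanged, `Rt (ρ+ω) d' d`) gives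
  `e' ⊇ d'` valid with `Rt ρ e' e`; by rt_mono `Rt (thr ξ') e e'`, induction hypothesis: `FL ξ' m' e'`.
* FB_rt: the same with two steps, `ρ = 0`.
* FT_rt: the FL part by FL_rt (rt_mono); if `e' ⊇ c'` had `FL ξ' m e'` with `ξ' < ξ`, rt_step gives `e ⊇ c` with `Rt (thr ξ) e e'`, so `FL ξ' m e` by FL_rt (rt_symm, rt_mono), contradiction.
* FPsi_rt: two steps and FT_rt, dec_rt; Forall₂ is mapped entrywise (all entries `z` of `ζ` have `thr z + ω ≤ ρ`).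
-/

set_option autoImplicit false

namespace MP2900

open Set Pool.Agent.Lib.MP_2900b9_lc

variable [TP] {η η' κ : Bool → Ordinal.{0}} {ρ : Ordinal.{0}} {c c' : List Ent}

private theorem omega_two : Ordinal.omega0.{0} * 2 = Ordinal.omega0 + Ordinal.omega0 := by
  rw [← one_add_one_eq_two, mul_add, mul_one]

private theorem thr_eq (ξ : Ordinal.{0}) :
    thr ξ = Ordinal.omega0 * 2 * ξ + Ordinal.omega0 + Ordinal.omega0 := by
  unfold thr
  rw [mul_add, mul_one, omega_two, ← add_assoc]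

private theorem thr_le {ξ' ξ : Ordinal.{0}} (h : ξ' < ξ) : thr ξ' ≤ Ordinal.omega0 * 2 * ξ := by
  unfold thr
  exact mul_le_mul_right (Order.add_one_le_of_lt h) _

private theorem le_thr (ξ : Ordinal.{0}) : Ordinal.omega0 * 2 * ξ ≤ thr ξ := by
  rw [thr_eq, add_assoc]
  exact le_self_add

private theorem hη_mono {ρ ρ' : Ordinal.{0}} (h : ρ ≤ ρ')
    (hη : ∀ β, η β = η' β ∨ (ρ' ≤ η β ∧ ρ' ≤ η' β)) :
    ∀ β, η β = η' β ∨ (ρ ≤ η β ∧ ρ ≤ η' β) := fun β =>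
  (hη β).imp id fun h' => ⟨h.trans h'.1, h.trans h'.2⟩

private theorem hη_symm {ρ : Ordinal.{0}} (hη : ∀ β, η β = η' β ∨ (ρ ≤ η β ∧ ρ ≤ η' β)) :
    ∀ β, η' β = η β ∨ (ρ ≤ η' β ∧ ρ ≤ η β) := fun β =>
  (hη β).imp Eq.symm fun h' => ⟨h'.2, h'.1⟩

theorem FL_rt {ι : Type} (O : ι → ι → Set (ℕ → ℕ)) (ξ : Ordinal.{0}) (m : ι)
    (hη : ∀ β, η β = η' β ∨ (thr ξ ≤ η β ∧ thr ξ ≤ η' β)) (hc : Val η κ c) (hc' : Val η' κ c')
    (h : Rt (thr ξ) c c') (hF : FL (Val η κ) dec O ξ m c) : FL (Val η' κ) dec O ξ m c' := by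
  induction ξ using WellFoundedLT.induction generalizing m c c' with
  | _ ξ ih =>
    rw [FL_iff] at hF ⊢
    intro m' d' hd' hcd' hdec'
    have hη1 := hη
    rw [thr_eq] at hη1 h
    obtain ⟨d, hd, hcd, hdd⟩ := rt_step hη1 h hc hd' hcd'
    obtain ⟨ξ', hξ', e, he, hde, hFe⟩ := hF m' d hd hcd ((dec_rt hdd _).2 hdec')
    have hη2 := hη_symm (hη_mono le_self_add hη1)
    obtain ⟨e', he', hde', hee⟩ := rt_step hη2 (rt_symm hdd) hd' he hde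
    refine ⟨ξ', hξ', e', he', hde', ?_⟩
    exact ih ξ' hξ' m' (hη_mono ((thr_le hξ').trans (le_thr ξ)) hη) he he'
      (rt_mono (thr_le hξ') (rt_symm hee)) hFe

theorem FB_rt (O : ℕ → Set (ℕ → ℕ))
    (hη : ∀ β, η β = η' β ∨ (Ordinal.omega0 * 2 ≤ η β ∧ Ordinal.omega0 * 2 ≤ η' β))
    (hc : Val η κ c) (hc' : Val η' κ c') (h : Rt (Ordinal.omega0 * 2) c c')
    (hF : FB (Val η κ) dec O c) : FB (Val η' κ) dec O c' := by
  intro k d' hd' hcd'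
  have e0 : Ordinal.omega0.{0} * 2 = 0 + Ordinal.omega0 + Ordinal.omega0 := by
    rw [omega_two, zero_add]
  rw [e0] at hη h
  obtain ⟨d, hd, hcd, hdd⟩ := rt_step hη h hc hd' hcd'
  obtain ⟨e, he, hde, hD⟩ := hF k d hd hcd
  have hη2 := hη_symm (hη_mono le_self_add hη)
  obtain ⟨e', he', hde', hee⟩ := rt_step hη2 (rt_symm hdd) hd' he hde
  exact ⟨e', he', hde', (dec_rt hee _).2 hD⟩

theorem FT_rt {ι : Type} (O : ι → ι → Set (ℕ → ℕ)) (ξ : Ordinal.{0}) (m : ι)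
    (hη : ∀ β, η β = η' β ∨ (thr ξ + Ordinal.omega0 ≤ η β ∧ thr ξ + Ordinal.omega0 ≤ η' β))
    (hc : Val η κ c) (hc' : Val η' κ c')
    (h : Rt (thr ξ + Ordinal.omega0) c c') (hF : FT (Val η κ) dec O ξ m c) :
    FT (Val η' κ) dec O ξ m c' := by
  refine ⟨FL_rt O ξ m (hη_mono le_self_add hη) hc hc' (rt_mono le_self_add h) hF.1, ?_⟩
  intro ξ' hξ' e' he' hce' hF'
  obtain ⟨e, he, hce, hee⟩ := rt_step hη h hc he' hce'
  have h1 : thr ξ' ≤ thr ξ := (thr_le hξ').trans (le_thr ξ)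
  exact hF.2 ξ' hξ' e he hce (FL_rt O ξ' m (hη_symm (hη_mono (h1.trans le_self_add) hη)) he' he
    (rt_mono h1 (rt_symm hee)) hF')

private theorem forall2_imp {α β : Type*} {P Q : α → β → Prop} {l : List α} {l' : List β}
    (h : List.Forall₂ P l l') (hi : ∀ x ∈ l, ∀ y, P x y → Q x y) : List.Forall₂ Q l l' := by
  induction h with
  | nil => exact List.Forall₂.nil
  | cons h1 _ ih =>
    exact List.Forall₂.cons (hi _ List.mem_cons_self _ h1)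
      (ih fun x hx => hi x (List.mem_cons_of_mem _ hx))

theorem FPsi_rt (G : (ℕ → ℕ) → ℕ → ℕ) (φ : Fm) (f : List ℕ) (v : ℕ) (ζ : List Ordinal.{0})
    (nn : List ℕ) (hζ : ∀ z ∈ ζ, thr z + Ordinal.omega0 ≤ ρ)
    (hη : ∀ β, η β = η' β ∨ (ρ + Ordinal.omega0 + Ordinal.omega0 ≤ η β ∧
      ρ + Ordinal.omega0 + Ordinal.omega0 ≤ η' β))
    (hc : Val η κ c) (hc' : Val η' κ c')
    (h : Rt (ρ + Ordinal.omega0 + Ordinal.omega0) c c')
    (hF : FPsi (Val η κ) dec G φ f v ζ nn c) : FPsi (Val η' κ) dec G φ f v ζ nn c' := by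
  intro d' hd' hcd'
  obtain ⟨d, hd, hcd, hdd⟩ := rt_step hη h hc hd' hcd'
  obtain ⟨e, he, hde, mm, hFT, hD⟩ := hF d hd hcd
  have hη2 := hη_symm (hη_mono le_self_add hη)
  obtain ⟨e', he', hde', hee⟩ := rt_step hη2 (rt_symm hdd) hd' he hde
  refine ⟨e', he', hde', mm, ?_, (dec_rt hee _).2 hD⟩
  refine forall2_imp hFT fun z hz m hm => ?_
  have h1 : thr z + Ordinal.omega0 ≤ ρ := hζ z hz
  exact FT_rt (OZ G) z (some m) (hη_mono (h1.trans (le_self_add.trans le_self_add)) hη) he he'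
    (rt_mono h1 (rt_symm hee)) hm

end MP2900
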