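import Pool.Agent.Lib.MP_2900b9_lc.C.RtStep

/-!
Module RtRoot: retagging of a given condition.
-/

set_option autoImplicit false

namespace MP2900

open Set Pool.Agent.Lib.MP_2900b9_lc

variable [TP] {η η' κ : Bool → Ordinal.{0}} {ρ : Ordinal.{0}} {c : List Ent}

omit [TP] in
private theorem rr_rt {b' : ℕ → Ent}
    (h : ∀ i < c.length, ∀ β, (ext c i).g β = (b' i).g β ∧
      (((ext c i).h β = none ∧ (b' i).h β = none) ∨ ∃ ζ ζ', (ext c i).h β = some ζ ∧
        (b' i).h β = some ζ' ∧ (ζ = ζ' ∨ (ρ ≤ ζ ∧ ρ ≤ ζ')))) :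
    Rt ρ c (seg b' c.length) := by
  have h1 : Rt ρ (seg (ext c) c.length) (seg b' c.length) := by
    unfold Rt seg
    rw [List.forall₂_map_left_iff, List.forall₂_map_right_iff, List.forall₂_same]
    intro i hi
    exact h i (List.mem_range.1 hi)
  rwa [seg_ext] at h1

omit [TP] in
private theorem rr_val {b : ℕ → Ent} {N : ℕ} (h : ∀ i < N, VN η κ b i) : Val η κ (seg b N) := by
  intro i hi β
  rw [length_seg] at hi
  obtain ⟨h1, h2, h3⟩ := h i hi β
  rw [ext_seg b hi]
  refine ⟨h1, h2, fun h0 ζ hζ => ?_⟩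
  have hp : par i < N := (par_lt (Nat.one_le_iff_ne_zero.2 h0)).trans hi
  rw [ext_seg b hp]
  exact h3 h0 ζ hζ

theorem rt_raise (hc : Val η κ c) (hη : ∀ β, η β = η' β ∨ (ρ ≤ η β ∧ η β ≤ η' β)) :
    ∃ c', Val η' κ c' ∧ Rt ρ c c' := by
  classical
  let b' : ℕ → Ent := fun i => if i = 0 then ⟨fun β => some (η' β), (ext c 0).g⟩ else ext c i
  have hb0 : b' 0 = ⟨fun β => some (η' β), (ext c 0).g⟩ := by simp [b']
  have hb1 : ∀ i, i ≠ 0 → b' i = ext c i := fun i hi => by simp [b', hi]
  refine ⟨seg b' c.length, rr_val fun i hi β => ?_, rr_rt fun i hi β => ?_⟩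
  · obtain ⟨h1, h2, h3⟩ := hc i hi β
    by_cases h0 : i = 0
    · subst h0
      rw [hb0]
      exact ⟨h1, fun _ => rfl, fun h => absurd rfl h⟩
    · rw [hb1 i h0]
      refine ⟨h1, fun h => absurd h h0, fun _ ζ hζ => ?_⟩
      obtain ⟨ζ', hζ', hlt⟩ := h3 h0 ζ hζ
      by_cases hp : par i = 0
      · rw [hp] at hζ' ⊢
        rw [hb0]
        refine ⟨η' β, rfl, ?_⟩
        have h4 := (hc 0 (by omega) β).2.1 rfl
        rw [h4] at hζ'
        have h5 := Option.some.inj hζ'
        rw [← h5] at hlt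
        rcases hη β with h6 | h6
        · rwa [← h6]
        · exact hlt.trans_le h6.2
      · rw [hb1 _ hp]
        exact ⟨ζ', hζ', hlt⟩
  · by_cases h0 : i = 0
    · subst h0
      rw [hb0]
      refine ⟨rfl, Or.inr ⟨η β, η' β, (hc 0 hi β).2.1 rfl, rfl, ?_⟩⟩
      rcases hη β with h6 | h6
      · exact Or.inl h6
      · exact Or.inr ⟨h6.1, h6.1.trans h6.2⟩
    · rw [hb1 i h0]
      refine ⟨rfl, ?_⟩
      cases h : (ext c i).h β with
      | none => exact Or.inl ⟨rfl, rfl⟩
      | some ζ => exact Or.inr ⟨ζ, ζ, rfl, rfl, Or.inl rfl⟩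

theorem rt_lower (hc : Val η κ c)
    (hη : ∀ β, η β = η' β ∨ (ρ ≤ η β ∧ η' β = ρ + Ordinal.omega0)) :
    ∃ c', Val η' κ c' ∧ Rt ρ c c' := by
  classical
  let f : ℕ → Ordinal.{0} → Ordinal.{0} := fun i ζ =>
    if ζ < ρ then ζ else ρ + ((c.length - i : ℕ) : Ordinal.{0})
  let b' : ℕ → Ent := fun i => if i = 0 then ⟨fun β => some (η' β), (ext c 0).g⟩ else
    ⟨fun β => if η β = η' β then (ext c i).h β else ((ext c i).h β).map (f i), (ext c i).g⟩
  have hb0 : b' 0 = ⟨fun β => some (η' β), (ext c 0).g⟩ := by simp [b']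
  have hb1 : ∀ i, i ≠ 0 → b' i = ⟨fun β => if η β = η' β then (ext c i).h β else
    ((ext c i).h β).map (f i), (ext c i).g⟩ := fun i hi => by simp [b', hi]
  refine ⟨seg b' c.length, rr_val fun i hi β => ?_, rr_rt fun i hi β => ?_⟩
  · obtain ⟨h1, h2, h3⟩ := hc i hi β
    by_cases h0 : i = 0
    · subst h0
      rw [hb0]
      exact ⟨h1, fun _ => rfl, fun h => absurd rfl h⟩
    · rw [hb1 i h0]
      refine ⟨h1, fun h => absurd h h0, fun _ ζ hζ => ?_⟩
      have h4 := (hc 0 (by omega) β).2.1 rfl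
      have hpi : par i < i := par_lt (Nat.one_le_iff_ne_zero.2 h0)
      by_cases he : η β = η' β
      · simp only [he, if_true] at hζ
        obtain ⟨ζ', hζ', hlt⟩ := h3 h0 ζ hζ
        by_cases hp : par i = 0
        · rw [hp] at hζ' ⊢
          rw [hb0]
          rw [h4] at hζ'
          have h5 := Option.some.inj hζ'
          exact ⟨η' β, rfl, by rw [← he, h5]; exact hlt⟩
        · rw [hb1 _ hp]
          exact ⟨ζ', by simp only [he, if_true]; exact hζ', hlt⟩
      · simp only [he, if_false] at hζ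
        obtain ⟨hρ, hω⟩ := (hη β).resolve_left he
        rw [Option.map_eq_some_iff] at hζ
        obtain ⟨ζ0, hζ0, rfl⟩ := hζ
        obtain ⟨ζ', hζ', hlt⟩ := h3 h0 ζ0 hζ0
        by_cases hp : par i = 0
        · rw [hp, hb0]
          refine ⟨η' β, rfl, ?_⟩
          rw [hω]
          simp only [f]
          split_ifs with h5
          · exact h5.trans_le le_self_add
          · exact (add_lt_add_iff_left ρ).2 (Ordinal.nat_lt_omega0 _)
        · rw [hb1 _ hp]
          refine ⟨f (par i) ζ', by simp only [he, if_false, hζ', Option.map_some], ?_⟩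
          simp only [f]
          split_ifs with h5 h6 h6
          · exact hlt
          · exact h5.trans_le le_self_add
          · exact absurd (hlt.trans h6) h5
          · refine (add_lt_add_iff_left ρ).2 (Nat.cast_lt.2 ?_)
            omega
  · by_cases h0 : i = 0
    · subst h0
      rw [hb0]
      refine ⟨rfl, Or.inr ⟨η β, η' β, (hc 0 hi β).2.1 rfl, rfl, ?_⟩⟩
      rcases hη β with h6 | h6
      · exact Or.inl h6
      · exact Or.inr ⟨h6.1, by rw [h6.2]; exact le_self_add⟩
    · rw [hb1 i h0]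
      refine ⟨rfl, ?_⟩
      by_cases he : η β = η' β
      · simp only [he, if_true]
        cases h : (ext c i).h β with
        | none => exact Or.inl ⟨rfl, rfl⟩
        | some ζ => exact Or.inr ⟨ζ, ζ, rfl, rfl, Or.inl rfl⟩
      · simp only [he, if_false]
        cases h : (ext c i).h β with
        | none => exact Or.inl ⟨rfl, rfl⟩
        | some ζ =>
          refine Or.inr ⟨ζ, f i ζ, rfl, rfl, ?_⟩
          simp only [f]
          split_ifs with h5
          · exact Or.inl rfl
          · exact Or.inr ⟨not_lt.1 h5, le_self_add⟩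

end MP2900
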