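import Pool.Agent.Lib.MP_2900b9_lc.C.Sound
import Pool.Agent.Lib.MP_2900b9_lc.C.GenReal
import Pool.Agent.Lib.MP_2900b9_lc.C.RtFL
import Pool.Agent.Lib.MP_2900b9_lc.C.RtRoot

/-!
Module KIISmall: in the second reduction the height forced cannot be small.
-/

set_option autoImplicit false

namespace MP2900

open Set Pool.Agent.Lib.MP_2900b9_lc

open Topology

variable [TP]

theorem keyII_small {F : (ℕ → ℕ) → ℕ → ℕ} (hF : Continuous F)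
    (hFU : ∀ w, w ∈ Uset ↔ F w ∈ Aset)
    {κ ρ : Ordinal.{0}} (hκ : Ctb κ) (hρ : Ctb ρ)
    {γ ε : Ordinal.{0}} {c : List Ent} (hγc : Ctb γ) (hεc : Ctb ε)
    (h0 : Ordinal.omega0 * 2 ≤ ρ) (h1 : thr γ + Ordinal.omega0 ≤ ρ)
    (h2 : thr ε + Ordinal.omega0 ≤ ρ)
    (hc : Val (η2 κ ρ) (κ2 κ ρ) c)
    (hB : FBo (η2 κ ρ) (κ2 κ ρ) F c)
    (hH : FH (η2 κ ρ) (κ2 κ ρ) F γ c)
    (hX : FXe (η2 κ ρ) (κ2 κ ρ) F ε c) (hJ : JO γ ε) : False := by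
  have hρ0 : 0 < ρ := by
    refine lt_of_lt_of_le ?_ h0
    exact mul_pos Ordinal.omega0_pos two_pos
  have hκI : ∀ β, 0 < κ2 κ ρ β := by
    intro β
    cases β
    · exact hρ0
    · exact lt_of_lt_of_le Ordinal.omega0_pos le_add_self
  have h1c : Ctb (1 : Ordinal.{0}) := by
    have h := ctb_nat 1
    rwa [Nat.cast_one] at h
  have hκIc : ∀ β, Ctb (κ2 κ ρ β) := by
    intro β
    cases β
    · exact hρ
    · exact ctb_add hκ ctb_omega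
  have hη'c : ∀ β, Ctb (η4 κ ρ β) := by
    intro β
    cases β
    · exact ctb_add hρ h1c
    · exact ctb_add (ctb_add hκ ctb_omega) h1c
  have hη : ∀ ρ', ρ' ≤ ρ → ∀ β, η2 κ ρ β = η4 κ ρ β ∨ (ρ' ≤ η2 κ ρ β ∧ ρ' ≤ η4 κ ρ β) := by
    intro ρ' h β
    cases β
    · exact Or.inr ⟨h, h.trans le_self_add⟩
    · exact Or.inl rfl
  obtain ⟨c', hc', hr⟩ := rt_raise (η := η2 κ ρ) (η' := η4 κ ρ) (ρ := ρ) hc (by
    intro β
    cases β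
    · exact Or.inr ⟨le_rfl, le_self_add⟩
    · exact Or.inl rfl)
  have hB' : FBo (η4 κ ρ) (κ2 κ ρ) F c' :=
    FB_rt _ (hη _ h0) hc hc' (rt_mono h0 hr) hB
  have hH' : FH (η4 κ ρ) (κ2 κ ρ) F γ c' :=
    FT_rt _ _ _ (hη _ h1) hc hc' (rt_mono h1 hr) hH
  have hX' : FXe (η4 κ ρ) (κ2 κ ρ) F ε c' :=
    FT_rt _ _ _ (hη _ h2) hc hc' (rt_mono h2 hr) hX
  have hmc : Ctb (max γ ε) := by
    rcases le_total γ ε with h | h
    · rw [max_eq_right h]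
      exact hεc
    · rw [max_eq_left h]
      exact hγc
  obtain ⟨Q1, hQ1⟩ := tru (η := η4 κ ρ) (κ := κ2 κ ρ) hκI hF hmc
  obtain ⟨Q2, hQ2⟩ := gen_real (η := η4 κ ρ) (κ := κ2 κ ρ) hη'c hκIc hκI
  obtain ⟨Q, hQ⟩ := gen_and (V := Val (η4 κ ρ) (κ2 κ ρ)) Q1 Q2
  have hdok := dok (η := η4 κ ρ) (κ := κ2 κ ρ) hκI
  obtain ⟨b, hb, hbc⟩ := gen_exists hdok.ex hdok.pre Q hc'
  obtain ⟨hb1, hb2⟩ := hQ b hb
  obtain ⟨t1, t2, -, t4, -⟩ := hQ1 b hb1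
  rw [← hbc] at hB' hH' hX'
  have y1 := t1.2 ⟨_, hB'⟩
  have y2 := erk_iff'.1 ((t2 γ (le_max_left _ _)).2 ⟨_, hH'⟩)
  have y3 := erk_iff'.1 ((t4 ε (le_max_right _ _)).2 ⟨_, hX'⟩)
  have hA : F (real b) ∈ Aset := ⟨y1, y2.1, y3.1, by rw [y2.2, y3.2]; exact hJ⟩
  have hU := (hFU _).2 hA
  have key : ∀ β, cmpt β (real b) ∈ Vset → η4 κ ρ β ≤ κ2 κ ρ β := by
    intro β hV
    obtain ⟨-, -, g3, -, g5, -⟩ := hQ2 b hb2 β
    have h := hV.2.2.2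
    rwa [g3, g5] at h
  rcases hU with hU | hU
  · have h : κ + Ordinal.omega0 + 1 ≤ κ + Ordinal.omega0 := key true hU
    exact absurd (Order.lt_add_one_iff.2 le_rfl : κ + Ordinal.omega0 < κ + Ordinal.omega0 + 1)
      (not_lt.2 h)
  · have h : ρ + 1 ≤ ρ := key false hU
    exact absurd (Order.lt_add_one_iff.2 le_rfl : ρ < ρ + 1) (not_lt.2 h)

end MP2900
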