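import Pool.Agent.Lib.MP_2900b9_lc.C.Sound
import Pool.Agent.Lib.MP_2900b9_lc.C.GenReal
import Pool.Agent.Lib.MP_2900b9_lc.C.RtFL
import Pool.Agent.Lib.MP_2900b9_lc.C.RtRoot

/-!
Module KISmall: in the first reduction the height forced cannot be small.

Write `G = fun w => cmpt β (F (ev w))` (continuous: continuous_ev, continuous_od). Let `θ` be the countable bound of `JO κ` (hJ), `ρ = ω * 2 * (μ + 3)`, `η' true = max ρ (θ + 1)`, `η' false = 0`, so `η1 μ β ≤ η' β`. rt_raise gives `c'` valid for `η'` with `Rt ρ c c'`. Thresholds: `thr γ + ω ≤ ω * 2 * (μ + 2) + ω ≤ ρ`, `thr γ ≤ ρ`, `ω * 2 ≤ ρ`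
(`γ ≤ μ + 1`, so `thr γ ≤ ω * 2 * (μ + 2)`). FB_rt, FT_rt, FL_rt: `c'` has FBo, FH γ, FX γ for `η'` (the hypotheses hη hold: `η1 μ false = η' false`, and both `true` values are `≥ ρ`). Let `b` be generic through `c'` for the families of `tru` (bound `γ`, for `η'`), and of gen_real (for `η'`, `κI κ`). So `y = G (real b)` is in `Bo`, of height exactly `γ`,
with `LR (relX y) γ 0`, so `y ∈ Vset`, so `F (ev (real b)) ∈ Uset`, so `ev (real b) ∈ Aset`. But `ev (real b) = cmpt true (real b)` has height `κ` and tree rank `η' true`, so `JO κ (η' true)`, so `η' true ≤ θ`. Contradiction.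
-/

set_option autoImplicit false

namespace MP2900

open Set Pool.Agent.Lib.MP_2900b9_lc

open Topology

variable [TP]

/-- the raised tree ranks -/
private noncomputable def kiE (ρ θ : Ordinal.{0}) : Bool → Ordinal.{0}
  | true => max ρ (θ + 1)
  | false => 0

theorem keyI_small {F : (ℕ → ℕ) → ℕ → ℕ} (hF : Continuous F)
    (hFA : ∀ z, z ∈ Aset ↔ F z ∈ Uset)
    (hJ : ∀ γ, Ctb γ → ∃ θ, Ctb θ ∧ ∀ η, JO γ η → η ≤ θ)
    {κ μ : Ordinal.{0}} (hκ0 : 0 < κ) (hκ : Ctb κ) (hμ : Ctb μ)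
    {β : Bool} {γ : Ordinal.{0}} {c : List Ent} (hγ : γ ≤ μ + 1)
    (hc : Val (η1 μ) (κI κ) c)
    (hB : FBo (η1 μ) (κI κ) (fun w => cmpt β (F (ev w))) c)
    (hH : FH (η1 μ) (κI κ) (fun w => cmpt β (F (ev w))) γ c)
    (hX : FX (η1 μ) (κI κ) (fun w => cmpt β (F (ev w))) γ c) : False := by
  obtain ⟨θ, hθ, hJθ⟩ := hJ κ hκ
  set ρ : Ordinal.{0} := Ordinal.omega0 * 2 * (μ + 3) with hρ
  have hG : Continuous (fun w => cmpt β (F (ev w))) := by
    have h1 : Continuous (fun w : ℕ → ℕ => F (ev w)) := hF.comp continuous_ev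
    cases β
    · exact continuous_od.comp h1
    · exact continuous_ev.comp h1
  have hκI : ∀ β, 0 < κI κ β := by
    intro β
    cases β
    · exact one_pos
    · exact hκ0
  have hκIc : ∀ β, Ctb (κI κ β) := by
    intro β
    cases β
    · have h := ctb_nat 1
      rw [Nat.cast_one] at h
      exact h
    · exact hκ
  have h1c : Ctb (1 : Ordinal.{0}) := by
    have h := ctb_nat 1
    rwa [Nat.cast_one] at h
  have hωc : Ctb (Ordinal.omega0 * 2 : Ordinal.{0}) := by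
    have h := ctb_mul ctb_omega (ctb_nat 2)
    rwa [Nat.cast_ofNat] at h
  have hρc : Ctb ρ := by
    refine ctb_mul hωc (ctb_add hμ ?_)
    have h := ctb_nat 3
    rwa [Nat.cast_ofNat] at h
  have hγc : Ctb γ := ctb_mono hγ (ctb_add hμ h1c)
  have hη'c : ∀ β, Ctb (kiE ρ θ β) := by
    intro β
    cases β
    · have h := ctb_nat 0
      rw [Nat.cast_zero] at h
      exact h
    · rcases le_total ρ (θ + 1) with h | h
      · show Ctb (max ρ (θ + 1))
        rw [max_eq_right h]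
        exact ctb_add hθ h1c
      · show Ctb (max ρ (θ + 1))
        rw [max_eq_left h]
        exact hρc
  -- thresholds
  have hω2 : Ordinal.omega0 * 2 ≤ ρ := by
    have h : (1 : Ordinal.{0}) ≤ μ + 3 :=
      le_trans (by exact_mod_cast (by norm_num : (1 : ℕ) ≤ 3)) (le_add_self)
    calc Ordinal.omega0 * 2 = Ordinal.omega0 * 2 * 1 := (mul_one _).symm
      _ ≤ ρ := mul_le_mul_right h _
  have hthr : thr γ + Ordinal.omega0 ≤ ρ := by
    have h1 : γ + 1 ≤ μ + 2 := by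
      have h2 : (μ + 2 : Ordinal.{0}) = μ + 1 + 1 := by rw [add_assoc, one_add_one_eq_two]
      rw [h2]
      exact add_le_add_left hγ 1
    have h3 : thr γ ≤ Ordinal.omega0 * 2 * (μ + 2) := mul_le_mul_right h1 _
    have h4 : (μ + 3 : Ordinal.{0}) = μ + 2 + 1 := by
      rw [add_assoc]
      congr 1
    have h5 : ρ = Ordinal.omega0 * 2 * (μ + 2) + Ordinal.omega0 * 2 := by
      rw [hρ, h4, mul_add, mul_one]
    have h6 : (Ordinal.omega0 : Ordinal.{0}) ≤ Ordinal.omega0 * 2 := by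
      calc (Ordinal.omega0 : Ordinal.{0}) = Ordinal.omega0 * 1 := (mul_one _).symm
        _ ≤ Ordinal.omega0 * 2 := mul_le_mul_right one_le_two _
    rw [h5]
    exact add_le_add h3 h6
  have hthr' : thr γ ≤ ρ := le_trans le_self_add hthr
  have hη : ∀ ρ', ρ' ≤ ρ → ∀ β, η1 μ β = kiE ρ θ β ∨ (ρ' ≤ η1 μ β ∧ ρ' ≤ kiE ρ θ β) := by
    intro ρ' h β
    cases β
    · exact Or.inl rfl
    · exact Or.inr ⟨h, h.trans (le_max_left _ _)⟩
  obtain ⟨c', hc', hr⟩ := rt_raise (η := η1 μ) (η' := kiE ρ θ) (ρ := ρ) hc (by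
    intro β
    cases β
    · exact Or.inl rfl
    · exact Or.inr ⟨le_rfl, le_max_left _ _⟩)
  have hB' : FBo (kiE ρ θ) (κI κ) (fun w => cmpt β (F (ev w))) c' :=
    FB_rt _ (hη _ hω2) hc hc' (rt_mono hω2 hr) hB
  have hH' : FH (kiE ρ θ) (κI κ) (fun w => cmpt β (F (ev w))) γ c' :=
    FT_rt _ _ _ (hη _ hthr) hc hc' (rt_mono hthr hr) hH
  have hX' : FX (kiE ρ θ) (κI κ) (fun w => cmpt β (F (ev w))) γ c' :=
    FL_rt _ _ _ (hη _ hthr') hc hc' (rt_mono hthr' hr) hX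
  obtain ⟨Q1, hQ1⟩ := tru (η := kiE ρ θ) (κ := κI κ) hκI hG hγc
  obtain ⟨Q2, hQ2⟩ := gen_real (η := kiE ρ θ) (κ := κI κ) hη'c hκIc hκI
  obtain ⟨Q, hQ⟩ := gen_and (V := Val (kiE ρ θ) (κI κ)) Q1 Q2
  have hdok := dok (η := kiE ρ θ) (κ := κI κ) hκI
  obtain ⟨b, hb, hbc⟩ := gen_exists hdok.ex hdok.pre Q hc'
  obtain ⟨hb1, hb2⟩ := hQ b hb
  obtain ⟨t1, t2, t3, -, -⟩ := hQ1 b hb1
  obtain ⟨-, -, g3, -, g5, -⟩ := hQ2 b hb2 true
  rw [← hbc] at hB' hH' hX'
  have y1 := t1.2 ⟨_, hB'⟩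
  have y2 := erk_iff'.1 ((t2 γ le_rfl).2 ⟨_, hH'⟩)
  have y3 := (t3 γ le_rfl).2 ⟨_, hX'⟩
  have hV : cmpt β (F (ev (real b))) ∈ Vset :=
    ⟨y1, y2.1, LR_acc y3, by rw [y2.2]; exact rk_le y3⟩
  have hU : F (ev (real b)) ∈ Uset := by
    cases β
    · exact Or.inr hV
    · exact Or.inl hV
  have hA := (hFA _).2 hU
  have hJ' : JO κ (kiE ρ θ true) := by
    have h := hA.2.2.2
    have g3' : rk (relZ (ev (real b))) none = κ := g3
    have g5' : rk (relX (ev (real b))) 0 = kiE ρ θ true := g5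
    rw [g3', g5'] at h
    exact h
  have h1 := hJθ _ hJ'
  have h2 : θ + 1 ≤ θ := (le_max_right ρ (θ + 1)).trans h1
  exact absurd (Order.lt_add_one_iff.2 le_rfl : θ < θ + 1) (not_lt.2 h2)

end MP2900
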