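import Pool.Agent.Lib.MP_2900b9_lc.C.KICond
import Pool.Agent.Lib.MP_2900b9_lc.C.EncI
import Pool.Agent.Lib.MP_2900b9_lc.C.Rank

/-!
Module KeyI: the key property for the first reduction.

Let `Bdd (EI F) κ α` and `Full κ p μ`. Let `i, c, n` be from keyI_cond. For `(φ, s)` with `s < κ` put `z(φ,s) = encI i c n φ s`; its ordinals are `≤ κ + ω` (encI_le).
(1) For `IsMin (μ+1) φ (s ++ p) ξ` the structure `z(φ,s)` is accessible for `EI F κ`: induction on `ξ`: if `EI F κ y (z(φ,s))` then by encI_inj `y = z(φ',s')` with the same `i, c, n` (and `m = p.length` from the lengths), `s' < κ`, and `FPsi (cmpF φ' φ ..) (s' ++ s) n c`, so there are `x < x'` with `IsMin φ' (s' ++ p) x`, `IsMin φ (s ++ p) x'`, `x' = ξ` (isMin_unique), induction hypothesis.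
(2) For every `ξ ≤ μ` choose `(φ_ξ, s_ξ)` with `IsMin (μ+1) φ_ξ (s_ξ ++ p) ξ`. If `LR (EI F κ) ε z(φ_ξ,s_ξ)` then `ξ ≤ ε`: induction on `ξ` (or on `ε`): for `ζ < ξ`, `EI F κ (z(φ_ζ,s_ζ)) (z(φ_ξ,s_ξ))` by keyI_cond, so `LR ε' z(φ_ζ,s_ζ)` with `ε' < ε`, so `ζ ≤ ε' < ε`. As this holds for all `ζ < ξ`, `ξ ≤ ε`.
By Bdd there is `ε < α` with `LR (EI F κ) ε z(φ_μ,s_μ)`, so `μ ≤ ε < α`.
-/

set_option autoImplicit false

namespace MP2900

open Set Pool.Agent.Lib.MP_2900b9_lc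

variable [TP]

theorem keyI {F : (ℕ → ℕ) → ℕ → ℕ} (hF : Continuous F)
    (hFA : ∀ z, z ∈ Aset ↔ F z ∈ Uset)
    (hJ : ∀ γ, Ctb γ → ∃ θ, Ctb θ ∧ ∀ η, JO γ η → η ≤ θ) : Key (EI F) := by
  intro κ α μ p hκ0 hκ hK hB hfull
  obtain ⟨i, c, n, hc, hn, hcond⟩ := keyI_cond hF hFA hJ hκ0 hκ hK hfull
  have claim1 : ∀ ξ : Ordinal.{0}, ∀ (φ : Fm) (s : List Ordinal.{0}), (∀ x ∈ s, x < κ) →
      IsMin (μ + 1) φ (s ++ p) ξ → Acc (EI F κ) (encI i c n φ s) := by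
    intro ξ
    induction ξ using WellFoundedLT.induction with
    | _ ξ ih =>
      intro φ s hs hmin
      refine Acc.intro _ fun y hy => ?_
      obtain ⟨i1, c1, n1, m, φ1, s1, φ2, s2, hVal, hs1, hs2, hn1, rfl, he, hP⟩ := hy
      obtain ⟨rfl, rfl, rfl, rfl, rfl⟩ := encI_inj he
      have hm : m = p.length := by omega
      subst hm
      obtain ⟨x, x', h1, h2, h3⟩ := (hcond φ1 φ s1 s hs1 hs).1 hP
      have h4 : x' = ξ := isMin_unique h2 hmin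
      subst h4
      exact ih x h3 φ1 s1 hs1 h1
  have claim2 : ∀ ξ : Ordinal.{0}, ∀ (φ : Fm) (s : List Ordinal.{0}), (∀ x ∈ s, x < κ) →
      IsMin (μ + 1) φ (s ++ p) ξ → ∀ ε, LR (EI F κ) ε (encI i c n φ s) → ξ ≤ ε := by
    intro ξ
    induction ξ using WellFoundedLT.induction with
    | _ ξ ih =>
      intro φ s hs hmin ε hε
      by_contra hlt
      have hlt' : ε < ξ := not_le.1 hlt
      have hεμ : ε ≤ μ := by
        have h1 : ξ < μ + 1 := hmin.1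
        exact hlt'.le.trans (Order.lt_add_one_iff.1 h1)
      obtain ⟨φ', s', hs', hmin'⟩ := hfull.2.2 ε hεμ
      have hE : EI F κ (encI i c n φ' s') (encI i c n φ s) :=
        ⟨i, c, n, p.length, φ', s', φ, s, hc, hs', hs, hn, rfl, rfl,
          (hcond φ' φ s' s hs' hs).2 ⟨ε, ξ, hmin', hmin, hlt'⟩⟩
      obtain ⟨ε', hε', hL⟩ := (LR_iff _ _ _).1 hε _ hE
      exact absurd (ih ε hlt' φ' s' hs' hmin' ε' hL) (not_le.2 hε')
  obtain ⟨φ, s, hs, hmin⟩ := hfull.2.2 μ le_rfl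
  obtain ⟨ε, hε, hL⟩ := hB (encI i c n φ s) (encI_le hκ0 hc hs) (claim1 μ φ s hs hmin)
  exact lt_of_le_of_lt (claim2 μ φ s hs hmin ε hL) hε

end MP2900
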