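import Pool.Agent.Lib.MP_2900b9_lc.C.FDefs

/-!
Module Poset: the conditions and the map `real` satisfy `DOK`.

* val_seg: `Val η κ (seg b n) ↔ ∀ i < n, VN η κ b i`: `ext (seg b n) i = b i` for `i < n` (ext_seg), and `par i < i < n` for `i ≠ 0` (par_lt).
* val_pre: `ext` of a prefix agrees below its length (ext_of_prefix).
* val_ex: append `⟨fun β => if c = [] then some (η β) else none, fun _ => 0⟩` (`0 < κ β`); `ext (c ++ [a]) c.length = a`.
* real_congr: `real b k` depends only on `isSome` of the tags and on the values `g`: if they agree at all entries the reals agree (congruence in the definition of `realC`).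
* knw_ex: for every `k` there is `N` with `Knw N k`: `real b k = realC β b (k / 2)` (jn); if `(k/2) % 2 = 0` take `N = (k/2)/2 + 1`; otherwise decode `(k/2)/2 = (φ, f, v)`, `N` larger than all elements of `f` and `v` (`List.map_congr_left`). knw_mono: clear.
* dok: pre: val_pre; ex: val_ex; snd: `D (seg b n) O` with bound `m`: apply it to `w = real b`: for `k < m`, `Knw n k`, and `b`, `ext (seg b n)` agree below `n`. cpl: `O` open contains a cylinder around `real b`: there is `m` such that all `w` with `w k = real b k` for `k < m` are in `O` (`isOpen_pi_iff` or the metric of `ℕ → ℕ`; PiNat.cylinder);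
  `n` with `Knw n k` for all `k < m` (maximum). mono: `ext d` and `ext c` agree below `c.length`.
-/

set_option autoImplicit false

namespace MP2900

open Set Pool.Agent.Lib.MP_2900b9_lc

open Topology

variable [TP] {η κ : Bool → Ordinal.{0}}

omit [TP] in
private theorem vn_congr {b b' : ℕ → Ent} {i : ℕ} (h : b i = b' i)
    (h' : i ≠ 0 → b (par i) = b' (par i)) : VN η κ b i ↔ VN η κ b' i := by
  unfold VN
  rw [h]
  refine forall_congr' fun β => and_congr_right fun _ => and_congr_right fun _ => ?_
  refine forall_congr' fun hi => ?_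
  rw [h' hi]

omit [TP] in
private theorem par_lt' {i : ℕ} (hi : i ≠ 0) : par i < i := par_lt (Nat.one_le_iff_ne_zero.2 hi)

theorem val_seg (b : ℕ → Ent) (n : ℕ) : Val η κ (seg b n) ↔ ∀ i < n, VN η κ b i := by
  unfold Val
  rw [length_seg]
  refine forall_congr' fun i => forall_congr' fun hi => ?_
  exact vn_congr (ext_seg b hi) fun h0 => ext_seg b ((par_lt' h0).trans hi)

theorem val_pre {c d : List Ent} (h : c <+: d) (hd : Val η κ d) : Val η κ c := by
  intro i hi
  refine (vn_congr (ext_of_prefix h hi) fun h0 => ext_of_prefix h ((par_lt' h0).trans hi)).1 ?_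
  exact hd i (hi.trans_le h.length_le)

theorem val_ex (hκ : ∀ β, 0 < κ β) {c : List Ent} (hc : Val η κ c) :
    ∃ a, Val η κ (c ++ [a]) := by
  classical
  refine ⟨⟨fun β => if c = [] then some (η β) else none, fun _ => 0⟩, ?_⟩
  intro i hi
  rw [List.length_append, List.length_singleton] at hi
  rcases Nat.lt_succ_iff_lt_or_eq.1 hi with h | h
  · refine (vn_congr (ext_of_prefix (List.prefix_append _ _) h) fun h0 =>
      ext_of_prefix (List.prefix_append _ _) ((par_lt' h0).trans h)).2 (hc i h)
  · subst h
    intro β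
    rw [ext_append_length]
    refine ⟨hκ β, fun h0 => ?_, fun h0 ζ hζ => ?_⟩
    · have : c = [] := List.length_eq_zero_iff.1 h0
      simp [this]
    · have h1 : c ≠ [] := fun h => h0 (by rw [h]; rfl)
      simp [h1] at hζ

private theorem realC_congr {b b' : ℕ → Ent} {β : Bool}
    (h : ∀ i, ((b i).h β).isSome = ((b' i).h β).isSome ∧ (b i).g β = (b' i).g β) (k : ℕ) :
    realC β b k = realC β b' k := by
  have e : (fun i => (b i).g β) = fun i => (b' i).g β := funext fun i => (h i).2
  unfold realC
  rw [(h (k / 2)).1, e]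

theorem real_congr {b b' : ℕ → Ent}
    (h : ∀ i β, ((b i).h β).isSome = ((b' i).h β).isSome ∧ (b i).g β = (b' i).g β) :
    real b = real b' := by
  unfold real
  congr 1
  · exact funext fun k => realC_congr (fun i => h i true) k
  · exact funext fun k => realC_congr (fun i => h i false) k

theorem knw_mono {N N' k : ℕ} (h : N ≤ N') (hk : Knw N k) : Knw N' k :=
  fun b b' hb => hk b b' fun i hi => hb i (hi.trans_le h)

private theorem realC_loc (k : ℕ) : ∃ N, ∀ b b' : ℕ → Ent, (∀ i < N, b i = b' i) → ∀ β,
    realC β b k = realC β b' k := by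
  by_cases hk : k % 2 = 0
  · refine ⟨k / 2 + 1, fun b b' h β => ?_⟩
    unfold realC
    rw [if_pos hk, if_pos hk, h (k / 2) (Nat.lt_succ_self _)]
  · rcases hd : (Encodable.decode (k / 2) : Option (Fm × List ℕ × ℕ)) with _ | ⟨φ, f, v⟩
    · refine ⟨0, fun b b' _ β => ?_⟩
      unfold realC
      rw [if_neg hk, if_neg hk, hd]
    · refine ⟨f.sum + v + 1, fun b b' h β => ?_⟩
      unfold realC
      rw [if_neg hk, if_neg hk, hd]
      have e1 : f.map (fun i => (b i).g β) = f.map (fun i => (b' i).g β) := by
        refine List.map_congr_left fun i hi => ?_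
        have : i ≤ f.sum := List.single_le_sum (fun _ _ => Nat.zero_le _) i hi
        rw [h i (by omega)]
      have e2 : (b v).g β = (b' v).g β := by rw [h v (by omega)]
      have e3 : Fg (fun i => (b i).g β) φ f v ↔ Fg (fun i => (b' i).g β) φ f v := by
        show FO φ (f.map _) ((b v).g β) ↔ FO φ (f.map _) ((b' v).g β)
        rw [e1, e2]
      by_cases hF : Fg (fun i => (b i).g β) φ f v
      · have hF' := e3.1 hF
        simp only [hF, hF', if_true]
      · have hF' := mt e3.2 hF
        simp only [hF, hF', if_false]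

theorem knw_ex (k : ℕ) : ∃ N, Knw N k := by
  obtain ⟨N, hN⟩ := realC_loc (k / 2)
  refine ⟨N, fun b b' h => ?_⟩
  unfold real jn
  split_ifs
  · exact hN b b' h true
  · exact hN b b' h false

theorem dok (hκ : ∀ β, 0 < κ β) : DOK (Val η κ) dec real where
  pre := fun _ _ h hd => val_pre h hd
  ex := fun _ hc => val_ex hκ hc
  snd := by
    rintro b n O ⟨m, h1, h2⟩
    refine h2 _ fun k hk => ?_
    have h3 := h1 k hk
    rw [length_seg] at h3
    exact h3 _ _ fun i hi => (ext_seg b hi).symm
  cpl := by
    intro b O hO hb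
    obtain ⟨s, ⟨x, m, rfl⟩, hs, hsO⟩ :=
      (PiNat.isTopologicalBasis_cylinders (fun _ : ℕ => ℕ)).exists_subset_of_mem_open hb hO
    choose N hN using knw_ex
    refine ⟨(Finset.range m).sup N, m, fun k hk => ?_, fun w hw => hsO fun k hk => ?_⟩
    · rw [length_seg]
      exact knw_mono (Finset.le_sup (Finset.mem_range.2 hk)) (hN k)
    · have h1 : Knw ((Finset.range m).sup N) k :=
        knw_mono (Finset.le_sup (Finset.mem_range.2 hk)) (hN k)
      rw [hw k hk, ← hs k hk]
      exact h1 _ _ fun i hi => ext_seg b hi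
  mono := by
    rintro c d O h ⟨m, h1, h2⟩
    refine ⟨m, fun k hk => knw_mono h.length_le (h1 k hk), fun w hw => h2 w fun k hk => ?_⟩
    rw [hw k hk]
    exact h1 k hk _ _ fun i hi => ext_of_prefix h hi

end MP2900
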