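import Pool.Agent.Lib.MP_2900b9_lc.C.Poset

/-!
Module RtStep: retagging step.

* rt_symm, rt_mono, rt_refl: Forall₂.
* dec_rt: `Rt ρ c c'` implies `c.length = c'.length`, and for `k` with `Knw c.length k`: `real (ext c) k = real (ext c') k`: let `b''` be the sequence with the entries of `c'` below the length and those of `ext c` above; real_congr for `ext c` and `b''` (isSome and `g` agree), and `Knw` for `b''` and `ext c'`. So the two conditions decide the same sets.
* rt_step: let `N = d'.length`. Define `d` of length `N`: for `i < c.length` the entry of `c`; for `i ≥ c.length` the entry with the same `g` as `d'` and tags: if `i = 0`: `some (η β)`; otherwise, if `(d' i).h β = none`: `none`; if it is `some ζ`: `some ζ` if `ζ < ρ`, and `some (min ζ (ρ + (N - i : ℕ)))` if `ρ ≤ ζ`.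
  Check `c <+: d`; `Rt ρ d d'`: for old entries by hypothesis (`ρ ≤ ρ + ω`), for new ones by construction (for `i = 0` by hη). `Val η κ d`: values `g` as in `d'` (for old entries as in `c`). Tags for `i ≠ 0` new, `(d i).h β = some τ` from `(d' i).h β = some ζ`: the parent `a = par i < i` has `(d' a).h β = some ζ'`, `ζ < ζ'`. The parent entry of `d`: (i) `a` old (or `a = 0`):
  its tag in `d` is `τ'` with `τ' = ζ'` or both `≥ ρ + ω` (for `a = 0`: by hη and validity). If `τ' = ζ'` then `τ ≤ ζ < ζ'`. Otherwise `τ < ρ + ω ≤ τ'` (either `τ = ζ < ρ` or `τ ≤ ρ + n`). (ii) `a` new, `a ≠ 0`: `τ'` is computed from `ζ'` by the formula: if `ζ < ρ` then `τ = ζ < ρ ≤ τ'` or `τ = ζ < ζ' = τ'`; if `ρ ≤ ζ < ζ'` then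
  `min ζ (ρ + (N-i)) < min ζ' (ρ + (N-a))`.
-/

set_option autoImplicit false

namespace MP2900

open Set Pool.Agent.Lib.MP_2900b9_lc

variable [TP] {η η' κ : Bool → Ordinal.{0}} {ρ ρ' : Ordinal.{0}} {c c' d d' : List Ent}

omit [TP] in
private theorem vnc {b b' : ℕ → Ent} {i : ℕ} (h : b i = b' i)
    (h' : i ≠ 0 → b (par i) = b' (par i)) : VN η κ b i ↔ VN η κ b' i := by
  unfold VN
  rw [h]
  refine forall_congr' fun β => and_congr_right fun _ => and_congr_right fun _ => ?_
  refine forall_congr' fun hi => ?_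
  rw [h' hi]

/-- the relation between entries in `Rt` -/
private def RE (ρ : Ordinal.{0}) (a a' : Ent) : Prop :=
  ∀ β, a.g β = a'.g β ∧
    ((a.h β = none ∧ a'.h β = none) ∨ ∃ ζ ζ', a.h β = some ζ ∧ a'.h β = some ζ' ∧
      (ζ = ζ' ∨ (ρ ≤ ζ ∧ ρ ≤ ζ')))

omit [TP] in
private theorem re_refl (ρ : Ordinal.{0}) (a : Ent) : RE ρ a a := by
  intro β
  refine ⟨rfl, ?_⟩
  rcases h : a.h β with _ | ζ
  · exact Or.inl ⟨rfl, rfl⟩
  · exact Or.inr ⟨ζ, ζ, rfl, rfl, Or.inl rfl⟩

omit [TP] in
private theorem rt_iff : Rt ρ c c' ↔ c.length = c'.length ∧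
    ∀ i < c.length, RE ρ (ext c i) (ext c' i) := by
  have e : Rt ρ c c' ↔ List.Forall₂ (RE ρ) c c' := Iff.rfl
  rw [e, List.forall₂_iff_get]
  refine and_congr_right fun hl => ?_
  have hx : ∀ (c : List Ent) (i : ℕ) (h : i < c.length), ext c i = c.get ⟨i, h⟩ := by
    intro c i h
    simp [ext, List.getD, h]
  constructor
  · intro h i hi
    rw [hx c i hi, hx c' i (hl ▸ hi)]
    exact h i hi (hl ▸ hi)
  · intro h i hi hi'
    rw [← hx c i hi, ← hx c' i hi']
    exact h i hi

theorem rt_refl (ρ : Ordinal.{0}) (c : List Ent) : Rt ρ c c :=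
  rt_iff.2 ⟨rfl, fun _ _ => re_refl _ _⟩

theorem rt_symm (h : Rt ρ c c') : Rt ρ c' c := by
  obtain ⟨h1, h2⟩ := rt_iff.1 h
  refine rt_iff.2 ⟨h1.symm, fun i hi β => ?_⟩
  obtain ⟨h3, h4⟩ := h2 i (h1 ▸ hi) β
  refine ⟨h3.symm, ?_⟩
  rcases h4 with ⟨h5, h6⟩ | ⟨ζ, ζ', h5, h6, h7⟩
  · exact Or.inl ⟨h6, h5⟩
  · refine Or.inr ⟨ζ', ζ, h6, h5, ?_⟩
    rcases h7 with h7 | ⟨h7, h8⟩
    · exact Or.inl h7.symm
    · exact Or.inr ⟨h8, h7⟩

omit [TP] in
private theorem re_mono {a a' : Ent} (hρ : ρ ≤ ρ') (h : RE ρ' a a') : RE ρ a a' := by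
  intro β
  obtain ⟨h3, h4⟩ := h β
  refine ⟨h3, ?_⟩
  rcases h4 with h4 | ⟨ζ, ζ', h5, h6, h7⟩
  · exact Or.inl h4
  · refine Or.inr ⟨ζ, ζ', h5, h6, ?_⟩
    rcases h7 with h7 | ⟨h7, h8⟩
    · exact Or.inl h7
    · exact Or.inr ⟨hρ.trans h7, hρ.trans h8⟩

theorem rt_mono (hρ : ρ ≤ ρ') (h : Rt ρ' c c') : Rt ρ c c' := by
  obtain ⟨h1, h2⟩ := rt_iff.1 h
  exact rt_iff.2 ⟨h1, fun i hi => re_mono hρ (h2 i hi)⟩

private theorem dec_rt1 (h : Rt ρ c c') {O : Set (ℕ → ℕ)} (hd : dec c O) : dec c' O := by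
  classical
  obtain ⟨h1, h2⟩ := rt_iff.1 h
  obtain ⟨n, h3, h4⟩ := hd
  refine ⟨n, fun k hk => h1 ▸ h3 k hk, fun w hw => h4 w fun k hk => ?_⟩
  rw [hw k hk]
  have e1 : real (ext c) = real (fun i => if i < c.length then ext c' i else ext c i) := by
    refine real_congr fun i β => ?_
    split_ifs with hi
    · obtain ⟨h5, h6⟩ := h2 i hi β
      refine ⟨?_, h5⟩
      rcases h6 with ⟨h6, h7⟩ | ⟨ζ, ζ', h6, h7, -⟩ <;> rw [h6, h7] <;> rfl
    · exact ⟨rfl, rfl⟩
  rw [e1]
  refine (h3 k hk _ _ fun i hi => ?_)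
  rw [if_pos hi]

theorem dec_rt (h : Rt ρ c c') (O : Set (ℕ → ℕ)) : dec c O ↔ dec c' O :=
  ⟨fun hd => dec_rt1 h hd, fun hd => dec_rt1 (rt_symm h) hd⟩

/-- the new tags -/
private noncomputable def nt (ρ : Ordinal.{0}) (η : Bool → Ordinal.{0}) (d' : List Ent) (i : ℕ)
    (β : Bool) : Option Ordinal.{0} :=
  if i = 0 then some (η β) else
    ((ext d' i).h β).map fun ζ => if ζ < ρ then ζ else min ζ (ρ + ((d'.length - i : ℕ) : Ordinal))

theorem rt_step
    (hη : ∀ β, η β = η' β ∨ (ρ + Ordinal.omega0 ≤ η β ∧ ρ + Ordinal.omega0 ≤ η' β))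
    (h : Rt (ρ + Ordinal.omega0) c c') (hc : Val η κ c) (hd' : Val η' κ d') (hcd : c' <+: d') :
    ∃ d, Val η κ d ∧ c <+: d ∧ Rt ρ d d' := by
  classical
  obtain ⟨h1, h2⟩ := rt_iff.1 h
  have hρω : ρ ≤ ρ + Ordinal.omega0 := le_self_add
  have hle : c.length ≤ d'.length := h1 ▸ hcd.length_le
  obtain ⟨D, hD⟩ : ∃ D : ℕ → Ent, D = fun i => if i < c.length then ext c i else
      ⟨nt ρ η d' i, (ext d' i).g⟩ := ⟨_, rfl⟩
  have hD1 : ∀ i, i < c.length → D i = ext c i := fun i hi => by rw [hD]; exact if_pos hi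
  have hD2 : ∀ i, ¬ i < c.length → D i = ⟨nt ρ η d' i, (ext d' i).g⟩ := fun i hi => by
    rw [hD]; exact if_neg hi
  have hold : ∀ i, i < c.length → ext d' i = ext c' i := fun i hi => ext_of_prefix hcd (h1 ▸ hi)
  have hnat : ∀ n : ℕ, ρ + (n : Ordinal.{0}) < ρ + Ordinal.omega0 := fun n =>
    add_lt_add_of_le_of_lt le_rfl (Ordinal.nat_lt_omega0 n)
  have hpar : ∀ {i : ℕ}, i ≠ 0 → par i < i := fun hi => par_lt (Nat.one_le_iff_ne_zero.2 hi)
  refine ⟨seg D d'.length, (val_seg D d'.length).2 fun i hi => ?_, ?_, rt_iff.2 ⟨by simp, ?_⟩⟩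
  · -- validity
    by_cases hic : i < c.length
    · exact (vnc (hD1 i hic) fun h0 => hD1 _ ((hpar h0).trans hic)).2 (hc i hic)
    · intro β
      obtain ⟨g1, g2, g3⟩ := hd' i hi β
      rw [hD2 i hic]
      refine ⟨g1, fun h0 => ?_, fun h0 τ hτ => ?_⟩
      · show nt ρ η d' i β = _
        unfold nt
        rw [if_pos h0]
      · have hτ' : nt ρ η d' i β = some τ := hτ
        unfold nt at hτ'
        rw [if_neg h0, Option.map_eq_some_iff] at hτ'
        obtain ⟨ζ, hζ, rfl⟩ := hτ'
        obtain ⟨ζ', hζ', hlt⟩ := g3 h0 ζ hζ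
        have ha : par i < i := hpar h0
        have t1 : (if ζ < ρ then ζ else min ζ (ρ + ((d'.length - i : ℕ) : Ordinal.{0}))) ≤ ζ := by
          split_ifs
          · exact le_rfl
          · exact min_le_left _ _
        have t2 : (if ζ < ρ then ζ else min ζ (ρ + ((d'.length - i : ℕ) : Ordinal.{0}))) <
            ρ + Ordinal.omega0 := by
          split_ifs with h5
          · exact h5.trans_le hρω
          · exact (min_le_right _ _).trans_lt (hnat _)
        by_cases hac : par i < c.length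
        · rw [hD1 _ hac]
          obtain ⟨-, h6⟩ := h2 _ hac β
          rw [← hold _ hac] at h6
          rcases h6 with ⟨-, h7⟩ | ⟨τ', ζ'', h7, h8, h9⟩
          · rw [h7] at hζ'
            exact absurd hζ' (by simp)
          · rw [h8] at hζ'
            obtain rfl := Option.some.inj hζ'
            refine ⟨τ', h7, ?_⟩
            rcases h9 with h9 | ⟨h9, -⟩
            · rw [h9]
              exact t1.trans_lt hlt
            · exact t2.trans_le h9
        · rw [hD2 _ hac]
          by_cases ha0 : par i = 0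
          · refine ⟨η β, ?_, ?_⟩
            · show nt ρ η d' (par i) β = _
              unfold nt
              rw [if_pos ha0]
            · obtain ⟨-, g5, -⟩ := hd' (par i) (ha.trans hi) β
              rw [g5 ha0] at hζ'
              obtain rfl := Option.some.inj hζ'
              rcases hη β with h9 | ⟨h9, -⟩
              · rw [h9]
                exact t1.trans_lt hlt
              · exact t2.trans_le h9
          · refine ⟨if ζ' < ρ then ζ' else min ζ' (ρ + ((d'.length - par i : ℕ) : Ordinal.{0})),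
              ?_, ?_⟩
            · show nt ρ η d' (par i) β = _
              unfold nt
              rw [if_neg ha0, hζ']
              rfl
            · by_cases h5 : ζ < ρ
              · rw [if_pos h5]
                split_ifs
                · exact hlt
                · exact lt_min hlt (h5.trans_le le_self_add)
              · have h6 : ¬ ζ' < ρ := fun h7 => h5 (hlt.trans h7)
                rw [if_neg h5, if_neg h6]
                refine lt_min ((min_le_left _ _).trans_lt hlt) ((min_le_right _ _).trans_lt ?_)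
                refine add_lt_add_of_le_of_lt le_rfl ?_
                exact_mod_cast (by omega : d'.length - i < d'.length - par i)
  · -- prefix
    have e : seg D c.length = c := (seg_congr.2 fun i hi => hD1 i hi).trans (seg_ext c)
    have := seg_prefix D hle
    rwa [e] at this
  · intro i hi
    rw [length_seg] at hi
    rw [ext_seg D hi]
    by_cases hic : i < c.length
    · rw [hD1 i hic, hold i hic]
      exact re_mono hρω (h2 i hic)
    · rw [hD2 i hic]
      intro β
      refine ⟨rfl, ?_⟩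
      show (nt ρ η d' i β = none ∧ _) ∨ ∃ ζ ζ', nt ρ η d' i β = some ζ ∧ _
      by_cases h0 : i = 0
      · obtain ⟨-, g5, -⟩ := hd' i hi β
        refine Or.inr ⟨η β, η' β, ?_, g5 h0, ?_⟩
        · unfold nt
          rw [if_pos h0]
        · rcases hη β with h9 | ⟨h9, h10⟩
          · exact Or.inl h9
          · exact Or.inr ⟨hρω.trans h9, hρω.trans h10⟩
      · rcases hζ : (ext d' i).h β with _ | ζ
        · refine Or.inl ⟨?_, rfl⟩
          unfold nt
          rw [if_neg h0, hζ]
          rfl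
        · refine Or.inr ⟨if ζ < ρ then ζ else min ζ (ρ + ((d'.length - i : ℕ) : Ordinal.{0})), ζ,
            ?_, rfl, ?_⟩
          · unfold nt
            rw [if_neg h0, hζ]
            rfl
          · split_ifs with h5
            · exact Or.inl rfl
            · exact Or.inr ⟨le_min (not_lt.1 h5) le_self_add, not_lt.1 h5⟩

end MP2900
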