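import Pool.Agent.Lib.MP_2900b9_lc.C.Rank

/-!
Module Simu: simulations compare ranks.

* sim_iff, left to right: let `S` be a simulation. By induction on `Acc R' a'`: for `(a, a') ∈ S` every `R`-predecessor `k` of `a` has an
  `R'`-predecessor `k'` of `a'` with `(k, k') ∈ S`, so `k` is accessible with `rk R k ≤ rk R' k' < rk R' a'`. So `a` is accessible
  and `rk R a ≤ rk R' a'` (rk_le_of; existence of `ξ` from exists_LR, types in universe 0).
  Right to left: `S i i' := Acc R i ∧ Acc R' i' ∧ rk R i ≤ rk R' i'`. If `R k i` then `rk R k < rk R i ≤ rk R' i'`; by rk_le_of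
  (contraposed: if all predecessors `k'` of `i'` have `rk R' k' < rk R k + 1`... precisely: if `rk R' k' < rk R k` for all `k'` then
  `rk R' i' ≤ rk R k < rk R' i'`, contradiction) there is `k'` with `rk R k ≤ rk R' k'`.
* sim_of_not_acc: `S i i' := ¬ Acc R' i'`; a non accessible point has a non accessible predecessor.
* sim_rk_eq: from the other two.
-/

set_option autoImplicit false

namespace MP2900

open Set Pool.Agent.Lib.MP_2900b9_lc

variable {ι ι' : Type} {R : ι → ι → Prop} {R' : ι' → ι' → Prop}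

private theorem sim_lr {S : ι → ι' → Prop}
    (hS : ∀ i i', S i i' → ∀ k, R k i → ∃ k', R' k' i' ∧ S k k') {a' : ι'} (h : Acc R' a') :
    ∀ a, S a a' → Acc R a ∧ LR R (rk R' a') a := by
  induction h with
  | intro a' ha ih =>
    intro a hs
    have hacc : Acc R' a' := Acc.intro a' ha
    refine ⟨Acc.intro a fun k hk => ?_, (LR_iff _ _ _).2 fun k hk => ?_⟩
    · obtain ⟨k', hk', hs'⟩ := hS a a' hs k hk
      exact (ih k' hk' k hs').1
    · obtain ⟨k', hk', hs'⟩ := hS a a' hs k hk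
      exact ⟨rk R' k', rk_lt (exists_LR hacc) hk', (ih k' hk' k hs').2⟩

theorem sim_iff {a : ι} {a' : ι'} (h : Acc R' a') :
    Sim R a R' a' ↔ Acc R a ∧ rk R a ≤ rk R' a' := by
  constructor
  · rintro ⟨S, hs, hS⟩
    have h1 := sim_lr hS h a hs
    exact ⟨h1.1, rk_le h1.2⟩
  · rintro ⟨ha, hle⟩
    refine ⟨fun i i' => Acc R i ∧ Acc R' i' ∧ rk R i ≤ rk R' i', ⟨ha, h, hle⟩, ?_⟩
    rintro i i' ⟨h1, h2, h3⟩ k hk
    have hk1 : rk R k < rk R i := rk_lt (exists_LR h1) hk
    by_contra hcon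
    push Not at hcon
    have hall : ∀ k', R' k' i' → rk R' k' < rk R k := by
      intro k' hk'
      exact hcon k' hk' (h1.inv hk) (h2.inv hk')
    have h4 := rk_le_of (exists_LR h2) hall
    exact absurd (lt_of_lt_of_le hk1 h3) (not_lt.2 h4)

theorem sim_of_not_acc {a : ι} {a' : ι'} (h : ¬ Acc R' a') : Sim R a R' a' := by
  refine ⟨fun _ i' => ¬ Acc R' i', h, ?_⟩
  intro i i' hi k hk
  by_contra hcon
  push Not at hcon
  exact hi (Acc.intro i' fun k' hk' => hcon k' hk')

theorem sim_rk_eq {a : ι} {a' : ι'} (h : Acc R a) :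
    (Sim R a R' a' ∧ Sim R' a' R a) ↔ (Acc R' a' ∧ rk R a = rk R' a') := by
  constructor
  · rintro ⟨h1, h2⟩
    have h3 := (sim_iff h).1 h2
    have h4 := (sim_iff h3.1).1 h1
    exact ⟨h3.1, le_antisymm h4.2 h3.2⟩
  · rintro ⟨h1, h2⟩
    exact ⟨(sim_iff h1).2 ⟨h, h2.le⟩, (sim_iff h).2 ⟨h1, h2.ge⟩⟩

end MP2900
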