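import Pool.Agent.Lib.MP_2900b9_lc.C.Gener

/-!
Module TruFB: truth lemma for `FB`.

Family: for each `k`: `Q1 c := D c (O k)`; `Q2 c := ∃ k, ∀ e, V e → c <+: e → ¬ D e (O k)`; `Q3 c := FB V D O c`. Let `b` be generic.
(←) `FB (seg b n)`: for each `k` every valid extension of `seg b n` has a valid extension in `Q1`, so genericity gives `n'` with `D (seg b n') (O k)`, so `r b ∈ O k`.
(→) Suppose `r b ∈ O k` for all `k` and no `seg b n` has `FB`. Genericity for `Q3`: `n0` without extension with `FB`. Every valid extension `e ⊇ seg b n0` has `¬ FB e`: there are `k`, valid `d ⊇ e` such that no valid extension of `d` is in `Q1 k`, so `Q2 d`. Genericity for `Q2`: `Q2 (seg b n1)` with some `k`. But `cpl` gives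
`n2` with `D (seg b n2) (O k)`, and by mono at `max n1 n2`, contradiction.
-/

set_option autoImplicit false

namespace MP2900

open Set Pool.Agent.Lib.MP_2900b9_lc

theorem truth_FB {A : Type*} {V : List A → Prop}
    {D : List A → Set (ℕ → ℕ) → Prop} {r : (ℕ → A) → ℕ → ℕ} (h : DOK V D r)
    (O : ℕ → Set (ℕ → ℕ)) (hO : ∀ k, IsOpen (O k)) :
    ∃ Q : ℕ → List A → Prop, ∀ b, Gen V Q b →
      ((∀ k, r b ∈ O k) ↔ ∃ n, FB V D O (seg b n)) := by
  let Q : ℕ ⊕ Bool → List A → Prop := fun j c => match j with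
    | Sum.inl k => D c (O k)
    | Sum.inr false => ∃ k, ∀ e, V e → c <+: e → ¬ D e (O k)
    | Sum.inr true => FB V D O c
  obtain ⟨Q', hQ'⟩ := gen_nat (V := V) Q
  refine ⟨Q', fun b hb => ?_⟩
  obtain ⟨hv, hg⟩ := hQ' b hb
  constructor
  · intro hr
    by_contra hn
    rw [not_exists] at hn
    obtain ⟨n0, h0⟩ := hg (Sum.inr true)
    have h0' : ∀ e, V e → seg b n0 <+: e → ¬ FB V D O e := h0.resolve_left (hn n0)
    obtain ⟨n1, h1⟩ := hg (Sum.inr false)
    have h1' : ∃ k, ∀ e, V e → seg b n1 <+: e → ¬ D e (O k) := by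
      rcases h1 with h1 | h1
      · exact h1
      · exfalso
        have h2 := h0' _ (hv (max n0 n1)) (seg_prefix b (le_max_left n0 n1))
        unfold FB at h2
        push Not at h2
        obtain ⟨k, d, hd, hpd, h3⟩ := h2
        exact h1 d hd ((seg_prefix b (le_max_right n0 n1)).trans hpd)
          ⟨k, fun e he hde hD => h3 e he hde hD⟩
    obtain ⟨k, hk⟩ := h1'
    obtain ⟨n2, h2⟩ := h.cpl b (O k) (hO k) (hr k)
    exact hk _ (hv (max n1 n2)) (seg_prefix b (le_max_left n1 n2))
      (h.mono _ _ _ (seg_prefix b (le_max_right n1 n2)) h2)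
  · rintro ⟨n, hn⟩ k
    obtain ⟨n', h1⟩ := hg (Sum.inl k)
    rcases h1 with h1 | h1
    · exact h.snd b n' (O k) h1
    · exfalso
      obtain ⟨e, he, hpe, hD⟩ := hn k _ (hv (max n n')) (seg_prefix b (le_max_left n n'))
      exact h1 e he ((seg_prefix b (le_max_right n n')).trans hpe) hD

end MP2900
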