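import Pool.Agent.Lib.MP_2900b9_lc.C.TruFL

/-!
Module TruFT: truth lemma for `FT` (rank exactly `ξ`).

Family: that of truth_FL for `θ`, and for `ξ ≤ θ`, `m`: `Q c := ∃ ξ' < ξ, FL V D O ξ' m c` (gen_nat: the index set `{ξ // ξ ≤ θ} × ι` is countable; gen_and).
(→) `FT ξ m (seg b n)`: `LR ξ m` by truth_FL. If `LR ξ' m` with `ξ' < ξ` then `FL ξ' m (seg b n')` for some `n'`, so (FL_mono) also at `seg b (max n n')`, a valid extension of `seg b n`: contradiction with FT.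
(←) `LR ξ m` gives `n` with `FL ξ m (seg b n)`. No `seg b n'` satisfies `Q` (truth_FL), so genericity gives `n'` such that no valid extension of `seg b n'` satisfies `Q`. So `FT ξ m (seg b (max n n'))`.
-/

set_option autoImplicit false

namespace MP2900

open Set Pool.Agent.Lib.MP_2900b9_lc

theorem truth_FT {A : Type*} {ι : Type} [Countable ι] {V : List A → Prop}
    {D : List A → Set (ℕ → ℕ) → Prop} {r : (ℕ → A) → ℕ → ℕ} (h : DOK V D r)
    (O : ι → ι → Set (ℕ → ℕ)) (hO : ∀ i j, IsOpen (O i j)) {θ : Ordinal.{0}} (hθ : Ctb θ) :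
    ∃ Q : ℕ → List A → Prop, ∀ b, Gen V Q b → ∀ ξ ≤ θ, ∀ m,
      (ERk (fun i j => r b ∈ O i j) ξ m ↔ ∃ n, FT V D O ξ m (seg b n)) := by
  have hcount : Countable {ξ : Ordinal.{0} // ξ ≤ θ} := by
    have h1 : (Iic θ).Countable := by
      have h2 : Iic θ = insert θ (Iio θ) := by
        ext x
        simp [le_iff_eq_or_lt]
      rw [h2]
      exact hθ.insert θ
    exact h1.to_subtype
  obtain ⟨Q0, hQ0⟩ := truth_FL h O hO hθ
  obtain ⟨Q1, hQ1⟩ := gen_nat (V := V) (J := {ξ : Ordinal.{0} // ξ ≤ θ} × ι)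
    (fun j c => ∃ ξ' < j.1.1, FL V D O ξ' j.2 c)
  obtain ⟨Q, hQ⟩ := gen_and (V := V) Q0 Q1
  refine ⟨Q, fun b hb ξ hξ m => ?_⟩
  have g0 := hQ0 b (hQ b hb).1
  have g1 := hQ1 b (hQ b hb).2
  have hV : ∀ n, V (seg b n) := hb.1
  constructor
  · rintro ⟨h1, h2⟩
    obtain ⟨n, hn⟩ := (g0 ξ hξ m).1 h1
    obtain ⟨n', hn'⟩ := g1.2 (⟨ξ, hξ⟩, m)
    rcases hn' with hn' | hn'
    · obtain ⟨ξ', hξ', h3⟩ := hn'
      exact absurd ((g0 ξ' (hξ'.le.trans hξ) m).2 ⟨n', h3⟩) (h2 ξ' hξ')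
    · refine ⟨max n n', FL_mono (seg_prefix b (le_max_left _ _)) hn, ?_⟩
      intro ξ' hξ' e hVe hde hF
      exact hn' e hVe ((seg_prefix b (le_max_right n n')).trans hde) ⟨ξ', hξ', hF⟩
  · rintro ⟨n, h1, h2⟩
    refine ⟨(g0 ξ hξ m).2 ⟨n, h1⟩, fun ξ' hξ' hL => ?_⟩
    obtain ⟨n', hn'⟩ := (g0 ξ' (hξ'.le.trans hξ) m).1 hL
    exact h2 ξ' hξ' _ (hV (max n n')) (seg_prefix b (le_max_left _ _))
      (FL_mono (seg_prefix b (le_max_right _ _)) hn')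

end MP2900
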