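import Pool.Agent.Lib.MP_2900b9_lc.C.KDefs
import Pool.Agent.Lib.MP_2900b9_lc.C.TruFB
import Pool.Agent.Lib.MP_2900b9_lc.C.TruFT
import Pool.Agent.Lib.MP_2900b9_lc.C.Poset

/-!
Module Sound: what is forced is true for generic branches; conversely truth is forced. `dok hκ0` gives the hypothesis `DOK` of the truth lemmas; `OZ G`, `OX G`, `{w | G w ∈ BoO k}` are open (clopen_relZ, clopen_relX, isOpen_BoO and continuity of `G`). The relation `fun i j => real b ∈ OZ G i j` is `relZ (G (real b))` by definition.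

* tru: combine truth_FB, truth_FT and truth_FL for `OZ G` and `OX G` with the bound `θ` (gen_and). `G (real b) ∈ Bo ↔ ∀ k, real b ∈ {w | G w ∈ BoO k}` (mem_Bo_iff).
* tru_names: from the third item: for a list `q` with entries `≤ θ` and names `nn`: Forall₂ exact ranks iff for some `n` Forall₂ FT at `seg b n` (for (→) take the maximum of finitely many `n`, FT_mono; induction on the list).
-/

set_option autoImplicit false

namespace MP2900

open Set Pool.Agent.Lib.MP_2900b9_lc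

open Topology

variable [TP] {η κ : Bool → Ordinal.{0}}

theorem tru (hκ0 : ∀ β, 0 < κ β) {G : (ℕ → ℕ) → ℕ → ℕ} (hG : Continuous G)
    {θ : Ordinal.{0}} (hθ : Ctb θ) :
    ∃ Q : ℕ → List Ent → Prop, ∀ b, Gen (Val η κ) Q b →
      (G (real b) ∈ Bo ↔ ∃ n, FBo η κ G (seg b n)) ∧
      (∀ γ ≤ θ, ERk (relZ (G (real b))) γ none ↔ ∃ n, FH η κ G γ (seg b n)) ∧
      (∀ γ ≤ θ, LR (relX (G (real b))) γ 0 ↔ ∃ n, FX η κ G γ (seg b n)) ∧
      (∀ γ ≤ θ, ERk (relX (G (real b))) γ 0 ↔ ∃ n, FXe η κ G γ (seg b n)) ∧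
      ∀ (q : List Ordinal.{0}) (nn : List ℕ), (∀ z ∈ q, z ≤ θ) →
        (List.Forall₂ (fun z m => ERk (relZ (G (real b))) z (some m)) q nn ↔
          ∃ n, FN η κ G q nn (seg b n)) := by
  obtain ⟨Q1, h1⟩ := truth_FB (dok (η := η) (κ := κ) hκ0) (fun k => {w | G w ∈ BoO k})
    (fun k => (isOpen_BoO k).preimage hG)
  obtain ⟨Q2, h2⟩ := truth_FT (dok (η := η) (κ := κ) hκ0) (OZ G)
    (fun i j => (clopen_relZ i j).isOpen.preimage hG) hθ
  obtain ⟨Q3, h3⟩ := truth_FL (dok (η := η) (κ := κ) hκ0) (OX G)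
    (fun i j => (clopen_relX i j).isOpen.preimage hG) hθ
  obtain ⟨Q4, h4⟩ := truth_FT (dok (η := η) (κ := κ) hκ0) (OX G)
    (fun i j => (clopen_relX i j).isOpen.preimage hG) hθ
  obtain ⟨Q12, h12⟩ := gen_and (V := Val η κ) Q1 Q2
  obtain ⟨Q34, h34⟩ := gen_and (V := Val η κ) Q3 Q4
  obtain ⟨Q, hQ⟩ := gen_and (V := Val η κ) Q12 Q34
  refine ⟨Q, fun b hb => ?_⟩
  have g1 := h1 b (h12 b (hQ b hb).1).1
  have g2 := h2 b (h12 b (hQ b hb).1).2
  have g3 := h3 b (h34 b (hQ b hb).2).1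
  have g4 := h4 b (h34 b (hQ b hb).2).2
  refine ⟨?_, fun γ hγ => g2 γ hγ none, fun γ hγ => g3 γ hγ 0, fun γ hγ => g4 γ hγ 0, ?_⟩
  · rw [mem_Bo_iff]
    exact g1
  · intro q
    induction q with
    | nil =>
      intro nn _
      constructor
      · intro h
        cases h
        exact ⟨0, List.Forall₂.nil⟩
      · rintro ⟨n, h⟩
        cases h
        exact List.Forall₂.nil
    | cons z q ih =>
      intro nn hz
      have hzz : z ≤ θ := hz z List.mem_cons_self
      have hzq : ∀ x ∈ q, x ≤ θ := fun x hx => hz x (List.mem_cons_of_mem z hx)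
      constructor
      · intro h
        cases h with
        | cons ha hb' =>
          obtain ⟨n, hn⟩ := (g2 z hzz _).1 ha
          obtain ⟨n', hn'⟩ := (ih _ hzq).1 hb'
          exact ⟨max n n', List.Forall₂.cons (FT_mono (seg_prefix b (le_max_left n n')) hn)
            (FN_mono (seg_prefix b (le_max_right n n')) hn')⟩
      · rintro ⟨n, h⟩
        cases h with
        | cons ha hb' =>
          exact List.Forall₂.cons ((g2 z hzz _).2 ⟨n, ha⟩) ((ih _ hzq).2 ⟨n, hb'⟩)

end MP2900
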