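import Pool.Agent.Lib.MP_2900b9_lc.C.TTCong
import Pool.Agent.Lib.MP_2900b9_lc.C.ElemBo
import Pool.Agent.Lib.MP_2900b9_lc.C.GenReal

/-!
Module TTAux: a generic branch gives an infinite attempt, except for the descending sequence.

Let `g i = (b i).g true`. For every `i ≠ 0` with `(b i).h true = some ζ` we have `ζ < σ` (tags decrease from `η true = σ`; induction along `par`, or tag_le style argument: the parent's tag is `≤ σ`), so there is `r` with `g r = ζ`. Put `a i = ⟨x, r, v, y, t1, t2, 0⟩` with `x = 1` if `(b i).h true` is some and 0 otherwise; `r` as above (arbitrary in the other cases); `v = realC false b i`; `y = F (real b) i`; `(t1, t2)` a witness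
`Wit g φ f v (t1, t2)` if `decode i = some (φ, f, v)` (wit_of_onto). Then `wr (atd g a d) = real b` by definition (both are `jn` of the same functions; `realC true b`). tr: by validity `ζ_i < ζ_{par i}`. fn: `w = real b`. wt: by choice.
-/

set_option autoImplicit false

namespace MP2900

open Set Pool.Agent.Lib.MP_2900b9_lc

variable [TP]

/-- the attempt with the descending sequence `d` -/
def atd (g : ℕ → Ordinal.{0}) (a : ℕ → Aux) (d : ℕ → ℕ) : ℕ → At :=
  fun i => (g i, { a i with d := d i })

theorem exists_aux (F : (ℕ → ℕ) → ℕ → ℕ) {η κ' : Bool → Ordinal.{0}} (b : ℕ → Ent)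
    (hb : ∀ n, Val η κ' (seg b n)) {σ : Ordinal.{0}} (hη : η true = σ)
    (hr : range (fun i => (b i).g true) = Iio σ) :
    ∃ a : ℕ → Aux, ∀ d : ℕ → ℕ,
      (∀ i, Cnd F (.tr i) (atd (fun i => (b i).g true) a d)) ∧
      (∀ n, Cnd F (.fn n) (atd (fun i => (b i).g true) a d)) ∧
      (∀ k, Cnd F (.wt k) (atd (fun i => (b i).g true) a d)) ∧
      (∀ i, (a i).y = F (real b) i) := by
  classical
  have hV : ∀ i, VN η κ' b i := fun i => (val_seg b (i + 1)).1 (hb (i + 1)) i (Nat.lt_succ_self i)
  have hle : ∀ i ζ, (b i).h true = some ζ → ζ ≤ σ ∧ (i ≠ 0 → ζ < σ) := by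
    intro i
    induction i using Nat.strong_induction_on with
    | _ i ih =>
      intro ζ hζ
      by_cases h0 : i = 0
      · have h1 := ((hV i true).2.1 h0)
        rw [hζ, hη] at h1
        exact ⟨(Option.some.inj h1).le, fun h => absurd h0 h⟩
      · obtain ⟨ζ', h1, h2⟩ := (hV i true).2.2 h0 ζ hζ
        have h3 := (ih (par i) (par_lt (Nat.one_le_iff_ne_zero.2 h0)) ζ' h1).1
        exact ⟨(h2.trans_le h3).le, fun _ => h2.trans_le h3⟩
  have hrex : ∀ i, ∃ r, ∀ ζ, i ≠ 0 → (b i).h true = some ζ → (b r).g true = ζ := by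
    intro i
    by_cases h : i ≠ 0 ∧ ∃ ζ, (b i).h true = some ζ
    · obtain ⟨h0, ζ, hζ⟩ := h
      have h1 : ζ ∈ Iio σ := (hle i ζ hζ).2 h0
      rw [← hr] at h1
      obtain ⟨r, hr'⟩ := h1
      refine ⟨r, fun ζ' _ h2 => ?_⟩
      rw [hζ] at h2
      rw [← Option.some.inj h2]
      exact hr'
    · exact ⟨0, fun ζ h0 h1 => absurd ⟨h0, ζ, h1⟩ h⟩
  choose r hrr using hrex
  have hwex : ∀ k, ∃ t : ℕ × ℕ, ∀ φ f v,
      (Encodable.decode k : Option (Fm × List ℕ × ℕ)) = some (φ, f, v) →
        Wit (fun i => (b i).g true) φ f v t := by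
    intro k
    rcases hd : (Encodable.decode k : Option (Fm × List ℕ × ℕ)) with _ | ⟨φ, f, v⟩
    · exact ⟨(0, 0), fun φ f v h => by simp at h⟩
    · obtain ⟨t, ht⟩ := wit_of_onto (fun i => (b i).g true) σ hr φ f v
      refine ⟨t, fun φ' f' v' h => ?_⟩
      rw [Option.some.injEq, Prod.mk.injEq, Prod.mk.injEq] at h
      obtain ⟨rfl, rfl, rfl⟩ := h
      exact ht
  choose t ht using hwex
  let a : ℕ → Aux := fun i => ⟨if ((b i).h true).isSome then 1 else 0, r i, realC false b i,
    F (real b) i, (t i).1, (t i).2, 0⟩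
  refine ⟨a, fun d => ?_⟩
  have hx : ∀ i, (atd (fun i => (b i).g true) a d i).2.x ≠ 0 → ∃ ζ, (b i).h true = some ζ := by
    intro i hi
    have h1 : (if ((b i).h true).isSome then 1 else 0 : ℕ) ≠ 0 := hi
    by_cases h2 : ((b i).h true).isSome
    · exact Option.isSome_iff_exists.1 h2
    · rw [if_neg h2] at h1
      exact absurd rfl h1
  have hwr : wr (atd (fun i => (b i).g true) a d) = real b := by
    have h1 : ∀ k, (if k % 2 = 0 then
        (if (atd (fun i => (b i).g true) a d (k / 2)).2.x = 0 then 0 else 1)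
        else match (Encodable.decode (k / 2) : Option (Fm × List ℕ × ℕ)) with
        | none => 0
        | some (φ, f, v) => if Fg (fun i => (atd (fun i => (b i).g true) a d i).1) φ f v
            then 1 else 0) = realC true b k := by
      intro k
      unfold realC
      by_cases hk : k % 2 = 0
      · rw [if_pos hk, if_pos hk]
        show (if (if ((b (k / 2)).h true).isSome then 1 else 0 : ℕ) = 0 then 0 else 1) = _
        by_cases h2 : ((b (k / 2)).h true).isSome
        · rw [if_pos h2, if_neg one_ne_zero]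
        · rw [if_neg h2, if_pos rfl]
      · rw [if_neg hk, if_neg hk]
        rfl
    have h2 : (fun k => if k % 2 = 0 then
        (if (atd (fun i => (b i).g true) a d (k / 2)).2.x = 0 then 0 else 1)
        else match (Encodable.decode (k / 2) : Option (Fm × List ℕ × ℕ)) with
        | none => 0
        | some (φ, f, v) => if Fg (fun i => (atd (fun i => (b i).g true) a d i).1) φ f v
            then 1 else 0) = realC true b := funext h1
    unfold wr real
    exact congrArg₂ jn h2 rfl
  refine ⟨fun i => ?_, fun n => ?_, fun k => ?_, fun i => rfl⟩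
  · intro h0 hxi hp0 hxp
    obtain ⟨ζ, hζ⟩ := hx i hxi
    obtain ⟨ζ', h1, h2⟩ := (hV i true).2.2 h0 ζ hζ
    have h3 : (b (r i)).g true = ζ := hrr i ζ h0 hζ
    have h4 : (b (r (par i))).g true = ζ' := hrr (par i) ζ' hp0 h1
    show (b (r i)).g true < (b (r (par i))).g true
    rw [h3, h4]
    exact h2
  · exact ⟨real b, fun k _ => by rw [hwr], fun k _ => rfl⟩
  · have h1 := ht k
    show (match (Encodable.decode k : Option (Fm × List ℕ × ℕ)) with
      | none => True
      | some (φ, f, v) => Wit (fun i => (b i).g true) φ f v ((t k).1, (t k).2))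
    rcases hd : (Encodable.decode k : Option (Fm × List ℕ × ℕ)) with _ | ⟨φ, f, v⟩
    · trivial
    · exact h1 φ f v hd

end MP2900
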