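import Pool.Agent.Lib.MP_2900b9_lc.C.Poset

/-!
Module TTCong: conditions of attempts depend only on the relevant entries.

* rlv_congr: by cases on the index; note `par i ≤ i` (`par 0 = 0`, par_lt).
* rlv_mono: clear. rlv_ex: tr, wt, ds: take a large number. fn: for every `k` the value `wr b k` depends on finitely many entries, the number of which does not depend on `b` (as in knw_ex: by the definition of `wr` and `jn`: `k` even: component value at `k / 2`, if that is even the entry number `k / 4`.., if it is odd decode it; `k` odd: entry `k / 2`); maximum for `k < n`.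
* cnd_congr: tr: the entries `i`, `par i`, `r`-values are `< N`. fn: by Rlv the values `wr b k`, `k < n`, agree, and `(b k).2.y`, `k < n ≤ N`. wt: `Wit` only mentions `g` at `v`, at members of `f`, and at `t.2` (in the `W` cases: at entries of `c`, `a`, which are members of `f`: Sel.mem); cases on the formula. ds: the number `fc ..` is `< N`.
* cnd_of_ok: for `i` take `N ≥ 1` with `Rlv i N b`; then `Rlv i N (ext (seg b N))` (ext_seg), so OKt (for `seg b N`, length `N`) gives `Cnd F i (ext (seg b N))`, so `Cnd F i b`.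
-/

set_option autoImplicit false

namespace MP2900

open Set Pool.Agent.Lib.MP_2900b9_lc

variable [TP] {F : (ℕ → ℕ) → ℕ → ℕ} {i : CIx} {N N' : ℕ} {b b' : ℕ → At}

omit [TP] in
private theorem ttpar_le (i : ℕ) : par i ≤ i := by
  rcases Nat.eq_zero_or_pos i with h | h
  · subst h
    decide
  · exact (par_lt h).le

private theorem rlv_imp {b b' : ℕ → At} (h : ∀ j < N, b j = b' j) (hr : Rlv i N b) :
    Rlv i N b' := by
  cases i with
  | tr i =>
    obtain ⟨h1, h2, h3⟩ := hr
    have h4 : par i < N := (ttpar_le i).trans_lt h1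
    refine ⟨h1, ?_, ?_⟩
    · rw [← h i h1]
      exact h2
    · rw [← h _ h4]
      exact h3
  | fn n => exact hr
  | wt k =>
    obtain ⟨h1, h2, h3⟩ := hr
    refine ⟨h1, ?_, h3⟩
    rw [← h k h1]
    exact h2
  | ds i =>
    obtain ⟨h1, h2⟩ := hr
    refine ⟨h1, ?_⟩
    rw [← h (i + 1) h1, ← h i ((Nat.lt_succ_self i).trans h1)]
    exact h2

theorem rlv_congr (h : ∀ j < N, b j = b' j) : Rlv i N b ↔ Rlv i N b' :=
  ⟨rlv_imp h, rlv_imp fun j hj => (h j hj).symm⟩

theorem rlv_mono (h : N ≤ N') (hr : Rlv i N b) : Rlv i N' b := by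
  cases i with
  | tr i => exact ⟨hr.1.trans_le h, hr.2.1.trans_le h, hr.2.2.trans_le h⟩
  | fn n =>
    exact ⟨hr.1.trans h, fun k hk b b' hb => hr.2 k hk b b' fun i hi => hb i (hi.trans_le h)⟩
  | wt k =>
    obtain ⟨h1, h2, h3⟩ := hr
    refine ⟨h1.trans_le h, h2.trans_le h, ?_⟩
    split
    · trivial
    · rename_i f v heq
      rw [heq] at h3
      exact ⟨fun i hi => (h3.1 i hi).trans_le h, h3.2.trans_le h⟩
  | ds i => exact ⟨hr.1.trans_le h, hr.2.trans_le h⟩

private theorem wr_loc (k : ℕ) : ∃ N, ∀ b b' : ℕ → At, (∀ i < N, b i = b' i) →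
    wr b k = wr b' k := by
  by_cases h1 : k % 2 = 0
  · by_cases h2 : k / 2 % 2 = 0
    · refine ⟨k / 2 / 2 + 1, fun b b' h => ?_⟩
      unfold wr jn
      rw [if_pos h1, if_pos h1]
      beta_reduce
      rw [if_pos h2, if_pos h2, h (k / 2 / 2) (Nat.lt_succ_self _)]
    · rcases hd : (Encodable.decode (k / 2 / 2) : Option (Fm × List ℕ × ℕ)) with _ | ⟨φ, f, v⟩
      · refine ⟨0, fun b b' _ => ?_⟩
        unfold wr jn
        rw [if_pos h1, if_pos h1]
        beta_reduce
        rw [if_neg h2, if_neg h2, hd]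
      · refine ⟨f.sum + v + 1, fun b b' h => ?_⟩
        unfold wr jn
        rw [if_pos h1, if_pos h1]
        beta_reduce
        rw [if_neg h2, if_neg h2, hd]
        have e1 : f.map (fun i => (b i).1) = f.map (fun i => (b' i).1) := by
          refine List.map_congr_left fun i hi => ?_
          have : i ≤ f.sum := List.single_le_sum (fun _ _ => Nat.zero_le _) i hi
          rw [h i (by omega)]
        have e2 : (b v).1 = (b' v).1 := by rw [h v (by omega)]
        have e3 : Fg (fun i => (b i).1) φ f v ↔ Fg (fun i => (b' i).1) φ f v := by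
          show FO φ (f.map _) ((b v).1) ↔ FO φ (f.map _) ((b' v).1)
          rw [e1, e2]
        by_cases hF : Fg (fun i => (b i).1) φ f v
        · have hF' := e3.1 hF
          simp only [hF, hF', if_true]
        · have hF' := mt e3.2 hF
          simp only [hF, hF', if_false]
  · refine ⟨k / 2 + 1, fun b b' h => ?_⟩
    unfold wr jn
    rw [if_neg h1, if_neg h1]
    beta_reduce
    rw [h (k / 2) (Nat.lt_succ_self _)]

theorem rlv_ex (i : CIx) (b : ℕ → At) : ∃ N, Rlv i N b := by
  cases i with
  | tr i =>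
    refine ⟨i + (b i).2.r + (b (par i)).2.r + 1, ?_, ?_, ?_⟩ <;> omega
  | fn n =>
    choose N hN using wr_loc
    refine ⟨max n ((Finset.range n).sup N), le_max_left _ _, fun k hk b b' hb => ?_⟩
    refine hN k b b' fun i hi => hb i (hi.trans_le ?_)
    exact (Finset.le_sup (Finset.mem_range.2 hk)).trans (le_max_right _ _)
  | wt k =>
    rcases hd : (Encodable.decode k : Option (Fm × List ℕ × ℕ)) with _ | ⟨φ, f, v⟩
    · refine ⟨k + (b k).2.t2 + 1, by omega, by omega, ?_⟩
      rw [hd]
      trivial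
    · refine ⟨k + (b k).2.t2 + f.sum + v + 1, by omega, by omega, ?_⟩
      rw [hd]
      refine ⟨fun i hi => ?_, by omega⟩
      have : i ≤ f.sum := List.single_le_sum (fun _ _ => Nat.zero_le _) i hi
      omega
  | ds i =>
    refine ⟨i + 1 + fc Fm.top [(b (i + 1)).2.d] (b i).2.d + 1, ?_, ?_⟩ <;> omega

private theorem wit_imp {g g' : ℕ → Ordinal.{0}} (φ : Fm) (f : List ℕ) (v : ℕ) (t : ℕ × ℕ)
    (hf : ∀ x ∈ f, g x = g' x) (hv : g v = g' v) (ht : g t.2 = g' t.2)
    (h : Wit g φ f v t) : Wit g' φ f v t := by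
  have hmap : f.map g = f.map g' := List.map_congr_left hf
  cases φ with
  | all ψ =>
    intro h1 h2
    have h3 := h (fun x hx => by rw [hf x hx, hv]; exact h1 x hx) (by rw [hv, hmap]; exact h2)
    rw [hv, hmap, ht] at h3
    exact h3
  | W β u l k =>
    cases β with
    | false =>
      intro c a hc ha h1 h2 h3
      have hcm : c.map g = c.map g' := List.map_congr_left fun x hx => hf x (hc.mem x hx)
      have hga : g a = g' a := hf a (List.mem_of_getElem? ha)
      have h4 := h c a hc ha (fun x hx => by rw [hf x (hc.mem x hx), hga]; exact h1 x hx)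
        (by rw [hga, hv]; exact h2) (by rw [hga, hv, hcm]; exact h3)
      rw [hcm, hga, ht, hv] at h4
      exact h4
    | true =>
      intro c a hc ha h1 h2 h3
      have hcm : c.map g = c.map g' := List.map_congr_left fun x hx => hf x (hc.mem x hx)
      have hga : g a = g' a := hf a (List.mem_of_getElem? ha)
      have h4 := h c a hc ha (fun x hx => by rw [hf x (hc.mem x hx), hga]; exact h1 x hx)
        (by rw [hga, hv]; exact h2) (by rw [hga, hv, hcm]; exact h3)
      rw [hcm, hga, ht, hv] at h4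
      exact h4
  | bot => trivial
  | lt _ _ => trivial
  | S _ _ _ => trivial
  | R _ _ => trivial
  | imp _ _ => trivial

private theorem cnd_imp {b b' : ℕ → At} (h : ∀ j < N, b j = b' j) (hr : Rlv i N b)
    (hc : Cnd F i b) : Cnd F i b' := by
  cases i with
  | tr i =>
    obtain ⟨h1, h2, h3⟩ := hr
    have h4 : par i < N := (ttpar_le i).trans_lt h1
    intro k1 k2 k3 k4
    have h5 := hc k1 (by rw [h i h1]; exact k2) k3 (by rw [h _ h4]; exact k4)
    rw [h _ h2, h _ h3, h i h1, h _ h4] at h5
    exact h5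
  | fn n =>
    obtain ⟨h1, h2⟩ := hr
    obtain ⟨w, hw1, hw2⟩ := hc
    refine ⟨w, fun k hk => ?_, fun k hk => ?_⟩
    · rw [hw1 k hk]
      exact h2 k hk b b' h
    · rw [hw2 k hk, h k (hk.trans_le h1)]
  | wt k =>
    obtain ⟨h1, h2, h3⟩ := hr
    simp only [Cnd] at hc ⊢
    rcases hd : (Encodable.decode k : Option (Fm × List ℕ × ℕ)) with _ | ⟨φ, f, v⟩
    · rw [hd] at hc
      trivial
    · rw [hd] at hc h3
      simp only at hc h3 ⊢
      have h4 := wit_imp (g := fun i => (b i).1) (g' := fun i => (b' i).1) φ f v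
        ((b k).2.t1, (b k).2.t2) (fun x hx => by simp only [h x (h3.1 x hx)])
        (by simp only [h v h3.2]) (by simp only [h _ h2]) hc
      rw [h k h1] at h4
      exact h4
  | ds i =>
    obtain ⟨h1, h2⟩ := hr
    have h3 : i < N := (Nat.lt_succ_self i).trans h1
    simp only [Cnd, ltF, Fz] at hc ⊢
    rw [← h (i + 1) h1, ← h i h3, ← h _ h2]
    exact hc

theorem cnd_congr (h : ∀ j < N, b j = b' j) (hr : Rlv i N b) : Cnd F i b ↔ Cnd F i b' :=
  ⟨cnd_imp h hr, cnd_imp (fun j hj => (h j hj).symm) ((rlv_congr h).1 hr)⟩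

theorem cnd_of_ok (h : ∀ n, OKt F (seg b (n + 1))) (i : CIx) : Cnd F i b := by
  obtain ⟨N, hN⟩ := rlv_ex i b
  have hN1 : Rlv i (N + 1) b := rlv_mono (Nat.le_succ N) hN
  have h1 : ∀ j < N + 1, b j = ext (seg b (N + 1)) j := fun j hj => (ext_seg b hj).symm
  have h2 : Rlv i (seg b (N + 1)).length (ext (seg b (N + 1))) := by
    rw [length_seg]
    exact (rlv_congr h1).1 hN1
  exact (cnd_congr h1 hN1).2 (h N i h2)

end MP2900
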