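import Pool.Agent.Lib.MP_2900b9_lc.C.TTCong
import Pool.Agent.Lib.MP_2900b9_lc.C.RelZ

/-!
Module TTV: the first component of the input real of an infinite attempt is in `VV`.

Let `g i = (b i).1`, `z = ev (wr b)` (ev_jn). `Fz z φ f v ↔ Fg g φ f v` (`Encodable.encodek`), `z (2 j) ≠ 0 ↔ (b j).2.x ≠ 0`. `z ∈ Bo` by bo_of_wit (witness for `(φ, f, v)`: the condition `wt (encode (φ, f, v))`). `ltF (Fz z) a b ↔ g a < g b` (ltF_Fg), so every `some m` is accessible (`InvImage`), so `none` is (acc_none).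
Tree: let `R = relX z`. For a node `i ≠ 0` with `x_i ≠ 0`: `LR R (rk (relZ z) (some r_i)) i`, by induction on the ordinal `g (r_i)`: a predecessor `j` of `i` has `j ≥ 1`, `par j = i`, `x_j ≠ 0`, so the condition `tr j` gives `g (r_j) < g (r_i)`, so `rk (some r_j) < rk (some r_i)` (rk_lt). A predecessor `j` of the root `0` has `j ≥ 1`, `x_j ≠ 0`, so
`LR R (rk (relZ z) (some r_j)) j` and `rk (some r_j) < rk none`. So `LR R (rk (relZ z) none) 0`, i.e. `Acc R 0` and `rk R 0 ≤ rk (relZ z) none`.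
-/

set_option autoImplicit false

namespace MP2900

open Set Pool.Agent.Lib.MP_2900b9_lc

variable [TP]

theorem branch_V {F : (ℕ → ℕ) → ℕ → ℕ} (b : ℕ → At) (htr : ∀ i, Cnd F (.tr i) b)
    (hwt : ∀ k, Cnd F (.wt k) b) : ev (wr b) ∈ Vset := by
  classical
  set z : ℕ → ℕ := ev (wr b) with hz
  have hF : ∀ φ f v, Fz z φ f v ↔ Fg (fun i => (b i).1) φ f v := by
    intro φ f v
    rw [hz]
    unfold Fz fc wr
    rw [ev_jn]
    have h1 : (2 * Encodable.encode (φ, f, v) + 1) % 2 ≠ 0 := by omega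
    have h2 : (2 * Encodable.encode (φ, f, v) + 1) / 2 = Encodable.encode (φ, f, v) := by omega
    simp only [h1, if_false, h2, Encodable.encodek]
    by_cases hF : Fg (fun i => (b i).1) φ f v <;> simp [hF]
  have hx : ∀ j, z (2 * j) ≠ 0 ↔ (b j).2.x ≠ 0 := by
    intro j
    rw [hz]
    unfold wr
    rw [ev_jn]
    have h1 : (2 * j) % 2 = 0 := by omega
    have h2 : (2 * j) / 2 = j := by omega
    simp only [h1, if_true, h2]
    by_cases hx : (b j).2.x = 0 <;> simp [hx]
  have hFz : Fz z = Fg (fun i => (b i).1) := by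
    funext φ f v
    exact propext (hF φ f v)
  have hlt : ∀ a c, ltF (Fz z) a c ↔ (b a).1 < (b c).1 := by
    intro a c
    rw [hFz]
    exact ltF_Fg (fun i => (b i).1) a c
  have hbo : z ∈ Bo := by
    show BoF (Fz z)
    rw [hFz]
    refine bo_of_wit (fun i => (b i).1) fun φ f v => ?_
    have h1 := hwt (Encodable.encode (φ, f, v))
    simp only [Cnd, Encodable.encodek] at h1
    exact ⟨_, h1⟩
  have hacc : ∀ m, Acc (ltF (Fz z)) m := by
    have h1 : ltF (Fz z) = InvImage (· < ·) (fun i => (b i).1) := by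
      funext a c
      exact propext (hlt a c)
    intro m
    rw [h1]
    exact (InvImage.wf (fun i => (b i).1) wellFounded_lt).apply m
  have hnone : Acc (relZ z) none := (acc_none z).2 hacc
  have hsome : ∀ m, Acc (relZ z) (some m) := fun m => (acc_some z m).2 (hacc m)
  have hclaim : ∀ (θ : Ordinal.{0}) (i : ℕ), (b (b i).2.r).1 = θ → i ≠ 0 → (b i).2.x ≠ 0 →
      LR (relX z) (rk (relZ z) (some (b i).2.r)) i := by
    intro θ
    induction θ using WellFoundedLT.induction with
    | _ θ ih =>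
      intro i hi hi0 hxi
      rw [LR_iff]
      rintro j ⟨hj1, hj2, hj3⟩
      have hj0 : j ≠ 0 := by omega
      have hxj := (hx j).1 hj3
      have h1 := htr j hj0 hxj (by rw [hj2]; exact hi0) (by rw [hj2]; exact hxi)
      rw [hj2] at h1
      refine ⟨rk (relZ z) (some (b j).2.r), ?_, ih _ (hi ▸ h1) j rfl hj0 hxj⟩
      exact rk_lt (exists_LR (hsome _)) ((hlt _ _).2 h1)
  have hroot : LR (relX z) (rk (relZ z) none) 0 := by
    rw [LR_iff]
    rintro j ⟨hj1, hj2, hj3⟩
    have hj0 : j ≠ 0 := by omega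
    exact ⟨rk (relZ z) (some (b j).2.r),
      rk_lt (exists_LR hnone) (show relZ z (some (b j).2.r) none from trivial),
      hclaim _ j rfl hj0 ((hx j).1 hj3)⟩
  exact ⟨hbo, hnone, LR_acc hroot, rk_le hroot⟩

end MP2900
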