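import Pool.Agent.Lib.MP_2900b9_lc.C.Gener

/-!
Module TruFL: truth lemma for `FL`.

Family (countable index sets, gen_nat and gen_and): for `ξ ≤ θ` and `m`: `Q1 c := FL V D O ξ m c`; `Q2 c := ∃ m', D c (O m' m) ∧ ∀ ξ' < ξ, ∀ e, V e → c <+: e → ¬ FL V D O ξ' m' e`; `Q3 c := ∃ ξ' < ξ, FL V D O ξ' m c`. Let `b` be generic, `R m' m := r b ∈ O m' m`. Induction on `ξ`:
(←) Let `FL ξ m (seg b n)` and `R m' m`. By `cpl` there is `n' ≥ n` with `D (seg b n') (O m' m)` (mono). By FL_iff every valid extension `d` of `seg b n'` has `D d (O m' m)` (mono), so it has a valid extension `e` with `FL ξ' m' e` for some `ξ' < ξ`. So the second alternative of genericity for `Q3` (`ξ`, `m'`) fails at stages `≥ n'` (a stage `n1 < n'` with no extension also has none at `seg b n'`),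
 so some `seg b n1` satisfies it; induction hypothesis.
(→) Suppose no `seg b n` satisfies `FL ξ m`. Genericity for `Q1`: there is `n0` such that no valid extension of `seg b n0` satisfies it. Every valid extension `e` of `seg b n0` has `¬ FL ξ m e`, so by FL_iff there are `m'` and a valid `d ⊇ e` with `D d (O m' m)` and no valid extension of `d` satisfies `FL ξ' m'` for `ξ' < ξ`; so `Q2 d`. So genericity for `Q2` gives `n1` with `Q2 (seg b n1)`. So `R m' m` (snd), and for `ξ' < ξ` no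
 `seg b n2` satisfies `FL ξ' m'` (FL_mono: otherwise it holds at `seg b (max n1 n2)`), so by the induction hypothesis `¬ LR R ξ' m'`. So `¬ LR R ξ m`.
-/

set_option autoImplicit false

namespace MP2900

open Set Pool.Agent.Lib.MP_2900b9_lc

theorem truth_FL {A : Type*} {ι : Type} [Countable ι] {V : List A → Prop}
    {D : List A → Set (ℕ → ℕ) → Prop} {r : (ℕ → A) → ℕ → ℕ} (h : DOK V D r)
    (O : ι → ι → Set (ℕ → ℕ)) (hO : ∀ i j, IsOpen (O i j)) {θ : Ordinal.{0}} (hθ : Ctb θ) :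
    ∃ Q : ℕ → List A → Prop, ∀ b, Gen V Q b → ∀ ξ ≤ θ, ∀ m,
      (LR (fun i j => r b ∈ O i j) ξ m ↔ ∃ n, FL V D O ξ m (seg b n)) := by
  have hcount : Countable {ξ : Ordinal.{0} // ξ ≤ θ} := by
    have h1 : (Iic θ).Countable := by
      have h2 : Iic θ = insert θ (Iio θ) := by
        ext x
        simp [le_iff_eq_or_lt]
      rw [h2]
      exact hθ.insert θ
    exact h1.to_subtype
  obtain ⟨Q1, hQ1⟩ := gen_nat (V := V) (J := {ξ : Ordinal.{0} // ξ ≤ θ} × ι)
    (fun j c => FL V D O j.1.1 j.2 c)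
  obtain ⟨Q2, hQ2⟩ := gen_nat (V := V) (J := {ξ : Ordinal.{0} // ξ ≤ θ} × ι)
    (fun j c => ∃ m', D c (O m' j.2) ∧ ∀ ξ' < j.1.1, ∀ e, V e → c <+: e → ¬ FL V D O ξ' m' e)
  obtain ⟨Q3, hQ3⟩ := gen_nat (V := V) (J := {ξ : Ordinal.{0} // ξ ≤ θ} × ι)
    (fun j c => ∃ ξ' < j.1.1, FL V D O ξ' j.2 c)
  obtain ⟨Q12, hQ12⟩ := gen_and (V := V) Q1 Q2
  obtain ⟨Q, hQ⟩ := gen_and (V := V) Q12 Q3
  refine ⟨Q, fun b hb => ?_⟩
  have g1 := hQ1 b (hQ12 b (hQ b hb).1).1
  have g2 := hQ2 b (hQ12 b (hQ b hb).1).2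
  have g3 := hQ3 b (hQ b hb).2
  have hV : ∀ n, V (seg b n) := hb.1
  intro ξ
  induction ξ using WellFoundedLT.induction with
  | _ ξ ih =>
    intro hξ m
    constructor
    · intro hL
      by_contra hno
      obtain ⟨n0, h0⟩ := g1.2 (⟨ξ, hξ⟩, m)
      obtain ⟨n1, h1⟩ := g2.2 (⟨ξ, hξ⟩, m)
      rcases h0 with h0 | h0
      · exact hno ⟨n0, h0⟩
      rcases h1 with h1 | h1
      · obtain ⟨m', hD, hm'⟩ := h1
        have hR : r b ∈ O m' m := h.snd b n1 _ hD
        obtain ⟨ξ', hξ', hL'⟩ := (LR_iff _ _ _).1 hL m' hR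
        obtain ⟨n2, h2⟩ := (ih ξ' hξ' (hξ'.le.trans hξ) m').1 hL'
        exact hm' ξ' hξ' _ (hV (max n1 n2)) (seg_prefix b (le_max_left _ _))
          (FL_mono (seg_prefix b (le_max_right _ _)) h2)
      · have h3 := h0 _ (hV (max n0 n1)) (seg_prefix b (le_max_left _ _))
        dsimp only at h3
        rw [FL_iff] at h3
        push Not at h3
        obtain ⟨m', d, hVd, hcd, hDd, hno'⟩ := h3
        refine h1 d hVd ((seg_prefix b (le_max_right n0 n1)).trans hcd) ⟨m', hDd, ?_⟩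
        intro ξ' hξ' e hVe hde
        exact hno' ξ' hξ' e hVe hde
    · rintro ⟨n, hn⟩
      rw [LR_iff]
      intro m' hR
      obtain ⟨n1, h1⟩ := h.cpl b _ (hO m' m) hR
      obtain ⟨n2, h2⟩ := g3.2 (⟨ξ, hξ⟩, m')
      rcases h2 with h2 | h2
      · obtain ⟨ξ', hξ', h3⟩ := h2
        exact ⟨ξ', hξ', (ih ξ' hξ' (hξ'.le.trans hξ) m').2 ⟨n2, h3⟩⟩
      · exfalso
        have hd1 : seg b n <+: seg b (max n (max n1 n2)) := seg_prefix b (le_max_left _ _)
        have hd2 : seg b n1 <+: seg b (max n (max n1 n2)) :=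
          seg_prefix b ((le_max_left _ _).trans (le_max_right _ _))
        have hd3 : seg b n2 <+: seg b (max n (max n1 n2)) :=
          seg_prefix b ((le_max_right _ _).trans (le_max_right _ _))
        obtain ⟨ξ', hξ', e, hVe, hde, hF⟩ := (FL_iff _ _ _ _ _ _).1 hn m' _ (hV _) hd1
          (h.mono _ _ _ hd2 h1)
        exact h2 e hVe (hd3.trans hde) ⟨ξ', hξ', hF⟩

end MP2900
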