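import Pool.Agent.Lib.MP_2900b9_lc.C.RelBdd
import Pool.Agent.Lib.MP_2900b9_lc.C.RelZ

/-!
Module VU: the sets `VV` and `UU` are coanalytic and not Borel; boundedness for `UU`.

* analytic_compl_V: `z ∉ Vset` iff `z ∉ Bo` (measurable by Bo_eq) or `¬ Acc (relZ z) none` (analytic_not_acc) or `∃ j, relX z j 0 ∧ Sim (relZ z) none (relX z) j` (analytic_sim, countable union). Indeed if `relZ z` is accessible at `none`:
  for an accessible child `j` of 0, Sim iff `rk none ≤ rk j` (`sim_iff` with the roles: `Sim (relZ z) none (relX z) j`, `Acc (relX z) j` given), so `rk none < rk 0`; for a non accessible child `j` Sim holds and `0` is not accessible. Conversely if `0` is not accessible some child is not; if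
  `rk (relX z) 0 > rk (relZ z) none` then some child has rank `≥ rk none` (rk_le_of).
* analytic_compl_U: `Usetᶜ = ev ⁻¹' Vsetᶜ ∩ od ⁻¹' Vsetᶜ` (`AnalyticSet.preimage`, continuity of ev, od; countable intersection).
* V_not_borel: if `Vset` were Borel it would be analytic; rel_bounded with `R = relZ`, `a = none` bounds the heights; but for every countable `κ > 0` there is `z ∈ Vset` of height `κ` (a surjection `g : ℕ → Iio κ`, exists_real with the tree `x = ∅`: root of rank 0, relZ_onto). Take `κ = θ + 1`.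
* U_not_borel: `Vset` is the preimage of `Uset` under the continuous map `z ↦ jn z z0`, where `z0 ∉ Vset` is fixed (e.g. the zero sequence is not in `Bo`: a real with all facts false violates the clause `imp` for `Fm.top`, `f = []`; and if you prefer take `z0` with a non accessible tree).
* exists_code: a surjection `g : ℕ → Iio κ` (`κ` countable and positive), exists_real with `F = Fg g`, relZ_onto.
-/

set_option autoImplicit false

namespace MP2900

open Set Pool.Agent.Lib.MP_2900b9_lc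

open Topology MeasureTheory

variable [TP]

theorem exists_code (κ : Ordinal.{0}) (hκ : 0 < κ) (hc : Ctb κ) (x : ℕ → Prop) :
    ∃ z : ℕ → ℕ, z ∈ Bo ∧ Acc (relZ z) none ∧ rk (relZ z) none = κ ∧ ∀ j, z (2 * j) ≠ 0 ↔ x j := by
  obtain ⟨g, hg⟩ := Set.Countable.exists_eq_range hc ⟨0, hκ⟩
  obtain ⟨z, h1, h2, -⟩ := exists_real (Fg g) x
  obtain ⟨h3, h4, h5, -⟩ := relZ_onto z g κ hg.symm h1
  exact ⟨z, h3, h4, h5, h2⟩

private theorem vu_union {s t : Set (ℕ → ℕ)} (hs : AnalyticSet s) (ht : AnalyticSet t) :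
    AnalyticSet (s ∪ t) := by
  rw [union_eq_iUnion]
  exact AnalyticSet.iUnion fun b => by cases b <;> assumption

private theorem vu_inter {s t : Set (ℕ → ℕ)} (hs : AnalyticSet s) (ht : AnalyticSet t) :
    AnalyticSet (s ∩ t) := by
  rw [inter_eq_iInter]
  exact AnalyticSet.iInter fun b => by cases b <;> assumption

private theorem vu_Bo : MeasurableSet (Bo : Set (ℕ → ℕ)) := by
  rw [Bo_eq]
  exact MeasurableSet.iInter fun k => (isOpen_BoO k).measurableSet

private theorem vu_iff {z : ℕ → ℕ} (h : Acc (relZ z) none) :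
    (¬ (Acc (relX z) 0 ∧ rk (relX z) 0 ≤ rk (relZ z) none)) ↔
      ∃ j, relX z j 0 ∧ Sim (relZ z) none (relX z) j := by
  constructor
  · intro h1
    by_cases h2 : Acc (relX z) 0
    · by_contra h3
      push Not at h3
      refine h1 ⟨h2, rk_le_of (exists_LR h2) fun j hj => ?_⟩
      have h4 : Acc (relX z) j := h2.inv hj
      by_contra h5
      exact h3 j hj ((sim_iff h4).2 ⟨h, not_lt.1 h5⟩)
    · have h3 : ∃ j, relX z j 0 ∧ ¬ Acc (relX z) j := by
        by_contra h4
        push Not at h4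
        exact h2 (Acc.intro 0 h4)
      obtain ⟨j, hj, hj'⟩ := h3
      exact ⟨j, hj, sim_of_not_acc hj'⟩
  · rintro ⟨j, hj, hs⟩ ⟨h1, h2⟩
    have h3 : Acc (relX z) j := h1.inv hj
    have h4 := ((sim_iff h3).1 hs).2
    have h5 := rk_lt (exists_LR h1) hj
    exact absurd (h4.trans_lt (h5.trans_le h2)) (lt_irrefl _)

theorem analytic_compl_V : AnalyticSet (Vset : Set (ℕ → ℕ))ᶜ := by
  have h1 : (Vset : Set (ℕ → ℕ))ᶜ = Boᶜ ∪ ({z | ¬ Acc (relZ z) none} ∪
      ⋃ j : ℕ, ({z | relX z j 0} ∩ {z | Sim (relZ z) none (relX z) j})) := by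
    ext z
    constructor
    · intro h
      by_cases h2 : z ∈ Bo
      · right
        by_cases h3 : Acc (relZ z) none
        · right
          have h4 : ¬ (Acc (relX z) 0 ∧ rk (relX z) 0 ≤ rk (relZ z) none) := fun h5 =>
            h ⟨h2, h3, h5.1, h5.2⟩
          obtain ⟨j, h6, h7⟩ := (vu_iff h3).1 h4
          exact mem_iUnion.2 ⟨j, h6, h7⟩
        · exact Or.inl h3
      · exact Or.inl h2
    · rintro (h | h | h) hV
      · exact h hV.1
      · exact h hV.2.1
      · obtain ⟨j, h6, h7⟩ := mem_iUnion.1 h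
        exact (vu_iff hV.2.1).2 ⟨j, h6, h7⟩ hV.2.2
  rw [h1]
  refine vu_union vu_Bo.compl.analyticSet (vu_union ?_ (AnalyticSet.iUnion fun j => ?_))
  · exact analytic_not_acc relZ (fun i j => (clopen_relZ i j).isOpen.measurableSet) none
  · exact vu_inter (clopen_relX j 0).isOpen.measurableSet.analyticSet
      (analytic_sim relZ relX (fun i j => (clopen_relZ i j).isOpen.measurableSet)
        (fun i j => (clopen_relX i j).isOpen.measurableSet) none j)

theorem analytic_compl_U : AnalyticSet (Uset : Set (ℕ → ℕ))ᶜ := by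
  have h1 : (Uset : Set (ℕ → ℕ))ᶜ = (ev ⁻¹' Vsetᶜ) ∩ (od ⁻¹' Vsetᶜ) := by
    ext w
    simp only [Uset, mem_compl_iff, mem_ofPred_eq, not_or, mem_inter_iff, mem_preimage]
  rw [h1]
  exact vu_inter (analytic_compl_V.preimage continuous_ev) (analytic_compl_V.preimage continuous_od)

private theorem vu_ctb_succ {θ : Ordinal.{0}} (h : Ctb θ) : Ctb (θ + 1) := by
  unfold Ctb at h ⊢
  have h1 : Iio (θ + 1) = insert θ (Iio θ) := by
    ext ξ
    rw [mem_Iio, Order.lt_add_one_iff, mem_insert_iff, mem_Iio]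
    exact le_iff_eq_or_lt
  rw [h1]
  exact h.insert θ

theorem V_not_borel : ¬ @MeasurableSet (ℕ → ℕ) (borel (ℕ → ℕ)) Vset := by
  intro h
  rw [← BorelSpace.measurable_eq (α := ℕ → ℕ)] at h
  obtain ⟨θ, h1, h2⟩ := rel_bounded relZ (fun i j => (clopen_relZ i j).isOpen.measurableSet) none
    h.analyticSet fun z hz => hz.2.1
  obtain ⟨z, h3, h4, h5, h6⟩ := exists_code (θ + 1) (Order.lt_add_one_iff.2 zero_le)
    (vu_ctb_succ h1) fun _ => False
  have h7 : ∀ j, ¬ relX z j 0 := fun j hj => (h6 j).1 hj.2.2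
  have h8 : Acc (relX z) 0 := Acc.intro 0 fun j hj => absurd hj (h7 j)
  have h9 : rk (relX z) 0 ≤ 0 := rk_le_of (exists_LR h8) fun j hj => absurd hj (h7 j)
  have h10 := h2 z ⟨h3, h4, h8, h9.trans zero_le⟩
  rw [h5] at h10
  exact absurd h10 (not_le.2 (Order.lt_add_one_iff.2 le_rfl))

private theorem vu_zero : (fun _ => 0 : ℕ → ℕ) ∉ (Vset : Set (ℕ → ℕ)) := by
  intro h
  have h1 := (h.1 : BoF _).imp Fm.bot Fm.bot [] 0
  have h2 : Fz (fun _ => 0) (Fm.imp Fm.bot Fm.bot) [] 0 :=
    h1.2 ⟨fun m hm => absurd hm List.not_mem_nil, id⟩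
  exact h2 rfl

theorem U_not_borel : ¬ @MeasurableSet (ℕ → ℕ) (borel (ℕ → ℕ)) Uset := by
  intro h
  rw [← BorelSpace.measurable_eq (α := ℕ → ℕ)] at h
  have h1 : Continuous fun z : ℕ → ℕ => jn z fun _ => 0 :=
    continuous_jn.comp (continuous_id.prodMk (continuous_const (y := (fun _ => 0 : ℕ → ℕ))))
  have h2 : (Vset : Set (ℕ → ℕ)) = (fun z : ℕ → ℕ => jn z fun _ => 0) ⁻¹' Uset := by
    ext z
    simp only [mem_preimage, Uset, mem_ofPred_eq, ev_jn, od_jn]
    constructor
    · exact Or.inl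
    · rintro (h3 | h3)
      · exact h3
      · exact absurd h3 vu_zero
  refine V_not_borel ?_
  rw [← BorelSpace.measurable_eq (α := ℕ → ℕ), h2]
  exact h1.measurable h

end MP2900
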