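import Pool.Agent.Lib.MP_2900b9_lc.C.Simu
import Pool.Agent.Lib.MP_2900b9_lc.C.AnaRep
import Pool.Agent.Lib.MP_2900b9_lc.C.ASim

/-!
Module WFna: an analytic set of well-founded trees has bounded rank (boundedness theorem).

Suppose the ranks `rk (relX t) 0`, `t ∈ N`, are not bounded by a countable ordinal. Let `e : List ℕ × List ℕ → ℕ` be the encoding. A real `d` codes the tree `T_d u v := d (encode (u, v)) ≠ 0`. Define for `d : ℕ → ℕ` the real `τ d` by `τ d (2 j) ≠ 0` iff for all
`n ≤ (nd j).length`, `T_d (seg d n) ((nd j).take n)` (values 0, 1; odd values 0). Let `D = {d | Acc (relX (τ d)) 0}`.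
(1) `D` is analytic: `d ∈ D ↔ ∃ t ∈ N, Sim (relX (τ d)) 0 (relX t) 0`: (←) by sim_iff, as `Acc (relX t) 0`. (→) the rank of `0` is a countable ordinal (ctb_rk), so by unboundedness some `t ∈ N` has rank at least that. The set of pairs `(d, t)` with `t ∈ N` and `Sim ..`
is analytic in the product (analytic_sim on `Ω = (ℕ → ℕ) × (ℕ → ℕ)`; measurability of `{(d,t) | relX (τ d) j i}`: it depends on finitely many values of `d`... `τ d (2j) ≠ 0` is a finite intersection of sets `{d | d (encode (seg d n, v)) ≠ 0}`, which are measurable/clopen: `d ↦ seg d n` is continuous into a discrete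
space), and `D` is its projection.
(2) `D` is not analytic: otherwise exists_tree gives `T`; let `d` be the real with `d (encode (u, v)) ≠ 0 ↔ T u v`. Then `d ∈ D` iff there is `y` with `T (seg d n) (seg y n)` for all `n` iff there is `y` with `T_d (seg d n) (seg y n)` for all `n`, i.e. the tree `τ d` has an infinite branch (nodes
`num (seg y n)`), i.e. `0` is not accessible for `relX (τ d)`, i.e. `d ∉ D`. Contradiction. (Infinite branch ↔ not accessible: if `0` is not accessible, choose successively children which are not accessible; `nd` of them are the initial segments of a real `y`.)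
-/

set_option autoImplicit false

namespace MP2900

open Set Pool.Agent.Lib.MP_2900b9_lc

open Topology MeasureTheory

/-- the node `j` is in the tree coded by `d`, on the diagonal -/
private def Cw (d : ℕ → ℕ) (j : ℕ) : Prop :=
  ∀ n ≤ (nd j).length, d (Encodable.encode (seg d n, (nd j).take n)) ≠ 0

open Classical in
/-- the real coding the diagonal tree of `d` -/
private noncomputable def tau (d : ℕ → ℕ) (k : ℕ) : ℕ :=
  if k % 2 = 0 ∧ Cw d (k / 2) then 1 else 0

private theorem tau_ne (d : ℕ → ℕ) (j : ℕ) : tau d (2 * j) ≠ 0 ↔ Cw d j := by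
  unfold tau
  have h1 : 2 * j % 2 = 0 := by omega
  have h2 : 2 * j / 2 = j := by omega
  rw [h1, h2]
  by_cases h : Cw d j
  · rw [if_pos ⟨rfl, h⟩]
    exact ⟨fun _ => h, fun _ => one_ne_zero⟩
  · rw [if_neg fun h' => h h'.2]
    exact ⟨fun h' => absurd rfl h', fun h' => absurd h' h⟩

private theorem relX_tau (d : ℕ → ℕ) (j i : ℕ) :
    relX (tau d) j i ↔ 1 ≤ j ∧ par j = i ∧ Cw d j := by
  unfold relX
  rw [tau_ne]

private theorem meas_seg (n : ℕ) (u : List ℕ) : MeasurableSet {d : ℕ → ℕ | seg d n = u} := by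
  by_cases h : ∃ d₀ : ℕ → ℕ, seg d₀ n = u
  · obtain ⟨d₀, rfl⟩ := h
    have e : {d : ℕ → ℕ | seg d n = seg d₀ n} = ⋂ i, ⋂ _ : i < n, {d : ℕ → ℕ | d i = d₀ i} := by
      ext d
      simp only [mem_ofPred_eq, mem_iInter, seg_congr]
    rw [e]
    refine MeasurableSet.iInter fun i => MeasurableSet.iInter fun _ => ?_
    exact measurableSet_eq_fun (measurable_pi_apply i) measurable_const
  · have e : {d : ℕ → ℕ | seg d n = u} = ∅ := by
      ext d
      simp only [mem_ofPred_eq, mem_empty_iff_false, iff_false]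
      exact fun h' => h ⟨d, h'⟩
    rw [e]
    exact MeasurableSet.empty

private theorem meas_ne (m : ℕ) : MeasurableSet {d : ℕ → ℕ | d m ≠ 0} :=
  (measurableSet_eq_fun (measurable_pi_apply m) measurable_const).compl

private theorem meas_Cw (j : ℕ) : MeasurableSet {d : ℕ → ℕ | Cw d j} := by
  have e : {d : ℕ → ℕ | Cw d j} = ⋂ n, ⋂ _ : n ≤ (nd j).length, ⋃ u : List ℕ,
      ({d : ℕ → ℕ | seg d n = u} ∩
        {d : ℕ → ℕ | d (Encodable.encode (u, (nd j).take n)) ≠ 0}) := by
    ext d
    simp only [mem_ofPred_eq, mem_iInter, mem_iUnion, mem_inter_iff]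
    unfold Cw
    constructor
    · intro h n hn
      exact ⟨seg d n, rfl, h n hn⟩
    · intro h n hn
      obtain ⟨u, hu, h1⟩ := h n hn
      rw [hu]
      exact h1
  rw [e]
  refine MeasurableSet.iInter fun n => MeasurableSet.iInter fun _ => MeasurableSet.iUnion fun u =>
    (meas_seg n u).inter ?_
  exact meas_ne _

/-- the tree has a branch iff its root is not accessible -/
private theorem branch_iff (d : ℕ → ℕ) : (∃ y : ℕ → ℕ, ∀ n,
    d (Encodable.encode (seg d n, seg y n)) ≠ 0) ↔ ¬ Acc (relX (tau d)) 0 := by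
  rw [not_acc_iff_exists_descending_chain]
  constructor
  · rintro ⟨y, hy⟩
    refine ⟨fun n => num (seg y n), ?_, ?_⟩
    · change num (seg y 0) = 0
      rw [seg_zero]
      rfl
    · intro n
      change relX (tau d) (num (seg y (n + 1))) (num (seg y n))
      rw [relX_tau, seg_succ, num_append]
      refine ⟨one_le_chd _ _, par_chd _ _, ?_⟩
      rw [← num_append, ← seg_succ]
      intro m hm
      rw [nd_num, length_seg] at hm
      rw [nd_num, seg_take y hm]
      exact hy m
  · rintro ⟨f, hf0, hf⟩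
    have hf' : ∀ n, ∃ k, nd (f (n + 1)) = nd (f n) ++ [k] := by
      intro n
      have h := (relX_tau d _ _).1 (hf n)
      obtain ⟨k, hk⟩ := nd_par h.1
      rw [h.2.1] at hk
      exact ⟨k, hk⟩
    choose y hy using hf'
    have hseg : ∀ n, nd (f n) = seg y n := by
      intro n
      induction n with
      | zero => rw [hf0, nd_zero, seg_zero]
      | succ n ih => rw [hy n, ih, seg_succ]
    refine ⟨y, fun n => ?_⟩
    have h := ((relX_tau d _ _).1 (hf n)).2.2 n (by
      rw [hseg, length_seg]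
      exact Nat.le_succ n)
    rw [hseg, seg_take y (Nat.le_succ n)] at h
    exact h

private theorem not_analytic : ¬ AnalyticSet {d : ℕ → ℕ | Acc (relX (tau d)) 0} := by
  classical
  intro hD
  obtain ⟨T, -, hT⟩ := exists_tree hD
  let d : ℕ → ℕ := fun m => if ∃ u v, Encodable.encode ((u, v) : List ℕ × List ℕ) = m ∧ T u v
    then 1 else 0
  have hd : ∀ u v, d (Encodable.encode (u, v)) ≠ 0 ↔ T u v := by
    intro u v
    constructor
    · intro h
      by_contra hn
      apply h
      change (if ∃ u' v', Encodable.encode ((u', v') : List ℕ × List ℕ) =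
        Encodable.encode (u, v) ∧ T u' v' then 1 else 0) = 0
      rw [if_neg]
      rintro ⟨u', v', h1, h2⟩
      have h3 := Encodable.encode_injective h1
      rw [Prod.mk.injEq] at h3
      rw [h3.1, h3.2] at h2
      exact hn h2
    · intro h
      change (if ∃ u' v', Encodable.encode ((u', v') : List ℕ × List ℕ) =
        Encodable.encode (u, v) ∧ T u' v' then 1 else 0) ≠ 0
      rw [if_pos ⟨u, v, rfl, h⟩]
      exact one_ne_zero
  have h1 : d ∈ {d : ℕ → ℕ | Acc (relX (tau d)) 0} ↔ ¬ Acc (relX (tau d)) 0 := by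
    rw [hT d, ← branch_iff d]
    simp only [hd]
  have h2 : Acc (relX (tau d)) 0 ↔ ¬ Acc (relX (tau d)) 0 := h1
  exact iff_not_self h2

theorem wf_bounded {N : Set (ℕ → ℕ)} (hN : AnalyticSet N) (h : ∀ t ∈ N, Acc (relX t) 0) :
    ∃ θ, Ctb θ ∧ ∀ t ∈ N, rk (relX t) 0 ≤ θ := by
  by_contra hcon
  push Not at hcon
  apply not_analytic
  have hA : AnalyticSet ({w : (ℕ → ℕ) × (ℕ → ℕ) | Sim (relX (tau w.1)) 0 (relX w.2) 0} ∩
      Prod.snd ⁻¹' N) := by
    rw [inter_eq_iInter]
    refine AnalyticSet.iInter fun b => ?_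
    cases b
    · exact hN.preimage continuous_snd
    refine analytic_sim (fun w : (ℕ → ℕ) × (ℕ → ℕ) => relX (tau w.1)) (fun w => relX w.2)
      ?_ ?_ 0 0
    · intro i j
      have e : {w : (ℕ → ℕ) × (ℕ → ℕ) | relX (tau w.1) i j} =
          {w | 1 ≤ i ∧ par i = j} ∩ Prod.fst ⁻¹' {d | Cw d i} := by
        ext w
        simp only [mem_ofPred_eq, mem_inter_iff, mem_preimage, relX_tau, and_assoc]
      rw [e]
      exact (MeasurableSet.const _).inter (measurable_fst (meas_Cw i))
    · intro i j
      have e : {w : (ℕ → ℕ) × (ℕ → ℕ) | relX w.2 i j} =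
          {w | 1 ≤ i ∧ par i = j} ∩ Prod.snd ⁻¹' {t | t (2 * i) ≠ 0} := by
        ext w
        simp only [mem_ofPred_eq, mem_inter_iff, mem_preimage, relX, and_assoc]
      rw [e]
      exact (MeasurableSet.const _).inter (measurable_snd (meas_ne (2 * i)))
  have hD : {d : ℕ → ℕ | Acc (relX (tau d)) 0} =
      Prod.fst '' ({w : (ℕ → ℕ) × (ℕ → ℕ) | Sim (relX (tau w.1)) 0 (relX w.2) 0} ∩
        Prod.snd ⁻¹' N) := by
    ext d
    constructor
    · intro hd
      obtain ⟨t, ht, hlt⟩ := hcon (rk (relX (tau d)) 0) (ctb_rk _ _)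
      exact ⟨(d, t), ⟨(sim_iff (h t ht)).2 ⟨hd, hlt.le⟩, ht⟩, rfl⟩
    · rintro ⟨⟨d', t⟩, ⟨h1, h2⟩, rfl⟩
      exact ((sim_iff (h t h2)).1 h1).1
  rw [hD]
  exact hA.image_of_continuous continuous_fst

end MP2900
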